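import Mathlib

/-!
# k-linear functors with values in an abelian category

For a `k`-linear category `Q` and a `k`-linear abelian category `C` the category
`LinFun k Q C` of `k`-linear functors `Q ⥤ C` is abelian and `k`-linear; kernels and cokernels are
computed objectwise. (`Q` with one object and endomorphism algebra `E`: the `E`-module objects
of `C`.)
-/

open CategoryTheory Limits

attribute [-instance] CategoryTheory.catToReflQuiver

namespace Orl.LF

universe v u v' u'

variable (k : Type*) [Field k]
variable (Q : Type u) [Category.{v} Q] [Preadditive Q] [Linear k Q]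
variable (C : Type u') [Category.{v'} C]

section prop

variable [Preadditive C] [Linear k C]

/-- the functors `Q ⥤ C` which are additive and `k`-linear -/
def isLin : ObjectProperty (Q ⥤ C) := fun F => F.Additive ∧ F.Linear k

/-- The category of `k`-linear functors `Q ⥤ C`. -/
abbrev LinFun := (isLin k Q C).FullSubcategory

variable {k Q C}

lemma isLin_iff {F : Q ⥤ C} :
    isLin k Q C F ↔ (∀ {x y : Q} (f g : x ⟶ y), F.map (f + g) = F.map f + F.map g) ∧
      (∀ {x y : Q} (f : x ⟶ y) (r : k), F.map (r • f) = r • F.map f) := by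
  constructor
  · rintro ⟨h1, h2⟩
    exact ⟨fun f g => F.map_add, fun f r => F.map_smul r f⟩
  · rintro ⟨h1, h2⟩
    exact ⟨⟨fun {x y f g} => h1 f g⟩, ⟨fun f r => h2 f r⟩⟩

instance (F : LinFun k Q C) : F.obj.Additive := F.property.1

instance (F : LinFun k Q C) : F.obj.Linear k := F.property.2

instance : (isLin k Q C).IsClosedUnderIsomorphisms where
  of_iso := by
    intro F G e ⟨h1, h2⟩
    refine ⟨Functor.additive_of_iso e, Functor.linear_of_iso k e⟩

/-- a jointly faithful criterion for linearity -/
lemma isLin_of_jointly {J : Type*} {F : Q ⥤ C} (G : J → (Q ⥤ C)) (hG : ∀ j, isLin k Q C (G j))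
    (α : ∀ j, F ⟶ G j)
    (h : ∀ (x : Q) (Z : C) (a b : Z ⟶ F.obj x), (∀ j, a ≫ (α j).app x = b ≫ (α j).app x) → a = b) :
    isLin k Q C F := by
  rw [isLin_iff]
  refine ⟨fun {x y} f g => h _ _ _ _ fun j => ?_, fun {x y} f r => h _ _ _ _ fun j => ?_⟩
  · have h1 := (hG j).1
    rw [(α j).naturality, (G j).map_add, Preadditive.comp_add, Preadditive.add_comp,
      (α j).naturality, (α j).naturality]
  · have h1 := (hG j).2
    rw [(α j).naturality, (G j).map_smul, Linear.comp_smul, Linear.smul_comp, (α j).naturality]

lemma isLin_of_jointly_epi {J : Type*} {F : Q ⥤ C} (G : J → (Q ⥤ C))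
    (hG : ∀ j, isLin k Q C (G j)) (α : ∀ j, G j ⟶ F)
    (h : ∀ (x : Q) (Z : C) (a b : F.obj x ⟶ Z), (∀ j, (α j).app x ≫ a = (α j).app x ≫ b) → a = b) :
    isLin k Q C F := by
  rw [isLin_iff]
  refine ⟨fun {x y} f g => h _ _ _ _ fun j => ?_, fun {x y} f r => h _ _ _ _ fun j => ?_⟩
  · have h1 := (hG j).1
    rw [← (α j).naturality, (G j).map_add, Preadditive.add_comp, Preadditive.comp_add,
      (α j).naturality, (α j).naturality]
  · have h1 := (hG j).2
    rw [← (α j).naturality, (G j).map_smul, Linear.smul_comp, Linear.comp_smul,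
      (α j).naturality]

instance (J : Type*) [Category* J] [HasLimitsOfShape J C] :
    (isLin k Q C).IsClosedUnderLimitsOfShape J where
  limitsOfShape_le := by
    rintro F ⟨p⟩
    refine isLin_of_jointly (fun j => p.diag.obj j) (fun j => p.prop_diag_obj j)
      (fun j => p.π.app j) ?_
    intro x Z a b hab
    exact (isLimitOfPreserves ((evaluation Q C).obj x) p.isLimit).hom_ext hab

instance (J : Type*) [Category* J] [HasColimitsOfShape J C] :
    (isLin k Q C).IsClosedUnderColimitsOfShape J where
  colimitsOfShape_le := by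
    rintro F ⟨p⟩
    refine isLin_of_jointly_epi (fun j => p.diag.obj j) (fun j => p.prop_diag_obj j)
      (fun j => p.ι.app j) ?_
    intro x Z a b hab
    exact (isColimitOfPreserves ((evaluation Q C).obj x) p.isColimit).hom_ext hab

end prop

section abelian

variable {k Q C}
variable [Abelian C] [Linear k C]

instance : (isLin k Q C).IsClosedUnderSubobjects where
  prop_of_mono := by
    intro F G f hf hG
    have hm : ∀ x, Mono (f.app x) := (NatTrans.mono_iff_mono_app f).1 hf
    refine isLin_of_jointly (J := Unit) (fun _ => G) (fun _ => hG) (fun _ => f) ?_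
    intro x Z a b hab
    have := hm x
    exact (cancel_mono _).1 (hab ())

instance : (isLin k Q C).IsClosedUnderQuotients where
  prop_of_epi := by
    intro F G f hf hG
    have hm : ∀ x, Epi (f.app x) := (NatTrans.epi_iff_epi_app f).1 hf
    refine isLin_of_jointly_epi (J := Unit) (fun _ => F) (fun _ => hG) (fun _ => f) ?_
    intro x Z a b hab
    have := hm x
    exact (cancel_epi _).1 (hab ())

instance : (isLin k Q C).IsClosedUnderFiniteProducts where
  isClosedUnderLimitsOfShape J _ := by
    have : HasLimitsOfShape (Discrete J) C := inferInstance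
    infer_instance

instance : (isLin k Q C).ContainsZero where
  exists_zero := by
    refine ⟨⊥_ _, initialIsInitial.isZero, ?_⟩
    rw [isLin_iff]
    have h : ∀ x, IsZero ((⊥_ (Q ⥤ C)).obj x) := fun x =>
      ((evaluation Q C).obj x).map_isZero initialIsInitial.isZero
    exact ⟨fun {x y} f g => (h _).eq_of_src _ _, fun {x y} f r => (h _).eq_of_src _ _⟩

instance (J : Type*) [Category* J] [HasLimitsOfShape J C] :
    PreservesLimitsOfShape J (isLin k Q C).ι :=
  preservesLimitOfShape_of_createsLimitsOfShape_and_hasLimitsOfShape _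

instance (J : Type*) [Category* J] [HasColimitsOfShape J C] :
    PreservesColimitsOfShape J (isLin k Q C).ι :=
  preservesColimitOfShape_of_createsColimitsOfShape_and_hasColimitsOfShape _

instance : PreservesFiniteLimits (isLin k Q C).ι where
  preservesFiniteLimits _ := inferInstance

instance : PreservesFiniteColimits (isLin k Q C).ι where
  preservesFiniteColimits _ := inferInstance

/-- the evaluation functor at the object `x` of `Q` -/
abbrev ev (x : Q) : LinFun k Q C ⥤ C := (isLin k Q C).ι ⋙ (evaluation Q C).obj x

instance (x : Q) : (ev (k := k) (C := C) x).Linear k where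
  map_smul _ _ := rfl

lemma ev_map_eq {M N : LinFun k Q C} (f : M ⟶ N) (x : Q) : (ev x).map f = f.hom.app x := rfl

lemma hom_ext' {M N : LinFun k Q C} (f g : M ⟶ N) (h : ∀ x, (ev x).map f = (ev x).map g) :
    f = g := by
  ext x
  exact h x

lemma isIso_iff {M N : LinFun k Q C} (f : M ⟶ N) : IsIso f ↔ ∀ x, IsIso ((ev x).map f) := by
  rw [← isIso_iff_of_reflects_iso f (isLin k Q C).ι, NatTrans.isIso_iff_isIso_app]
  rfl

lemma isZero_iff (M : LinFun k Q C) : IsZero M ↔ ∀ x, IsZero (M.obj.obj x) := by
  constructor
  · intro h x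
    exact (ev x).map_isZero h
  · intro h
    rw [IsZero.iff_id_eq_zero]
    refine hom_ext' _ _ fun x => (h x).eq_of_src _ _

lemma exact_iff (S : ShortComplex (LinFun k Q C)) :
    S.Exact ↔ ∀ x, (S.map (ev x)).Exact := by
  constructor
  · intro h x
    exact h.map (ev x)
  · intro h
    rw [ShortComplex.exact_iff_isZero_homology, isZero_iff]
    intro x
    refine IsZero.of_iso ?_ (S.mapHomologyIso (ev x)).symm
    exact (ShortComplex.exact_iff_isZero_homology _).1 (h x)

lemma mono_iff {M N : LinFun k Q C} (f : M ⟶ N) : Mono f ↔ ∀ x, Mono ((ev x).map f) := by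
  constructor
  · intro h x
    infer_instance
  · intro h
    refine ⟨fun {Z} a b hab => hom_ext' _ _ fun x => ?_⟩
    have := h x
    rw [← cancel_mono ((ev x).map f), ← Functor.map_comp, hab, Functor.map_comp]

lemma epi_iff {M N : LinFun k Q C} (f : M ⟶ N) : Epi f ↔ ∀ x, Epi ((ev x).map f) := by
  constructor
  · intro h x
    infer_instance
  · intro h
    refine ⟨fun {Z} a b hab => hom_ext' _ _ fun x => ?_⟩
    have := h x
    rw [← cancel_epi ((ev x).map f), ← Functor.map_comp, hab, Functor.map_comp]

lemma shortExact_iff (S : ShortComplex (LinFun k Q C)) :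
    S.ShortExact ↔ ∀ x, (S.map (ev x)).ShortExact := by
  constructor
  · intro h x
    exact h.map_of_exact (ev x)
  · intro h
    have h1 : Mono S.f := (mono_iff _).2 fun x => (h x).mono_f
    have h2 : Epi S.g := (epi_iff _).2 fun x => (h x).epi_g
    exact { exact := (exact_iff S).2 fun x => (h x).exact }

end abelian

section modobj

variable {k}
variable {E : Type*} [Field E] [Algebra k E]

instance : Linear k (SingleObj E) where
  homModule _ _ := inferInstanceAs (Module k E)
  smul_comp _ _ _ r f g := mul_smul_comm (β := E) r g f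
  comp_smul _ _ _ f r g := smul_mul_assoc (β := E) r g f

variable (k E) in
/-- The `E`-module objects of `C`: objects of `C` with a `k`-linear action of the field `E`. -/
abbrev ModObj (C : Type u') [Category.{v'} C] [Preadditive C] [Linear k C] :=
  LinFun k (SingleObj E) C

variable {C}
variable [Preadditive C] [Linear k C]

/-- the underlying object -/
abbrev ModObj.pt (M : ModObj k E C) : C := M.obj.obj (SingleObj.star E)

/-- the action of `E` -/
def ModObj.act (M : ModObj k E C) (e : E) : M.pt ⟶ M.pt :=
  M.obj.map (X := SingleObj.star E) (Y := SingleObj.star E) e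

/-- the underlying morphism -/
abbrev ModObj.homPt {M N : ModObj k E C} (f : M ⟶ N) : M.pt ⟶ N.pt :=
  f.hom.app (SingleObj.star E)

namespace ModObj

variable (M : ModObj k E C)

@[simp] lemma act_one : M.act 1 = 𝟙 _ := M.obj.map_id _

lemma act_add (e e' : E) : M.act (e + e') = M.act e + M.act e' := M.obj.map_add

@[simp] lemma act_zero : M.act 0 = 0 := M.obj.map_zero _ _

lemma act_mul (e e' : E) : M.act (e * e') = M.act e ≫ M.act e' := by
  rw [mul_comm]
  exact M.obj.map_comp (X := SingleObj.star E) (Y := SingleObj.star E) (Z := SingleObj.star E)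
    (e : SingleObj.star E ⟶ SingleObj.star E) (e' : SingleObj.star E ⟶ SingleObj.star E)

lemma act_smul (r : k) (e : E) : M.act (r • e) = r • M.act e := M.obj.map_smul r _

lemma act_algebraMap (r : k) : M.act (algebraMap k E r) = r • 𝟙 _ := by
  rw [Algebra.algebraMap_eq_smul_one, act_smul, act_one]

@[reassoc]
lemma act_comm (e e' : E) : M.act e ≫ M.act e' = M.act e' ≫ M.act e := by
  rw [← act_mul, ← act_mul, mul_comm]

variable {M}

@[reassoc]
lemma act_homPt {N : ModObj k E C} (f : M ⟶ N) (e : E) :
    M.act e ≫ homPt f = homPt f ≫ N.act e :=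
  f.hom.naturality (X := SingleObj.star E) (Y := SingleObj.star E) e

lemma hom_ext {N : ModObj k E C} {f g : M ⟶ N} (h : homPt f = homPt g) : f = g := by
  ext ⟨⟩
  exact h

/-- constructor of module objects -/
def mk' (X : C) (a : E → (X ⟶ X)) (h1 : a 1 = 𝟙 X) (hm : ∀ e e', a (e * e') = a e ≫ a e')
    (ha : ∀ e e', a (e + e') = a e + a e') (hs : ∀ (r : k) e, a (r • e) = r • a e) :
    ModObj k E C where
  obj :=
    { obj := fun _ => X
      map := fun e => a e
      map_id := fun _ => h1
      map_comp := fun e e' => by
        rw [← hm]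
        exact congrArg a (mul_comm _ _) }
  property := by
    rw [isLin_iff]
    exact ⟨fun f g => ha f g, fun f r => hs r f⟩

/-- constructor of morphisms of module objects -/
def homMk {N : ModObj k E C} (f : M.pt ⟶ N.pt) (h : ∀ e, M.act e ≫ f = f ≫ N.act e) : M ⟶ N :=
  ObjectProperty.homMk
    { app := fun _ => f
      naturality := fun _ _ e => h e }

@[simp] lemma homPt_homMk {N : ModObj k E C} (f : M.pt ⟶ N.pt)
    (h : ∀ e, M.act e ≫ f = f ≫ N.act e) : homPt (homMk f h) = f := rfl

end ModObj

end modobj

end Orl.LF
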