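import Pool.Agent.Work.MP_a6e60d_ag.LF.TwDef

/-!
# Iterated cones of single complexes: morphisms in the homotopy and derived categories
-/

open CategoryTheory Limits Abelian Pretriangulated ZeroObject Preadditive

attribute [-instance] CategoryTheory.catToReflQuiver

namespace Orl.LF

universe t w v u

section retract

/-- general lemma for T3: a direct summand `N` of an object of a triangulated subcategory `S` has
`N ⊞ N⟦1⟧` in `S` -/
theorem biprod_shift_of_retract {T : Type u} [Category.{v} T] [HasZeroObject T] [Preadditive T]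
    [HasShift T ℤ] [∀ n : ℤ, (shiftFunctor T n).Additive] [Pretriangulated T]
    [HasBinaryBiproducts T]
    (S : ObjectProperty T) [S.IsTriangulated] [S.IsClosedUnderIsomorphisms] {N M : T}
    (r : Retract N M) (hM : S M) : S (N ⊞ (N⟦(1 : ℤ)⟧)) := by
  obtain ⟨Z, v, w, hT⟩ := distinguished_cocone_triangle (𝟙 M - r.r ≫ r.i)
  have hZ : S Z := S.ext_of_isTriangulatedClosed₃ _ hT hM hM
  have hr : (𝟙 M - r.r ≫ r.i) ≫ r.r = 0 := by
    rw [sub_comp, Category.id_comp, Category.assoc, r.retract, Category.comp_id, sub_self]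
  have hi : r.i ≫ (𝟙 M - r.r ≫ r.i) = 0 := by
    rw [comp_sub, Category.comp_id, r.retract_assoc, sub_self]
  obtain ⟨ρ, hρ⟩ : ∃ ρ : Z ⟶ N, r.r = v ≫ ρ := Triangle.yoneda_exact₂ _ hT r.r hr
  replace hρ : v ≫ ρ = r.r := hρ.symm
  have hw0 : w ≫ (𝟙 M - r.r ≫ r.i)⟦(1 : ℤ)⟧' = 0 := comp_distTriang_mor_zero₃₁ _ hT
  have hv0 : (𝟙 M - r.r ≫ r.i) ≫ v = 0 := comp_distTriang_mor_zero₁₂ _ hT
  have hvw : v ≫ w = 0 := comp_distTriang_mor_zero₂₃ _ hT
  have hw : w ≫ (r.r)⟦(1 : ℤ)⟧' ≫ (r.i)⟦(1 : ℤ)⟧' = w := by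
    rw [Functor.map_sub, comp_sub, CategoryTheory.Functor.map_id, Category.comp_id,
      Functor.map_comp, sub_eq_zero] at hw0
    exact hw0.symm
  have hi1 : (r.i)⟦(1 : ℤ)⟧' ≫ (r.r)⟦(1 : ℤ)⟧' = 𝟙 _ := by
    rw [← Functor.map_comp, r.retract, CategoryTheory.Functor.map_id]
  let α : Z ⟶ N ⊞ (N⟦(1 : ℤ)⟧) := biprod.lift ρ (w ≫ (r.r)⟦(1 : ℤ)⟧')
  have hmono : Mono α := by
    rw [Preadditive.mono_iff_cancel_zero]
    intro P z hz
    have h1 : z ≫ ρ = 0 := by
      have := congrArg (fun t => t ≫ biprod.fst) hz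
      simpa [α] using this
    have h2 : z ≫ w ≫ (r.r)⟦(1 : ℤ)⟧' = 0 := by
      have := congrArg (fun t => t ≫ biprod.snd) hz
      simpa [α] using this
    have h3 : z ≫ w = 0 := by
      have h4 : (z ≫ w ≫ (r.r)⟦(1 : ℤ)⟧') ≫ (r.i)⟦(1 : ℤ)⟧' = 0 := by rw [h2, zero_comp]
      simp only [Category.assoc] at h4
      rwa [hw] at h4
    obtain ⟨y, rfl⟩ : ∃ y : P ⟶ M, z = y ≫ v := Triangle.coyoneda_exact₃ _ hT z h3
    have h5 : y ≫ r.r = 0 := by rw [← hρ, ← Category.assoc]; exact h1
    have h6 : y = y ≫ (𝟙 M - r.r ≫ r.i) := by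
      rw [comp_sub, Category.comp_id, ← Category.assoc, h5, zero_comp, sub_zero]
    rw [h6, Category.assoc, hv0, comp_zero]
  have hepi : Epi α := by
    rw [Preadditive.epi_iff_cancel_zero]
    intro P z hz
    have e1 : α ≫ z = ρ ≫ biprod.inl ≫ z + (w ≫ (r.r)⟦(1 : ℤ)⟧') ≫ biprod.inr ≫ z := by
      rw [← Category.assoc, ← Category.assoc, ← add_comp]
      congr 1
      apply biprod.hom_ext <;> simp [α]
    rw [hz] at e1
    have h1 : biprod.inl ≫ z = 0 := by
      have h2 : r.i ≫ v ≫ (ρ ≫ biprod.inl ≫ z +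
          (w ≫ (r.r)⟦(1 : ℤ)⟧') ≫ biprod.inr ≫ z) = 0 := by
        rw [← e1, comp_zero, comp_zero]
      simp only [comp_add, Category.assoc] at h2
      rw [reassoc_of% hvw, zero_comp, comp_zero, add_zero, reassoc_of% hρ, r.retract_assoc] at h2
      exact h2
    have h3 : w ≫ (r.r)⟦(1 : ℤ)⟧' ≫ biprod.inr ≫ z = 0 := by
      rw [h1, comp_zero, zero_add, Category.assoc] at e1
      exact e1.symm
    obtain ⟨s, hs⟩ : ∃ s : M⟦(1 : ℤ)⟧ ⟶ P, (r.r)⟦(1 : ℤ)⟧' ≫ biprod.inr ≫ z =
        (-(𝟙 M - r.r ≫ r.i)⟦(1 : ℤ)⟧') ≫ s :=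
      Triangle.yoneda_exact₂ _ (rot_of_distTriang _ (rot_of_distTriang _ hT)) _ h3
    have h4 : biprod.inr ≫ z = 0 := by
      have h5 : (r.i)⟦(1 : ℤ)⟧' ≫ (r.r)⟦(1 : ℤ)⟧' ≫ biprod.inr ≫ z = 0 := by
        rw [hs, neg_comp, comp_neg, ← Category.assoc, ← Functor.map_comp, hi,
          Functor.map_zero, zero_comp, neg_zero]
      rwa [← Category.assoc, hi1, Category.id_comp] at h5
    apply biprod.hom_ext'
    · rw [h1, comp_zero]
    · rw [h4, comp_zero]
  have : IsIso α := isIso_of_mono_of_epi α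
  exact S.prop_of_iso (asIso α) hZ

end retract

variable {A : Type u} [Category.{v} A] [Abelian A]

/-- induction over `Tw` in the homotopy category -/
theorem tw_induction {B : ObjectProperty A}
    (S : ObjectProperty (HomotopyCategory A (ComplexShape.up ℤ))) [S.IsTriangulated]
    [S.IsClosedUnderIsomorphisms]
    (h : ∀ (n : ℤ) (X : A), B X → S ((HomotopyCategory.singleFunctor A n).obj X))
    (K : CochainComplex A ℤ) (hK : Tw B K) :
    S ((HomotopyCategory.quotient A (ComplexShape.up ℤ)).obj K) := by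
  induction hK with
  | single n X hX => exact h n X hX
  | shift K n _ ih =>
    exact S.prop_of_iso
      (((HomotopyCategory.quotient A (ComplexShape.up ℤ)).commShiftIso n).symm.app K)
      (S.le_shift n _ ih)
  | cone f _ _ ihK ihL =>
    exact S.ext_of_isTriangulatedClosed₃ _
      (HomotopyCategory.mappingCone_triangleh_distinguished f) ihK ihL

/-- **T4** -/
theorem tw_finite {B : ObjectProperty A} (K : CochainComplex A ℤ) (hK : Tw B K) :
    {n | ¬ IsZero (K.X n)}.Finite := by
  induction hK with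
  | single n X _ =>
    refine (Set.finite_singleton n).subset fun m hm => ?_
    by_contra hne
    exact hm (HomologicalComplex.isZero_single_obj_X _ _ _ _ hne)
  | shift K n _ ih =>
    refine (ih.preimage (f := fun m : ℤ => m + n) (by intro a _ b _ h; simpa using h)).subset ?_
    intro m hm
    exact hm
  | @cone K L f _ _ ihK ihL =>
    have h1 := ihK.preimage (f := fun m : ℤ => m + 1) (by intro a _ b _ h; simpa using h)
    refine (h1.union ihL).subset fun m hm => ?_
    by_contra hne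
    rw [Set.mem_union, not_or] at hne
    obtain ⟨h2, h3⟩ := hne
    have h2' : IsZero (K.X (m + 1)) := by_contra fun h => h2 h
    have h3' : IsZero (L.X m) := by_contra fun h => h3 h
    apply hm
    rw [IsZero.iff_id_eq_zero]
    apply CochainComplex.mappingCone.ext_to f m (m + 1) rfl
    · exact h2'.eq_of_tgt _ _
    · exact h3'.eq_of_tgt _ _

/-- **T5**: the terms are in every property closed under isomorphisms, zero and biproducts -/
theorem tw_terms {B : ObjectProperty A} (R : ObjectProperty A) [R.IsClosedUnderIsomorphisms]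
    (h0 : ∀ X, IsZero X → R X) (hB : B ≤ R) (hbi : ∀ X Y, R X → R Y → R (X ⊞ Y))
    (K : CochainComplex A ℤ) (hK : Tw B K) (n : ℤ) : R (K.X n) := by
  induction hK generalizing n with
  | single m X hX =>
    by_cases h : n = m
    · subst h
      exact R.prop_of_iso (HomologicalComplex.singleObjXSelf (ComplexShape.up ℤ) n X).symm
        (hB X hX)
    · exact h0 _ (HomologicalComplex.isZero_single_obj_X _ _ _ _ h)
  | shift K m _ ih => exact ih (n + m)
  | @cone K L f _ _ ihK ihL =>
    exact R.prop_of_iso (HomologicalComplex.homotopyCofiber.XIsoBiprod f n (n + 1) rfl).symm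
      (hbi _ _ (ihK (n + 1)) (ihL n))

/-- **T6** -/
theorem tw_hom_finite {k : Type*} [Field k] [Linear k A] {B : ObjectProperty A}
    (hB : ∀ X Y, B X → B Y → Module.Finite k (X ⟶ Y)) (K L : CochainComplex A ℤ) (hK : Tw B K)
    (hL : Tw B L) (p q : ℤ) : Module.Finite k (K.X p ⟶ L.X q) := by
  have key : ∀ X, B X → ∀ n, Module.Finite k (X ⟶ L.X n) := by
    intro X hX
    let R : ObjectProperty A := fun Y => Module.Finite k (X ⟶ Y)
    have : R.IsClosedUnderIsomorphisms := ⟨fun {Y Y'} e (h : Module.Finite k (X ⟶ Y)) =>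
      Module.Finite.equiv (Linear.homCongr k (Iso.refl X) e)⟩
    refine tw_terms R ?_ (fun Y hY => hB X Y hX hY) ?_ L hL
    · intro Y hY
      have : Subsingleton (X ⟶ Y) := ⟨fun f g => hY.eq_of_tgt f g⟩
      exact inferInstanceAs (Module.Finite k (X ⟶ Y))
    · intro Y Y' (h : Module.Finite k (X ⟶ Y)) (h' : Module.Finite k (X ⟶ Y'))
      let φ : (X ⟶ Y ⊞ Y') →ₗ[k] (X ⟶ Y) × (X ⟶ Y') :=
        (Linear.rightComp k X biprod.fst).prod (Linear.rightComp k X biprod.snd)
      refine Module.Finite.of_injective φ fun f g hfg => ?_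
      apply biprod.hom_ext
      · exact congrArg Prod.fst hfg
      · exact congrArg Prod.snd hfg
  let R : ObjectProperty A := fun Y => ∀ n, Module.Finite k (Y ⟶ L.X n)
  have : R.IsClosedUnderIsomorphisms := ⟨fun {Y Y'} e (h : ∀ n, Module.Finite k (Y ⟶ L.X n)) n =>
    have := h n
    Module.Finite.equiv (Linear.homCongr k e (Iso.refl (L.X n)))⟩
  refine tw_terms R ?_ (fun Y hY => key Y hY) ?_ K hK p q
  · intro Y hY n
    have : Subsingleton (Y ⟶ L.X n) := ⟨fun f g => hY.eq_of_src f g⟩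
    infer_instance
  · intro Y Y' (h : ∀ n, Module.Finite k (Y ⟶ L.X n)) (h' : ∀ n, Module.Finite k (Y' ⟶ L.X n)) n
    have := h n
    have := h' n
    let φ : (Y ⊞ Y' ⟶ L.X n) →ₗ[k] (Y ⟶ L.X n) × (Y' ⟶ L.X n) :=
      (Linear.leftComp k (L.X n) biprod.inl).prod (Linear.leftComp k (L.X n) biprod.inr)
    refine Module.Finite.of_injective φ fun f g hfg => ?_
    apply biprod.hom_ext'
    · exact congrArg Prod.fst hfg
    · exact congrArg Prod.snd hfg

section bij

variable [HasExt.{w} A] [HasDerivedCategory.{t} A]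

open DerivedCategory

instance (n : ℤ) : (HomotopyCategory.singleFunctor A n).Full :=
  inferInstanceAs (CochainComplex.singleFunctor A n ⋙
    HomotopyCategory.quotient A (ComplexShape.up ℤ)).Full

omit [HasExt.{w} A] [HasDerivedCategory.{t} A] in
lemma hom_single_eq_zero {a b : ℤ} (hab : a ≠ b) (X Y : A)
    (f : (HomotopyCategory.singleFunctor A a).obj X ⟶
      (HomotopyCategory.singleFunctor A b).obj Y) : f = 0 := by
  obtain ⟨g, rfl⟩ := (HomotopyCategory.quotient A (ComplexShape.up ℤ)).map_surjective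
    (X := (CochainComplex.singleFunctor A a).obj X)
    (Y := (CochainComplex.singleFunctor A b).obj Y) f
  have hg : g = 0 := by
    ext n
    by_cases h : n = a
    · have hn : n ≠ b := fun h' => hab (h.symm.trans h')
      exact (HomologicalComplex.isZero_single_obj_X (ComplexShape.up ℤ) b Y n hn).eq_of_tgt _ _
    · exact (HomologicalComplex.isZero_single_obj_X (ComplexShape.up ℤ) a X n h).eq_of_src _ _
  rw [hg, Functor.map_zero]
  rfl

lemma derived_hom_single_eq_zero {a b : ℤ} (hab : a ≠ b) (X Y : A)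
    (h : ∀ n : ℕ, 0 < n → Subsingleton (Ext.{w} X Y n))
    (f : (DerivedCategory.singleFunctor A a).obj X ⟶
      (DerivedCategory.singleFunctor A b).obj Y) : f = 0 := by
  rcases lt_or_gt_of_ne hab with hlt | hgt
  · exact TStructure.t.zero_of_isLE_of_isGE f a b hlt inferInstance inferInstance
  · obtain ⟨n, hn⟩ := Int.le.dest hgt.le
    have hn0 : 0 < n := by
      rcases Nat.eq_zero_or_pos n with h0 | h0
      · subst h0; simp at hn; omega
      · exact h0
    let e₁ := ((DerivedCategory.singleFunctors A).shiftIso a 0 a (by lia)).app X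
    let e₂ := ((DerivedCategory.singleFunctors A).shiftIso a (b - a) b (by lia)).app Y
    let e₃ := ((DerivedCategory.singleFunctors A).shiftIso (n : ℤ) (b - a) 0 (by lia)).app Y
    have hs : Subsingleton (ShiftedHom ((singleFunctor A 0).obj X) ((singleFunctor A 0).obj Y)
        (n : ℤ)) := by
      have := h n hn0
      exact (Ext.homEquiv : Ext.{w} X Y n ≃ _).symm.injective.subsingleton
    have h1 : (e₁.inv ≫ f⟦a⟧' ≫ e₂.hom ≫ e₃.inv :
        (singleFunctor A 0).obj X ⟶ ((singleFunctor A 0).obj Y)⟦(n : ℤ)⟧) = 0 :=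
      hs.elim _ _
    have h2 : f⟦a⟧' = 0 := by
      rw [← cancel_epi e₁.inv, ← cancel_mono e₂.hom, ← cancel_mono e₃.inv, Category.assoc,
        Category.assoc, h1, comp_zero, zero_comp, zero_comp]
    exact (shiftFunctor (DerivedCategory A) a).map_injective (by rw [h2, Functor.map_zero])

lemma single_bijective (a b : ℤ) (X Y : A)
    (h : ∀ n : ℕ, 0 < n → Subsingleton (Ext.{w} X Y n)) :
    Function.Bijective (fun f : (HomotopyCategory.singleFunctor A a).obj X ⟶
      (HomotopyCategory.singleFunctor A b).obj Y => (DerivedCategory.Qh (C := A)).map f) := by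
  by_cases hab : a = b
  · subst hab
    constructor
    · intro f g hfg
      obtain ⟨f, rfl⟩ := (HomotopyCategory.singleFunctor A a).map_surjective f
      obtain ⟨g, rfl⟩ := (HomotopyCategory.singleFunctor A a).map_surjective g
      have : (DerivedCategory.singleFunctor A a).map f =
        (DerivedCategory.singleFunctor A a).map g := hfg
      rw [(DerivedCategory.singleFunctor A a).map_injective this]
    · intro g
      obtain ⟨f, rfl⟩ := (DerivedCategory.singleFunctor A a).map_surjective (X := X) (Y := Y) g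
      exact ⟨(HomotopyCategory.singleFunctor A a).map f, rfl⟩
  · constructor
    · intro f g _
      rw [hom_single_eq_zero hab X Y f, hom_single_eq_zero hab X Y g]
    · intro g
      exact ⟨0, (derived_hom_single_eq_zero hab X Y h _).trans
        (derived_hom_single_eq_zero hab X Y h g).symm⟩

variable {B : ObjectProperty A}

/-- the comparison map for a fixed source `single a X` -/
lemma cmp_source (hB : ∀ X Y, B X → B Y → ∀ n : ℕ, 0 < n → Subsingleton (Ext.{w} X Y n))
    (a : ℤ) (X : A) (hX : B X) (L : CochainComplex A ℤ) (hL : Tw B L) :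
    CmpBijCo (DerivedCategory.Qh (C := A))
      (𝟙 (DerivedCategory.Qh.obj ((HomotopyCategory.singleFunctor A a).obj X)))
      ((HomotopyCategory.quotient A (ComplexShape.up ℤ)).obj L) := by
  refine tw_induction _ ?_ L hL
  intro b Y hY n
  have e : ((HomotopyCategory.singleFunctor A b).obj Y)⟦n⟧ ≅
      (HomotopyCategory.singleFunctor A (b - n)).obj Y :=
    ((HomotopyCategory.singleFunctors A).shiftIso n (b - n) b (by lia)).app Y
  rw [cmpCo_bij_iff_of_iso _ e]
  have := single_bijective.{t, w} a (b - n) X Y (hB X Y hX hY)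
  convert this using 2 with f
  exact Category.id_comp _

/-- **T2** -/
theorem tw_bijective
    (hB : ∀ X Y, B X → B Y → ∀ n : ℕ, 0 < n → Subsingleton (Ext.{w} X Y n))
    (K L : CochainComplex A ℤ) (hK : Tw B K) (hL : Tw B L) :
    Function.Bijective (fun f : (HomotopyCategory.quotient A (ComplexShape.up ℤ)).obj K ⟶
      (HomotopyCategory.quotient A (ComplexShape.up ℤ)).obj L =>
        (DerivedCategory.Qh (C := A)).map f) := by
  let c := (HomotopyCategory.quotient A (ComplexShape.up ℤ)).obj L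
  have key : CmpBij (𝟭 _) (DerivedCategory.Qh (C := A)) (DerivedCategory.Qh (C := A))
      (Functor.leftUnitor _).inv c ((HomotopyCategory.quotient A (ComplexShape.up ℤ)).obj K) := by
    refine tw_induction _ ?_ K hK
    intro a X hX n
    have e : ((HomotopyCategory.singleFunctor A a).obj X)⟦n⟧ ≅
        (HomotopyCategory.singleFunctor A (a - n)).obj X :=
      ((HomotopyCategory.singleFunctors A).shiftIso n (a - n) a (by lia)).app X
    rw [cmp_bij_iff_of_iso _ e]
    have h0 := cmp_source hB (a - n) X hX L hL 0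
    rw [cmpCo_bij_iff_of_iso _ ((shiftFunctorZero _ ℤ).app _)] at h0
    exact h0
  have h0 := key 0
  rw [cmp_bij_iff_of_iso _ ((shiftFunctorZero _ ℤ).app _)] at h0
  have h1 : (fun f : (HomotopyCategory.quotient A (ComplexShape.up ℤ)).obj K ⟶
      (HomotopyCategory.quotient A (ComplexShape.up ℤ)).obj L =>
        (DerivedCategory.Qh (C := A)).map f) =
      cmp (𝟭 _) (DerivedCategory.Qh (C := A)) (DerivedCategory.Qh (C := A))
        (Functor.leftUnitor _).inv c
        ((HomotopyCategory.quotient A (ComplexShape.up ℤ)).obj K) := by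
    funext f
    exact (Category.id_comp _).symm
  rw [h1]
  exact h0

omit [HasExt.{w} A] in
variable (B) in
/-- the objects of the derived category represented by an iterated cone -/
def TwD : ObjectProperty (DerivedCategory A) := fun M =>
  ∃ P : CochainComplex A ℤ, Tw B P ∧ Nonempty (DerivedCategory.Q.obj P ≅ M)

omit [HasExt.{w} A] in
instance : (TwD.{t} B).IsClosedUnderIsomorphisms where
  of_iso := by
    rintro M M' e ⟨P, hP, ⟨e'⟩⟩
    exact ⟨P, hP, ⟨e' ≪≫ e⟩⟩

omit [HasExt.{w} A] in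
instance : (TwD.{t} B).IsStableUnderShift ℤ where
  isStableUnderShiftBy n :=
    { le_shift := by
        rintro M ⟨P, hP, ⟨e⟩⟩
        exact ⟨P⟦n⟧, Tw.shift P n hP, ⟨(DerivedCategory.Q.commShiftIso n).app P ≪≫
          (shiftFunctor _ n).mapIso e⟩⟩ }

lemma exists_map_eq (hB : ∀ X Y, B X → B Y → ∀ n : ℕ, 0 < n → Subsingleton (Ext.{w} X Y n))
    (K L : CochainComplex A ℤ) (hK : Tw B K) (hL : Tw B L)
    (g : DerivedCategory.Q.obj K ⟶ DerivedCategory.Q.obj L) :
    ∃ f : K ⟶ L, g = DerivedCategory.Q.map f := by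
  obtain ⟨f', hf'⟩ := (tw_bijective hB K L hK hL).2
    ((DerivedCategory.quotientCompQhIso A).hom.app K ≫ g ≫
      (DerivedCategory.quotientCompQhIso A).inv.app L)
  obtain ⟨f, rfl⟩ := (HomotopyCategory.quotient A (ComplexShape.up ℤ)).map_surjective f'
  refine ⟨f, ?_⟩
  have h2 : Qh.map ((HomotopyCategory.quotient A (ComplexShape.up ℤ)).map f) =
    (DerivedCategory.quotientCompQhIso A).hom.app K ≫ g ≫
      (DerivedCategory.quotientCompQhIso A).inv.app L := hf'
  have h1 := DerivedCategory.quotientCompQhIso_hom_naturality f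
  rw [h2] at h1
  simp only [Category.assoc, Iso.inv_hom_id_app, Category.comp_id] at h1
  have h3 := (cancel_epi ((DerivedCategory.quotientCompQhIso A).hom.app K)).1 h1
  simpa using h3

lemma twD_isTriangulated
    (hB : ∀ X Y, B X → B Y → ∀ n : ℕ, 0 < n → Subsingleton (Ext.{w} X Y n))
    (hne : B.Nonempty) : (TwD.{t} B).IsTriangulated := by
  have h3 : (TwD.{t} B).IsTriangulatedClosed₃ := by
    refine .mk' ?_
    rintro T hT ⟨K, hK, ⟨e₁⟩⟩ ⟨L, hL, ⟨e₂⟩⟩
    obtain ⟨f, hf⟩ := exists_map_eq hB K L hK hL (e₁.hom ≫ T.mor₁ ≫ e₂.inv)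
    let e := isoTriangleOfIso₁₂ _ T (DerivedCategory.mappingCone_triangle_distinguished f) hT
      e₁ e₂ (by
        change DerivedCategory.Q.map f ≫ e₂.hom = e₁.hom ≫ T.mor₁
        rw [← hf]
        simp)
    exact ⟨_, Tw.cone f hK hL, ⟨Triangle.π₃.mapIso e⟩⟩
  have h2 : (TwD.{t} B).IsTriangulatedClosed₂ := .of_isTriangulatedClosed₃
  have h0 : (TwD.{t} B).ContainsZero := by
    obtain ⟨X, hX⟩ := B.exists_prop_of_nonempty
    have hS := Tw.single (B := B) 0 X hX
    refine ⟨_, ?_, ⟨_, Tw.cone (𝟙 _) hS hS, ⟨Iso.refl _⟩⟩⟩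
    have hT := DerivedCategory.mappingCone_triangle_distinguished
      (𝟙 ((CochainComplex.singleFunctor A 0).obj X))
    refine Triangle.isZero₃_of_isIso₁ _ hT ?_
    change IsIso (DerivedCategory.Q.map (𝟙 _))
    infer_instance
  exact { }

lemma isTriangulated_retractClosure {T : Type*} [Category* T] [HasZeroObject T] [Preadditive T]
    [HasShift T ℤ] [∀ n : ℤ, (shiftFunctor T n).Additive] [Pretriangulated T]
    (S : ObjectProperty T) [S.IsTriangulated] : S.retractClosure.IsTriangulated := by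
  have h0 : S.retractClosure.ContainsZero := by
    obtain ⟨Z, hZ, hZ'⟩ := ObjectProperty.ContainsZero.exists_zero (P := S)
    exact ⟨Z, hZ, S.le_retractClosure _ hZ'⟩
  have h1 : S.retractClosure.IsStableUnderShift ℤ :=
    ⟨fun n => ⟨by
      rintro M ⟨N, hN, ⟨r⟩⟩
      exact ⟨N⟦n⟧, S.le_shift n _ hN, ⟨r.map (shiftFunctor T n)⟩⟩⟩⟩
  have h2 : S.retractClosure.IsTriangulatedClosed₂ := by
    refine .mk' ?_
    intro Δ hΔ h₁ h₃
    have h4 : ObjectProperty.extensionProduct S.retractClosure S.retractClosure Δ.obj₂ :=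
      ⟨_, _, _, _, _, hΔ, h₁, h₃⟩
    have h5 := ObjectProperty.extensionProduct_retractClosure_retractClosure_le S S _ h4
    obtain ⟨N, ⟨Y, Z, f, g, h, hd, hY, hZ⟩, ⟨r⟩⟩ := h5
    obtain ⟨N', hN', ⟨e⟩⟩ := S.ext_of_isTriangulatedClosed₂' _ hd hY hZ
    exact ⟨N', hN', ⟨r.trans (Retract.ofIso e)⟩⟩
  exact { }

/-- **T3** -/
theorem exists_tw
    (hB : ∀ X Y, B X → B Y → ∀ n : ℕ, 0 < n → Subsingleton (Ext.{w} X Y n)) (hne : B.Nonempty)
    (N : DerivedCategory A)
    (hN : ObjectProperty.triangEnvelope (fun M : DerivedCategory A =>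
      ∃ X, B X ∧ Nonempty (M ≅ (DerivedCategory.singleFunctor A 0).obj X)) N) :
    ∃ P : CochainComplex A ℤ, Tw B P ∧
      Nonempty (DerivedCategory.Q.obj P ≅ N ⊞ (N⟦(1 : ℤ)⟧)) := by
  have h1 := twD_isTriangulated.{t} hB hne
  have h2 := isTriangulated_retractClosure (TwD.{t} B)
  have h3 : ObjectProperty.triangEnvelope (fun M : DerivedCategory A =>
      ∃ X, B X ∧ Nonempty (M ≅ (DerivedCategory.singleFunctor A 0).obj X)) ≤
      (TwD.{t} B).retractClosure := by
    rw [ObjectProperty.triangEnvelope_le_iff]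
    rintro M ⟨X, hX, ⟨e⟩⟩
    refine (TwD.{t} B).le_retractClosure _ ⟨_, Tw.single 0 X hX, ⟨?_⟩⟩
    exact e.symm
  obtain ⟨M, hM, ⟨r⟩⟩ := h3 _ hN
  exact biprod_shift_of_retract (TwD.{t} B) r hM

end bij

end Orl.LF
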