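import Pool.Agent.Work.MP_a6e60d_ag.LF.AbsBase
import Pool.Agent.Work.MP_a6e60d_ag.LF.Tw

/-!
# The abstract Theorem A: comparison of `Ψ` on iterated cones with the derived categories
-/

open CategoryTheory Limits Pretriangulated Abelian DerivedCategory ZeroObject

attribute [-instance] CategoryTheory.catToReflQuiver

namespace Orl.LF

universe t t' w w' v₀ v₁ v₂ u₀ u₁ u₂

section sgl

variable {A : Type u₂} [Category.{v₂} A] [Abelian A] [HasDerivedCategory.{t'} A]

/-- the objects of the derived category isomorphic to objects of `A` with property `B` -/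
def sgl (B : ObjectProperty A) : ObjectProperty (DerivedCategory A) :=
  fun M => ∃ X, B X ∧ Nonempty (M ≅ (DerivedCategory.singleFunctor A 0).obj X)

lemma sgl_single {B : ObjectProperty A} {X : A} (hX : B X) :
    sgl B ((DerivedCategory.singleFunctor A 0).obj X) := ⟨X, hX, ⟨Iso.refl _⟩⟩

instance (B : ObjectProperty A) [B.Nonempty] : (sgl.{t'} B).Nonempty := by
  obtain ⟨X, hX⟩ := ObjectProperty.Nonempty.exists_prop (P := B)
  exact ⟨_, sgl_single hX⟩

omit [HasDerivedCategory.{t'} A] in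
instance : (⊤ : ObjectProperty A).Nonempty := ⟨0, trivial⟩

variable (A) in
/-- the thick subcategory of the derived category generated by `A` -/
abbrev hull : ObjectProperty (DerivedCategory A) :=
  (sgl.{t'} (⊤ : ObjectProperty A)).triangEnvelope

lemma hull_single (X : A) : hull.{t'} A ((DerivedCategory.singleFunctor A 0).obj X) :=
  ObjectProperty.le_triangEnvelope _ _ (sgl_single trivial)

end sgl

section co

variable {K : Type u₀} [Category.{v₀} K] [HasShift K ℤ]
  {D₁ : Type u₁} [Category.{v₁} D₁] [HasShift D₁ ℤ]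
  {D₂ : Type u₂} [Category.{v₂} D₂] [HasShift D₂ ℤ]
  {A₁ : K ⥤ D₁} [A₁.CommShift ℤ] {A₂ : K ⥤ D₂} [A₂.CommShift ℤ] {Φ : D₁ ⥤ D₂}
  [Φ.CommShift ℤ] (u : A₂ ⟶ A₁ ⋙ Φ) [NatTrans.CommShift u ℤ]

lemma cmpBij_of_co (X : K) (c : D₁) (h : CmpBijCo Φ (u.app X) c) : CmpBij A₁ A₂ Φ u c X := by
  intro n
  have h1 : Function.Bijective (cmp A₁ A₂ Φ u (c⟦-n⟧) X) := h (-n)
  rw [← cmp_shift_bij u X (c⟦-n⟧) n] at h1
  exact (cmpCo_bij_iff_of_iso (Φ := Φ) (u.app (X⟦n⟧))
    ((shiftFunctorCompIsoId D₁ (-n) n (by lia)).app c)).1 h1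

end co

section ff

variable {C : Type u₁} [Category.{v₁} C] [Abelian C] {A : Type u₂} [Category.{v₂} A] [Abelian A]
  (Φ : C ⥤ A) [Φ.Additive] [PreservesFiniteLimits Φ] [PreservesFiniteColimits Φ]
variable [HasDerivedCategory.{t} C] [HasDerivedCategory.{t'} A] [HasExt.{w} C] [HasExt.{w'} A]

lemma map_single_bij (c c' : C)
    (h : ∀ n : ℕ, Function.Bijective (fun x : Ext.{w} c c' n =>
      (x.mapExactFunctor Φ : Ext.{w'} _ _ n))) (n : ℤ) :
    Function.Bijective (Φ.mapDerivedCategory.map : ((singleFunctor C 0).obj c ⟶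
      ((singleFunctor C 0).obj c')⟦n⟧) → _) := by
  let s : (singleFunctor A 0).obj (Φ.obj c) ≅ Φ.mapDerivedCategory.obj ((singleFunctor C 0).obj c) :=
    ((Φ.mapDerivedCategorySingleFunctor 0).app c).symm
  rcases lt_or_ge n 0 with hn | hn
  · constructor
    · intro g g' _
      rw [hom_single_neg _ _ n hn g, hom_single_neg _ _ n hn g']
    · intro y
      refine ⟨0, ?_⟩
      have h0 : s.hom ≫ y ≫ (phiShift Φ c' n).hom = 0 := hom_single_neg _ _ n hn _
      rw [Functor.map_zero, ← cancel_mono (phiShift Φ c' n).hom, ← cancel_epi s.hom, h0,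
        zero_comp, comp_zero]
  · obtain ⟨n, rfl⟩ := Int.eq_ofNat_of_zero_le hn
    let q : (Φ.mapDerivedCategory.obj ((singleFunctor C 0).obj c) ⟶
          Φ.mapDerivedCategory.obj (((singleFunctor C 0).obj c')⟦(n : ℤ)⟧)) →
        ShiftedHom ((singleFunctor A 0).obj (Φ.obj c)) ((singleFunctor A 0).obj (Φ.obj c')) (n : ℤ) :=
      fun y => s.hom ≫ y ≫ (phiShift Φ c' n).hom
    have hq : Function.Bijective q :=
      ⟨fun g g' hg => (cancel_mono _).1 ((cancel_epi _).1 hg),
        fun y => ⟨s.inv ≫ y ≫ (phiShift Φ c' n).inv, by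
          change s.hom ≫ (s.inv ≫ y ≫ (phiShift Φ c' n).inv) ≫ (phiShift Φ c' n).hom = y
          rw [Category.assoc, Category.assoc, Iso.inv_hom_id, Category.comp_id,
            Iso.hom_inv_id_assoc]⟩⟩
    have h1 := (ext_hom_bijective (Φ.obj c) (Φ.obj c') n).comp (h n)
    have hpq : (fun e => e.hom) ∘ (fun x : Ext.{w} c c' n =>
        (x.mapExactFunctor Φ : Ext.{w'} _ _ n)) = q ∘ (fun g => Φ.mapDerivedCategory.map g) ∘
          (fun e : Ext.{w} c c' n => e.hom) := by
      funext e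
      change (e.mapExactFunctor Φ : Ext.{w'} _ _ n).hom =
        s.hom ≫ Φ.mapDerivedCategory.map e.hom ≫ (phiShift Φ c' n).hom
      rw [Ext.mapExactFunctor_hom]
      exact congrArg (_ ≫ ·) (Category.assoc _ _ _)
    have h2 := (congrArg Function.Bijective hpq).mp h1
    exact ((ext_hom_bijective c c' n).of_comp_iff _).1 ((hq.of_comp_iff' _).1 h2)

/-- `Φ` is fully faithful on the thick subcategory generated by `C`. -/
theorem map_bij (h : ∀ (c c' : C) (n : ℕ), Function.Bijective (fun x : Ext.{w} c c' n =>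
      (x.mapExactFunctor Φ : Ext.{w'} _ _ n))) {M N : DerivedCategory C} (hM : hull.{t} C M)
    (hN : hull.{t} C N) :
    Function.Bijective (Φ.mapDerivedCategory.map : (M ⟶ N) → _) := by
  have key : ∀ (c : C) (N : DerivedCategory C), hull.{t} C N →
      CmpBijCo Φ.mapDerivedCategory (𝟙 (Φ.mapDerivedCategory.obj ((singleFunctor C 0).obj c))) N := by
    intro c
    refine (ObjectProperty.triangEnvelope_le_iff _).2 ?_
    rintro N ⟨c', -, ⟨e⟩⟩
    refine ObjectProperty.prop_of_iso _ e.symm fun n => ?_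
    refine (congrArg Function.Bijective ?_).mp (map_single_bij Φ c c' (h c c') n)
    funext g
    exact (Category.id_comp _).symm
  have key2 : hull.{t} C ≤ CmpBij (𝟭 _) Φ.mapDerivedCategory Φ.mapDerivedCategory
      (Functor.leftUnitor _).inv N := by
    refine (ObjectProperty.triangEnvelope_le_iff _).2 ?_
    rintro M ⟨c, -, ⟨e⟩⟩
    exact ObjectProperty.prop_of_iso _ e.symm (cmpBij_of_co _ _ _ (key c N hN))
  have h0 := key2 M hM 0
  rw [cmp_bij_iff_of_iso _ ((shiftFunctorZero _ ℤ).app _)] at h0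
  refine (congrArg Function.Bijective ?_).mp h0
  funext g
  exact Category.id_comp _

end ff

section main

variable {C : Type u₁} [Category.{v₁} C] [Abelian C] {A : Type u₂} [Category.{v₂} A] [Abelian A]
  {Ψ : A ⥤ C} {Φ : C ⥤ A} [Ψ.Additive] [Φ.Additive] (adj : Ψ ⊣ Φ)
  [PreservesFiniteLimits Φ] [PreservesFiniteColimits Φ]
variable [HasDerivedCategory.{t} C] [HasDerivedCategory.{t'} A] [HasExt.{w} C] [HasExt.{w'} A]
  {B : ObjectProperty A}

/-- The comparison map is bijective for iterated cones of objects with property `B`. -/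
theorem cmp_bij (hΨ : ∀ X, B X → ∀ (c : C) (n : ℕ), Function.Bijective
      (fun x : Ext.{w} (Ψ.obj X) c n =>
        ((Ext.mk₀ (adj.unit.app X)).comp (x.mapExactFunctor Φ : Ext.{w'} _ _ n) (zero_add n) :
          Ext.{w'} X (Φ.obj c) n)))
    {K : CochainComplex A ℤ} (hK : Tw B K) {N : DerivedCategory C} (hN : hull.{t} C N) :
    CmpBij (lam₁ Ψ) Qh Φ.mapDerivedCategory (dUnit adj) N
      ((HomotopyCategory.quotient A (ComplexShape.up ℤ)).obj K) := by
  refine tw_induction _ ?_ K hK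
  intro a X hX
  have h1 : hull.{t} C ≤ CmpBijCo Φ.mapDerivedCategory ((dUnit adj).app
      ((HomotopyCategory.quotient A (ComplexShape.up ℤ)).obj
      ((HomologicalComplex.single A (ComplexShape.up ℤ) 0).obj X))) := by
    refine (ObjectProperty.triangEnvelope_le_iff _).2 ?_
    rintro N ⟨c, -, ⟨e⟩⟩
    exact ObjectProperty.prop_of_iso _ e.symm fun n => cmp_single_bij adj X c (hΨ X hX c) n
  have h2 := cmpBij_of_co (dUnit adj) _ _ (h1 N hN)
  have e : (HomotopyCategory.quotient A (ComplexShape.up ℤ)).obj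
      ((HomologicalComplex.single A (ComplexShape.up ℤ) 0).obj X) ≅
      ((HomotopyCategory.singleFunctor A a).obj X)⟦a⟧ :=
    (((HomotopyCategory.singleFunctors A).shiftIso a 0 a (by lia)).app X).symm
  have h3 := ObjectProperty.prop_of_iso _ e h2
  have e2 : (((HomotopyCategory.singleFunctor A a).obj X)⟦a⟧)⟦-a⟧ ≅
      (HomotopyCategory.singleFunctor A a).obj X :=
    (shiftFunctorCompIsoId _ a (-a) (by lia)).app _
  exact ObjectProperty.prop_of_iso _ e2 (ObjectProperty.le_shift _ (-a) _ h3)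

omit [HasDerivedCategory.{t'} A] [HasExt.{w} C] [HasExt.{w'} A] in
/-- `Ψ` of an iterated cone is in the thick subcategory generated by `C`. -/
theorem hull_lam {K : CochainComplex A ℤ} (hK : Tw B K) : hull.{t} C ((lam₁ Ψ).obj
    ((HomotopyCategory.quotient A (ComplexShape.up ℤ)).obj K)) := by
  have key : (hull.{t} C).inverseImage (lam₁ Ψ)
      ((HomotopyCategory.quotient A (ComplexShape.up ℤ)).obj K) := by
    refine tw_induction _ ?_ K hK
    intro a X hX
    have h2 : (hull.{t} C).inverseImage (lam₁ Ψ)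
        ((HomotopyCategory.quotient A (ComplexShape.up ℤ)).obj
        ((HomologicalComplex.single A (ComplexShape.up ℤ) 0).obj X)) :=
      (hull.{t} C).prop_of_iso (psiSingle Ψ X).symm (hull_single (Ψ.obj X))
    have e : (HomotopyCategory.quotient A (ComplexShape.up ℤ)).obj
        ((HomologicalComplex.single A (ComplexShape.up ℤ) 0).obj X) ≅
        ((HomotopyCategory.singleFunctor A a).obj X)⟦a⟧ :=
      (((HomotopyCategory.singleFunctors A).shiftIso a 0 a (by lia)).app X).symm
    have h3 := ObjectProperty.prop_of_iso _ e h2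
    have e2 : (((HomotopyCategory.singleFunctor A a).obj X)⟦a⟧)⟦-a⟧ ≅
        (HomotopyCategory.singleFunctor A a).obj X :=
      (shiftFunctorCompIsoId _ a (-a) (by lia)).app _
    exact ObjectProperty.prop_of_iso _ e2 (ObjectProperty.le_shift _ (-a) _ h3)
  exact key

variable (hΦ : ∀ (c c' : C) (n : ℕ), Function.Bijective (fun x : Ext.{w} c c' n =>
      (x.mapExactFunctor Φ : Ext.{w'} _ _ n)))
  (hΨ : ∀ X, B X → ∀ (c : C) (n : ℕ), Function.Bijective
      (fun x : Ext.{w} (Ψ.obj X) c n =>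
        ((Ext.mk₀ (adj.unit.app X)).comp (x.mapExactFunctor Φ : Ext.{w'} _ _ n) (zero_add n) :
          Ext.{w'} X (Φ.obj c) n)))

include hΦ hΨ in
/-- If `Q P` is isomorphic to `Φ G`, then `Ψ P` is isomorphic to `G` and the unit is an
isomorphism at `P`. -/
theorem exists_iso_of_tw {P : CochainComplex A ℤ} (hP : Tw B P) {G : DerivedCategory C}
    (hG : hull.{t} C G) (φ : Q.obj P ≅ Φ.mapDerivedCategory.obj G) :
    ∃ e : (lam₁ Ψ).obj ((HomotopyCategory.quotient A (ComplexShape.up ℤ)).obj P) ≅ G,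
      (dUnit adj).app ((HomotopyCategory.quotient A (ComplexShape.up ℤ)).obj P) ≫
        Φ.mapDerivedCategory.map e.hom = φ.hom := by
  let P' := (HomotopyCategory.quotient A (ComplexShape.up ℤ)).obj P
  have hcmp : ∀ N, hull.{t} C N → Function.Bijective
      (cmp (lam₁ Ψ) Qh Φ.mapDerivedCategory (dUnit adj) N P') := by
    intro N hN
    have h0 := cmp_bij adj hΨ hP hN 0
    rwa [cmp_bij_iff_of_iso _ ((shiftFunctorZero _ ℤ).app _)] at h0
  obtain ⟨g, hg⟩ := (hcmp G hG).2 φ.hom
  have hbij : ∀ N, hull.{t} C N → Function.Bijective (fun h : G ⟶ N => g ≫ h) := by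
    intro N hN
    have h1 : cmp (lam₁ Ψ) Qh Φ.mapDerivedCategory (dUnit adj) N P' ∘ (fun h : G ⟶ N => g ≫ h) =
        (fun y => φ.hom ≫ y) ∘ (fun h : G ⟶ N => Φ.mapDerivedCategory.map h) := by
      funext h
      change (dUnit adj).app P' ≫ Φ.mapDerivedCategory.map (g ≫ h) =
        φ.hom ≫ Φ.mapDerivedCategory.map h
      rw [← hg, Functor.map_comp, ← Category.assoc]
      rfl
    rw [← (hcmp N hN).of_comp_iff', h1]
    refine Function.Bijective.comp ?_ (map_bij Φ hΦ hG hN)
    exact ⟨fun y y' hy => (cancel_epi _).1 hy, fun y => ⟨φ.inv ≫ y, Iso.hom_inv_id_assoc _ _⟩⟩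
  obtain ⟨h, hh⟩ := (hbij _ (hull_lam hP)).2 (𝟙 _)
  replace hh : g ≫ h = 𝟙 _ := hh
  have hh' : h ≫ g = 𝟙 _ := by
    apply (hbij _ hG).1
    change g ≫ h ≫ g = g ≫ 𝟙 _
    rw [← Category.assoc, hh, Category.id_comp, Category.comp_id]
  exact ⟨⟨g, h, hh, hh'⟩, hg⟩

/-- If the unit is an isomorphism at the iterated cone `L`, then `Ψ` is bijective on morphisms
(in the homotopy category) from iterated cones to `L`. -/
theorem lam_bij (hB : ∀ X Y, B X → B Y → ∀ n : ℕ, 0 < n → Subsingleton (Ext.{w'} X Y n))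
    (hΨ : ∀ X, B X → ∀ (c : C) (n : ℕ), Function.Bijective
      (fun x : Ext.{w} (Ψ.obj X) c n =>
        ((Ext.mk₀ (adj.unit.app X)).comp (x.mapExactFunctor Φ : Ext.{w'} _ _ n) (zero_add n) :
          Ext.{w'} X (Φ.obj c) n)))
    {K L : CochainComplex A ℤ} (hK : Tw B K) (hL : Tw B L)
    (hu : IsIso ((dUnit adj).app ((HomotopyCategory.quotient A (ComplexShape.up ℤ)).obj L))) :
    Function.Bijective (fun f : (HomotopyCategory.quotient A (ComplexShape.up ℤ)).obj K ⟶
      (HomotopyCategory.quotient A (ComplexShape.up ℤ)).obj L => (lam₁ Ψ).map f) := by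
  have hc : Function.Bijective (cmp (lam₁ Ψ) Qh Φ.mapDerivedCategory (dUnit adj)
      ((lam₁ Ψ).obj ((HomotopyCategory.quotient A (ComplexShape.up ℤ)).obj L))
      ((HomotopyCategory.quotient A (ComplexShape.up ℤ)).obj K)) := by
    have h0 := cmp_bij adj hΨ hK (hull_lam (C := C) (Ψ := Ψ) hL) 0
    rwa [cmp_bij_iff_of_iso _ ((shiftFunctorZero _ ℤ).app _)] at h0
  rw [← hc.of_comp_iff']
  have h1 : cmp (lam₁ Ψ) Qh Φ.mapDerivedCategory (dUnit adj)
      ((lam₁ Ψ).obj ((HomotopyCategory.quotient A (ComplexShape.up ℤ)).obj L))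
      ((HomotopyCategory.quotient A (ComplexShape.up ℤ)).obj K) ∘
      (fun f : (HomotopyCategory.quotient A (ComplexShape.up ℤ)).obj K ⟶
      (HomotopyCategory.quotient A (ComplexShape.up ℤ)).obj L => (lam₁ Ψ).map f) =
      (fun y => y ≫ (dUnit adj).app ((HomotopyCategory.quotient A (ComplexShape.up ℤ)).obj L)) ∘
      (fun f : (HomotopyCategory.quotient A (ComplexShape.up ℤ)).obj K ⟶
      (HomotopyCategory.quotient A (ComplexShape.up ℤ)).obj L => Qh.map f) := by
    funext f
    exact ((dUnit adj).naturality f).symm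
  rw [h1]
  refine Function.Bijective.comp ?_ (tw_bijective.{t'} hB K L hK hL)
  exact ⟨fun y y' hy => (cancel_mono _).1 hy, fun y => ⟨y ≫ inv ((dUnit adj).app
    ((HomotopyCategory.quotient A (ComplexShape.up ℤ)).obj L)), by
      change (y ≫ inv ((dUnit adj).app _)) ≫ (dUnit adj).app _ = y
      rw [Category.assoc, IsIso.inv_hom_id, Category.comp_id]⟩⟩

end main

end Orl.LF
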