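import Pool.Agent.Work.MP_a6e60d_ag.LF.Unit

/-!
# The comparison maps for objects of the abelian categories
-/

open CategoryTheory Limits Pretriangulated Abelian DerivedCategory

attribute [-instance] CategoryTheory.catToReflQuiver

namespace Orl.LF

universe t t' w w' v₁ v₂ u₁ u₂

section

lemma assoc_aux {V : Type u₁} [Category.{v₁} V] {X₁ X₂ X₃ X₄ X₅ X₆ : V} (a : X₁ ⟶ X₂)
    (b : X₂ ⟶ X₃) (d : X₃ ⟶ X₄) (s : X₄ ⟶ X₅) (τ : X₅ ⟶ X₆) :
    ((a ≫ b) ≫ d) ≫ s ≫ τ = a ≫ b ≫ (d ≫ s) ≫ τ := by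
  simp only [Category.assoc]

variable {C : Type u₁} [Category.{v₁} C] [Abelian C] [HasDerivedCategory.{t} C]

lemma hom_single_neg (X Y : C) (n : ℤ) (hn : n < 0)
    (f : (singleFunctor C 0).obj X ⟶ ((singleFunctor C 0).obj Y)⟦n⟧) : f = 0 := by
  have : (((singleFunctor C 0).obj Y)⟦n⟧).IsGE (-n) :=
    TStructure.t.isGE_shift _ 0 n (-n)
  exact TStructure.t.zero f 0 (-n)

lemma ext_hom_bijective [HasExt.{w} C] (X Y : C) (n : ℕ) :
    Function.Bijective (fun e : Ext.{w} X Y n => e.hom) :=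
  Ext.homEquiv.bijective

end

section

variable {C : Type u₁} [Category.{v₁} C] [Abelian C] {A : Type u₂} [Category.{v₂} A] [Abelian A]
  {Ψ : A ⥤ C} {Φ : C ⥤ A} [Ψ.Additive] [Φ.Additive] (adj : Ψ ⊣ Φ)
variable [HasDerivedCategory.{t} C] [HasDerivedCategory.{t'} A]
  [PreservesFiniteLimits Φ] [PreservesFiniteColimits Φ] [HasExt.{w} C] [HasExt.{w'} A]

/-- the isomorphism between `Ψ` of a single complex and a single complex -/
noncomputable def psiSingle (Ψ : A ⥤ C) [Ψ.Additive] (X : A) :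
    (lam₁ Ψ).obj ((HomotopyCategory.quotient A (ComplexShape.up ℤ)).obj
      ((HomologicalComplex.single A (ComplexShape.up ℤ) 0).obj X)) ≅
      (singleFunctor C 0).obj (Ψ.obj X) :=
  Q.mapIso ((HomologicalComplex.singleMapHomologicalComplex Ψ (ComplexShape.up ℤ) 0).app X)

/-- `Φ (c[n]) = (Φ c)[n]` for a single object `c` -/
noncomputable def phiShift (Φ : C ⥤ A) [Φ.Additive] [PreservesFiniteLimits Φ]
    [PreservesFiniteColimits Φ] (c : C) (n : ℤ) :
    Φ.mapDerivedCategory.obj (((singleFunctor C 0).obj c)⟦n⟧) ≅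
      ((singleFunctor A 0).obj (Φ.obj c))⟦n⟧ :=
  (Φ.mapDerivedCategory.commShiftIso n).app ((singleFunctor C 0).obj c) ≪≫
    (shiftFunctor _ n).mapIso ((Φ.mapDerivedCategorySingleFunctor 0).app c)

/-- the comparison map for Ext in the derived category -/
lemma cmp_psiSingle {X : A} {c : C} {n : ℕ} (e : Ext.{w} (Ψ.obj X) c n) :
    cmp (lam₁ Ψ) Qh Φ.mapDerivedCategory (dUnit adj)
      (((singleFunctor C 0).obj c)⟦(n : ℤ)⟧) ((HomotopyCategory.quotient A (ComplexShape.up ℤ)).obj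
      ((HomologicalComplex.single A (ComplexShape.up ℤ) 0).obj X)) ((psiSingle Ψ X).hom ≫ e.hom) ≫
        (phiShift Φ c n).hom =
      ((Ext.mk₀ (adj.unit.app X)).comp (e.mapExactFunctor Φ : Ext.{w'} _ _ n) (zero_add n)).hom := by
  rw [Ext.comp_hom, Ext.mk₀_hom, ShiftedHom.mk₀_comp, Ext.mapExactFunctor_hom]
  have h1 := dUnit_single adj X
  have h2 : cmp (lam₁ Ψ) Qh Φ.mapDerivedCategory (dUnit adj)
      (((singleFunctor C 0).obj c)⟦(n : ℤ)⟧) ((HomotopyCategory.quotient A (ComplexShape.up ℤ)).obj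
      ((HomologicalComplex.single A (ComplexShape.up ℤ) 0).obj X)) ((psiSingle Ψ X).hom ≫ e.hom) =
      ((singleFunctor A 0).map (adj.unit.app X) ≫
        (Φ.mapDerivedCategorySingleFunctor 0).inv.app (Ψ.obj X)) ≫
          Φ.mapDerivedCategory.map e.hom := by
    rw [← h1]
    exact (congrArg ((dUnit adj).app _ ≫ ·)
      (Φ.mapDerivedCategory.map_comp (psiSingle Ψ X).hom e.hom)).trans
        (Category.assoc _ _ _).symm
  rw [h2]
  exact assoc_aux ((singleFunctor A 0).map (adj.unit.app X))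
    ((Φ.mapDerivedCategorySingleFunctor 0).inv.app (Ψ.obj X)) (Φ.mapDerivedCategory.map e.hom)
    ((Φ.mapDerivedCategory.commShiftIso (n : ℤ)).hom.app ((singleFunctor C 0).obj c))
    (((Φ.mapDerivedCategorySingleFunctor 0).hom.app c)⟦(n : ℤ)⟧')

lemma cmp_single_bij (X : A) (c : C)
    (h : ∀ n : ℕ, Function.Bijective (fun x : Ext.{w} (Ψ.obj X) c n =>
      ((Ext.mk₀ (adj.unit.app X)).comp (x.mapExactFunctor Φ : Ext.{w'} _ _ n) (zero_add n) :
        Ext.{w'} X (Φ.obj c) n))) (n : ℤ) :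
    Function.Bijective (cmp (lam₁ Ψ) Qh Φ.mapDerivedCategory (dUnit adj)
      (((singleFunctor C 0).obj c)⟦n⟧) ((HomotopyCategory.quotient A (ComplexShape.up ℤ)).obj
      ((HomologicalComplex.single A (ComplexShape.up ℤ) 0).obj X))) := by
  rcases lt_or_ge n 0 with hn | hn
  · constructor
    · intro g g' _
      rw [← cancel_epi (psiSingle Ψ X).inv, hom_single_neg _ _ n hn ((psiSingle Ψ X).inv ≫ g),
        hom_single_neg _ _ n hn ((psiSingle Ψ X).inv ≫ g')]
    · intro y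
      refine ⟨0, ?_⟩
      have h0 : y ≫ (phiShift Φ c n).hom = 0 := hom_single_neg X (Φ.obj c) n hn _
      rw [cmp_zero, ← cancel_mono (phiShift Φ c n).hom, h0, zero_comp]
  · obtain ⟨n, rfl⟩ := Int.eq_ofNat_of_zero_le hn
    let p : Ext.{w} (Ψ.obj X) c n → ((lam₁ Ψ).obj
        ((HomotopyCategory.quotient A (ComplexShape.up ℤ)).obj
        ((HomologicalComplex.single A (ComplexShape.up ℤ) 0).obj X)) ⟶
          ((singleFunctor C 0).obj c)⟦(n : ℤ)⟧) := fun e => (psiSingle Ψ X).hom ≫ e.hom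
    have hp : Function.Bijective p := by
      refine Function.Bijective.comp (g := fun g => (psiSingle Ψ X).hom ≫ g) ?_
        (ext_hom_bijective _ _ n)
      exact ⟨fun g g' hg => (cancel_epi _).1 hg,
        fun y => ⟨(psiSingle Ψ X).inv ≫ y, Iso.hom_inv_id_assoc _ _⟩⟩
    let q : (Qh.obj ((HomotopyCategory.quotient A (ComplexShape.up ℤ)).obj
        ((HomologicalComplex.single A (ComplexShape.up ℤ) 0).obj X)) ⟶
          Φ.mapDerivedCategory.obj (((singleFunctor C 0).obj c)⟦(n : ℤ)⟧)) →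
        ShiftedHom ((singleFunctor A 0).obj X) ((singleFunctor A 0).obj (Φ.obj c)) (n : ℤ) :=
      fun y => y ≫ (phiShift Φ c n).hom
    have hq : Function.Bijective q :=
      ⟨fun g g' hg => (cancel_mono _).1 hg, fun y => ⟨y ≫ (phiShift Φ c n).inv, by
        change (y ≫ (phiShift Φ c n).inv) ≫ (phiShift Φ c n).hom = y
        rw [Category.assoc, Iso.inv_hom_id, Category.comp_id]⟩⟩
    have h1 := (ext_hom_bijective X (Φ.obj c) n).comp (h n)
    have hpq : (fun e => e.hom) ∘ (fun x : Ext.{w} (Ψ.obj X) c n =>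
      ((Ext.mk₀ (adj.unit.app X)).comp (x.mapExactFunctor Φ : Ext.{w'} _ _ n) (zero_add n) :
        Ext.{w'} X (Φ.obj c) n)) = q ∘ cmp (lam₁ Ψ) Qh Φ.mapDerivedCategory (dUnit adj)
        (((singleFunctor C 0).obj c)⟦(n : ℤ)⟧) ((HomotopyCategory.quotient A (ComplexShape.up ℤ)).obj
        ((HomologicalComplex.single A (ComplexShape.up ℤ) 0).obj X)) ∘ p := by
      funext e
      exact (cmp_psiSingle adj e).symm
    have h2 := (congrArg Function.Bijective hpq).mp h1
    exact (hp.of_comp_iff _).1 ((hq.of_comp_iff' _).1 h2)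

end

end Orl.LF
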