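import Pool.Agent.Work.MP_a6e60d_ag.LF.AbsA
import Pool.Agent.Work.MP_a6e60d_ag.DG.Equiv2
import Pool.Agent.Work.MP_a6e60d_ag.DG.MapCx

/-!
# The quasi-isomorphism `Hom (P, P) → Hom (Ψ P, J)`
-/

open CategoryTheory CochainComplex HomComplex Limits Pretriangulated DerivedCategory

attribute [-instance] CategoryTheory.catToReflQuiver

namespace Orl.LF

universe t t' w w' v₁ v₂ u₁ u₂

section shiftmap

variable {C : Type u₁} [Category.{v₁} C] [Preadditive C] {A : Type u₂} [Category.{v₂} A]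
  [Preadditive A] (Ψ : A ⥤ C) [Ψ.Additive]

lemma equivHomShift_map {P L : CochainComplex A ℤ} {n : ℤ} (f : P ⟶ L⟦n⟧) :
    (Cocycle.equivHomShift ((Ψ.mapHomologicalComplex (ComplexShape.up ℤ)).map f ≫
      ((Ψ.mapHomologicalComplex (ComplexShape.up ℤ)).commShiftIso n).hom.app L)).1 =
      (Cocycle.equivHomShift f).1.map Ψ := by
  ext p q rfl
  simp only [Cocycle.equivHomShift_apply, Cocycle.rightUnshift_coe, Cocycle.ofHom_coe,
    Cochain.rightUnshift_v _ _ _ _ _ _ _ (add_zero p), Cochain.map_v]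
  simp
  exact Category.comp_id (Ψ.map (f.f p))

end shiftmap

section qiso

variable {k : Type} [CommRing k] {C : Type 1} [Category.{0} C] [Abelian C] [Linear k C]
  {A : Type 1} [Category.{0} A] [Abelian A] [Linear k A]
variable [HasDerivedCategory.{t} C] (Ψ : A ⥤ C) [Ψ.Additive] [Ψ.Linear k]

lemma isIso_Qh_map' {K L : CochainComplex C ℤ} (p : K ⟶ L) [QuasiIso p] :
    IsIso (Qh.map ((HomotopyCategory.quotient C (ComplexShape.up ℤ)).map p)) :=
  inferInstanceAs (IsIso (Q.map p))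

/-- If `Ψ` is bijective on the morphisms `P → P[n]` (from the homotopy category to the derived
category), then `Hom (P, P) → Hom (Ψ P, J)` is a quasi-isomorphism. -/
theorem qIso_of_lam_bij {P : CochainComplex A ℤ} {J : CochainComplex C ℤ} [J.IsKInjective]
    (q : (Ψ.mapHomologicalComplex (ComplexShape.up ℤ)).obj P ⟶ J) [QuasiIso q]
    (h : ∀ n : ℤ, Function.Bijective
      (fun f : (HomotopyCategory.quotient A (ComplexShape.up ℤ)).obj P ⟶
        (HomotopyCategory.quotient A (ComplexShape.up ℤ)).obj (P⟦n⟧) => (lam₁ Ψ).map f)) :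
    QIso (mixl (mapDG (k := k) Ψ) (b := J) (Cochain.ofHom q) P) := by
  let q₁ := HomotopyCategory.quotient A (ComplexShape.up ℤ)
  let q₂ := HomotopyCategory.quotient C (ComplexShape.up ℤ)
  let Ψ' := Ψ.mapHomologicalComplex (ComplexShape.up ℤ)
  -- the class of the image of a cocycle
  have key : ∀ (n : ℤ) (f : P ⟶ P⟦n⟧), ∃ z : Cocycle (Ψ'.obj P) J n,
      z.1 = mixl (mapDG (k := k) Ψ) (b := J) (Cochain.ofHom q) P n (Cocycle.equivHomShift f).1 ∧
      Cocycle.equivHomShift.symm z = Ψ'.map f ≫ (Ψ'.commShiftIso n).hom.app P ≫ q⟦n⟧' := by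
    intro n f
    refine ⟨Cocycle.equivHomShift (Ψ'.map f ≫ (Ψ'.commShiftIso n).hom.app P ≫ q⟦n⟧'), ?_, by
      rw [AddEquiv.symm_apply_apply]⟩
    have h1 := Cocycle.equivHomShift_comp_shift (Ψ'.map f ≫ (Ψ'.commShiftIso n).hom.app P) q
    rw [Category.assoc] at h1
    rw [h1]
    change (Cocycle.equivHomShift (Ψ'.map f ≫ (Ψ'.commShiftIso n).hom.app P)).1.comp
      (Cochain.ofHom q) (add_zero n) = _
    rw [equivHomShift_map]
    rfl
  -- the comparison of the targets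
  let θ : ∀ n : ℤ, (lam₁ Ψ).obj (q₁.obj (P⟦n⟧)) ⟶ Qh.obj (q₂.obj (J⟦n⟧)) := fun n =>
    Qh.map (q₂.map ((Ψ'.commShiftIso n).hom.app P ≫ q⟦n⟧'))
  have hθ : ∀ n, IsIso (θ n) := fun n => by
    have h1 : IsIso (Qh.map (q₂.map (q⟦n⟧'))) := isIso_Qh_map' _
    have h2 : θ n = Qh.map (q₂.map ((Ψ'.commShiftIso n).hom.app P)) ≫
        Qh.map (q₂.map (q⟦n⟧')) := by
      change Qh.map (q₂.map ((Ψ'.commShiftIso n).hom.app P ≫ q⟦n⟧')) = _
      rw [q₂.map_comp, Functor.map_comp]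
    have h3 : IsIso (Qh.map (q₂.map ((Ψ'.commShiftIso n).hom.app P))) :=
      (Qh.mapIso (q₂.mapIso ((Ψ'.commShiftIso n).app P))).isIso_hom
    rw [h2]
    exact @IsIso.comp_isIso _ _ _ _ _ _ _ h3 h1
  have hlam : ∀ (n : ℤ) (f : P ⟶ P⟦n⟧), (lam₁ Ψ).map (q₁.map f) ≫ θ n =
      Qh.map (q₂.map (Ψ'.map f ≫ (Ψ'.commShiftIso n).hom.app P ≫ q⟦n⟧')) := fun n f => by
    rw [q₂.map_comp, Functor.map_comp]
    rfl
  have hzero : ∀ (n : ℤ) (z : Cocycle (Ψ'.obj P) J n),
      q₂.map (Cocycle.equivHomShift.symm z) = 0 ↔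
        ∃ α : Cochain (Ψ'.obj P) J (n - 1), δ (n - 1) n α = z.1 := fun n z => by
    rw [← CohomologyClass.toHom_mk, CohomologyClass.toHom_mk_eq_zero_iff,
      mem_coboundaries_iff z (n - 1) (by lia)]
  have hzero' : ∀ (n : ℤ) (z : Cocycle P P n),
      q₁.map (Cocycle.equivHomShift.symm z) = 0 ↔
        ∃ α : Cochain P P (n - 1), δ (n - 1) n α = z.1 := fun n z => by
    rw [← CohomologyClass.toHom_mk, CohomologyClass.toHom_mk_eq_zero_iff,
      mem_coboundaries_iff z (n - 1) (by lia)]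
  constructor
  · intro n x hx hy
    let z : Cocycle P P n := Cocycle.mk x (n + 1) rfl hx
    obtain ⟨z', hz', hz''⟩ := key n (Cocycle.equivHomShift.symm z)
    rw [AddEquiv.apply_symm_apply] at hz'
    have h1 : q₂.map (Cocycle.equivHomShift.symm z') = 0 := by
      rw [hzero]
      obtain ⟨y, hy⟩ := hy
      exact ⟨y, hy.trans hz'.symm⟩
    have h2 : (lam₁ Ψ).map (q₁.map (Cocycle.equivHomShift.symm z)) = 0 := by
      rw [← cancel_mono (θ n), hlam, ← hz'', h1, Functor.map_zero, zero_comp]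
      rfl
    have h3 : q₁.map (Cocycle.equivHomShift.symm z) = 0 := by
      apply (h n).1
      exact h2.trans (Functor.map_zero _ _ _).symm
    exact (hzero' n z).1 h3
  · intro n y hy
    let w : Cocycle (Ψ'.obj P) J n := Cocycle.mk y (n + 1) rfl hy
    obtain ⟨a, ha⟩ := (h n).2 (Qh.map (q₂.map (Cocycle.equivHomShift.symm w)) ≫ inv (θ n))
    obtain ⟨f, rfl⟩ := q₁.map_surjective a
    obtain ⟨z', hz', hz''⟩ := key n f
    have h1 : Qh.map (q₂.map (Cocycle.equivHomShift.symm w)) =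
        Qh.map (q₂.map (Cocycle.equivHomShift.symm z')) := by
      rw [hz'', ← hlam]
      change _ = ((lam₁ Ψ).map (q₁.map f)) ≫ θ n
      rw [show (lam₁ Ψ).map (q₁.map f) = _ from ha, Category.assoc, IsIso.inv_hom_id,
        Category.comp_id]
      rfl
    have h2 := (IsKInjective.Qh_map_bijective (q₂.obj (Ψ'.obj P)) (J⟦n⟧)).1 h1
    have h3 : q₂.map (Cocycle.equivHomShift.symm (w - z')) = 0 := by
      rw [map_sub, Functor.map_sub, h2, sub_self]
    obtain ⟨α, hα⟩ := (hzero n _).1 h3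
    refine ⟨(Cocycle.equivHomShift f).1, (Cocycle.equivHomShift f).δ_eq_zero _, α, ?_⟩
    rw [← hz']
    exact hα

end qiso

end Orl.LF
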