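import Pool.Agent.Work.MP_a6e60d_ag.LF.Iota

/-!
# The data `(Q, V)` used in Theorem A

`Q` is a `k`-linear category with three objects `a`, `b`, `f` and `V` a finite-dimensional
representation of `Q` with a resolution `0 → P_f → P_b → P_a → V → 0` (one copy each) and
`RHom(V, V) = k`.
-/

open CategoryTheory Limits

attribute [-instance] CategoryTheory.catToReflQuiver

namespace Orl.LF

universe w v u v' u'

/-- The data of a representation `V` of the three-object category `Q` with `RHom(V, V) = k`. -/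
structure LamData (k : Type*) [Field k] (Q : Type u) [Category.{v} Q] [Preadditive Q]
    [Linear k Q] where
  /-- the representation -/
  V : Repn.{w} k Q k
  /-- first object -/
  a : Q
  /-- second object -/
  b : Q
  /-- third object -/
  f : Q
  /-- every object is one of the three -/
  cases : ∀ x : Q, x = a ∨ x = b ∨ x = f
  /-- directedness -/
  ba : ∀ q : b ⟶ a, q = 0
  fa : ∀ q : f ⟶ a, q = 0
  fb : ∀ q : f ⟶ b, q = 0
  /-- finiteness -/
  finHom : ∀ x y : Q, Module.Finite k (x ⟶ y)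
  /-- the generator of `V` -/
  v : V.V a
  /-- the relation -/
  r : a ⟶ b
  /-- the relation between the relations -/
  s : b ⟶ f
  v_ne : v ≠ 0
  r_v : V.map r v = 0
  r_s : r ≫ s = 0
  /-- `P_a → V` is surjective -/
  exV : ∀ (y : Q) (w : V.V y), ∃ q : a ⟶ y, V.map q v = w
  /-- exactness at `P_a` -/
  exA : ∀ (y : Q) (q : a ⟶ y), V.map q v = 0 → ∃ q' : b ⟶ y, r ≫ q' = q
  /-- exactness at `P_b` -/
  exB : ∀ (y : Q) (q : b ⟶ y), r ≫ q = 0 → ∃ q' : f ⟶ y, s ≫ q' = q
  /-- `P_f → P_b` is injective -/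
  exF : ∀ (y : Q) (q : f ⟶ y), s ≫ q = 0 → q = 0
  /-- exactness of `0 → k → V_a → V_b → V_f → 0` at `V_a` -/
  vA : ∀ w : V.V a, V.map r w = 0 → ∃ c : k, w = c • v
  /-- exactness at `V_b` -/
  vB : ∀ w : V.V b, V.map s w = 0 → ∃ w' : V.V a, V.map r w' = w
  /-- exactness at `V_f` -/
  vF : ∀ w : V.V f, ∃ w' : V.V b, V.map s w' = w
  /-- the generator of the dual of `V` -/
  lam : V.V f →ₗ[k] k
  /-- the relation of the dual -/
  s' : b ⟶ f
  s'_lam : ∀ w : V.V b, lam (V.map s' w) = 0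
  /-- `P'_f → V^*` is surjective -/
  exV' : ∀ (y : Q) (ξ : V.V y →ₗ[k] k), ∃ q : y ⟶ f, ∀ w : V.V y, ξ w = lam (V.map q w)
  /-- exactness at `P'_f` -/
  exF' : ∀ (y : Q) (q : y ⟶ f), (∀ w : V.V y, lam (V.map q w) = 0) →
    ∃ q' : y ⟶ b, q' ≫ s' = q

end Orl.LF
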