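import Pool.Agent.Work.MP_a6e60d_ag.LF.LamV
import Pool.Agent.Work.MP_a6e60d_ag.LF.LamData

/-!
# The category `Λ` and its module `V` satisfy `LamData`
-/

noncomputable section

open CategoryTheory

attribute [-instance] CategoryTheory.catToReflQuiver

namespace Orl.LF

universe u

variable {k F L : Type u} [Field k] [Field F] [Field L] [Algebra k F] [Algebra k L]

open QuadraticAlgebra

namespace Dat

variable (D : Dat k F L)

include D in
lemma finite_F : Module.Finite k F := Module.Finite.equiv D.e.symm.toLinearEquiv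

include D in
lemma finite_L : Module.Finite k L := Module.Finite.of_basis D.b

lemma finite_K : Module.Finite k D.K := by
  have := D.finite_L
  exact Module.Finite.trans L D.K

lemma abf_w (z : D.K) : D.abf D.w z =
    (D.wF * D.lamF z, -(D.wF * D.lamF z), D.wF * D.lamF (D.kap * z)) := by
  simp only [abf]
  refine tri ?_ ?_ ?_
  · rw [← iF_wF, lamF_mul_iF, mul_comm]
  · rw [tau_w, mul_neg, map_neg, ← iF_wF, lamF_mul_iF, mul_comm]
  · rw [← mul_assoc, ← iF_wF, lamF_mul_iF, mul_comm]

lemma abf_w' (z : D.K) : D.abf z D.w =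
    (D.wF * D.lamF z, D.wF * D.sF (D.lamF z), D.wF * D.lamF (D.kap * z)) := by
  simp only [abf]
  refine tri ?_ ?_ ?_
  · rw [← iF_wF, lamF_iF_mul]
  · rw [← iF_wF, lamF_iF_mul, lamF_tau]
  · rw [mul_left_comm, ← iF_wF, lamF_iF_mul]

lemma exists_pair (p r : F) : ∃ z : D.K, D.abf D.w z = (p, -p, r) := by
  obtain ⟨z, h1, h2⟩ := D.exists_lamF (D.wF⁻¹ * p) (D.wF⁻¹ * r)
  refine ⟨z, ?_⟩
  rw [abf_w, h1, h2, mul_inv_cancel_left₀ D.wF_ne, mul_inv_cancel_left₀ D.wF_ne]

lemma exists_pair' (p r : F) : ∃ z : D.K, D.abf z D.w = (p, -D.sF p, r) := by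
  obtain ⟨z, h1, h2⟩ := D.exists_lamF (D.wF⁻¹ * p) (D.wF⁻¹ * r)
  refine ⟨z, ?_⟩
  have h3 : D.wF * D.sF (D.wF⁻¹ * p) = - D.sF p := by
    have : D.sF p = D.sF D.wF * D.sF (D.wF⁻¹ * p) := by
      rw [← sF_mul, mul_inv_cancel_left₀ D.wF_ne]
    rw [this, sF_wF]
    ring
  rw [abf_w', h1, h2, mul_inv_cancel_left₀ D.wF_ne, mul_inv_cancel_left₀ D.wF_ne, h3]

lemma eq_zero_of_abf_w {z : D.K} (h : D.abf D.w z = 0) :
    D.lamF z = 0 ∧ D.lamF (D.kap * z) = 0 := by
  rw [abf_w] at h
  have h1 : D.wF * D.lamF z = 0 := congrArg Prod.fst h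
  have h2 : D.wF * D.lamF (D.kap * z) = 0 := congrArg (fun t : F × F × F => t.2.2) h
  exact ⟨(mul_eq_zero.1 h1).resolve_left D.wF_ne, (mul_eq_zero.1 h2).resolve_left D.wF_ne⟩

lemma vab_w (x : F) : D.vab D.w x = algebraMap k L (2 * D.a * D.imF x) := by
  simp only [vab, trL_apply, re_mul, w_re, w_im, iF_re, iF_im, imF_apply, map_mul, map_ofNat]
  ring

lemma vbf_s_mu (l : L) : D.mu (D.vbf D.s l) = D.b.repr l 1 := by
  rw [vbf, mu_lamF]
  have : (D.s * D.iL l).re = D.th * l - algebraMap k L D.c2 * l := by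
    simp only [re_mul, s_re, s_im, iL_re, iL_im]
    ring
  rw [this, map_sub, lam_algebraMap_mul, lam_th_mul, lam_eq]
  ring

lemma vbf_s_imF (l : L) : D.imF (D.vbf D.s l) = D.b.repr l 2 := by
  rw [vbf, imF_lamF]
  have : (D.s * D.iL l).im = l := by
    simp only [im_mul, s_re, s_im, iL_re, iL_im]
    ring
  rw [this, lam_eq]

lemma exV_b (w : L) : D.vab (D.iL (w / 2)) 1 = w := by
  rw [vab, map_one, mul_one, trL_apply, iL_re]
  exact mul_div_cancel₀ _ D.twoL

lemma exV_f (w : F) : D.vaf (w, 0, 0) 1 = w := by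
  simp only [vaf, zero_mul, add_zero, mul_one]

lemma eq_mL_w (q : D.K) (h : q.re = 0) : D.mL q.im D.w = q := by
  ext
  · rw [h]; simp [mL]
  · simp [mL]

lemma exA_b (q : D.K) (h : D.vab q 1 = 0) : q.re = 0 := by
  rw [vab, map_one, mul_one, trL_apply] at h
  exact (mul_eq_zero.1 h).resolve_left D.twoL

lemma exA_f (q : F × F × F) (h : D.vaf q 1 = 0) : ∃ z, D.abf D.w z = q := by
  obtain ⟨q1, q2, q3⟩ := q
  have h2 : q2 = - q1 := by
    simp only [vaf, sF_one, mul_one] at h
    exact (neg_eq_of_add_eq_zero_right h).symm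
  obtain ⟨z, hz⟩ := D.exists_pair q1 q3
  exact ⟨z, by rw [h2]; exact hz⟩

lemma exB_b (q : L) (h : D.mL q D.w = 0) : q = 0 := by
  have := congrArg QuadraticAlgebra.im h
  simpa [mL] using this

lemma exF_f (q : F) (h : D.mF q D.s = 0) : q = 0 := by
  refine D.mF_s_injective (h.trans ?_)
  simp only [mF, map_zero, mul_zero]

lemma exV'_b (ξ : L →ₗ[k] k) : ∃ q : D.K, ∀ w, ξ w = D.mu (D.vbf q w) := by
  obtain ⟨l, hl⟩ := D.exists_lam ξ
  refine ⟨D.iL l, fun w => ?_⟩
  rw [vbf, D.mu_lamF]
  have : (D.iL l * D.iL w).re = l * w := by simp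
  rw [this]
  exact hl w

lemma exV'_a (ξ : F →ₗ[k] k) : ∃ q : F × F × F, ∀ w, ξ w = D.mu (D.vaf q w) := by
  obtain ⟨x, hx⟩ := D.exists_mu ξ
  refine ⟨(x, 0, 0), fun w => ?_⟩
  simp only [vaf, zero_mul, add_zero]
  exact hx w

lemma exF'_a (q : F × F × F) (h : ∀ w, D.mu (D.vaf q w) = 0) : ∃ z, D.abf z D.w = q := by
  obtain ⟨q1, q2, q3⟩ := q
  have h2 : q1 + D.sF q2 = 0 := by
    apply D.eq_zero_of_mu
    intro x
    have h3 := h x
    rw [vaf] at h3
    rw [add_mul, map_add]
    rw [map_add] at h3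
    have h4 : D.mu (D.sF q2 * x) = D.mu (q2 * D.sF x) := by
      rw [← D.mu_sF (q2 * D.sF x), D.sF_mul, D.sF_sF]
    rw [h4]
    exact h3
  have h5 : q2 = - D.sF q1 := by
    have : D.sF q1 + q2 = 0 := by
      have := congrArg D.sF h2
      simpa using this
    exact (neg_eq_of_add_eq_zero_right this).symm
  obtain ⟨z, hz⟩ := D.exists_pair' q1 q3
  exact ⟨z, by rw [h5]; exact hz⟩

lemma exF'_b (q : D.K) (h : ∀ w, D.mu (D.vbf q w) = 0) : q.re = 0 := by
  apply D.eq_zero_of_lam
  intro m
  have h3 := h m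
  rw [vbf, D.mu_lamF] at h3
  have : (q * D.iL m).re = q.re * m := by simp
  rw [this] at h3
  exact h3

lemma vA (w : F) (h : D.vab D.w w = 0) : w = D.mu w • (1 : F) := by
  rw [D.vab_w] at h
  have h2 : D.imF w = 0 := by
    have := (map_eq_zero _).1 h
    exact (mul_eq_zero.1 this).resolve_left (mul_ne_zero D.two D.a0)
  apply D.F_ext
  · rw [map_smul, show (1 : F) = algebraMap k F 1 from (map_one _).symm, D.mu_algebraMap,
      smul_eq_mul, mul_one]
  · rw [h2, map_smul, show (1 : F) = algebraMap k F 1 from (map_one _).symm,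
      D.imF_algebraMap, smul_zero]

lemma vB (w : L) (h : D.vbf D.s w = 0) : ∃ x, D.vab D.w x = w := by
  have h1 : D.b.repr w 1 = 0 := by rw [← D.vbf_s_mu, h, map_zero]
  have h2 : D.b.repr w 2 = 0 := by rw [← D.vbf_s_imF, h, map_zero]
  refine ⟨D.mkF 0 (D.b.repr w 0 / (2 * D.a)), ?_⟩
  rw [D.vab_w, D.imF_mkF, mul_div_cancel₀ _ (mul_ne_zero D.two D.a0)]
  apply D.ext_repr
  · rw [show algebraMap k L (D.b.repr w 0) = D.mkL (D.b.repr w 0) 0 0 by simp [mkL],
      D.repr_mkL0]
  · rw [show algebraMap k L (D.b.repr w 0) = D.mkL (D.b.repr w 0) 0 0 by simp [mkL],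
      D.repr_mkL1, h1]
  · rw [show algebraMap k L (D.b.repr w 0) = D.mkL (D.b.repr w 0) 0 0 by simp [mkL],
      D.repr_mkL2, h2]

lemma vF (w : F) : ∃ x, D.vbf D.s x = w := by
  refine ⟨D.mkL 0 (D.mu w) (D.imF w), ?_⟩
  apply D.F_ext
  · rw [D.vbf_s_mu, D.repr_mkL1]
  · rw [D.vbf_s_imF, D.repr_mkL2]

lemma s'_lam (w : L) : D.mu (D.vbf D.w w) = 0 := by
  rw [vbf, D.mu_lamF]
  have : (D.w * D.iL w).re = 0 := by simp
  rw [this, map_zero]

lemma r_v : D.vab D.w 1 = 0 := by
  rw [D.vab_w, show (1 : F) = algebraMap k F 1 from (map_one _).symm, D.imF_algebraMap,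
    mul_zero, map_zero]

lemma r_s : D.abf D.w D.s = 0 := by
  rw [D.abf_w, D.lamF_s, D.lamF_kap_s, mul_zero, neg_zero]
  rfl

end Dat

namespace Ob

variable (D : Dat k F L)

instance finV : ∀ x : Ob D, Module.Finite k (VV D x)
  | .a => D.finite_F
  | .b => D.finite_L
  | .f => D.finite_F

instance finH : ∀ x y : Ob D, Module.Finite k (Hm D x y)
  | .a, .a => D.finite_F
  | .a, .b => D.finite_K
  | .a, .f => by
    have := D.finite_F
    exact inferInstanceAs (Module.Finite k (F × F × F))
  | .b, .b => D.finite_L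
  | .b, .f => D.finite_K
  | .f, .f => D.finite_F
  | .b, .a => inferInstanceAs (Module.Finite k PUnit.{u + 1})
  | .f, .a => inferInstanceAs (Module.Finite k PUnit.{u + 1})
  | .f, .b => inferInstanceAs (Module.Finite k PUnit.{u + 1})

/-- The representation `V` of `Λ`. -/
def VRep : Repn.{u} k (Ob D) k where
  V := VV D
  map g := actL g
  map_id x := LinearMap.ext fun v => one_act v
  map_comp f g := LinearMap.ext fun v => cmp_act f g v
  map_add f g := LinearMap.ext fun v => add_act f g v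
  map_smul r f := LinearMap.ext fun v => smul_act r f v

/-- **The data of Theorem A.** -/
def lamData : LamData k (Ob D) where
  V := VRep D
  a := .a
  b := .b
  f := .f
  cases := by
    rintro (_ | _ | _)
    · exact Or.inl rfl
    · exact Or.inr (Or.inl rfl)
    · exact Or.inr (Or.inr rfl)
  ba _ := rfl
  fa _ := rfl
  fb _ := rfl
  finHom := finH D
  v := (1 : F)
  r := D.w
  s := D.s
  v_ne := one_ne_zero (α := F)
  r_v := D.r_v
  r_s := D.r_s
  exV y w := by
    cases y
    · exact ⟨w, mul_one (M := F) w⟩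
    · exact ⟨_, D.exV_b w⟩
    · exact ⟨_, D.exV_f w⟩
  exA y q h := by
    cases y
    · exact ⟨PUnit.unit, (h.symm.trans (mul_one (M := F) q))⟩
    · exact ⟨_, D.eq_mL_w q (D.exA_b q h)⟩
    · exact D.exA_f q h
  exB y q h := by
    cases y
    · exact ⟨PUnit.unit, rfl⟩
    · exact ⟨PUnit.unit, (D.exB_b q h).symm⟩
    · obtain ⟨h1, h2⟩ := D.eq_zero_of_abf_w h
      exact D.exists_s q h1 h2
  exF y q h := by
    cases y
    · rfl
    · rfl
    · exact D.exF_f q h
  vA w h := ⟨D.mu w, D.vA w h⟩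
  vB w h := D.vB w h
  vF w := D.vF w
  lam := D.mu
  s' := D.w
  s'_lam w := D.s'_lam w
  exV' y ξ := by
    cases y
    · exact D.exV'_a ξ
    · exact D.exV'_b ξ
    · exact D.exists_mu ξ
  exF' y q h := by
    cases y
    · exact D.exF'_a q h
    · exact ⟨_, D.eq_mL_w q (D.exF'_b q h)⟩
    · exact ⟨PUnit.unit, (D.eq_zero_of_mu q h).symm⟩

/-! ### The functors from the one-object categories -/

/-- the functor `F → Λ` at the object `a` -/
def ia : SingleObj F ⥤ Ob D where
  obj _ := .a
  map := fun (e : F) => (show Hm D .a .a from e)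
  map_id _ := rfl
  map_comp _ _ := rfl

/-- the functor `L → Λ` at the object `b` -/
def ib : SingleObj L ⥤ Ob D where
  obj _ := .b
  map := fun (e : L) => (show Hm D .b .b from e)
  map_id _ := rfl
  map_comp _ _ := rfl

/-- the functor `F → Λ` at the object `f` -/
def iff : SingleObj F ⥤ Ob D where
  obj _ := .f
  map := fun (e : F) => (show Hm D .f .f from e)
  map_id _ := rfl
  map_comp _ _ := rfl

instance : (ia D).Additive where
  map_add := rfl

instance : (ib D).Additive where
  map_add := rfl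

instance : (iff D).Additive where
  map_add := rfl

instance : (ia D).Linear k where
  map_smul _ _ := rfl

instance : (ib D).Linear k where
  map_smul _ _ := rfl

instance : (iff D).Linear k where
  map_smul _ _ := rfl

instance : (ia D).Full where
  map_surjective g := ⟨g, rfl⟩

instance : (ib D).Full where
  map_surjective g := ⟨g, rfl⟩

instance : (iff D).Full where
  map_surjective g := ⟨g, rfl⟩

instance : (ia D).Faithful where
  map_injective h := h

instance : (ib D).Faithful where
  map_injective h := h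

instance : (iff D).Faithful where
  map_injective h := h

@[simp] lemma base_ia : base (ia D) = .a := rfl
@[simp] lemma base_ib : base (ib D) = .b := rfl
@[simp] lemma base_iff : base (iff D) = .f := rfl

end Ob

section finite

variable {Q : Type*} [Category* Q] [Preadditive Q] [Linear k Q]
variable {E : Type*} [Field E] [Algebra k E]
variable (i : SingleObj E ⥤ Q) [i.Additive] [i.Linear k]

/-- finiteness over `E` of the spaces `HomL` follows from finiteness over `k` -/
lemma finite_HomL (y : Q) [h : Module.Finite k (base i ⟶ y)] : Module.Finite E (HomL i y) := by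
  let : Module k (HomL i y) := inferInstanceAs (Module k (base i ⟶ y))
  have : IsScalarTower k E (HomL i y) := ⟨fun r e (q : base i ⟶ y) => by
    change imap i (r • e) ≫ q = r • (imap i e ≫ q)
    rw [imap_smul, Linear.smul_comp]⟩
  have : Module.Finite k (HomL i y) := h
  exact Module.Finite.of_restrictScalars_finite k E (HomL i y)

lemma finite_HomR (y : Q) [h : Module.Finite k (y ⟶ base i)] : Module.Finite E (HomR i y) := by
  let : Module k (HomR i y) := inferInstanceAs (Module k (y ⟶ base i))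
  have : IsScalarTower k E (HomR i y) := ⟨fun r e (q : y ⟶ base i) => by
    change q ≫ imap i (r • e) = r • (q ≫ imap i e)
    rw [imap_smul, Linear.comp_smul]⟩
  have : Module.Finite k (HomR i y) := h
  exact Module.Finite.of_restrictScalars_finite k E (HomR i y)

end finite

namespace Ob

variable (D : Dat k F L)

instance (x y : Ob D) : Module.Finite k (x ⟶ y) := finH D x y

instance (y : Ob D) : Module.Finite F (HomL (ia D) y) := finite_HomL (k := k) (ia D) y
instance (y : Ob D) : Module.Finite L (HomL (ib D) y) := finite_HomL (k := k) (ib D) y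
instance (y : Ob D) : Module.Finite F (HomL (iff D) y) := finite_HomL (k := k) (iff D) y
instance (y : Ob D) : Module.Finite F (HomR (ia D) y) := finite_HomR (k := k) (ia D) y
instance (y : Ob D) : Module.Finite L (HomR (ib D) y) := finite_HomR (k := k) (ib D) y
instance (y : Ob D) : Module.Finite F (HomR (iff D) y) := finite_HomR (k := k) (iff D) y

end Ob

end Orl.LF
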