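import Pool.Agent.Work.MP_a6e60d_ag.LF.Blocks
import Pool.Agent.Work.MP_a6e60d_ag.LF.Lam

/-!
# The blocks of the tilting object

Three families of modules, over `F`, `L` and `F`, induced from the three objects of `Λ`.
-/

open CategoryTheory Limits Abelian

attribute [-instance] CategoryTheory.catToReflQuiver

namespace Orl.LF

open Orl.Gal

universe w₁ w₂ w₃ w₄ u v' u'

attribute [local instance] Abelian.hasFiniteBiproducts

variable {k F L : Type u} [Field k] [Field F] [Field L] [Algebra k F] [Algebra k L]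
variable {C : Type u'} [Category.{v'} C] [Abelian C] [Linear k C]

section

variable {E : Type u} [Field E] [Algebra k E]

/-- finiteness of the spaces of morphisms of modules, from those of the underlying objects -/
lemma finite_hom_of_pt (M N : ModObj k E C) (h : Module.Finite k (M.pt ⟶ N.pt)) :
    Module.Finite k (M ⟶ N) := by
  let T : (M ⟶ N) →ₗ[k] (M.pt ⟶ N.pt) :=
    { toFun := fun f => (ev (SingleObj.star E)).map f
      map_add' := fun f g => Functor.map_add _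
      map_smul' := fun r f => Functor.map_smul _ _ _ }
  exact Module.Finite.of_injective T fun f g h => ModObj.hom_ext h

variable {Q : Type*} [Category* Q] [Preadditive Q] [Linear k Q]
  (i : SingleObj E ⥤ Q) [i.Additive] [i.Linear k] [∀ y, Module.Finite E (HomL i y)]

/-- the morphisms between objects induced along a fully faithful functor -/
lemma block_hom_finite_self [i.Full] [i.Faithful] (M N : ModObj k E C)
    (h : Module.Finite k (M ⟶ N)) :
    Module.Finite k ((ind C i).obj M ⟶ (ind C i).obj N) := by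
  have := (ind_full (k := k) (C := C) i).1
  have := (ind_full (k := k) (C := C) i).2
  let T : (M ⟶ N) →ₗ[k] ((ind C i).obj M ⟶ (ind C i).obj N) :=
    { toFun := fun f => (ind C i).map f
      map_add' := fun f g => Functor.map_add _
      map_smul' := fun r f => Functor.map_smul _ _ _ }
  exact Module.Finite.of_surjective T (ind C i).map_surjective

end

variable (D : Dat k F L)

/-- The blocks given by three families of modules. -/
noncomputable def blk {ιa ιb ιf : Type*} (ta : ιa → ModObj k F C) (tb : ιb → ModObj k L C)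
    (tf : ιf → ModObj k F C) : ιa ⊕ ιb ⊕ ιf → LinFun k (Ob D) C
  | .inl x => (ind C (Ob.ia D)).obj (ta x)
  | .inr (.inl x) => (ind C (Ob.ib D)).obj (tb x)
  | .inr (.inr x) => (ind C (Ob.iff D)).obj (tf x)

variable {ιa ιb ιf : Type*} (ta : ιa → ModObj k F C) (tb : ιb → ModObj k L C)
  (tf : ιf → ModObj k F C)

variable [Algebra.IsSeparable k F] [Algebra.IsSeparable k L]

/-- The higher extensions between the blocks vanish. -/
theorem blk_ext [HasExt.{w₁} C] [HasExt.{w₂} (LinFun k (Ob D) C)] [HasExt.{w₃} (ModObj k F C)]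
    [HasExt.{w₄} (ModObj k L C)] (n : ℕ)
    (haa : ∀ x y, Subsingleton (Ext.{w₃} (ta x) (ta y) n))
    (hbb : ∀ x y, Subsingleton (Ext.{w₄} (tb x) (tb y) n))
    (hff : ∀ x y, Subsingleton (Ext.{w₃} (tf x) (tf y) n))
    (hba : ∀ x y, Subsingleton (Ext.{w₁} (tb x).pt (ta y).pt n))
    (hfa : ∀ x y, Subsingleton (Ext.{w₁} (tf x).pt (ta y).pt n))
    (hfb : ∀ x y, Subsingleton (Ext.{w₁} (tf x).pt (tb y).pt n))
    (s t : ιa ⊕ ιb ⊕ ιf) : Subsingleton (Ext.{w₂} (blk D ta tb tf s) (blk D ta tb tf t) n) := by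
  have := D.finite_F
  have := D.finite_L
  rcases s with x | x | x <;> rcases t with y | y | y
  · exact block_ext_self (Ob.ia D) _ _ n (haa x y)
  · exact block_ext_of_zero (Ob.ia D) (Ob.ib D) (fun _ => rfl) _ _ n
  · exact block_ext_of_zero (Ob.ia D) (Ob.iff D) (fun _ => rfl) _ _ n
  · exact block_ext_of_pt (Ob.ib D) (Ob.ia D) _ _ n (hba x y)
  · exact block_ext_self (Ob.ib D) _ _ n (hbb x y)
  · exact block_ext_of_zero (Ob.ib D) (Ob.iff D) (fun _ => rfl) _ _ n
  · exact block_ext_of_pt (Ob.iff D) (Ob.ia D) _ _ n (hfa x y)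
  · exact block_ext_of_pt (Ob.iff D) (Ob.ib D) _ _ n (hfb x y)
  · exact block_ext_self (Ob.iff D) _ _ n (hff x y)

omit [Algebra.IsSeparable k F] [Algebra.IsSeparable k L] in
/-- The spaces of morphisms between the blocks are finite-dimensional. -/
theorem blk_finite
    (haa : ∀ x y, Module.Finite k (ta x ⟶ ta y))
    (hbb : ∀ x y, Module.Finite k (tb x ⟶ tb y))
    (hff : ∀ x y, Module.Finite k (tf x ⟶ tf y))
    (hba : ∀ x y, Module.Finite k ((tb x).pt ⟶ (ta y).pt))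
    (hfa : ∀ x y, Module.Finite k ((tf x).pt ⟶ (ta y).pt))
    (hfb : ∀ x y, Module.Finite k ((tf x).pt ⟶ (tb y).pt))
    (s t : ιa ⊕ ιb ⊕ ιf) : Module.Finite k (blk D ta tb tf s ⟶ blk D ta tb tf t) := by
  have hz : ∀ {X Y : LinFun k (Ob D) C}, (∀ f : X ⟶ Y, f = 0) → Module.Finite k (X ⟶ Y) := by
    intro X Y h
    have : Subsingleton (X ⟶ Y) := ⟨fun f g => (h f).trans (h g).symm⟩
    infer_instance
  rcases s with x | x | x <;> rcases t with y | y | y
  · exact block_hom_finite_self (Ob.ia D) _ _ (haa x y)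
  · exact hz (block_hom_zero (Ob.ia D) (Ob.ib D) (fun _ => rfl) _ _)
  · exact hz (block_hom_zero (Ob.ia D) (Ob.iff D) (fun _ => rfl) _ _)
  · exact block_hom_finite (Ob.ib D) (Ob.ia D) _ _ (hba x y)
  · exact block_hom_finite_self (Ob.ib D) _ _ (hbb x y)
  · exact hz (block_hom_zero (Ob.ib D) (Ob.iff D) (fun _ => rfl) _ _)
  · exact block_hom_finite (Ob.iff D) (Ob.ia D) _ _ (hfa x y)
  · exact block_hom_finite (Ob.iff D) (Ob.ib D) _ _ (hfb x y)
  · exact block_hom_finite_self (Ob.iff D) _ _ (hff x y)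

/-- The objects isomorphic to a block. -/
def Blk : ObjectProperty (LinFun k (Ob D) C) := fun X => ∃ s, Nonempty (X ≅ blk D ta tb tf s)

omit [Algebra.IsSeparable k F] [Algebra.IsSeparable k L] in
lemma blk_mem (s : ιa ⊕ ιb ⊕ ιf) : Blk D ta tb tf (blk D ta tb tf s) := ⟨s, ⟨Iso.refl _⟩⟩

instance : (Blk D ta tb tf).IsClosedUnderIsomorphisms where
  of_iso e h := by
    obtain ⟨s, ⟨f⟩⟩ := h
    exact ⟨s, ⟨e.symm ≪≫ f⟩⟩

lemma subsingleton_ext_of_iso {A : Type*} [Category* A] [Abelian A] [HasExt.{w₁} A]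
    {X X' Y Y' : A} (e : X ≅ X') (f : Y ≅ Y') (n : ℕ) (h : Subsingleton (Ext.{w₁} X' Y' n)) :
    Subsingleton (Ext.{w₁} X Y n) := by
  have key : ∀ x : Ext.{w₁} X Y n, x = 0 := by
    intro x
    have h1 : (Ext.mk₀ e.hom).comp
        (((Ext.mk₀ e.inv).comp x (zero_add n)).comp (Ext.mk₀ f.hom) (add_zero n))
        (zero_add n) = x.comp (Ext.mk₀ f.hom) (add_zero n) := by
      rw [← Ext.comp_assoc_of_third_deg_zero, ← Ext.comp_assoc_of_second_deg_zero,
        Ext.mk₀_comp_mk₀, e.hom_inv_id, Ext.mk₀_id_comp]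
    rw [Subsingleton.elim (((Ext.mk₀ e.inv).comp x (zero_add n)).comp (Ext.mk₀ f.hom)
      (add_zero n)) 0, Ext.comp_zero] at h1
    have h2 : (x.comp (Ext.mk₀ f.hom) (add_zero n)).comp (Ext.mk₀ f.inv) (add_zero n) = x := by
      rw [Ext.comp_assoc_of_third_deg_zero, Ext.mk₀_comp_mk₀, f.hom_inv_id, Ext.comp_mk₀_id]
    rw [← h2, ← h1, Ext.zero_comp]
  exact ⟨fun x y => (key x).trans (key y).symm⟩

theorem Blk_ext [HasExt.{w₁} C] [HasExt.{w₂} (LinFun k (Ob D) C)] [HasExt.{w₃} (ModObj k F C)]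
    [HasExt.{w₄} (ModObj k L C)]
    (haa : ∀ x y, ∀ n : ℕ, 0 < n → Subsingleton (Ext.{w₃} (ta x) (ta y) n))
    (hbb : ∀ x y, ∀ n : ℕ, 0 < n → Subsingleton (Ext.{w₄} (tb x) (tb y) n))
    (hff : ∀ x y, ∀ n : ℕ, 0 < n → Subsingleton (Ext.{w₃} (tf x) (tf y) n))
    (hba : ∀ x y, ∀ n : ℕ, 0 < n → Subsingleton (Ext.{w₁} (tb x).pt (ta y).pt n))
    (hfa : ∀ x y, ∀ n : ℕ, 0 < n → Subsingleton (Ext.{w₁} (tf x).pt (ta y).pt n))
    (hfb : ∀ x y, ∀ n : ℕ, 0 < n → Subsingleton (Ext.{w₁} (tf x).pt (tb y).pt n))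
    (X Y : LinFun k (Ob D) C) (hX : Blk D ta tb tf X) (hY : Blk D ta tb tf Y) (n : ℕ)
    (hn : 0 < n) : Subsingleton (Ext.{w₂} X Y n) := by
  obtain ⟨s, ⟨e⟩⟩ := hX
  obtain ⟨t, ⟨f⟩⟩ := hY
  exact subsingleton_ext_of_iso e f n (blk_ext D ta tb tf n (fun x y => haa x y n hn)
    (fun x y => hbb x y n hn) (fun x y => hff x y n hn) (fun x y => hba x y n hn)
    (fun x y => hfa x y n hn) (fun x y => hfb x y n hn) s t)

omit [Algebra.IsSeparable k F] [Algebra.IsSeparable k L] in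
theorem Blk_finite
    (haa : ∀ x y, Module.Finite k (ta x ⟶ ta y))
    (hbb : ∀ x y, Module.Finite k (tb x ⟶ tb y))
    (hff : ∀ x y, Module.Finite k (tf x ⟶ tf y))
    (hba : ∀ x y, Module.Finite k ((tb x).pt ⟶ (ta y).pt))
    (hfa : ∀ x y, Module.Finite k ((tf x).pt ⟶ (ta y).pt))
    (hfb : ∀ x y, Module.Finite k ((tf x).pt ⟶ (tb y).pt))
    (X Y : LinFun k (Ob D) C) (hX : Blk D ta tb tf X) (hY : Blk D ta tb tf Y) :
    Module.Finite k (X ⟶ Y) := by
  obtain ⟨s, ⟨e⟩⟩ := hX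
  obtain ⟨t, ⟨f⟩⟩ := hY
  have := blk_finite D ta tb tf haa hbb hff hba hfa hfb s t
  exact Module.Finite.equiv (Linear.homCongr k e f).symm

end Orl.LF
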