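import Pool.Agent.Work.MP_a6e60d_ag.LF.Iota
import Pool.Agent.Work.MP_a6e60d_ag.Gal.Base

/-!
# Hom and Ext between induced objects (the blocks of the tilting object)
-/

open CategoryTheory Limits Abelian

attribute [-instance] CategoryTheory.catToReflQuiver

namespace Orl.LF

open Orl.Gal

universe w w₀ w₁ w₂ w₃ v u v' u'

attribute [local instance] Abelian.hasFiniteBiproducts

section tens

variable {k : Type*} [Field k] {E : Type*} [Field E] [Algebra k E]
variable {C : Type u'} [Category.{v'} C] [Abelian C] [Linear k C]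
variable (M : ModObj k E C) {V : Type w} [AddCommGroup V] [Module E V]

/-- Ext to a finite sum of copies of `M` -/
lemma ext_tens [HasExt.{w₁} C] (X : C) (n : ℕ) (h : Subsingleton (Ext.{w₁} X M.pt n)) :
    Subsingleton (Ext.{w₁} X (tens M V) n) := by
  have key : ∀ x : Ext.{w₁} X (tens M V) n, x = 0 := by
    intro x
    have h1 : x.comp (Ext.mk₀ (𝟙 (tens M V))) (add_zero n) = x := Ext.comp_mk₀_id x
    rw [← h1, ← tpr_tin_total, Ext.mk₀_sum, Ext.comp_sum]
    refine Finset.sum_eq_zero fun i _ => ?_
    rw [← Ext.mk₀_comp_mk₀, ← Ext.comp_assoc_of_third_deg_zero,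
      Subsingleton.elim (x.comp (Ext.mk₀ (tpr M V i)) (add_zero n)) 0, Ext.zero_comp]
  exact ⟨fun x y => (key x).trans (key y).symm⟩

lemma finite_hom_tens (X : C) (h : Module.Finite k (X ⟶ M.pt)) :
    Module.Finite k (X ⟶ tens M V) := by
  let T : (X ⟶ tens M V) →ₗ[k] (Fin (Module.finrank E V) → (X ⟶ M.pt)) :=
    { toFun := fun x i => x ≫ tpr M V i
      map_add' := fun x y => funext fun i => Preadditive.add_comp _ _ _ _ _ _
      map_smul' := fun r x => funext fun i => Linear.smul_comp _ _ _ _ _ _ }
  refine Module.Finite.of_injective T fun x y hxy => ?_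
  exact tens_ext_tpr M V fun i => congrFun hxy i

lemma isZero_tens (h : ∀ v : V, v = 0) : IsZero (tens M V) := by
  have : Subsingleton V := ⟨fun v w => (h v).trans (h w).symm⟩
  have h0 : Module.finrank E V = 0 := Module.finrank_zero_of_subsingleton
  rw [IsZero.iff_id_eq_zero, ← tpr_tin_total]
  refine Finset.sum_eq_zero fun i _ => ?_
  exact (Fin.cast h0 i).elim0

/-- the map given by a linear form -/
def actLin (l : V →ₗ[E] E) : V →+ (M.pt ⟶ M.pt) where
  toFun v := M.act (l v)
  map_zero' := by rw [map_zero, ModObj.act_zero]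
  map_add' v w := by rw [map_add, ModObj.act_add]

lemma isIso_tmk [Module.Finite E V] (v : V) (l : V →ₗ[E] E) (h1 : l v = 1)
    (h2 : ∀ w, l w • v = w) : IsIso (tmk M v) := by
  have key : ∀ w, tmk M w ≫ tdesc M (actLin M l) = M.act (l w) := fun w =>
    tmk_tdesc M (actLin M l) (fun e w => by
      change M.act (l (e • w)) = M.act e ≫ M.act (l w)
      rw [map_smul, smul_eq_mul, ModObj.act_mul]) w
  refine ⟨tdesc M (actLin M l), ?_, ?_⟩
  · rw [key, h1, ModObj.act_one]
  · refine tens_ext M fun w => ?_
    rw [← Category.assoc, key, ← tmk_smul, h2, Category.comp_id]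

end tens

section blocks

variable {k : Type w₀} [Field k] {Q : Type u} [Category.{v} Q] [Preadditive Q] [Linear k Q]
variable {C : Type u'} [Category.{v'} C] [Abelian C] [Linear k C]
variable {E E' : Type w₀} [Field E] [Field E'] [Algebra k E] [Algebra k E']
  (i : SingleObj E ⥤ Q) [i.Additive] [i.Linear k] [∀ y, Module.Finite E (HomL i y)]
  (j : SingleObj E' ⥤ Q) [j.Additive] [j.Linear k] [∀ y, Module.Finite E' (HomL j y)]

omit [∀ y, Module.Finite E (HomL i y)] in
lemma res_ind_pt (N : ModObj k E' C) :
    ModObj.pt ((res C i).obj ((ind C j).obj N)) = tens N (HomL j (base i)) := rfl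

lemma isZero_pt_iff {M : ModObj k E C} (h : IsZero M.pt) : IsZero M := by
  rw [IsZero.iff_id_eq_zero]
  refine ModObj.hom_ext ?_
  exact (IsZero.iff_id_eq_zero M.pt).1 h

omit [∀ y, Module.Finite E (HomL i y)] in
lemma isZero_res_ind (hij : ∀ q : base j ⟶ base i, q = 0) (N : ModObj k E' C) :
    IsZero ((res C i).obj ((ind C j).obj N)) :=
  isZero_pt_iff (isZero_tens N (V := HomL j (base i)) hij)

/-- **P4** (b) -/
theorem block_ext_of_pt [HasExt.{w₁} C] [HasExt.{w₂} (LinFun k Q C)] [FiniteDimensional k E]
    [Algebra.IsSeparable k E] (M : ModObj k E C) (N : ModObj k E' C) (n : ℕ)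
    (h : Subsingleton (Ext.{w₁} M.pt N.pt n)) :
    Subsingleton (Ext.{w₂} ((ind C i).obj M) ((ind C j).obj N) n) := by
  let := HasExt.standard (ModObj k E C)
  have h1 : Subsingleton (Ext.{w₁} M.pt (ModObj.pt ((res C i).obj ((ind C j).obj N))) n) :=
    ext_tens N (V := HomL j (base i)) M.pt n h
  have h2 : Subsingleton (Ext.{max (max u' w₀ v') w₀ v'} M
      ((res C i).obj ((ind C j).obj N)) n) :=
    ⟨fun x y => ext_pt_injective M ((res C i).obj ((ind C j).obj N)) n (h1.elim _ _)⟩
  exact (Fdim.extAdjEquiv (indAdj C i) k M ((ind C j).obj N) n).toEquiv.subsingleton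

/-- (c) -/
theorem block_ext_of_zero [HasExt.{w₂} (LinFun k Q C)] (hij : ∀ q : base j ⟶ base i, q = 0)
    (M : ModObj k E C) (N : ModObj k E' C) (n : ℕ) :
    Subsingleton (Ext.{w₂} ((ind C i).obj M) ((ind C j).obj N) n) := by
  let := HasExt.standard (ModObj k E C)
  have h0 := isZero_res_ind (k := k) (C := C) i j hij N
  have h1 : ∀ x : Ext M ((res C i).obj ((ind C j).obj N)) n, x = 0 := by
    intro x
    have h2 := Ext.comp_mk₀_id x
    rw [(IsZero.iff_id_eq_zero _).1 h0, Ext.mk₀_zero, Ext.comp_zero] at h2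
    exact h2.symm
  have h2 : Subsingleton (Ext M ((res C i).obj ((ind C j).obj N)) n) :=
    ⟨fun x y => (h1 x).trans (h1 y).symm⟩
  exact (Fdim.extAdjEquiv (indAdj C i) k M ((ind C j).obj N) n).toEquiv.subsingleton

/-- the coordinate on the endomorphisms of the base object, for a fully faithful functor -/
noncomputable def preimL [i.Full] [i.Faithful] : HomL i (base i) →ₗ[E] E where
  toFun := fun (q : base i ⟶ base i) =>
    (i.preimage (X := SingleObj.star E) (Y := SingleObj.star E) q : E)
  map_add' := fun (q q' : base i ⟶ base i) => by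
    refine i.map_injective (X := SingleObj.star E) (Y := SingleObj.star E) ?_
    refine (i.map_preimage (X := SingleObj.star E) (Y := SingleObj.star E) (q + q')).trans ?_
    refine Eq.trans ?_ (i.map_add (X := SingleObj.star E) (Y := SingleObj.star E)).symm
    rw [i.map_preimage, i.map_preimage]
  map_smul' := fun e (q : base i ⟶ base i) => by
    refine i.map_injective (X := SingleObj.star E) (Y := SingleObj.star E) ?_
    refine (i.map_preimage (X := SingleObj.star E) (Y := SingleObj.star E)
      (imap i e ≫ q)).trans ?_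
    have h : imap i ((i.preimage (X := SingleObj.star E) (Y := SingleObj.star E) q : E)) = q :=
      i.map_preimage (X := SingleObj.star E) (Y := SingleObj.star E) q
    change imap i e ≫ q = imap i (e * (i.preimage (X := SingleObj.star E)
      (Y := SingleObj.star E) q : E))
    rw [imap_mul, h]

omit [∀ y, Module.Finite E (HomL i y)] in
lemma imap_preimL [i.Full] [i.Faithful] (q : base i ⟶ base i) : imap i (preimL i q) = q :=
  i.map_preimage (X := SingleObj.star E) (Y := SingleObj.star E) q

lemma isIso_indUnit [i.Full] [i.Faithful] (M : ModObj k E C) :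
    IsIso ((indAdj C i).unit.app M) := by
  have h1 : IsIso (tmk M (elL (k := k) i (𝟙 (base i)))) := by
    refine isIso_tmk M (V := HomL i (base i)) (𝟙 (base i) : base i ⟶ base i) (preimL i) ?_ ?_
    · refine i.map_injective (X := SingleObj.star E) (Y := SingleObj.star E) ?_
      exact (imap_preimL i (𝟙 _)).trans (imap_one i).symm
    · intro q
      change imap i (preimL i q) ≫ 𝟙 (base i) = q
      rw [Category.comp_id, imap_preimL]
  rw [isIso_iff]
  rintro ⟨⟩
  have h2 : (ev (SingleObj.star E)).map ((indAdj C i).unit.app M) =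
      tmk M (elL (k := k) i (𝟙 (base i))) := indAdj_unit M
  change IsIso ((ev (SingleObj.star E)).map ((indAdj C i).unit.app M))
  rw [h2]
  exact h1

/-- (d) -/
theorem block_ext_self_bijective [i.Full] [i.Faithful] [HasExt.{w₂} (LinFun k Q C)]
    [HasExt.{w₃} (ModObj k E C)] (M N : ModObj k E C) (n : ℕ) :
    Function.Bijective (fun x : Ext.{w₃} M N n =>
      (x.mapExactFunctor (ind C i) : Ext.{w₂} _ _ n)) :=
  Fdim.mapExactFunctor_bijective_of_left (indAdj C i) (isIso_indUnit i) M N n

/-- (d) -/
theorem block_ext_self [i.Full] [i.Faithful] [HasExt.{w₂} (LinFun k Q C)]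
    [HasExt.{w₃} (ModObj k E C)] (M N : ModObj k E C)
    (n : ℕ) (h : Subsingleton (Ext.{w₃} M N n)) :
    Subsingleton (Ext.{w₂} ((ind C i).obj M) ((ind C i).obj N) n) :=
  (block_ext_self_bijective i M N n).surjective.subsingleton

/-- (d') `ind` is fully faithful -/
theorem ind_full [i.Full] [i.Faithful] :
    (ind (k := k) C i).Full ∧ (ind (k := k) C i).Faithful := by
  have h1 : ∀ M : ModObj k E C, IsIso ((indAdj C i).unit.app M) := isIso_indUnit i
  have h2 : IsIso (indAdj (k := k) C i).unit := NatIso.isIso_of_isIso_app _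
  exact ⟨(indAdj (k := k) C i).fullyFaithfulLOfIsIsoUnit.full,
    (indAdj (k := k) C i).fullyFaithfulLOfIsIsoUnit.faithful⟩

/-- the injection `Hom(ind M, X) → Hom(M.pt, X(base))` -/
noncomputable def indToPt (M : ModObj k E C) (X : LinFun k Q C) :
    ((ind C i).obj M ⟶ X) →ₗ[k] (M.pt ⟶ X.obj.obj (base i)) where
  toFun f := toBase (indTo f)
  map_add' f g := by
    rw [toBase_indTo, toBase_indTo, toBase_indTo, Functor.map_add, Preadditive.comp_add]
  map_smul' r f := by
    rw [toBase_indTo, toBase_indTo, Functor.map_smul, Linear.comp_smul, RingHom.id_apply]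

lemma indToPt_injective (M : ModObj k E C) (X : LinFun k Q C) :
    Function.Injective (indToPt i M X) := by
  intro f g h
  have h1 : indTo f = indTo g := ModObj.hom_ext h
  rw [← indOf_indTo f, h1, indOf_indTo]

/-- (e) -/
theorem block_hom_finite (M : ModObj k E C) (N : ModObj k E' C)
    (h : Module.Finite k (M.pt ⟶ N.pt)) :
    Module.Finite k ((ind C i).obj M ⟶ (ind C j).obj N) := by
  have h1 : Module.Finite k (M.pt ⟶ ((ind C j).obj N).obj.obj (base i)) :=
    finite_hom_tens N (V := HomL j (base i)) M.pt h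
  exact Module.Finite.of_injective (indToPt i M ((ind C j).obj N)) (indToPt_injective i M _)

/-- (f) -/
theorem block_hom_zero (hij : ∀ q : base j ⟶ base i, q = 0) (M : ModObj k E C)
    (N : ModObj k E' C) (f : (ind C i).obj M ⟶ (ind C j).obj N) : f = 0 := by
  have h1 : indTo f = indTo 0 := (isZero_res_ind i j hij N).eq_of_tgt _ _
  rw [← indOf_indTo f, h1, indOf_indTo]

end blocks

end Orl.LF
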