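import Pool.Agent.Work.MP_a6e60d_ag.LF.Coind
import Pool.Agent.Work.MP_a6e60d_ag.LF.Lam
import Pool.Agent.Work.MP_a6e60d_ag.Q.Thk

/-!
# Coresolutions by coinduced objects

A class of linear functors `Λ ⥤ C` which is closed under extensions and kernels of epimorphisms
and contains the coinduced objects contains every linear functor (all classes being restricted to
functors with values in a given thick class `S`).
-/

open CategoryTheory Limits

attribute [-instance] CategoryTheory.catToReflQuiver

namespace Orl.LF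

universe w₀ v u v' u'

attribute [local instance] Abelian.hasFiniteBiproducts

section trunc

variable {k : Type*} [Field k] {Q : Type u} [Category.{v} Q] [Preadditive Q] [Linear k Q]
variable {C : Type u'} [Category.{v'} C] [Abelian C] [Linear k C]
variable (N : LinFun k Q C) (U : Q → Prop)

open Classical in
/-- zero on `U`, the identity outside of `U` -/
noncomputable def trIdem (x : Q) : N.obj.obj x ⟶ N.obj.obj x :=
  if U x then 0 else 𝟙 _

lemma trIdem_pos {x : Q} (h : U x) : trIdem N U x = 0 := if_pos h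

lemma trIdem_neg {x : Q} (h : ¬ U x) : trIdem N U x = 𝟙 _ := if_neg h

variable {U}

lemma trIdem_ker {x : Q} (h : ¬ U x) : kernel.ι (trIdem N U x) = 0 := by
  have h1 := kernel.condition (trIdem N U x)
  have h2 : kernel.ι (trIdem N U x) ≫ trIdem N U x = kernel.ι (trIdem N U x) ≫ 𝟙 _ := by
    congr 1
    exact trIdem_neg N U h
  rw [h2, Category.comp_id] at h1
  exact h1

lemma trunc_aux (hU : ∀ x y : Q, U x → ¬ U y → ∀ q : x ⟶ y, q = 0) {x y : Q} (q : x ⟶ y) :
    (kernel.ι (trIdem N U x) ≫ N.obj.map q) ≫ trIdem N U y = 0 := by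
  by_cases hy : U y
  · rw [trIdem_pos N U hy, comp_zero]
  · by_cases hx : U x
    · rw [hU x y hx hy q, CategoryTheory.Functor.map_zero, comp_zero, zero_comp]
    · rw [trIdem_ker N hx, zero_comp, zero_comp]

/-- the subfunctor of `N` which agrees with `N` on `U` and vanishes outside of `U` -/
noncomputable def truncF (hU : ∀ x y : Q, U x → ¬ U y → ∀ q : x ⟶ y, q = 0) : Q ⥤ C where
  obj x := kernel (trIdem N U x)
  map {x y} q := kernel.lift _ (kernel.ι (trIdem N U x) ≫ N.obj.map q) (trunc_aux N hU q)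
  map_id x := by
    rw [← cancel_mono (kernel.ι _), kernel.lift_ι, CategoryTheory.Functor.map_id,
      Category.comp_id, Category.id_comp]
  map_comp {x y z} q q' := by
    rw [← cancel_mono (kernel.ι _), kernel.lift_ι, Category.assoc, kernel.lift_ι,
      kernel.lift_ι_assoc, CategoryTheory.Functor.map_comp, Category.assoc]

/-- the inclusion -/
noncomputable def truncι (hU : ∀ x y : Q, U x → ¬ U y → ∀ q : x ⟶ y, q = 0) :
    truncF N hU ⟶ N.obj where
  app x := kernel.ι (trIdem N U x)
  naturality x y q := kernel.lift_ι _ _ _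

/-- **Truncation.** If there are no nonzero morphisms from the objects of `U` to the objects
outside of `U`, then `N` is an extension of its restriction to the complement of `U` by its
restriction to `U`. -/
theorem exists_trunc (hU : ∀ x y : Q, U x → ¬ U y → ∀ q : x ⟶ y, q = 0) :
    ∃ (A B : LinFun k Q C) (f : A ⟶ N) (g : N ⟶ B) (w : f ≫ g = 0),
      (ShortComplex.mk f g w).ShortExact ∧
      (∀ x, U x → IsIso ((ev x).map f) ∧ IsZero (B.obj.obj x)) ∧
      (∀ x, ¬ U x → IsIso ((ev x).map g) ∧ IsZero (A.obj.obj x)) := by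
  have hm : Mono (truncι N hU) := by
    rw [NatTrans.mono_iff_mono_app]
    intro x
    exact inferInstanceAs (Mono (kernel.ι (trIdem N U x)))
  let A : LinFun k Q C := ⟨truncF N hU, ObjectProperty.prop_of_mono _ (truncι N hU) N.property⟩
  let f : A ⟶ N := ObjectProperty.homMk (truncι N hU)
  have hf : ∀ x, (ev x).map f = kernel.ι (trIdem N U x) := fun _ => rfl
  have hfm : Mono f := (mono_iff f).2 fun x => inferInstanceAs (Mono (kernel.ι (trIdem N U x)))
  have hS : (ShortComplex.mk f (cokernel.π f) (cokernel.condition f)).ShortExact :=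
    { exact := ShortComplex.exact_cokernel f }
  refine ⟨A, cokernel f, f, cokernel.π f, cokernel.condition f, hS, ?_, ?_⟩
  · intro x hx
    have h1 : IsIso ((ev x).map f) := by
      have h3 : IsIso (kernel.ι (0 : N.obj.obj x ⟶ N.obj.obj x)) := inferInstance
      have h2 : (kernelIsoOfEq (trIdem_pos N U hx)).hom ≫
          kernel.ι (0 : N.obj.obj x ⟶ N.obj.obj x) = kernel.ι (trIdem N U x) :=
        kernelIsoOfEq_hom_comp_ι _
      change IsIso (kernel.ι (trIdem N U x))
      rw [← h2]
      exact IsIso.comp_isIso' inferInstance h3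
    refine ⟨h1, ?_⟩
    exact ((hS.map_of_exact (ev x)).isIso_f_iff).1 h1
  · intro x hx
    have h0 : IsZero (A.obj.obj x) := by
      rw [IsZero.iff_id_eq_zero]
      change 𝟙 (kernel (trIdem N U x)) = 0
      rw [← cancel_mono (kernel.ι (trIdem N U x)), zero_comp, trIdem_ker N hx, comp_zero]
    exact ⟨((hS.map_of_exact (ev x)).isIso_g_iff).2 h0, h0⟩

end trunc

section unit

variable {k : Type*} [Field k] {Q : Type u} [Category.{v} Q] [Preadditive Q] [Linear k Q]
variable {E : Type*} [Field E] [Algebra k E]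
variable {C : Type u'} [Category.{v'} C] [Abelian C] [Linear k C]
variable {i : SingleObj E ⥤ Q} [i.Additive] [i.Linear k] [∀ y, Module.Finite E (HomR i y)]

lemma coev_zero (M : ModObj k E C) {y : Q} : coev (i := i) M (0 : y ⟶ base i) = 0 := by
  have h := tev_smul M (V := HomR i y) (0 : E) (0 : HomR i y)
  rw [ModObj.act_zero, comp_zero, zero_smul] at h
  exact h

lemma coind_isZero (M : ModObj k E C) {y : Q} (h : ∀ q : y ⟶ base i, q = 0) :
    IsZero (((coind C i).obj M).obj.obj y) := by
  rw [IsZero.iff_id_eq_zero]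
  refine coev_ext fun q => ?_
  rw [h q, coev_zero, comp_zero, comp_zero]

variable (i) in
/-- the unit of the adjunction between restriction and coinduction -/
noncomputable def coη (N : LinFun k Q C) : N ⟶ (coind C i).obj ((res C i).obj N) :=
  coindOf (𝟙 _)

lemma coη_coev (N : LinFun k Q C) {y : Q} (q : y ⟶ base i) :
    (ev y).map (coη i N) ≫ coev ((res C i).obj N) q = N.obj.map q := by
  refine (coindOf_coev (𝟙 ((res C i).obj N)) q).trans ?_
  exact Category.comp_id _

lemma isIso_coη_base [i.Full] (N : LinFun k Q C) : IsIso ((ev (base i)).map (coη i N)) := by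
  refine ⟨coev ((res C i).obj N) (𝟙 (base i)), ?_, ?_⟩
  · refine (coη_coev N (𝟙 (base i))).trans ?_
    exact N.obj.map_id _
  · refine coev_ext fun q => ?_
    obtain ⟨e, he⟩ := i.map_surjective q
    have he' : q = 𝟙 (base i) ≫ imap i e := by
      rw [Category.id_comp]
      exact he.symm
    have h1 := coη_coev N q
    rw [Category.assoc, Category.id_comp]
    refine (congrArg (fun t => coev ((res C i).obj N) (𝟙 (base i)) ≫ t) h1).trans ?_
    have h2 := coev_act ((res C i).obj N) (𝟙 (base i)) e
    rw [← he'] at h2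
    rw [← h2]
    have h3 : ModObj.act ((res C i).obj N) e = N.obj.map q := by
      rw [he', Category.id_comp]
      rfl
    rw [h3]

/-- The coresolution step. -/
theorem coind_step [i.Full] (S : ObjectProperty C) (hS : Orl.Q.Thk S)
    (P : ObjectProperty (LinFun k Q C))
    (h1 : ∀ {S : ShortComplex (LinFun k Q C)}, S.ShortExact → P S.X₂ → P S.X₃ → P S.X₁)
    (hc : ∀ M : ModObj k E C, S M.pt → P ((coind C i).obj M))
    (N : LinFun k Q C) (hN : ∀ x, S (N.obj.obj x))
    (hN0 : ∀ x, x ≠ base i → IsZero (N.obj.obj x))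
    (hK : ∀ K : LinFun k Q C, (∀ x, S (K.obj.obj x)) → IsZero (K.obj.obj (base i)) →
      (∀ x, (∀ q : x ⟶ base i, q = 0) → IsZero (K.obj.obj x)) → P K) : P N := by
  have hm : Mono (coη i N) := by
    rw [mono_iff]
    intro x
    by_cases hx : x = base i
    · subst hx
      have := isIso_coη_base (i := i) N
      infer_instance
    · exact ⟨fun {Z} a b _ => (hN0 x hx).eq_of_tgt _ _⟩
  have hSE : (ShortComplex.mk (coη i N) (cokernel.π (coη i N))
      (cokernel.condition _)).ShortExact := { exact := ShortComplex.exact_cokernel _ }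
  have hM : S (ModObj.pt ((res C i).obj N)) := hN (base i)
  have hcS : ∀ y, S (((coind C i).obj ((res C i).obj N)).obj.obj y) := by
    intro y
    exact hS.biproduct (fun _ : Fin (Module.finrank E (Module.Dual E (HomR i y))) =>
      ModObj.pt ((res C i).obj N)) (fun _ => hM)
  refine h1 hSE (hc _ hM) (hK _ ?_ ?_ ?_)
  · intro x
    exact hS.ses₃ (hSE.map_of_exact (ev x)) (hN x) (hcS x)
  · exact ((hSE.map_of_exact (ev (base i))).isIso_f_iff).1 (isIso_coη_base N)
  · intro x hx
    have he : Epi ((ev x).map (cokernel.π (coη i N))) := (hSE.map_of_exact (ev x)).epi_g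
    exact IsZero.of_epi ((ev x).map (cokernel.π (coη i N)))
      (coind_isZero ((res C i).obj N) hx)

end unit

section gen

variable {k F L : Type w₀} [Field k] [Field F] [Field L] [Algebra k F] [Algebra k L]
variable {C : Type u'} [Category.{v'} C] [Abelian C] [Linear k C]

/-- **Coresolutions by coinduced objects.** -/
theorem coind_gen (D : Dat k F L) (S : ObjectProperty C) (hS : Orl.Q.Thk S)
    (P : ObjectProperty (LinFun k (Ob D) C)) (hiso : P.IsClosedUnderIsomorphisms)
    (h1 : ∀ {S : ShortComplex (LinFun k (Ob D) C)}, S.ShortExact → P S.X₂ → P S.X₃ → P S.X₁)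
    (h2 : ∀ {S : ShortComplex (LinFun k (Ob D) C)}, S.ShortExact → P S.X₁ → P S.X₃ → P S.X₂)
    (ha : ∀ M : ModObj k F C, S M.pt → P ((coind C (Ob.ia D)).obj M))
    (hb : ∀ M : ModObj k L C, S M.pt → P ((coind C (Ob.ib D)).obj M))
    (hf : ∀ M : ModObj k F C, S M.pt → P ((coind C (Ob.iff D)).obj M))
    (N : LinFun k (Ob D) C) (hN : ∀ x, S (N.obj.obj x)) : P N := by
  have hba : ∀ q : (Ob.b : Ob D) ⟶ Ob.a, q = 0 := (Ob.lamData D).ba
  have hfa : ∀ q : (Ob.f : Ob D) ⟶ Ob.a, q = 0 := (Ob.lamData D).fa
  have hfb : ∀ q : (Ob.f : Ob D) ⟶ Ob.b, q = 0 := (Ob.lamData D).fb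
  -- zero objects
  have hz : ∀ K : LinFun k (Ob D) C, IsZero K → P K := by
    intro K hK
    obtain ⟨Z, hZ⟩ := HasZeroObject.zero (C := ModObj k F C)
    have hZ' : IsZero Z.pt := (ev (SingleObj.star F)).map_isZero hZ
    have h3 := ha Z (hS.zero hZ')
    exact hiso.of_iso (IsZero.iso ((coind C (Ob.ia D)).map_isZero hZ) hK) h3
  -- objects supported at `a`
  have c1 : ∀ K : LinFun k (Ob D) C, (∀ x, S (K.obj.obj x)) → IsZero (K.obj.obj Ob.b) →
      IsZero (K.obj.obj Ob.f) → P K := by
    intro K hKS hKb hKf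
    refine coind_step (i := Ob.ia D) S hS P h1 ha K hKS ?_ ?_
    · rintro (_ | _ | _) hx
      · exact absurd rfl hx
      · exact hKb
      · exact hKf
    · intro K' _ hK'a hK'
      refine hz K' ((isZero_iff K').2 ?_)
      rintro (_ | _ | _)
      · exact hK'a
      · exact hK' _ hba
      · exact hK' _ hfa
  -- objects supported at `b`
  have c2 : ∀ K : LinFun k (Ob D) C, (∀ x, S (K.obj.obj x)) → IsZero (K.obj.obj Ob.a) →
      IsZero (K.obj.obj Ob.f) → P K := by
    intro K hKS hKa hKf
    refine coind_step (i := Ob.ib D) S hS P h1 hb K hKS ?_ ?_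
    · rintro (_ | _ | _) hx
      · exact hKa
      · exact absurd rfl hx
      · exact hKf
    · intro K' hK'S hK'b hK'
      exact c1 K' hK'S hK'b (hK' _ hfb)
  -- values in the truncations
  have tr : ∀ (K : LinFun k (Ob D) C) (U : Ob D → Prop), (∀ x, S (K.obj.obj x)) →
      (∀ x y : Ob D, U x → ¬ U y → ∀ q : x ⟶ y, q = 0) →
      (∀ A : LinFun k (Ob D) C, (∀ x, S (A.obj.obj x)) → (∀ x, ¬ U x → IsZero (A.obj.obj x)) →
        (∀ x, U x → Nonempty (A.obj.obj x ≅ K.obj.obj x)) → P A) →
      (∀ B : LinFun k (Ob D) C, (∀ x, S (B.obj.obj x)) → (∀ x, U x → IsZero (B.obj.obj x)) →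
        (∀ x, ¬ U x → Nonempty (B.obj.obj x ≅ K.obj.obj x)) → P B) → P K := by
    intro K U hKS hU hA hB
    obtain ⟨A, B, f, g, w, hSE, hp, hn⟩ := exists_trunc K hU
    have eA : ∀ x, U x → Nonempty (A.obj.obj x ≅ K.obj.obj x) := by
      intro x hx
      have := (hp x hx).1
      exact ⟨asIso ((ev x).map f)⟩
    have eB : ∀ x, ¬ U x → Nonempty (B.obj.obj x ≅ K.obj.obj x) := by
      intro x hx
      have := (hn x hx).1
      exact ⟨(asIso ((ev x).map g)).symm⟩
    refine h2 hSE (hA A ?_ (fun x hx => (hn x hx).2) eA) (hB B ?_ (fun x hx => (hp x hx).2) eB)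
    · intro x
      by_cases hx : U x
      · obtain ⟨e⟩ := eA x hx
        exact hS.iso e.symm (hKS x)
      · exact hS.zero (hn x hx).2
    · intro x
      by_cases hx : U x
      · exact hS.zero (hp x hx).2
      · obtain ⟨e⟩ := eB x hx
        exact hS.iso e.symm (hKS x)
  -- objects which vanish at `f`
  have c3 : ∀ K : LinFun k (Ob D) C, (∀ x, S (K.obj.obj x)) → IsZero (K.obj.obj Ob.f) →
      P K := by
    intro K hKS hKf
    refine tr K (fun x => x ≠ Ob.a) hKS ?_ ?_ ?_
    · rintro x y hx hy q
      have hy' : y = Ob.a := not_not.1 hy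
      subst hy'
      rcases x with _ | _ | _
      · exact absurd rfl hx
      · exact hba q
      · exact hfa q
    · intro A hAS hA0 hA1
      refine c2 A hAS (hA0 _ (not_not.2 rfl)) ?_
      obtain ⟨e⟩ := hA1 Ob.f (by intro h; cases h)
      exact hKf.of_iso e
    · intro B hBS hB0 _
      exact c1 B hBS (hB0 _ (by intro h; cases h)) (hB0 _ (by intro h; cases h))
  -- objects supported at `f`
  have c4 : ∀ K : LinFun k (Ob D) C, (∀ x, S (K.obj.obj x)) → IsZero (K.obj.obj Ob.a) →
      IsZero (K.obj.obj Ob.b) → P K := by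
    intro K hKS hKa hKb
    refine coind_step (i := Ob.iff D) S hS P h1 hf K hKS ?_ ?_
    · rintro (_ | _ | _) hx
      · exact hKa
      · exact hKb
      · exact absurd rfl hx
    · intro K' hK'S hK'f _
      exact c3 K' hK'S hK'f
  -- the general case
  refine tr N (fun x => x = Ob.f) hN ?_ ?_ ?_
  · rintro x y hx hy q
    subst hx
    rcases y with _ | _ | _
    · exact hfa q
    · exact hfb q
    · exact absurd rfl hy
  · intro A hAS hA0 _
    exact c4 A hAS (hA0 _ (by intro h; cases h)) (hA0 _ (by intro h; cases h))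
  · intro B hBS hB0 _
    exact c3 B hBS (hB0 _ rfl)

end gen

end Orl.LF
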