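import Pool.Agent.Work.MP_a6e60d_ag.LF.Iota

/-!
# Coinduction along `i : SingleObj E ⥤ Q`
-/

open CategoryTheory Limits

attribute [-instance] CategoryTheory.catToReflQuiver

namespace Orl.LF

universe w v u v' u' v₂ u₂

attribute [local instance] Abelian.hasFiniteBiproducts

section dual

variable {k : Type*} [Field k] {E : Type*} [Field E] [Algebra k E]
variable {C : Type u'} [Category.{v'} C] [Abelian C] [Linear k C]
variable (M N : ModObj k E C) {V : Type w} [AddCommGroup V] [Module E V] [Module.Finite E V]
variable {W : Type w} [AddCommGroup W] [Module E W] [Module.Finite E W]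

/-- the family of maps which defines `tev` -/
def tevHom (q : V) : Module.Dual E V →+ (M.pt ⟶ M.pt) where
  toFun ξ := M.act (ξ q)
  map_zero' := ModObj.act_zero M
  map_add' _ _ := ModObj.act_add M _ _

/-- the evaluation `M ⊗ V* → M` at an element of `V` -/
noncomputable def tev (q : V) : tens M (Module.Dual E V) ⟶ M.pt := tdesc M (tevHom M q)

@[reassoc (attr := simp)]
lemma tmk_tev (ξ : Module.Dual E V) (q : V) : tmk M ξ ≫ tev M q = M.act (ξ q) :=
  tmk_tdesc M (tevHom M q) (fun e ξ => ModObj.act_mul M e (ξ q)) ξ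

lemma tev_add (q q' : V) : tev M (q + q') = tev M q + tev M q' :=
  tens_ext M fun ξ => by
    rw [Preadditive.comp_add, tmk_tev, tmk_tev, tmk_tev, map_add, ModObj.act_add]

lemma tev_smul (e : E) (q : V) : tev M (e • q) = tev M q ≫ M.act e :=
  tens_ext M fun ξ => by
    rw [tmk_tev, tmk_tev_assoc, map_smul, smul_eq_mul, mul_comm, ModObj.act_mul]

@[reassoc]
lemma tmap_dual_tev (A : V →ₗ[E] W) (q : V) :
    tmap M A.dualMap ≫ tev M q = tev M (A q) :=
  tens_ext M fun ξ => by
    rw [tmk_tmap_assoc, tmk_tev, tmk_tev, LinearMap.dualMap_apply]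

@[reassoc]
lemma tmapL_tev {M N : ModObj k E C} (f : M ⟶ N) (q : V) :
    tmapL (Module.Dual E V) f ≫ tev N q = tev M q ≫ ModObj.homPt f :=
  tens_ext M fun ξ => by
    rw [tmk_tmapL_assoc, tmk_tev, tmk_tev_assoc, ModObj.act_homPt]

variable (E V) in
/-- the coordinates of the chosen basis, as elements of the dual space -/
noncomputable abbrev dco (i : Fin (Module.finrank E V)) : Module.Dual E V :=
  (Module.finBasis E V).coord i

/-- the map `X → M ⊗ V*` given by a family of maps `V → Hom(X, M)` -/
noncomputable def tlift {X : C} (φ : V →+ (X ⟶ M.pt)) : X ⟶ tens M (Module.Dual E V) :=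
  ∑ i, φ (Module.finBasis E V i) ≫ tmk M (dco E V i)

@[reassoc]
lemma tlift_tev {X : C} (φ : V →+ (X ⟶ M.pt)) (h : ∀ (e : E) (q : V), φ (e • q) = φ q ≫ M.act e)
    (q : V) : tlift M φ ≫ tev M q = φ q := by
  conv_rhs => rw [← (Module.finBasis E V).sum_repr q]
  unfold tlift
  rw [Preadditive.sum_comp, map_sum]
  refine Finset.sum_congr rfl fun i _ => ?_
  rw [Category.assoc, tmk_tev, h, Module.Basis.coord_apply]

lemma sum_tev_tmk : ∑ i, tev M (Module.finBasis E V i) ≫ tmk M (dco E V i) =
    𝟙 (tens M (Module.Dual E V)) := by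
  refine tens_ext M fun ξ => ?_
  rw [Preadditive.comp_sum, Category.comp_id]
  have h : ξ = ∑ i, ξ (Module.finBasis E V i) • dco E V i := by
    refine (Module.finBasis E V).ext fun j => ?_
    rw [LinearMap.sum_apply, Finset.sum_eq_single j]
    · simp
    · intro i _ hi
      simp [Finsupp.single_eq_of_ne hi]
    · simp
  have h2 : ∀ (s : Finset (Fin (Module.finrank E V))) (f : Fin (Module.finrank E V) →
      Module.Dual E V), tmk M (∑ i ∈ s, f i) = ∑ i ∈ s, tmk M (f i) := by
    classical
    intro s f
    induction s using Finset.induction_on with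
    | empty => simp [tmk_zero]
    | insert a s ha ih => rw [Finset.sum_insert ha, Finset.sum_insert ha, tmk_add, ih]
  conv_rhs => rw [h, h2]
  refine Finset.sum_congr rfl fun i _ => ?_
  rw [tmk_tev_assoc, tmk_smul]

lemma tev_ext {X : C} {a b : X ⟶ tens M (Module.Dual E V)}
    (h : ∀ q : V, a ≫ tev M q = b ≫ tev M q) : a = b := by
  rw [← Category.comp_id a, ← Category.comp_id b, ← sum_tev_tmk, Preadditive.comp_sum,
    Preadditive.comp_sum]
  refine Finset.sum_congr rfl fun i _ => ?_
  rw [← Category.assoc, h, Category.assoc]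

end dual

section coind

variable {k : Type*} [Field k] {Q : Type u} [Category.{v} Q] [Preadditive Q] [Linear k Q]
variable {E : Type*} [Field E] [Algebra k E]
variable {C : Type u'} [Category.{v'} C] [Abelian C] [Linear k C]
variable (i : SingleObj E ⥤ Q) [i.Additive] [i.Linear k] [∀ y, Module.Finite E (HomR i y)]

variable (C) in
/-- **Coinduction** -/
noncomputable abbrev coind : ModObj k E C ⥤ LinFun k Q C := tensRFun C (repR i)

variable {i}

/-- the evaluation `(coind M)(y) → M` at `q : y ⟶ base` -/
noncomputable def coev (M : ModObj k E C) {y : Q} (q : y ⟶ base i) :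
    ((coind C i).obj M).obj.obj y ⟶ M.pt :=
  tev M (V := HomR i y) q

@[reassoc]
lemma coind_map_coev (M : ModObj k E C) {x y : Q} (f : x ⟶ y) (q : y ⟶ base i) :
    ((coind C i).obj M).obj.map f ≫ coev M q = coev M (f ≫ q) :=
  tmap_dual_tev M (precompR i f) q

lemma coev_ext {M : ModObj k E C} {y : Q} {X : C} {a b : X ⟶ ((coind C i).obj M).obj.obj y}
    (h : ∀ q : y ⟶ base i, a ≫ coev M q = b ≫ coev M q) : a = b :=
  tev_ext M (V := HomR i y) h

lemma coev_act (M : ModObj k E C) {y : Q} (q : y ⟶ base i) (e : E) :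
    coev M q ≫ M.act e = coev M (q ≫ imap i e) :=
  (tev_smul M (V := HomR i y) e q).symm

@[reassoc]
lemma coind_map_ev_coev {M M' : ModObj k E C} (f : M ⟶ M') {y : Q} (q : y ⟶ base i) :
    (ev y).map ((coind C i).map f) ≫ coev M' q = coev M q ≫ ModObj.homPt f :=
  tmapL_tev (V := HomR i y) f q

lemma coind_hom_ext {N : LinFun k Q C} {M : ModObj k E C} {f g : N ⟶ (coind C i).obj M}
    (h : ∀ y (q : y ⟶ base i), (ev y).map f ≫ coev M q = (ev y).map g ≫ coev M q) : f = g :=
  hom_ext' _ _ fun y => coev_ext (h y)

/-- the family of maps which defines `coindOf` -/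
def coindPhi {N : LinFun k Q C} {M : ModObj k E C} (g : (res C i).obj N ⟶ M) (y : Q) :
    HomR i y →+ (N.obj.obj y ⟶ M.pt) where
  toFun := fun (q : y ⟶ base i) => N.obj.map q ≫ ofBase g
  map_zero' := by
    change N.obj.map (0 : y ⟶ base i) ≫ ofBase g = 0
    rw [CategoryTheory.Functor.map_zero, zero_comp]
  map_add' := fun (q q' : y ⟶ base i) => by
    change N.obj.map (q + q') ≫ ofBase g = _
    rw [Functor.map_add, Preadditive.add_comp]

omit [∀ y, Module.Finite E (HomR i y)] in
lemma coindPhi_smul {N : LinFun k Q C} {M : ModObj k E C} (g : (res C i).obj N ⟶ M) (y : Q)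
    (e : E) (q : HomR i y) : coindPhi g y (e • q) = coindPhi g y q ≫ M.act e := by
  change N.obj.map ((show y ⟶ base i from q) ≫ imap i e) ≫ ofBase g =
    (N.obj.map (show y ⟶ base i from q) ≫ ofBase g) ≫ M.act e
  rw [CategoryTheory.Functor.map_comp, Category.assoc, Category.assoc, act_ofBase]

/-- the morphism `N → coind M` of a map `N(base) → M` -/
noncomputable def coindOf {N : LinFun k Q C} {M : ModObj k E C} (g : (res C i).obj N ⟶ M) :
    N ⟶ (coind C i).obj M :=
  ObjectProperty.homMk
    { app := fun y => tlift M (coindPhi g y)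
      naturality := fun x y f => by
        refine coev_ext fun q => ?_
        rw [Category.assoc, Category.assoc, coind_map_coev]
        refine (congrArg (N.obj.map f ≫ ·)
          (tlift_tev M (coindPhi g y) (coindPhi_smul g y) q)).trans ?_
        refine Eq.trans ?_ (tlift_tev M (coindPhi g x) (coindPhi_smul g x)
          (show HomR i x from f ≫ q)).symm
        change N.obj.map f ≫ N.obj.map q ≫ ofBase g = N.obj.map (f ≫ q) ≫ ofBase g
        rw [CategoryTheory.Functor.map_comp, Category.assoc] }

@[reassoc]
lemma coindOf_coev {N : LinFun k Q C} {M : ModObj k E C} (g : (res C i).obj N ⟶ M) {y : Q}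
    (q : y ⟶ base i) : (ev y).map (coindOf g) ≫ coev M q = N.obj.map q ≫ ofBase g :=
  tlift_tev M (coindPhi g y) (coindPhi_smul g y) q

/-- the map `N(base) → M` of a morphism `N → coind M` -/
noncomputable def coindTo {N : LinFun k Q C} {M : ModObj k E C} (f : N ⟶ (coind C i).obj M) :
    (res C i).obj N ⟶ M :=
  mkOfBase ((ev (base i)).map f ≫ coev M (𝟙 (base i))) fun e => by
    rw [Category.assoc, coev_act, Category.id_comp, ← Category.assoc, map_ev, Category.assoc,
      coind_map_coev, Category.comp_id]

lemma ofBase_coindTo {N : LinFun k Q C} {M : ModObj k E C} (f : N ⟶ (coind C i).obj M) :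
    ofBase (coindTo f) = (ev (base i)).map f ≫ coev M (𝟙 (base i)) := rfl

lemma coindTo_coindOf {N : LinFun k Q C} {M : ModObj k E C} (g : (res C i).obj N ⟶ M) :
    coindTo (coindOf g) = g := by
  apply ModObj.hom_ext
  change ofBase (coindTo (coindOf g)) = ofBase g
  rw [ofBase_coindTo, coindOf_coev, CategoryTheory.Functor.map_id, Category.id_comp]

lemma coindOf_coindTo {N : LinFun k Q C} {M : ModObj k E C} (f : N ⟶ (coind C i).obj M) :
    coindOf (coindTo f) = f := by
  refine coind_hom_ext fun y q => ?_
  rw [coindOf_coev, ofBase_coindTo, ← Category.assoc, map_ev, Category.assoc, coind_map_coev,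
    Category.comp_id]

variable (C i) in
/-- **Coinduction is right adjoint to restriction.** -/
noncomputable def coindAdj : (res C i : LinFun k Q C ⥤ ModObj k E C) ⊣ coind C i :=
  Adjunction.mkOfHomEquiv
    { homEquiv := fun N M =>
        { toFun := coindOf
          invFun := coindTo
          left_inv := coindTo_coindOf
          right_inv := coindOf_coindTo }
      homEquiv_naturality_left_symm := fun {N N' M} f g => by
        apply ModObj.hom_ext
        exact Category.assoc _ _ _
      homEquiv_naturality_right := fun {N M M'} g f => by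
        refine coind_hom_ext fun y q => ?_
        change (ev y).map (coindOf (g ≫ f)) ≫ coev M' q =
          ((ev y).map (coindOf g) ≫ (ev y).map ((coind C i).map f)) ≫ coev M' q
        rw [coindOf_coev, Category.assoc, coind_map_ev_coev, ← Category.assoc, coindOf_coev,
          Category.assoc]
        rfl }

lemma coindAdj_homEquiv {N : LinFun k Q C} {M : ModObj k E C} (g : (res C i).obj N ⟶ M) :
    (coindAdj C i).homEquiv N M g = coindOf g := by
  simp [coindAdj]

lemma coindAdj_homEquiv_symm {N : LinFun k Q C} {M : ModObj k E C} (f : N ⟶ (coind C i).obj M) :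
    ((coindAdj C i).homEquiv N M).symm f = coindTo f := by
  simp [coindAdj]

lemma coindAdj_counit (M : ModObj k E C) :
    ofBase ((coindAdj C i).counit.app M) = coev M (𝟙 (base i)) := by
  have := coindAdj_homEquiv_symm (i := i) (𝟙 ((coind C i).obj M))
  rw [Adjunction.homEquiv_symm_id] at this
  rw [this, ofBase_coindTo]
  exact Category.id_comp _

end coind

end Orl.LF
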