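import Mathlib

/-!
# Dévissage for comparison maps between spaces of morphisms in triangulated categories
-/

open CategoryTheory Limits Pretriangulated ZeroObject

attribute [-instance] CategoryTheory.catToReflQuiver

namespace Orl.LF

universe v₀ v₁ v₂ u₀ u₁ u₂

section contra

variable {K : Type u₀} [Category.{v₀} K] [HasZeroObject K] [Preadditive K] [HasShift K ℤ]
  [∀ n : ℤ, (shiftFunctor K n).Additive] [Pretriangulated K]
  {D₁ : Type u₁} [Category.{v₁} D₁] [HasZeroObject D₁] [Preadditive D₁] [HasShift D₁ ℤ]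
  [∀ n : ℤ, (shiftFunctor D₁ n).Additive] [Pretriangulated D₁]
  {D₂ : Type u₂} [Category.{v₂} D₂] [HasZeroObject D₂] [Preadditive D₂] [HasShift D₂ ℤ]
  [∀ n : ℤ, (shiftFunctor D₂ n).Additive] [Pretriangulated D₂]
  (A₁ : K ⥤ D₁) [A₁.CommShift ℤ] [A₁.IsTriangulated]
  (A₂ : K ⥤ D₂) [A₂.CommShift ℤ] [A₂.IsTriangulated]
  (Φ : D₁ ⥤ D₂) [Φ.Additive] (u : A₂ ⟶ A₁ ⋙ Φ) (c : D₁)

/-- the comparison map `Hom(A₁ X, c) → Hom(A₂ X, Φ c)` -/
def cmp (X : K) (g : A₁.obj X ⟶ c) : A₂.obj X ⟶ Φ.obj c := u.app X ≫ Φ.map g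

variable {A₁ A₂ Φ c}

omit [HasZeroObject K] [Preadditive K] [HasShift K ℤ] [∀ n : ℤ, (shiftFunctor K n).Additive]
  [Pretriangulated K] [HasZeroObject D₁] [Preadditive D₁] [HasShift D₁ ℤ]
  [∀ n : ℤ, (shiftFunctor D₁ n).Additive] [Pretriangulated D₁] [HasZeroObject D₂]
  [Preadditive D₂] [HasShift D₂ ℤ] [∀ n : ℤ, (shiftFunctor D₂ n).Additive] [Pretriangulated D₂]
  [A₁.CommShift ℤ] [A₁.IsTriangulated] [A₂.CommShift ℤ] [A₂.IsTriangulated] [Φ.Additive] in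
lemma cmp_map {X Y : K} (f : X ⟶ Y) (g : A₁.obj Y ⟶ c) :
    cmp A₁ A₂ Φ u c X (A₁.map f ≫ g) = A₂.map f ≫ cmp A₁ A₂ Φ u c Y g := by
  unfold cmp
  rw [Functor.map_comp, ← Category.assoc, ← Category.assoc, u.naturality]
  rfl

omit [HasZeroObject K] [Preadditive K] [HasShift K ℤ] [∀ n : ℤ, (shiftFunctor K n).Additive]
  [Pretriangulated K] [HasZeroObject D₁] [HasShift D₁ ℤ]
  [∀ n : ℤ, (shiftFunctor D₁ n).Additive] [Pretriangulated D₁] [HasZeroObject D₂]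
  [HasShift D₂ ℤ] [∀ n : ℤ, (shiftFunctor D₂ n).Additive] [Pretriangulated D₂]
  [A₁.CommShift ℤ] [A₁.IsTriangulated] [A₂.CommShift ℤ] [A₂.IsTriangulated] in
lemma cmp_add (X : K) (g g' : A₁.obj X ⟶ c) :
    cmp A₁ A₂ Φ u c X (g + g') = cmp A₁ A₂ Φ u c X g + cmp A₁ A₂ Φ u c X g' := by
  unfold cmp
  rw [Functor.map_add, Preadditive.comp_add]

omit [HasZeroObject K] [Preadditive K] [HasShift K ℤ] [∀ n : ℤ, (shiftFunctor K n).Additive]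
  [Pretriangulated K] [HasZeroObject D₁] [HasShift D₁ ℤ]
  [∀ n : ℤ, (shiftFunctor D₁ n).Additive] [Pretriangulated D₁] [HasZeroObject D₂]
  [HasShift D₂ ℤ] [∀ n : ℤ, (shiftFunctor D₂ n).Additive] [Pretriangulated D₂]
  [A₁.CommShift ℤ] [A₁.IsTriangulated] [A₂.CommShift ℤ] [A₂.IsTriangulated] in
lemma cmp_zero (X : K) : cmp A₁ A₂ Φ u c X 0 = 0 := by
  unfold cmp
  rw [Functor.map_zero, comp_zero]

omit [HasZeroObject K] [Preadditive K] [HasShift K ℤ] [∀ n : ℤ, (shiftFunctor K n).Additive]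
  [Pretriangulated K] [HasZeroObject D₁] [HasShift D₁ ℤ]
  [∀ n : ℤ, (shiftFunctor D₁ n).Additive] [Pretriangulated D₁] [HasZeroObject D₂]
  [HasShift D₂ ℤ] [∀ n : ℤ, (shiftFunctor D₂ n).Additive] [Pretriangulated D₂]
  [A₁.CommShift ℤ] [A₁.IsTriangulated] [A₂.CommShift ℤ] [A₂.IsTriangulated] in
lemma cmp_inj {X : K} (h : Function.Injective (cmp A₁ A₂ Φ u c X)) {g : A₁.obj X ⟶ c}
    (hg : cmp A₁ A₂ Φ u c X g = 0) : g = 0 :=
  h (hg.trans (cmp_zero u X).symm)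

variable (A₁ A₂ Φ c) in
/-- The objects for which the comparison maps are bijective, for all shifts. -/
def CmpBij : ObjectProperty K := fun X =>
  ∀ n : ℤ, Function.Bijective (cmp A₁ A₂ Φ u c (X⟦n⟧))

omit [HasZeroObject K] [Preadditive K] [∀ n : ℤ, (shiftFunctor K n).Additive]
  [Pretriangulated K] [HasZeroObject D₁] [HasShift D₁ ℤ]
  [∀ n : ℤ, (shiftFunctor D₁ n).Additive] [Pretriangulated D₁] [HasZeroObject D₂]
  [HasShift D₂ ℤ] [∀ n : ℤ, (shiftFunctor D₂ n).Additive] [Pretriangulated D₂]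
  [A₁.CommShift ℤ] [A₁.IsTriangulated] [A₂.CommShift ℤ] [A₂.IsTriangulated] [HasShift K ℤ]
  [Preadditive D₁] [Preadditive D₂] [Φ.Additive] in
lemma cmp_bij_of_retract {X Y : K} (r : Retract X Y)
    (h : Function.Bijective (cmp A₁ A₂ Φ u c Y)) :
    Function.Bijective (cmp A₁ A₂ Φ u c X) := by
  constructor
  · intro g g' hg
    have h1 : cmp A₁ A₂ Φ u c Y (A₁.map r.r ≫ g) = cmp A₁ A₂ Φ u c Y (A₁.map r.r ≫ g') := by
      rw [cmp_map, cmp_map, hg]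
    have h2 := h.1 h1
    have h3 : A₁.map r.i ≫ A₁.map r.r = 𝟙 _ := by
      rw [← Functor.map_comp, r.retract, CategoryTheory.Functor.map_id]
    calc g = A₁.map r.i ≫ A₁.map r.r ≫ g := by rw [← Category.assoc, h3, Category.id_comp]
      _ = A₁.map r.i ≫ A₁.map r.r ≫ g' := by rw [h2]
      _ = g' := by rw [← Category.assoc, h3, Category.id_comp]
  · intro y
    obtain ⟨x, hx⟩ := h.2 (A₂.map r.r ≫ y)
    refine ⟨A₁.map r.i ≫ x, ?_⟩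
    rw [cmp_map, hx, ← Category.assoc, ← Functor.map_comp, r.retract, CategoryTheory.Functor.map_id,
      Category.id_comp]

omit [HasZeroObject K] [Preadditive K] [∀ n : ℤ, (shiftFunctor K n).Additive]
  [Pretriangulated K] [HasZeroObject D₁] [HasShift D₁ ℤ]
  [∀ n : ℤ, (shiftFunctor D₁ n).Additive] [Pretriangulated D₁] [HasZeroObject D₂]
  [HasShift D₂ ℤ] [∀ n : ℤ, (shiftFunctor D₂ n).Additive] [Pretriangulated D₂]
  [A₁.CommShift ℤ] [A₁.IsTriangulated] [A₂.CommShift ℤ] [A₂.IsTriangulated] [HasShift K ℤ]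
  [Preadditive D₁] [Preadditive D₂] [Φ.Additive] in
lemma cmp_bij_iff_of_iso {X Y : K} (e : X ≅ Y) :
    Function.Bijective (cmp A₁ A₂ Φ u c X) ↔ Function.Bijective (cmp A₁ A₂ Φ u c Y) :=
  ⟨cmp_bij_of_retract u ⟨e.inv, e.hom, e.inv_hom_id⟩,
    cmp_bij_of_retract u ⟨e.hom, e.inv, e.hom_inv_id⟩⟩

lemma exists_of_dist (A : K ⥤ D₁) [A.CommShift ℤ] [A.IsTriangulated] {Δ : Triangle K}
    (hΔ : Δ ∈ distTriang K) {X : D₁} (x : A.obj Δ.obj₂ ⟶ X) (hx : A.map Δ.mor₁ ≫ x = 0) :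
    ∃ y : A.obj Δ.obj₃ ⟶ X, x = A.map Δ.mor₂ ≫ y :=
  Triangle.yoneda_exact₂ (A.mapTriangle.obj Δ) (A.map_distinguished Δ hΔ) x hx

lemma cmp_bij_of_dist {Δ : Triangle K} (hΔ : Δ ∈ distTriang K)
    (h1 : Function.Bijective (cmp A₁ A₂ Φ u c Δ.obj₁))
    (h1' : Function.Bijective (cmp A₁ A₂ Φ u c (Δ.obj₁⟦(1 : ℤ)⟧)))
    (h3 : Function.Bijective (cmp A₁ A₂ Φ u c Δ.obj₃))
    (h3' : Function.Bijective (cmp A₁ A₂ Φ u c (Δ.obj₃⟦(-1 : ℤ)⟧))) :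
    Function.Bijective (cmp A₁ A₂ Φ u c Δ.obj₂) := by
  have hr := rot_of_distTriang _ hΔ
  have hi := inv_rot_of_distTriang _ hΔ
  constructor
  · refine (injective_iff_map_eq_zero (AddMonoidHom.mk' _ (cmp_add u Δ.obj₂))).2 fun g hg => ?_
    replace hg : cmp A₁ A₂ Φ u c Δ.obj₂ g = 0 := hg
    have e1 : A₁.map Δ.mor₁ ≫ g = 0 := by
      refine cmp_inj u h1.1 ?_
      rw [cmp_map, hg, comp_zero]
    obtain ⟨h, rfl⟩ := exists_of_dist A₁ hΔ g e1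
    rw [cmp_map] at hg
    obtain ⟨w, hw⟩ := exists_of_dist A₂ hr (cmp A₁ A₂ Φ u c Δ.obj₃ h) hg
    obtain ⟨w', rfl⟩ := h1'.2 w
    have e2 : cmp A₁ A₂ Φ u c Δ.obj₃ h = cmp A₁ A₂ Φ u c Δ.obj₃ (A₁.map Δ.mor₃ ≫ w') := by
      rw [cmp_map]
      exact hw
    rw [h3.1 e2, ← Category.assoc, ← Functor.map_comp, comp_distTriang_mor_zero₂₃ _ hΔ,
      Functor.map_zero, zero_comp]
  · intro y
    obtain ⟨x1, hx1⟩ := h1.2 (A₂.map Δ.mor₁ ≫ y)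
    have e1 : A₁.map Δ.invRotate.mor₁ ≫ x1 = 0 := by
      refine cmp_inj u h3'.1 ?_
      have e0 : Δ.invRotate.mor₁ ≫ Δ.mor₁ = 0 := comp_distTriang_mor_zero₁₂ _ hi
      refine (cmp_map u Δ.invRotate.mor₁ x1).trans ?_
      refine (congrArg (A₂.map Δ.invRotate.mor₁ ≫ ·) hx1).trans ?_
      refine (Category.assoc _ _ _).symm.trans ?_
      refine (congrArg (· ≫ y) ((A₂.map_comp _ _).symm.trans (congrArg A₂.map e0))).trans ?_
      change A₂.map 0 ≫ y = 0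
      rw [Functor.map_zero, zero_comp]
    obtain ⟨x2, hx2⟩ : ∃ x2 : A₁.obj Δ.obj₂ ⟶ c, x1 = A₁.map Δ.mor₁ ≫ x2 :=
      exists_of_dist A₁ hi x1 e1
    have e2 : A₂.map Δ.mor₁ ≫ (y - cmp A₁ A₂ Φ u c Δ.obj₂ x2) = 0 := by
      rw [Preadditive.comp_sub, ← cmp_map, ← hx2, hx1, sub_self]
    obtain ⟨z, hz⟩ := exists_of_dist A₂ hΔ _ e2
    obtain ⟨z', rfl⟩ := h3.2 z
    refine ⟨x2 + A₁.map Δ.mor₂ ≫ z', ?_⟩
    rw [cmp_add, cmp_map, ← hz]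
    abel

instance : (CmpBij A₁ A₂ Φ u c).IsStableUnderRetracts where
  of_retract r hY n := cmp_bij_of_retract u (r.map (shiftFunctor K n)) (hY n)

instance : (CmpBij A₁ A₂ Φ u c).IsTriangulated where
  exists_zero := ⟨0, isZero_zero K, fun n => by
    have hz : IsZero ((0 : K)⟦n⟧) := (shiftFunctor K n).map_isZero (isZero_zero K)
    have h1 : IsZero (A₁.obj ((0 : K)⟦n⟧)) := A₁.map_isZero hz
    have h2 : IsZero (A₂.obj ((0 : K)⟦n⟧)) := A₂.map_isZero hz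
    exact ⟨fun g g' _ => h1.eq_of_src _ _, fun y => ⟨0, h2.eq_of_src _ _⟩⟩⟩
  isStableUnderShiftBy a := ⟨fun X hX n =>
    (cmp_bij_iff_of_iso u ((shiftFunctorAdd' K a n (a + n) rfl).app X)).1 (hX (a + n))⟩
  toIsTriangulatedClosed₂ := .mk' (fun Δ hΔ h1 h3 n => by
    have hΔ' := Triangle.shift_distinguished _ hΔ n
    refine cmp_bij_of_dist u hΔ' (h1 n) ?_ (h3 n) ?_
    · exact (cmp_bij_iff_of_iso u ((shiftFunctorAdd' K n 1 (n + 1) rfl).app Δ.obj₁)).1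
        (h1 (n + 1))
    · exact (cmp_bij_iff_of_iso u ((shiftFunctorAdd' K n (-1) (n + -1) rfl).app Δ.obj₃)).1
        (h3 (n + -1)))

end contra

section co

variable {D₁ : Type u₁} [Category.{v₁} D₁] [HasZeroObject D₁] [Preadditive D₁] [HasShift D₁ ℤ]
  [∀ n : ℤ, (shiftFunctor D₁ n).Additive] [Pretriangulated D₁]
  {D₂ : Type u₂} [Category.{v₂} D₂] [HasZeroObject D₂] [Preadditive D₂] [HasShift D₂ ℤ]
  [∀ n : ℤ, (shiftFunctor D₂ n).Additive] [Pretriangulated D₂]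
  (Φ : D₁ ⥤ D₂) [Φ.CommShift ℤ] [Φ.IsTriangulated] {X : D₁} {X' : D₂} (u : X' ⟶ Φ.obj X)

/-- the comparison map `Hom(X, c) → Hom(X', Φ c)` -/
def cmpCo (c : D₁) (g : X ⟶ c) : X' ⟶ Φ.obj c := u ≫ Φ.map g

variable {Φ}

omit [HasZeroObject D₁] [Preadditive D₁] [HasShift D₁ ℤ]
  [∀ n : ℤ, (shiftFunctor D₁ n).Additive] [Pretriangulated D₁] [HasZeroObject D₂]
  [Preadditive D₂] [HasShift D₂ ℤ] [∀ n : ℤ, (shiftFunctor D₂ n).Additive] [Pretriangulated D₂]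
  [Φ.CommShift ℤ] [Φ.IsTriangulated] in
lemma cmpCo_map {c c' : D₁} (g : X ⟶ c) (f : c ⟶ c') :
    cmpCo Φ u c' (g ≫ f) = cmpCo Φ u c g ≫ Φ.map f := by
  unfold cmpCo
  rw [Functor.map_comp, Category.assoc]

lemma cmpCo_add (c : D₁) (g g' : X ⟶ c) :
    cmpCo Φ u c (g + g') = cmpCo Φ u c g + cmpCo Φ u c g' := by
  unfold cmpCo
  rw [Functor.map_add, Preadditive.comp_add]

lemma cmpCo_zero (c : D₁) : cmpCo Φ u c 0 = 0 := by
  unfold cmpCo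
  rw [Functor.map_zero, comp_zero]

lemma cmpCo_inj {c : D₁} (h : Function.Injective (cmpCo Φ u c)) {g : X ⟶ c}
    (hg : cmpCo Φ u c g = 0) : g = 0 :=
  h (hg.trans (cmpCo_zero u c).symm)

variable (Φ) in
/-- The objects for which the comparison maps are bijective, for all shifts. -/
def CmpBijCo : ObjectProperty D₁ := fun c =>
  ∀ n : ℤ, Function.Bijective (cmpCo Φ u (c⟦n⟧))

omit [HasZeroObject D₁] [Preadditive D₁] [HasShift D₁ ℤ]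
  [∀ n : ℤ, (shiftFunctor D₁ n).Additive] [Pretriangulated D₁] [HasZeroObject D₂]
  [Preadditive D₂] [HasShift D₂ ℤ] [∀ n : ℤ, (shiftFunctor D₂ n).Additive] [Pretriangulated D₂]
  [Φ.CommShift ℤ] [Φ.IsTriangulated] in
lemma cmpCo_bij_of_retract {c c' : D₁} (r : Retract c c')
    (h : Function.Bijective (cmpCo Φ u c')) : Function.Bijective (cmpCo Φ u c) := by
  constructor
  · intro g g' hg
    have h1 : cmpCo Φ u c' (g ≫ r.i) = cmpCo Φ u c' (g' ≫ r.i) := by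
      rw [cmpCo_map, cmpCo_map, hg]
    have h2 := h.1 h1
    calc g = (g ≫ r.i) ≫ r.r := by rw [Category.assoc, r.retract, Category.comp_id]
      _ = (g' ≫ r.i) ≫ r.r := by rw [h2]
      _ = g' := by rw [Category.assoc, r.retract, Category.comp_id]
  · intro y
    obtain ⟨x, hx⟩ := h.2 (y ≫ Φ.map r.i)
    refine ⟨x ≫ r.r, ?_⟩
    rw [cmpCo_map, hx, Category.assoc, ← Functor.map_comp, r.retract,
      CategoryTheory.Functor.map_id, Category.comp_id]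

omit [HasZeroObject D₁] [Preadditive D₁] [HasShift D₁ ℤ]
  [∀ n : ℤ, (shiftFunctor D₁ n).Additive] [Pretriangulated D₁] [HasZeroObject D₂]
  [Preadditive D₂] [HasShift D₂ ℤ] [∀ n : ℤ, (shiftFunctor D₂ n).Additive] [Pretriangulated D₂]
  [Φ.CommShift ℤ] [Φ.IsTriangulated] in
lemma cmpCo_bij_iff_of_iso {c c' : D₁} (e : c ≅ c') :
    Function.Bijective (cmpCo Φ u c) ↔ Function.Bijective (cmpCo Φ u c') :=
  ⟨cmpCo_bij_of_retract u ⟨e.inv, e.hom, e.inv_hom_id⟩,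
    cmpCo_bij_of_retract u ⟨e.hom, e.inv, e.hom_inv_id⟩⟩

lemma exists_of_dist_co {Δ : Triangle D₁} (hΔ : Δ ∈ distTriang D₁) {X : D₂}
    (x : X ⟶ Φ.obj Δ.obj₂) (hx : x ≫ Φ.map Δ.mor₂ = 0) :
    ∃ y : X ⟶ Φ.obj Δ.obj₁, x = y ≫ Φ.map Δ.mor₁ :=
  Triangle.coyoneda_exact₂ (Φ.mapTriangle.obj Δ) (Φ.map_distinguished Δ hΔ) x hx

lemma cmpCo_bij_of_dist {Δ : Triangle D₁} (hΔ : Δ ∈ distTriang D₁)
    (h1 : Function.Bijective (cmpCo Φ u Δ.obj₁))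
    (h1' : Function.Bijective (cmpCo Φ u (Δ.obj₁⟦(1 : ℤ)⟧)))
    (h3 : Function.Bijective (cmpCo Φ u Δ.obj₃))
    (h3' : Function.Bijective (cmpCo Φ u (Δ.obj₃⟦(-1 : ℤ)⟧))) :
    Function.Bijective (cmpCo Φ u Δ.obj₂) := by
  have hr := rot_of_distTriang _ hΔ
  have hi := inv_rot_of_distTriang _ hΔ
  constructor
  · refine (injective_iff_map_eq_zero (AddMonoidHom.mk' _ (cmpCo_add u Δ.obj₂))).2 fun g hg => ?_
    replace hg : cmpCo Φ u Δ.obj₂ g = 0 := hg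
    have e1 : g ≫ Δ.mor₂ = 0 := by
      refine cmpCo_inj u h3.1 ?_
      rw [cmpCo_map, hg, zero_comp]
    obtain ⟨h, rfl⟩ := Triangle.coyoneda_exact₂ Δ hΔ g e1
    rw [cmpCo_map] at hg
    obtain ⟨w, hw⟩ : ∃ w : X' ⟶ Φ.obj Δ.invRotate.obj₁,
        cmpCo Φ u Δ.obj₁ h = w ≫ Φ.map Δ.invRotate.mor₁ :=
      exists_of_dist_co hi (cmpCo Φ u Δ.obj₁ h) hg
    obtain ⟨w', rfl⟩ := h3'.2 w
    have e2 : cmpCo Φ u Δ.obj₁ h = cmpCo Φ u Δ.obj₁ (w' ≫ Δ.invRotate.mor₁) :=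
      hw.trans (cmpCo_map u w' Δ.invRotate.mor₁).symm
    have e0 : Δ.invRotate.mor₁ ≫ Δ.mor₁ = 0 := comp_distTriang_mor_zero₁₂ _ hi
    have e3 := h1.1 e2
    have e4 : h ≫ Δ.mor₁ = w' ≫ Δ.invRotate.mor₁ ≫ Δ.mor₁ :=
      (congrArg (· ≫ Δ.mor₁) e3).trans (Category.assoc _ _ _)
    have e5 : w' ≫ Δ.invRotate.mor₁ ≫ Δ.mor₁ = 0 := (congrArg (w' ≫ ·) e0).trans comp_zero
    exact e4.trans e5
  · intro y
    obtain ⟨x3, hx3⟩ := h3.2 (y ≫ Φ.map Δ.mor₂)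
    have e1 : x3 ≫ Δ.mor₃ = 0 := by
      refine cmpCo_inj u h1'.1 ?_
      rw [cmpCo_map, hx3, Category.assoc, ← Functor.map_comp, comp_distTriang_mor_zero₂₃ _ hΔ,
        Functor.map_zero, comp_zero]
    obtain ⟨x2, hx2⟩ : ∃ x2 : X ⟶ Δ.obj₂, x3 = x2 ≫ Δ.mor₂ :=
      Triangle.coyoneda_exact₂ _ hr x3 e1
    have e2 : (y - cmpCo Φ u Δ.obj₂ x2) ≫ Φ.map Δ.mor₂ = 0 := by
      rw [Preadditive.sub_comp, ← cmpCo_map, ← hx2, hx3, sub_self]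
    obtain ⟨z, hz⟩ := exists_of_dist_co hΔ _ e2
    obtain ⟨z', rfl⟩ := h1.2 z
    refine ⟨x2 + z' ≫ Δ.mor₁, ?_⟩
    rw [cmpCo_add, cmpCo_map, ← hz]
    abel

instance : (CmpBijCo Φ u).IsStableUnderRetracts where
  of_retract r hY n := cmpCo_bij_of_retract u (r.map (shiftFunctor D₁ n)) (hY n)

instance : (CmpBijCo Φ u).IsTriangulated where
  exists_zero := ⟨0, isZero_zero D₁, fun n => by
    have hz : IsZero ((0 : D₁)⟦n⟧) := (shiftFunctor D₁ n).map_isZero (isZero_zero D₁)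
    have h2 : IsZero (Φ.obj ((0 : D₁)⟦n⟧)) := Φ.map_isZero hz
    exact ⟨fun g g' _ => hz.eq_of_tgt _ _, fun y => ⟨0, h2.eq_of_tgt _ _⟩⟩⟩
  isStableUnderShiftBy a := ⟨fun X hX n =>
    (cmpCo_bij_iff_of_iso u ((shiftFunctorAdd' D₁ a n (a + n) rfl).app X)).1 (hX (a + n))⟩
  toIsTriangulatedClosed₂ := .mk' (fun Δ hΔ h1 h3 n => by
    have hΔ' := Triangle.shift_distinguished _ hΔ n
    refine cmpCo_bij_of_dist u hΔ' (h1 n) ?_ (h3 n) ?_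
    · exact (cmpCo_bij_iff_of_iso u ((shiftFunctorAdd' D₁ n 1 (n + 1) rfl).app Δ.obj₁)).1
        (h1 (n + 1))
    · exact (cmpCo_bij_iff_of_iso u ((shiftFunctorAdd' D₁ n (-1) (n + -1) rfl).app Δ.obj₃)).1
        (h3 (n + -1)))

end co

end Orl.LF
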