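import Pool.Agent.Work.MP_f714fc_ag.Abs.ExtAdj

/-!
MP_a6e60d_ag, LF: Ext and a composition of adjunctions.
-/

open CategoryTheory Limits Abelian

attribute [-instance] CategoryTheory.catToReflQuiver

namespace Orl.LF

universe w₁ w₂ w₃ v₁ v₂ v' u₁ u₂ u'

variable {M : Type u₁} [Category.{v₁} M] [Abelian M] [HasExt.{w₁} M]
  {A : Type u₂} [Category.{v₂} A] [Abelian A] [HasExt.{w₂} A]
  {C : Type u'} [Category.{v'} C] [Abelian C] [HasExt.{w₃} C]

/-- Let `I ⊣ R` be exact functors, `Ψ ⊣ Φ` with `Φ` exact and `Ψ` exact on the image of `I`. Then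
`Ext(Ψ I m, c) = Ext(I m, Φ c)`. -/
theorem ext_unit_bijective (I : M ⥤ A) (R : A ⥤ M) (adj₁ : I ⊣ R) [I.Additive]
    [PreservesFiniteLimits I] [PreservesFiniteColimits I] [R.Additive] [PreservesFiniteLimits R]
    [PreservesFiniteColimits R] (Ψ : A ⥤ C) (Φ : C ⥤ A) (adj : Ψ ⊣ Φ) [Φ.Additive]
    [PreservesFiniteLimits Φ] [PreservesFiniteColimits Φ]
    [Ψ.Additive] [PreservesFiniteLimits (I ⋙ Ψ)] [PreservesFiniteColimits (I ⋙ Ψ)] (m : M) (c : C)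
    (n : ℕ) :
    Function.Bijective (fun x : Ext.{w₃} (Ψ.obj (I.obj m)) c n =>
      ((Ext.mk₀ (adj.unit.app (I.obj m))).comp
        (x.mapExactFunctor Φ : Ext.{w₂} _ _ n) (zero_add n) : Ext.{w₂} _ _ n)) := by
  have i1 : PreservesFiniteLimits (Φ ⋙ R) := comp_preservesFiniteLimits _ _
  have i2 : PreservesFiniteColimits (Φ ⋙ R) := comp_preservesFiniteColimits _ _
  let adj₂ : I ⋙ Ψ ⊣ Φ ⋙ R := adj₁.comp adj
  have h1 : Function.Bijective (fun x : Ext.{w₃} ((I ⋙ Ψ).obj m) c n =>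
      (Fdim.extAdjTo adj₂ x : Ext.{w₁} m ((Φ ⋙ R).obj c) n)) :=
    ⟨fun x y h => by
      have := congrArg (Fdim.extAdjInv adj₂) h
      simpa only [Fdim.extAdj_left_inv] using this,
      fun y => ⟨Fdim.extAdjInv adj₂ y, Fdim.extAdj_right_inv adj₂ y⟩⟩
  have h2 : Function.Bijective (fun x : Ext.{w₂} (I.obj m) (Φ.obj c) n =>
      (Fdim.extAdjTo adj₁ x : Ext.{w₁} m (R.obj (Φ.obj c)) n)) :=
    ⟨fun x y h => by
      have := congrArg (Fdim.extAdjInv adj₁) h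
      simpa only [Fdim.extAdj_left_inv] using this,
      fun y => ⟨Fdim.extAdjInv adj₁ y, Fdim.extAdj_right_inv adj₁ y⟩⟩
  have key : ∀ x : Ext.{w₃} (Ψ.obj (I.obj m)) c n,
      (Fdim.extAdjTo adj₁ ((Ext.mk₀ (adj.unit.app (I.obj m))).comp
        (x.mapExactFunctor Φ : Ext.{w₂} _ _ n) (zero_add n) : Ext.{w₂} _ _ n) :
          Ext.{w₁} m (R.obj (Φ.obj c)) n) =
        (Fdim.extAdjTo adj₂ (A := m) (B := c) x : Ext.{w₁} m ((Φ ⋙ R).obj c) n) := by
    intro x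
    unfold Fdim.extAdjTo
    have e1 : (x.mapExactFunctor (Φ ⋙ R) : Ext.{w₁} _ _ n) =
        (x.mapExactFunctor Φ : Ext.{w₂} _ _ n).mapExactFunctor R :=
      Fdim.mapExactFunctor_comp_functor Φ R x
    have e2 : adj₂.unit.app m = adj₁.unit.app m ≫ R.map (adj.unit.app (I.obj m)) := by
      simp [adj₂]
    rw [Ext.mapExactFunctor_comp, Ext.mapExactFunctor_mk₀, Ext.mk₀_comp_mk₀_assoc]
    refine Eq.trans ?_ (congrArg
      (fun y => (Ext.mk₀ (adj₂.unit.app m)).comp y (zero_add n)) e1).symm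
    rw [e2]
  refine (Function.Bijective.of_comp_iff' h2 _).1 ⟨fun x y h => ?_, fun z => ?_⟩
  · exact h1.1 ((key x).symm.trans (Eq.trans h (key y)))
  · obtain ⟨x, hx⟩ := h1.2 z
    exact ⟨x, (key x).trans hx⟩

/-- The dual statement: `R ⊣ J` exact, `Φ ⊣ Ψ` with `Φ` exact and `Ψ` exact on the image of `J`.
Then `Ext(c, Ψ J m) = Ext(Φ c, J m)`. -/
theorem ext_counit_bijective (R : A ⥤ M) (J : M ⥤ A) (adj₁ : R ⊣ J) [J.Additive]
    [PreservesFiniteLimits J] [PreservesFiniteColimits J] [R.Additive] [PreservesFiniteLimits R]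
    [PreservesFiniteColimits R] (Φ : C ⥤ A) (Ψ : A ⥤ C) (adj : Φ ⊣ Ψ) [Φ.Additive]
    [PreservesFiniteLimits Φ] [PreservesFiniteColimits Φ]
    [Ψ.Additive] [PreservesFiniteLimits (J ⋙ Ψ)] [PreservesFiniteColimits (J ⋙ Ψ)] (m : M) (c : C)
    (n : ℕ) :
    Function.Bijective (fun x : Ext.{w₃} c (Ψ.obj (J.obj m)) n =>
      ((x.mapExactFunctor Φ : Ext.{w₂} _ _ n).comp
        (Ext.mk₀ (adj.counit.app (J.obj m))) (add_zero n) : Ext.{w₂} _ _ n)) := by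
  have i1 : PreservesFiniteLimits (Φ ⋙ R) := comp_preservesFiniteLimits _ _
  have i2 : PreservesFiniteColimits (Φ ⋙ R) := comp_preservesFiniteColimits _ _
  let adj₂ : Φ ⋙ R ⊣ J ⋙ Ψ := adj.comp adj₁
  have h1 : Function.Bijective (fun x : Ext.{w₃} c ((J ⋙ Ψ).obj m) n =>
      (Fdim.extAdjInv adj₂ x : Ext.{w₁} ((Φ ⋙ R).obj c) m n)) :=
    ⟨fun x y h => by
      have := congrArg (Fdim.extAdjTo adj₂) h
      simpa only [Fdim.extAdj_right_inv] using this,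
      fun y => ⟨Fdim.extAdjTo adj₂ y, Fdim.extAdj_left_inv adj₂ y⟩⟩
  have h2 : Function.Bijective (fun x : Ext.{w₂} (Φ.obj c) (J.obj m) n =>
      (Fdim.extAdjInv adj₁ x : Ext.{w₁} (R.obj (Φ.obj c)) m n)) :=
    ⟨fun x y h => by
      have := congrArg (Fdim.extAdjTo adj₁) h
      simpa only [Fdim.extAdj_right_inv] using this,
      fun y => ⟨Fdim.extAdjTo adj₁ y, Fdim.extAdj_left_inv adj₁ y⟩⟩
  have key : ∀ x : Ext.{w₃} c (Ψ.obj (J.obj m)) n,
      (Fdim.extAdjInv adj₁ ((x.mapExactFunctor Φ : Ext.{w₂} _ _ n).comp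
        (Ext.mk₀ (adj.counit.app (J.obj m))) (add_zero n) : Ext.{w₂} _ _ n) :
          Ext.{w₁} (R.obj (Φ.obj c)) m n) =
        (Fdim.extAdjInv adj₂ (A := c) (B := m) x : Ext.{w₁} ((Φ ⋙ R).obj c) m n) := by
    intro x
    unfold Fdim.extAdjInv
    have e1 : (x.mapExactFunctor (Φ ⋙ R) : Ext.{w₁} _ _ n) =
        (x.mapExactFunctor Φ : Ext.{w₂} _ _ n).mapExactFunctor R :=
      Fdim.mapExactFunctor_comp_functor Φ R x
    have e2 : adj₂.counit.app m = R.map (adj.counit.app (J.obj m)) ≫ adj₁.counit.app m := by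
      simp [adj₂]
    rw [Ext.mapExactFunctor_comp, Ext.mapExactFunctor_mk₀, Ext.comp_assoc_of_third_deg_zero,
      Ext.mk₀_comp_mk₀]
    refine Eq.trans ?_ (congrArg
      (fun y => y.comp (Ext.mk₀ (adj₂.counit.app m)) (add_zero n)) e1).symm
    rw [e2]
  refine (Function.Bijective.of_comp_iff' h2 _).1 ⟨fun x y h => ?_, fun z => ?_⟩
  · exact h1.1 ((key x).symm.trans (Eq.trans h (key y)))
  · obtain ⟨x, hx⟩ := h1.2 z
    exact ⟨x, (key x).trans hx⟩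

end Orl.LF
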