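import Pool.Agent.Work.MP_f714fc_ag.Abs.ExtAdj

/-!
# Full faithfulness on Ext from a resolution by adjoints

Let `Φ : C ⥤ A` be an exact functor with a functorial resolution `0 → lf → lb → la → Φ → 0` by exact
left adjoints of exact functors `ef`, `eb`, `ea`. If the complex
`0 → c → ea (Φ c) → eb (Φ c) → ef (Φ c) → 0` is contractible for every `c`, then `Φ` is bijective
on Ext.
-/

open CategoryTheory Limits Abelian

namespace Orl.LF

universe w w' v v' u u'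

variable {C : Type u} [Category.{v} C] [Abelian C] [HasExt.{w} C]
  {A : Type u'} [Category.{v'} A] [Abelian A] [HasExt.{w'} A]

section mate

variable {L L' : C ⥤ A} {R R' : A ⥤ C}
  [L.Additive] [PreservesFiniteLimits L] [PreservesFiniteColimits L]
  [L'.Additive] [PreservesFiniteLimits L'] [PreservesFiniteColimits L']
  [R.Additive] [PreservesFiniteLimits R] [PreservesFiniteColimits R]
  [R'.Additive] [PreservesFiniteLimits R'] [PreservesFiniteColimits R']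
  (adj : L ⊣ R) (adj' : L' ⊣ R') (α : R ⟶ R') (ρ : L' ⟶ L)
  (h : ∀ c, adj'.unit.app c ≫ R'.map (ρ.app c) = adj.unit.app c ≫ α.app (L.obj c))

omit [L.Additive] [PreservesFiniteLimits L] [PreservesFiniteColimits L] [L'.Additive]
  [PreservesFiniteLimits L'] [PreservesFiniteColimits L'] in
include h in
lemma extAdjTo_mate {c : C} {B : A} {n : ℕ} (z : Ext.{w'} (L.obj c) B n) :
    (Fdim.extAdjTo adj z : Ext.{w} _ _ n).comp (Ext.mk₀ (α.app B)) (add_zero n) =
      Fdim.extAdjTo adj' ((Ext.mk₀ (ρ.app c)).comp z (zero_add n)) := by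
  have h1 : (z.mapExactFunctor R : Ext.{w} _ _ n).comp (Ext.mk₀ (α.app B)) (add_zero n) =
      (Ext.mk₀ (α.app (L.obj c))).comp (z.mapExactFunctor R' : Ext.{w} _ _ n) (zero_add n) :=
    Fdim.mapExactFunctor_natTrans α z
  unfold Fdim.extAdjTo
  rw [Ext.comp_assoc_of_third_deg_zero, h1, Ext.mapExactFunctor_comp, Ext.mapExactFunctor_mk₀,
    Ext.mk₀_comp_mk₀_assoc, Ext.mk₀_comp_mk₀_assoc, h]

omit [L'.Additive] [PreservesFiniteLimits L'] [PreservesFiniteColimits L'] in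
include h in
lemma exists_comp_of_mate (hinj : ∀ {c : C} {B : A} {n : ℕ} (x y : Ext.{w'} (L'.obj c) B n),
      (Fdim.extAdjTo adj' x : Ext.{w} _ _ n) = Fdim.extAdjTo adj' y → x = y)
    {c : C} {B : A} {n : ℕ} (z : Ext.{w'} (L'.obj c) B n)
    (s : R'.obj B ⟶ R.obj B)
    (hs : ((Fdim.extAdjTo adj' z : Ext.{w} _ _ n).comp (Ext.mk₀ s) (add_zero n)).comp
      (Ext.mk₀ (α.app B)) (add_zero n) = Fdim.extAdjTo adj' z) :
    ∃ u : Ext.{w'} (L.obj c) B n, (Ext.mk₀ (ρ.app c)).comp u (zero_add n) = z := by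
  refine ⟨Fdim.extAdjInv adj ((Fdim.extAdjTo adj' z).comp (Ext.mk₀ s) (add_zero n)), ?_⟩
  apply hinj
  rw [← extAdjTo_mate adj adj' α ρ h, Fdim.extAdj_right_inv, hs]

end mate

lemma extAdjTo_injective {L : C ⥤ A} {R : A ⥤ C}
    [L.Additive] [PreservesFiniteLimits L] [PreservesFiniteColimits L]
    [R.Additive] [PreservesFiniteLimits R] [PreservesFiniteColimits R] (adj : L ⊣ R)
    {c : C} {B : A} {n : ℕ} (x y : Ext.{w'} (L.obj c) B n)
    (h : (Fdim.extAdjTo adj x : Ext.{w} _ _ n) = Fdim.extAdjTo adj y) : x = y := by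
  have h1 := congrArg (Fdim.extAdjInv adj) h
  rwa [Fdim.extAdj_left_inv, Fdim.extAdj_left_inv] at h1

omit [HasExt.{w} C] in
/-- Composition with an epimorphism is injective in degree zero. -/
lemma eq_zero_of_epi {X Y Z : A} (p : X ⟶ Y) [Epi p] (d : Ext.{w'} Y Z 0)
    (h : (Ext.mk₀ p).comp d (zero_add 0) = 0) : d = 0 := by
  obtain ⟨f, rfl⟩ := (Ext.mk₀_bijective Y Z).2 d
  rw [Ext.mk₀_comp_mk₀] at h
  have h1 : p ≫ f = 0 := (Ext.mk₀_bijective X Z).1 (by rw [h, Ext.mk₀_zero])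
  have h2 : f = 0 := by rw [← cancel_epi p, h1, comp_zero]
  rw [h2, Ext.mk₀_zero]

/-- Composition with the epimorphism of a short exact sequence is injective on Ext if the
restriction to the first object is surjective. -/
lemma comp_injective_of_surjective {S : ShortComplex A} (hS : S.ShortExact) {Y : A}
    (hsurj : ∀ (m : ℕ) (v : Ext.{w'} S.X₁ Y m), ∃ u : Ext.{w'} S.X₂ Y m,
      (Ext.mk₀ S.f).comp u (zero_add m) = v) {n : ℕ} (d : Ext.{w'} S.X₃ Y n)
    (hd : (Ext.mk₀ S.g).comp d (zero_add n) = 0) : d = 0 := by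
  cases n with
  | zero =>
    have := hS.epi_g
    exact eq_zero_of_epi S.g d hd
  | succ n =>
    obtain ⟨v, hv⟩ := Ext.contravariant_sequence_exact₃ hS Y d hd (add_comm 1 n)
    obtain ⟨u, hu⟩ := hsurj n v
    rw [← hv, ← hu, ShortComplex.ShortExact.extClass_comp_assoc]

lemma comp_injective_of_surjective' {S : ShortComplex A} (hS : S.ShortExact) {Y : A}
    (hsurj : ∀ (m : ℕ) (v : Ext.{w'} S.X₁ Y m), ∃ u : Ext.{w'} S.X₂ Y m,
      (Ext.mk₀ S.f).comp u (zero_add m) = v) {n : ℕ} (d d' : Ext.{w'} S.X₃ Y n)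
    (hd : (Ext.mk₀ S.g).comp d (zero_add n) = (Ext.mk₀ S.g).comp d' (zero_add n)) : d = d' := by
  have h1 : d - d' = 0 := by
    apply comp_injective_of_surjective hS hsurj
    rw [sub_eq_add_neg, Ext.comp_add, Ext.comp_neg, hd, add_neg_cancel]
  exact sub_eq_zero.1 h1

/-- **X1** -/
theorem extFF
    (Φ : C ⥤ A) [Φ.Additive] [PreservesFiniteLimits Φ] [PreservesFiniteColimits Φ]
    (ea eb ef : A ⥤ C) [ea.Additive] [PreservesFiniteLimits ea] [PreservesFiniteColimits ea]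
    [eb.Additive] [PreservesFiniteLimits eb] [PreservesFiniteColimits eb]
    [ef.Additive] [PreservesFiniteLimits ef] [PreservesFiniteColimits ef]
    (la lb lf : C ⥤ A) [la.Additive] [PreservesFiniteLimits la] [PreservesFiniteColimits la]
    [lb.Additive] [PreservesFiniteLimits lb] [PreservesFiniteColimits lb]
    [lf.Additive] [PreservesFiniteLimits lf] [PreservesFiniteColimits lf]
    (adja : la ⊣ ea) (adjb : lb ⊣ eb) (adjf : lf ⊣ ef)
    (α : ea ⟶ eb) (β : eb ⟶ ef) (ρ : lb ⟶ la) (σ : lf ⟶ lb) (π : la ⟶ Φ)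
    (θ : 𝟭 C ⟶ Φ ⋙ ea)
    (hα : ∀ c, adjb.unit.app c ≫ eb.map (ρ.app c) = adja.unit.app c ≫ α.app (la.obj c))
    (hβ : ∀ c, adjf.unit.app c ≫ ef.map (σ.app c) = adjb.unit.app c ≫ β.app (lb.obj c))
    (hθ : ∀ c, adja.unit.app c ≫ ea.map (π.app c) = θ.app c)
    (hπ : ∀ c, Epi (π.app c)) (hσ : ∀ c, Mono (σ.app c))
    (hρπ : ∀ c, ρ.app c ≫ π.app c = 0) (hσρ : ∀ c, σ.app c ≫ ρ.app c = 0)
    (exρπ : ∀ c, (ShortComplex.mk (ρ.app c) (π.app c) (hρπ c)).Exact)
    (exσρ : ∀ c, (ShortComplex.mk (σ.app c) (ρ.app c) (hσρ c)).Exact)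
    (contr : ∀ c, ∃ (h₀ : ea.obj (Φ.obj c) ⟶ c) (h₁ : eb.obj (Φ.obj c) ⟶ ea.obj (Φ.obj c))
      (h₂ : ef.obj (Φ.obj c) ⟶ eb.obj (Φ.obj c)), θ.app c ≫ h₀ = 𝟙 c ∧
        (h₀ ≫ (show c ⟶ ea.obj (Φ.obj c) from θ.app c)) + α.app (Φ.obj c) ≫ h₁ = 𝟙 _ ∧
        h₁ ≫ α.app (Φ.obj c) + β.app (Φ.obj c) ≫ h₂ = 𝟙 _ ∧
        h₂ ≫ β.app (Φ.obj c) = 𝟙 _)
    (c c' : C) (n : ℕ) :
    Function.Bijective (fun x : Ext.{w} c c' n => (x.mapExactFunctor Φ : Ext.{w'} _ _ n)) := by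
  obtain ⟨h₀, h₁, h₂, e1, e2, e3, e4⟩ := contr c'
  -- `π ∘ Φ e` corresponds to `e ∘ θ`
  have key : ∀ e : Ext.{w} c c' n,
      (Fdim.extAdjTo adja ((Ext.mk₀ (π.app c)).comp (e.mapExactFunctor Φ : Ext.{w'} _ _ n)
        (zero_add n)) : Ext.{w} _ _ n) =
      e.comp (Ext.mk₀ (show c' ⟶ ea.obj (Φ.obj c') from θ.app c')) (add_zero n) := by
    intro e
    have h1 : (e.mapExactFunctor (𝟭 C) : Ext.{w} _ _ n).comp (Ext.mk₀ (θ.app c')) (add_zero n) =
        (Ext.mk₀ (θ.app c)).comp (e.mapExactFunctor (Φ ⋙ ea) : Ext.{w} _ _ n) (zero_add n) :=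
      Fdim.mapExactFunctor_natTrans θ e
    rw [Fdim.mapExactFunctor_id] at h1
    have h2 : (e.mapExactFunctor (Φ ⋙ ea) : Ext.{w} _ _ n) =
        (e.mapExactFunctor Φ : Ext.{w'} _ _ n).mapExactFunctor ea :=
      Fdim.mapExactFunctor_comp_functor Φ ea e
    unfold Fdim.extAdjTo
    rw [Ext.mapExactFunctor_comp, Ext.mapExactFunctor_mk₀, Ext.mk₀_comp_mk₀_assoc, hθ, ← h2]
    exact h1.symm
  constructor
  · intro e e' hee
    have hee' : (e.mapExactFunctor Φ : Ext.{w'} _ _ n) = e'.mapExactFunctor Φ := hee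
    have h1 := key e
    rw [hee', key e'] at h1
    have h2 := congrArg (fun z => z.comp (Ext.mk₀ h₀) (add_zero n)) h1
    simp only [Ext.comp_assoc_of_third_deg_zero, Ext.mk₀_comp_mk₀] at h2
    have h3 : (show c' ⟶ ea.obj (Φ.obj c') from θ.app c') ≫ h₀ = 𝟙 c' := e1
    rw [h3, Ext.comp_mk₀_id, Ext.comp_mk₀_id] at h2
    exact h2.symm
  · intro x
    -- the class `e`
    obtain ⟨y, hy⟩ : ∃ y : Ext.{w} c (ea.obj (Φ.obj c')) n,
      y = Fdim.extAdjTo adja ((Ext.mk₀ (π.app c)).comp x (zero_add n)) := ⟨_, rfl⟩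
    have hyα : y.comp (Ext.mk₀ (α.app (Φ.obj c'))) (add_zero n) = 0 := by
      rw [hy, extAdjTo_mate adja adjb α ρ hα, Ext.mk₀_comp_mk₀_assoc, hρπ, Ext.mk₀_zero,
        Ext.zero_comp]
      unfold Fdim.extAdjTo
      rw [Ext.mapExactFunctor_zero, Ext.comp_zero]
    have hyθ : (y.comp (Ext.mk₀ h₀) (add_zero n)).comp
        (Ext.mk₀ (show c' ⟶ ea.obj (Φ.obj c') from θ.app c')) (add_zero n) = y := by
      have h1 : y.comp (Ext.mk₀ ((h₀ ≫ (show c' ⟶ ea.obj (Φ.obj c') from θ.app c')) +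
          α.app (Φ.obj c') ≫ h₁)) (add_zero n) = y := by
        rw [e2]
        exact Ext.comp_mk₀_id y
      rw [Ext.mk₀_add, Ext.comp_add, ← Ext.mk₀_comp_mk₀ (α.app (Φ.obj c')) h₁,
        ← Ext.comp_assoc_of_third_deg_zero, hyα, Ext.zero_comp, add_zero,
        ← Ext.mk₀_comp_mk₀, ← Ext.comp_assoc_of_third_deg_zero] at h1
      exact h1
    refine ⟨y.comp (Ext.mk₀ h₀) (add_zero n), ?_⟩
    obtain ⟨d, hd⟩ : ∃ d : Ext.{w'} (Φ.obj c) (Φ.obj c') n,
      d = (y.comp (Ext.mk₀ h₀) (add_zero n)).mapExactFunctor Φ - x := ⟨_, rfl⟩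
    have hπd : (Ext.mk₀ (π.app c)).comp d (zero_add n) = 0 := by
      have h1 := key (y.comp (Ext.mk₀ h₀) (add_zero n))
      rw [hyθ] at h1
      have h2 := extAdjTo_injective adja _ _ (h1.trans hy)
      rw [hd, sub_eq_add_neg, Ext.comp_add, Ext.comp_neg, ← sub_eq_add_neg, sub_eq_zero]
      exact h2
    suffices hd0 : d = 0 by
      rw [hd0] at hd
      exact (sub_eq_zero.1 hd.symm)
    -- restriction from `lb c` to `lf c`
    have hsurj2 : ∀ (m : ℕ) (v : Ext.{w'} (lf.obj c) (Φ.obj c') m),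
        ∃ u : Ext.{w'} (lb.obj c) (Φ.obj c') m,
          (Ext.mk₀ (σ.app c)).comp u (zero_add m) = v := by
      intro m v
      refine exists_comp_of_mate adjb adjf β σ hβ (fun x y h => extAdjTo_injective adjf x y h)
        v h₂ ?_
      rw [Ext.comp_assoc_of_third_deg_zero, Ext.mk₀_comp_mk₀, e4]
      exact Ext.comp_mk₀_id _
    -- the short exact sequence `0 → lf c → lb c → V₁ → 0`
    have hp0 : σ.app c ≫ kernel.lift (π.app c) (ρ.app c) (hρπ c) = 0 := by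
      rw [← cancel_mono (kernel.ι (π.app c)), Category.assoc, kernel.lift_ι, hσρ, zero_comp]
    have hS2 : (ShortComplex.mk (σ.app c) (kernel.lift (π.app c) (ρ.app c) (hρπ c))
        hp0).ShortExact := by
      have h1 : (ShortComplex.mk (σ.app c) (kernel.lift (π.app c) (ρ.app c) (hρπ c))
          hp0).Exact := by
        let φ : ShortComplex.mk (σ.app c) (kernel.lift (π.app c) (ρ.app c) (hρπ c)) hp0 ⟶
            ShortComplex.mk (σ.app c) (ρ.app c) (hσρ c) :=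
          { τ₁ := 𝟙 _
            τ₂ := 𝟙 _
            τ₃ := kernel.ι (π.app c)
            comm₁₂ := by simp
            comm₂₃ := by simp }
        have i1 : Epi φ.τ₁ := inferInstanceAs (Epi (𝟙 (lf.obj c)))
        have i2 : IsIso φ.τ₂ := inferInstanceAs (IsIso (𝟙 (lb.obj c)))
        have i3 : Mono φ.τ₃ := inferInstanceAs (Mono (kernel.ι (π.app c)))
        exact (ShortComplex.exact_iff_of_epi_of_isIso_of_mono φ).2 (exσρ c)
      have h2 : Epi (kernel.lift (π.app c) (ρ.app c) (hρπ c)) :=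
        (ShortComplex.exact_iff_epi_kernel_lift _).1 (exρπ c)
      exact { exact := h1, mono_f := hσ c, epi_g := h2 }
    have hπc := hπ c
    refine comp_injective_of_surjective (Fdim.shortExact_of_epi (π.app c)) (fun m w => ?_) d hπd
    -- restriction from `la c` to `V₁`
    obtain ⟨z, hz⟩ : ∃ z : Ext.{w'} (lb.obj c) (Φ.obj c') m, z =
      (Ext.mk₀ (kernel.lift (π.app c) (ρ.app c) (hρπ c))).comp w (zero_add m) := ⟨_, rfl⟩
    obtain ⟨u, hu⟩ := exists_comp_of_mate adja adjb α ρ hα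
      (fun x y h => extAdjTo_injective adjb x y h) z h₁ (by
        have h1 : (Fdim.extAdjTo adjb z : Ext.{w} _ _ m).comp
            (Ext.mk₀ (β.app (Φ.obj c'))) (add_zero m) = 0 := by
          rw [extAdjTo_mate adjb adjf β σ hβ, hz, Ext.mk₀_comp_mk₀_assoc, hp0, Ext.mk₀_zero,
            Ext.zero_comp]
          unfold Fdim.extAdjTo
          rw [Ext.mapExactFunctor_zero, Ext.comp_zero]
        have h2 : (Fdim.extAdjTo adjb z : Ext.{w} _ _ m).comp (Ext.mk₀ (h₁ ≫ α.app (Φ.obj c') +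
            β.app (Φ.obj c') ≫ h₂)) (add_zero m) = Fdim.extAdjTo adjb z := by
          rw [e3]
          exact Ext.comp_mk₀_id _
        rw [Ext.mk₀_add, Ext.comp_add, ← Ext.mk₀_comp_mk₀ (β.app (Φ.obj c')) h₂,
          ← Ext.comp_assoc_of_third_deg_zero, h1, Ext.zero_comp, add_zero,
          ← Ext.mk₀_comp_mk₀, ← Ext.comp_assoc_of_third_deg_zero] at h2
        exact h2)
    refine ⟨u, comp_injective_of_surjective' hS2 hsurj2 _ _ ?_⟩
    show (Ext.mk₀ (kernel.lift (π.app c) (ρ.app c) (hρπ c))).comp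
      ((Ext.mk₀ (kernel.ι (π.app c))).comp u (zero_add m)) (zero_add m) =
      (Ext.mk₀ (kernel.lift (π.app c) (ρ.app c) (hρπ c))).comp w (zero_add m)
    rw [Ext.mk₀_comp_mk₀_assoc, kernel.lift_ι, hu, hz]

end Orl.LF
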