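import Pool.Agent.Work.MP_a6e60d_ag.LF.Repn

/-!
# Induction and coinduction along `i : SingleObj E ⥤ Q`
-/

open CategoryTheory Limits

attribute [-instance] CategoryTheory.catToReflQuiver

namespace Orl.LF

universe w v u v' u' v₂ u₂

attribute [local instance] Abelian.hasFiniteBiproducts

section res

variable {k : Type*} [Field k] {Q : Type u} [Category.{v} Q] [Preadditive Q] [Linear k Q]
variable {Q' : Type u₂} [Category.{v₂} Q'] [Preadditive Q'] [Linear k Q']
variable (C : Type u') [Category.{v'} C] [Abelian C] [Linear k C]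
variable (F : Q' ⥤ Q) [F.Additive] [F.Linear k]

/-- restriction along a `k`-linear functor -/
@[simps obj_obj]
def res : LinFun k Q C ⥤ LinFun k Q' C where
  obj N :=
    { obj := F ⋙ N.obj
      property := ⟨inferInstance, inferInstance⟩ }
  map f := ObjectProperty.homMk (Functor.whiskerLeft F f.hom)

instance : (res (k := k) C F).Additive where
  map_add := rfl

instance : (res (k := k) C F).Linear k where
  map_smul _ _ := rfl

variable {C F}

lemma ev_res_map {N N' : LinFun k Q C} (f : N ⟶ N') (x : Q') :
    (ev x).map ((res C F).map f) = (ev (F.obj x)).map f := rfl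

lemma res_shortExact {S : ShortComplex (LinFun k Q C)} (hS : S.ShortExact) :
    (S.map (res C F)).ShortExact := by
  rw [shortExact_iff]
  intro x
  exact hS.map_of_exact (ev (F.obj x))

variable (C F)

lemma res_exact : PreservesFiniteLimits (res (k := k) C F) ∧
    PreservesFiniteColimits (res (k := k) C F) :=
  ((res (k := k) C F).exact_tfae.out 0 3).1 fun _ hS => res_shortExact hS

instance : PreservesFiniteLimits (res (k := k) C F) := (res_exact C F).1

instance : PreservesFiniteColimits (res (k := k) C F) := (res_exact C F).2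

end res

section ind

variable {k : Type*} [Field k] {Q : Type u} [Category.{v} Q] [Preadditive Q] [Linear k Q]
variable {E : Type*} [Field E] [Algebra k E]
variable (i : SingleObj E ⥤ Q) [i.Additive] [i.Linear k]

/-- the object in the image of `i` -/
abbrev base : Q := i.obj (SingleObj.star E)

/-- the element `e` of `E` as an endomorphism of the base object -/
def imap (e : E) : base i ⟶ base i :=
  i.map (X := SingleObj.star E) (Y := SingleObj.star E) e

omit [Preadditive Q] [Linear k Q] [i.Additive] [i.Linear k] in
lemma imap_one : imap i 1 = 𝟙 _ := i.map_id _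

omit [i.Linear k] in
lemma imap_add (e e' : E) : imap i (e + e') = imap i e + imap i e' := i.map_add

omit [i.Linear k] in
lemma imap_zero : imap i 0 = 0 := i.map_zero _ _

omit [Preadditive Q] [Linear k Q] [i.Additive] [i.Linear k] in
lemma imap_mul (e e' : E) : imap i (e * e') = imap i e ≫ imap i e' := by
  rw [mul_comm]
  exact i.map_comp (X := SingleObj.star E) (Y := SingleObj.star E) (Z := SingleObj.star E)
    (e : SingleObj.star E ⟶ SingleObj.star E) (e' : SingleObj.star E ⟶ SingleObj.star E)

omit [i.Additive] in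
lemma imap_smul (r : k) (e : E) : imap i (r • e) = r • imap i e := i.map_smul r _

/-- the morphisms out of the base object, as a vector space over `E` -/
def HomL (y : Q) : Type v := base i ⟶ y

instance (y : Q) : AddCommGroup (HomL i y) := inferInstanceAs (AddCommGroup (base i ⟶ y))

instance (y : Q) : Module E (HomL i y) where
  smul e q := imap i e ≫ q
  one_smul := fun (q : base i ⟶ y) => by
    change imap i 1 ≫ q = q
    rw [imap_one, Category.id_comp]
  mul_smul := fun e e' (q : base i ⟶ y) => by
    change imap i (e * e') ≫ q = imap i e ≫ imap i e' ≫ q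
    rw [imap_mul, Category.assoc]
  smul_zero e := comp_zero
  smul_add e q q' := Preadditive.comp_add _ _ _ _ _ _
  add_smul := fun e e' (q : base i ⟶ y) => by
    change imap i (e + e') ≫ q = imap i e ≫ q + imap i e' ≫ q
    rw [imap_add, Preadditive.add_comp]
  zero_smul := fun (q : base i ⟶ y) => by
    change imap i 0 ≫ q = 0
    rw [imap_zero, zero_comp]

/-- the morphisms to the base object, as a vector space over `E` -/
def HomR (y : Q) : Type v := y ⟶ base i

instance (y : Q) : AddCommGroup (HomR i y) := inferInstanceAs (AddCommGroup (y ⟶ base i))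

instance (y : Q) : Module E (HomR i y) where
  smul e q := CategoryStruct.comp (X := y) (Y := base i) (Z := base i) q (imap i e)
  one_smul := fun (q : y ⟶ base i) => by
    change q ≫ imap i 1 = q
    rw [imap_one, Category.comp_id]
  mul_smul := fun e e' (q : y ⟶ base i) => by
    change q ≫ imap i (e * e') = (q ≫ imap i e') ≫ imap i e
    rw [mul_comm, imap_mul, Category.assoc]
  smul_zero e := zero_comp
  smul_add e q q' := Preadditive.add_comp _ _ _ _ _ _
  add_smul := fun e e' (q : y ⟶ base i) => by
    change q ≫ imap i (e + e') = q ≫ imap i e + q ≫ imap i e'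
    rw [imap_add, Preadditive.comp_add]
  zero_smul := fun (q : y ⟶ base i) => by
    change q ≫ imap i 0 = 0
    rw [imap_zero, comp_zero]

lemma HomL.smul_def {y : Q} (e : E) (q : base i ⟶ y) :
    (e • (show HomL i y from q) : HomL i y) = imap i e ≫ q := rfl

lemma HomR.smul_def {y : Q} (e : E) (q : y ⟶ base i) :
    (e • (show HomR i y from q) : HomR i y) = q ≫ imap i e := rfl

/-- The representation `y ↦ Q(base, y)`. -/
def repL [∀ y, Module.Finite E (HomL i y)] : Repn.{v} k Q E where
  V y := HomL i y
  map {x y} f :=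
    { toFun := fun q => (show base i ⟶ x from q) ≫ f
      map_add' := fun q q' => Preadditive.add_comp _ _ _ _ _ _
      map_smul' := fun e q => Category.assoc _ _ _ }
  map_id x := LinearMap.ext fun q => Category.comp_id _
  map_comp f g := LinearMap.ext fun q => (Category.assoc _ _ _).symm
  map_add f g := LinearMap.ext fun q => Preadditive.comp_add _ _ _ _ _ _
  map_smul {x y} r f := LinearMap.ext fun q => by
    change (show base i ⟶ x from q) ≫ (r • f) =
      imap i (algebraMap k E r) ≫ (show base i ⟶ x from q) ≫ f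
    rw [Algebra.algebraMap_eq_smul_one, imap_smul, imap_one, Linear.smul_comp, Category.id_comp,
      Linear.comp_smul]

/-- precomposition, as a linear map -/
def precompR {x y : Q} (f : x ⟶ y) : HomR i y →ₗ[E] HomR i x where
  toFun := fun (q : y ⟶ base i) => f ≫ q
  map_add' q q' := Preadditive.comp_add _ _ _ _ _ _
  map_smul' := fun e (q : y ⟶ base i) => (Category.assoc _ _ _).symm

lemma precompR_id (x : Q) : precompR i (𝟙 x) = LinearMap.id :=
  LinearMap.ext fun (q : x ⟶ base i) => Category.id_comp q

lemma precompR_comp {x y z : Q} (f : x ⟶ y) (g : y ⟶ z) :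
    precompR i (f ≫ g) = (precompR i f).comp (precompR i g) :=
  LinearMap.ext fun (q : z ⟶ base i) => Category.assoc f g q

lemma precompR_add {x y : Q} (f g : x ⟶ y) :
    precompR i (f + g) = precompR i f + precompR i g :=
  LinearMap.ext fun (q : y ⟶ base i) => Preadditive.add_comp _ _ _ f g q

lemma precompR_smul {x y : Q} (r : k) (f : x ⟶ y) :
    precompR i (r • f) = algebraMap k E r • precompR i f :=
  LinearMap.ext fun (q : y ⟶ base i) => by
    change (r • f) ≫ q = (f ≫ q) ≫ imap i (algebraMap k E r)
    rw [Algebra.algebraMap_eq_smul_one, imap_smul, imap_one, Linear.smul_comp, Linear.comp_smul,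
      Category.comp_id]

/-- The representation `y ↦ Hom_E(Q(y, base), E)`. -/
def repR [∀ y, Module.Finite E (HomR i y)] : Repn k Q E where
  V y := Module.Dual E (HomR i y)
  map f := (precompR i f).dualMap
  map_id x := by
    rw [precompR_id]
    rfl
  map_comp {x y z} f g := by
    rw [precompR_comp]
    rfl
  map_add {x y} f g := by
    rw [precompR_add]
    ext ξ q
    exact map_add ξ _ _
  map_smul {x y} r f := by
    rw [precompR_smul]
    ext ξ q
    exact map_smul ξ _ _

end ind

section adjL

variable {k : Type*} [Field k] {Q : Type u} [Category.{v} Q] [Preadditive Q] [Linear k Q]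
variable {E : Type*} [Field E] [Algebra k E]
variable {C : Type u'} [Category.{v'} C] [Abelian C] [Linear k C]
variable (i : SingleObj E ⥤ Q) [i.Additive] [i.Linear k]

/-- the underlying morphism of a morphism to a restriction -/
def toBase {i : SingleObj E ⥤ Q} [i.Additive] [i.Linear k] {M : ModObj k E C}
    {N : LinFun k Q C} (g : M ⟶ (res C i).obj N) : M.pt ⟶ N.obj.obj (base i) :=
  ModObj.homPt g

/-- the underlying morphism of a morphism from a restriction -/
def ofBase {i : SingleObj E ⥤ Q} [i.Additive] [i.Linear k] {M : ModObj k E C}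
    {N : LinFun k Q C} (g : (res C i).obj N ⟶ M) : N.obj.obj (base i) ⟶ M.pt :=
  ModObj.homPt g

@[reassoc]
lemma act_toBase {i : SingleObj E ⥤ Q} [i.Additive] [i.Linear k] {M : ModObj k E C}
    {N : LinFun k Q C} (g : M ⟶ (res C i).obj N) (e : E) :
    M.act e ≫ toBase g = toBase g ≫ N.obj.map (imap i e) :=
  ModObj.act_homPt g e

@[reassoc]
lemma act_ofBase {i : SingleObj E ⥤ Q} [i.Additive] [i.Linear k] {M : ModObj k E C}
    {N : LinFun k Q C} (g : (res C i).obj N ⟶ M) (e : E) :
    N.obj.map (imap i e) ≫ ofBase g = ofBase g ≫ M.act e :=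
  ModObj.act_homPt g e

/-- constructor -/
def mkToBase {i : SingleObj E ⥤ Q} [i.Additive] [i.Linear k] {M : ModObj k E C}
    {N : LinFun k Q C} (g : M.pt ⟶ N.obj.obj (base i))
    (h : ∀ e, M.act e ≫ g = g ≫ N.obj.map (imap i e)) : M ⟶ (res C i).obj N :=
  ModObj.homMk g h

/-- constructor -/
def mkOfBase {i : SingleObj E ⥤ Q} [i.Additive] [i.Linear k] {M : ModObj k E C}
    {N : LinFun k Q C} (g : N.obj.obj (base i) ⟶ M.pt)
    (h : ∀ e, N.obj.map (imap i e) ≫ g = g ≫ M.act e) : (res C i).obj N ⟶ M :=
  ModObj.homMk g h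

variable [∀ y, Module.Finite E (HomL i y)]

variable (C) in
/-- **Induction**: the functor `M ↦ (y ↦ M ⊗ Q(base, y))`. -/
noncomputable abbrev ind : ModObj k E C ⥤ LinFun k Q C := tensRFun C (repL i)

/-- the element of the representation given by a morphism of `Q` -/
def elL {x : Q} (q : base i ⟶ x) : (repL (k := k) i).V x := q

variable {i}

lemma repL_map_elL {x y : Q} (q : base i ⟶ x) (f : x ⟶ y) :
    (repL (k := k) i).map f (elL i q) = elL i (q ≫ f) := rfl

lemma smul_elL {x : Q} (e : E) (q : base i ⟶ x) :
    e • elL (k := k) i q = elL i (imap i e ≫ q) := rfl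

lemma elL_add {x : Q} (q q' : base i ⟶ x) :
    elL (k := k) i (q + q') = elL i q + elL i q' := rfl

lemma elL_zero {x : Q} : elL (k := k) i (0 : base i ⟶ x) = 0 := rfl

/-- the map `M → M ⊗ Q(base, x)` given by a morphism `q` of `Q` -/
noncomputable def indMk (M : ModObj k E C) {x : Q} (q : base i ⟶ x) :
    M.pt ⟶ ((ind C i).obj M).obj.obj x :=
  tmk M (elL i q)

@[reassoc]
lemma indMk_map (M : ModObj k E C) {x y : Q} (q : base i ⟶ x) (f : x ⟶ y) :
    indMk M q ≫ ((ind C i).obj M).obj.map f = indMk M (q ≫ f) :=
  tmk_tmap M _ _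

@[reassoc]
lemma act_indMk (M : ModObj k E C) {x : Q} (e : E) (q : base i ⟶ x) :
    M.act e ≫ indMk M q = indMk M (imap i e ≫ q) :=
  (tmk_smul M e _).symm

lemma indMk_add (M : ModObj k E C) {x : Q} (q q' : base i ⟶ x) :
    indMk M (q + q') = indMk M q + indMk M q' :=
  tmk_add M _ _

@[reassoc]
lemma indMk_ind_map {M N : ModObj k E C} (f : M ⟶ N) {x : Q} (q : base i ⟶ x) :
    indMk M q ≫ (ev x).map ((ind C i).map f) = ModObj.homPt f ≫ indMk N q :=
  tmk_tmapL f _

lemma ind_hom_ext {M : ModObj k E C} {N : LinFun k Q C} {f g : (ind C i).obj M ⟶ N}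
    (h : ∀ x (q : base i ⟶ x), indMk M q ≫ (ev x).map f = indMk M q ≫ (ev x).map g) : f = g :=
  tensR_hom_ext h

@[reassoc]
lemma map_ev {M N : LinFun k Q C} (f : M ⟶ N) {x y : Q} (q : x ⟶ y) :
    M.obj.map q ≫ (ev y).map f = (ev x).map f ≫ N.obj.map q := f.hom.naturality q

/-- the map `M → N(base)` of a morphism `ind M → N` -/
noncomputable def indTo {M : ModObj k E C} {N : LinFun k Q C} (f : (ind C i).obj M ⟶ N) :
    M ⟶ (res C i).obj N :=
  mkToBase (indMk M (𝟙 (base i)) ≫ (ev (base i)).map f) fun e => by
    rw [act_indMk_assoc, Category.comp_id, Category.assoc, ← map_ev, indMk_map_assoc,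
      Category.id_comp]

lemma toBase_indTo {M : ModObj k E C} {N : LinFun k Q C} (f : (ind C i).obj M ⟶ N) :
    toBase (indTo f) = indMk M (𝟙 (base i)) ≫ (ev (base i)).map f := rfl

/-- the family of maps which defines `indOf` -/
def indPhi {M : ModObj k E C} {N : LinFun k Q C} (g : M ⟶ (res C i).obj N) (x : Q) :
    (repL (k := k) i).V x →+ (M.pt ⟶ N.obj.obj x) where
  toFun := fun (q : base i ⟶ x) => toBase g ≫ N.obj.map q
  map_zero' := by
    change toBase g ≫ N.obj.map (0 : base i ⟶ x) = 0
    rw [CategoryTheory.Functor.map_zero, comp_zero]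
  map_add' := fun (q q' : base i ⟶ x) => by
    change toBase g ≫ N.obj.map (q + q') = _
    rw [Functor.map_add, Preadditive.comp_add]

lemma indPhi_smul {M : ModObj k E C} {N : LinFun k Q C} (g : M ⟶ (res C i).obj N) (x : Q)
    (e : E) (q : (repL (k := k) i).V x) : indPhi g x (e • q) = M.act e ≫ indPhi g x q := by
  change toBase g ≫ N.obj.map (imap i e ≫ (show base i ⟶ x from q)) =
    M.act e ≫ toBase g ≫ N.obj.map (show base i ⟶ x from q)
  rw [act_toBase_assoc, CategoryTheory.Functor.map_comp]

lemma indPhi_map {M : ModObj k E C} {N : LinFun k Q C} (g : M ⟶ (res C i).obj N) {x y : Q}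
    (f : x ⟶ y) (q : (repL (k := k) i).V x) :
    indPhi g y ((repL i).map f q) = indPhi g x q ≫ N.obj.map f := by
  change toBase g ≫ N.obj.map ((show base i ⟶ x from q) ≫ f) =
    (toBase g ≫ N.obj.map (show base i ⟶ x from q)) ≫ N.obj.map f
  rw [CategoryTheory.Functor.map_comp, Category.assoc]

/-- the morphism `ind M → N` of a map `M → N(base)` -/
noncomputable def indOf {M : ModObj k E C} {N : LinFun k Q C} (g : M ⟶ (res C i).obj N) :
    (ind C i).obj M ⟶ N :=
  tensRDesc M (repL i) N (indPhi g) (indPhi_smul g) (indPhi_map g)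

@[reassoc]
lemma indMk_indOf {M : ModObj k E C} {N : LinFun k Q C} (g : M ⟶ (res C i).obj N) {x : Q}
    (q : base i ⟶ x) :
    indMk M q ≫ (ev x).map (indOf g) = toBase g ≫ N.obj.map q :=
  tmk_tensRDesc M (repL i) N (indPhi g) (indPhi_smul g) (indPhi_map g) x q

lemma indTo_indOf {M : ModObj k E C} {N : LinFun k Q C} (g : M ⟶ (res C i).obj N) :
    indTo (indOf g) = g := by
  apply ModObj.hom_ext
  change toBase (indTo (indOf g)) = toBase g
  rw [toBase_indTo, indMk_indOf, CategoryTheory.Functor.map_id, Category.comp_id]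

lemma indOf_indTo {M : ModObj k E C} {N : LinFun k Q C} (f : (ind C i).obj M ⟶ N) :
    indOf (indTo f) = f := by
  refine ind_hom_ext fun x q => ?_
  rw [indMk_indOf, toBase_indTo, Category.assoc, ← map_ev, indMk_map_assoc, Category.id_comp]

variable (C i) in
/-- **Induction is left adjoint to restriction.** -/
noncomputable def indAdj : (ind C i : ModObj k E C ⥤ LinFun k Q C) ⊣ res C i :=
  Adjunction.mkOfHomEquiv
    { homEquiv := fun M N =>
        { toFun := indTo
          invFun := indOf
          left_inv := indOf_indTo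
          right_inv := indTo_indOf }
      homEquiv_naturality_left_symm := fun {M M' N} f g => by
        refine ind_hom_ext fun x q => ?_
        change indMk M q ≫ (ev x).map (indOf (f ≫ g)) =
          indMk M q ≫ (ev x).map ((ind C i).map f ≫ indOf g)
        rw [indMk_indOf, Functor.map_comp, ← Category.assoc (indMk M q), indMk_ind_map,
          Category.assoc, indMk_indOf]
        exact Category.assoc _ _ _
      homEquiv_naturality_right := fun {M N N'} f g => by
        apply ModObj.hom_ext
        exact (Category.assoc _ _ _).symm }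

lemma indAdj_homEquiv {M : ModObj k E C} {N : LinFun k Q C} (f : (ind C i).obj M ⟶ N) :
    (indAdj C i).homEquiv M N f = indTo f := by
  simp [indAdj]

lemma indAdj_homEquiv_symm {M : ModObj k E C} {N : LinFun k Q C} (g : M ⟶ (res C i).obj N) :
    ((indAdj C i).homEquiv M N).symm g = indOf g := by
  simp [indAdj]

lemma indAdj_unit (M : ModObj k E C) :
    toBase ((indAdj C i).unit.app M) = indMk M (𝟙 (base i)) := by
  have := indAdj_homEquiv (i := i) (𝟙 ((ind C i).obj M))
  rw [Adjunction.homEquiv_id] at this
  rw [this, toBase_indTo]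
  exact Category.comp_id _

end adjL

end Orl.LF
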