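import Pool.Agent.Work.MP_a6e60d_ag.LF.LamDat
import Mathlib.CategoryTheory.Linear.Basic

/-!
# The category `Λ` with three objects `a`, `b`, `f`

The `k`-linear category with `Λ(a,a) = F`, `Λ(b,b) = L`, `Λ(f,f) = F`, `Λ(a,b) = K`,
`Λ(b,f) = K`, `Λ(a,f) = F ^ 3` and no other nonzero morphisms.
-/

noncomputable section

open CategoryTheory

namespace Orl.LF

universe u

variable {k F L : Type u} [Field k] [Field F] [Field L] [Algebra k F] [Algebra k L]

/-- The objects of the category `Λ`. -/
inductive Ob (D : Dat k F L) : Type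
  | a
  | b
  | f

namespace Ob

variable (D : Dat k F L)

/-- The morphisms. -/
def Hm : Ob D → Ob D → Type u
  | .a, .a => F
  | .a, .b => D.K
  | .a, .f => F × F × F
  | .b, .b => L
  | .b, .f => D.K
  | .f, .f => F
  | .b, .a => PUnit
  | .f, .a => PUnit
  | .f, .b => PUnit

instance : ∀ x y : Ob D, AddCommGroup (Hm D x y)
  | .a, .a => inferInstanceAs (AddCommGroup F)
  | .a, .b => inferInstanceAs (AddCommGroup D.K)
  | .a, .f => inferInstanceAs (AddCommGroup (F × F × F))
  | .b, .b => inferInstanceAs (AddCommGroup L)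
  | .b, .f => inferInstanceAs (AddCommGroup D.K)
  | .f, .f => inferInstanceAs (AddCommGroup F)
  | .b, .a => inferInstanceAs (AddCommGroup PUnit)
  | .f, .a => inferInstanceAs (AddCommGroup PUnit)
  | .f, .b => inferInstanceAs (AddCommGroup PUnit)

instance : ∀ x y : Ob D, Module k (Hm D x y)
  | .a, .a => inferInstanceAs (Module k F)
  | .a, .b => inferInstanceAs (Module k D.K)
  | .a, .f => inferInstanceAs (Module k (F × F × F))
  | .b, .b => inferInstanceAs (Module k L)
  | .b, .f => inferInstanceAs (Module k D.K)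
  | .f, .f => inferInstanceAs (Module k F)
  | .b, .a => inferInstanceAs (Module k PUnit)
  | .f, .a => inferInstanceAs (Module k PUnit)
  | .f, .b => inferInstanceAs (Module k PUnit)

/-- the identities -/
def one : ∀ x : Ob D, Hm D x x
  | .a => (1 : F)
  | .b => (1 : L)
  | .f => (1 : F)

/-- the composition (`g` first, then `h`). -/
def cmp : ∀ {x y z : Ob D}, Hm D x y → Hm D y z → Hm D x z
  | .a, .a, .a, (g : F), (h : F) => (h * g : F)
  | .a, .a, .b, (g : F), (h : D.K) => (D.mF g h : D.K)
  | .a, .a, .f, (g : F), (h : F × F × F) => D.aaf g h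
  | .a, .b, .a, _, _ => 0
  | .a, .b, .b, (g : D.K), (h : L) => (D.mL h g : D.K)
  | .a, .b, .f, (g : D.K), (h : D.K) => D.abf g h
  | .a, .f, .a, _, _ => 0
  | .a, .f, .b, _, _ => 0
  | .a, .f, .f, (g : F × F × F), (h : F) => Dat.aff g h
  | .b, .a, .a, _, _ => 0
  | .b, .a, .b, _, _ => 0
  | .b, .a, .f, _, _ => 0
  | .b, .b, .a, _, _ => 0
  | .b, .b, .b, (g : L), (h : L) => (h * g : L)
  | .b, .b, .f, (g : L), (h : D.K) => (D.mL g h : D.K)
  | .b, .f, .a, _, _ => 0
  | .b, .f, .b, _, _ => 0
  | .b, .f, .f, (g : D.K), (h : F) => (D.mF h g : D.K)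
  | .f, .a, .a, _, _ => 0
  | .f, .a, .b, _, _ => 0
  | .f, .a, .f, _, _ => 0
  | .f, .b, .a, _, _ => 0
  | .f, .b, .b, _, _ => 0
  | .f, .b, .f, _, _ => 0
  | .f, .f, .a, _, _ => 0
  | .f, .f, .b, _, _ => 0
  | .f, .f, .f, (g : F), (h : F) => (h * g : F)

variable {D}

lemma one_cmp {x y : Ob D} (g : Hm D x y) : cmp D (one D x) g = g := by
  cases x <;> cases y
  · exact mul_one (M := F) g
  · exact D.mF_one g
  · exact D.aaf_one g
  · rfl
  · exact mul_one (M := L) g
  · exact D.mL_one g
  · rfl
  · rfl
  · exact mul_one (M := F) g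

lemma cmp_one {x y : Ob D} (g : Hm D x y) : cmp D g (one D y) = g := by
  cases x <;> cases y
  · exact one_mul (M := F) g
  · exact D.mL_one g
  · exact Dat.aff_one g
  · rfl
  · exact one_mul (M := L) g
  · exact D.mF_one g
  · rfl
  · rfl
  · exact one_mul (M := F) g

lemma add_cmp {x y z : Ob D} (g g' : Hm D x y) (h : Hm D y z) :
    cmp D (g + g') h = cmp D g h + cmp D g' h := by
  cases x <;> cases y <;> cases z
  · exact mul_add (R := F) _ _ _
  · exact D.add_mF g g' h
  · exact D.add_aaf g g' h
  · exact (add_zero _).symm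
  · exact D.mL_add h g g'
  · exact D.add_abf g g' h
  · exact (add_zero _).symm
  · exact (add_zero _).symm
  · exact Dat.add_aff g g' h
  · exact (add_zero _).symm
  · exact (add_zero _).symm
  · exact (add_zero _).symm
  · exact (add_zero _).symm
  · exact mul_add (R := L) _ _ _
  · exact D.add_mL g g' h
  · exact (add_zero _).symm
  · exact (add_zero _).symm
  · exact D.mF_add h g g'
  · exact (add_zero _).symm
  · exact (add_zero _).symm
  · exact (add_zero _).symm
  · exact (add_zero _).symm
  · exact (add_zero _).symm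
  · exact (add_zero _).symm
  · exact (add_zero _).symm
  · exact (add_zero _).symm
  · exact mul_add (R := F) _ _ _

lemma cmp_add {x y z : Ob D} (g : Hm D x y) (h h' : Hm D y z) :
    cmp D g (h + h') = cmp D g h + cmp D g h' := by
  cases x <;> cases y <;> cases z
  · exact add_mul (R := F) _ _ _
  · exact D.mF_add g h h'
  · exact D.aaf_add g h h'
  · exact (add_zero _).symm
  · exact D.add_mL h h' g
  · exact D.abf_add g h h'
  · exact (add_zero _).symm
  · exact (add_zero _).symm
  · exact Dat.aff_add g h h'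
  · exact (add_zero _).symm
  · exact (add_zero _).symm
  · exact (add_zero _).symm
  · exact (add_zero _).symm
  · exact add_mul (R := L) _ _ _
  · exact D.mL_add g h h'
  · exact (add_zero _).symm
  · exact (add_zero _).symm
  · exact D.add_mF h h' g
  · exact (add_zero _).symm
  · exact (add_zero _).symm
  · exact (add_zero _).symm
  · exact (add_zero _).symm
  · exact (add_zero _).symm
  · exact (add_zero _).symm
  · exact (add_zero _).symm
  · exact (add_zero _).symm
  · exact add_mul (R := F) _ _ _

lemma smul_cmp {x y z : Ob D} (r : k) (g : Hm D x y) (h : Hm D y z) :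
    cmp D (r • g) h = r • cmp D g h := by
  cases x <;> cases y <;> cases z
  · exact mul_smul_comm (β := F) r h g
  · exact D.smul_mF r g h
  · exact D.smul_aaf r g h
  · exact (smul_zero r).symm
  · exact D.mL_smul r h g
  · exact D.smul_abf r g h
  · exact (smul_zero r).symm
  · exact (smul_zero r).symm
  · exact Dat.smul_aff r g h
  · exact (smul_zero r).symm
  · exact (smul_zero r).symm
  · exact (smul_zero r).symm
  · exact (smul_zero r).symm
  · exact mul_smul_comm (β := L) r h g
  · exact D.smul_mL r g h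
  · exact (smul_zero r).symm
  · exact (smul_zero r).symm
  · exact D.mF_smul r h g
  · exact (smul_zero r).symm
  · exact (smul_zero r).symm
  · exact (smul_zero r).symm
  · exact (smul_zero r).symm
  · exact (smul_zero r).symm
  · exact (smul_zero r).symm
  · exact (smul_zero r).symm
  · exact (smul_zero r).symm
  · exact mul_smul_comm (β := F) r h g

lemma cmp_smul {x y z : Ob D} (g : Hm D x y) (r : k) (h : Hm D y z) :
    cmp D g (r • h) = r • cmp D g h := by
  cases x <;> cases y <;> cases z
  · exact smul_mul_assoc (β := F) r h g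
  · exact D.mF_smul r g h
  · exact D.aaf_smul r g h
  · exact (smul_zero r).symm
  · exact D.smul_mL r h g
  · exact D.abf_smul r g h
  · exact (smul_zero r).symm
  · exact (smul_zero r).symm
  · exact Dat.aff_smul r g h
  · exact (smul_zero r).symm
  · exact (smul_zero r).symm
  · exact (smul_zero r).symm
  · exact (smul_zero r).symm
  · exact smul_mul_assoc (β := L) r h g
  · exact D.mL_smul r g h
  · exact (smul_zero r).symm
  · exact (smul_zero r).symm
  · exact D.smul_mF r h g
  · exact (smul_zero r).symm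
  · exact (smul_zero r).symm
  · exact (smul_zero r).symm
  · exact (smul_zero r).symm
  · exact (smul_zero r).symm
  · exact (smul_zero r).symm
  · exact (smul_zero r).symm
  · exact (smul_zero r).symm
  · exact smul_mul_assoc (β := F) r h g

lemma zero_cmp {x y z : Ob D} (h : Hm D y z) : cmp D (0 : Hm D x y) h = 0 := by
  have := smul_cmp (0 : k) (0 : Hm D x y) h
  rwa [zero_smul, zero_smul] at this

lemma cmp_zero {x y z : Ob D} (g : Hm D x y) : cmp D g (0 : Hm D y z) = 0 := by
  have := cmp_smul g (0 : k) (0 : Hm D y z)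
  rwa [zero_smul, zero_smul] at this

lemma cmp_assoc {x y z t : Ob D} (f : Hm D x y) (g : Hm D y z) (h : Hm D z t) :
    cmp D (cmp D f g) h = cmp D f (cmp D g h) := by
  cases x <;> cases y <;> cases z <;> cases t
  · exact (mul_assoc (G := F) h g f).symm
  · exact D.assoc_aaab f g h
  · exact D.assoc_aaaf f g h
  · exact (cmp_zero (x := .a) (y := .a) (z := .a) f).symm
  · exact D.assoc_aabb f g h
  · exact D.assoc_aabf f g h
  · exact (cmp_zero (x := .a) (y := .a) (z := .a) f).symm
  · exact (cmp_zero (x := .a) (y := .a) (z := .b) f).symm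
  · exact Dat.assoc_aaff D f g h
  · exact zero_cmp (x := .a) (y := .a) (z := .a) h
  · exact (zero_cmp (x := .a) (y := .a) (z := .b) h).trans ((cmp_zero (x := .a) (y := .b) (z := .b) f).symm)
  · exact (zero_cmp (x := .a) (y := .a) (z := .f) h).trans ((cmp_zero (x := .a) (y := .b) (z := .f) f).symm)
  · rfl
  · exact D.assoc_abbb f g h
  · exact D.assoc_abbf f g h
  · rfl
  · exact (cmp_zero (x := .a) (y := .b) (z := .b) f).symm
  · exact D.assoc_abff f g h
  · exact zero_cmp (x := .a) (y := .a) (z := .a) h
  · exact zero_cmp (x := .a) (y := .a) (z := .b) h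
  · exact (zero_cmp (x := .a) (y := .a) (z := .f) h).trans ((cmp_zero (x := .a) (y := .f) (z := .f) f).symm)
  · rfl
  · exact zero_cmp (x := .a) (y := .b) (z := .b) h
  · exact (zero_cmp (x := .a) (y := .b) (z := .f) h).trans ((cmp_zero (x := .a) (y := .f) (z := .f) f).symm)
  · rfl
  · rfl
  · exact Dat.assoc_afff f g h
  · rfl
  · rfl
  · rfl
  · rfl
  · exact zero_cmp (x := .b) (y := .b) (z := .b) h
  · exact zero_cmp (x := .b) (y := .b) (z := .f) h
  · rfl
  · rfl
  · exact zero_cmp (x := .b) (y := .f) (z := .f) h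
  · rfl
  · exact (cmp_zero (x := .b) (y := .b) (z := .b) f).symm
  · exact (cmp_zero (x := .b) (y := .b) (z := .f) f).symm
  · rfl
  · exact (mul_assoc (G := L) h g f).symm
  · exact D.assoc_bbbf f g h
  · rfl
  · exact (cmp_zero (x := .b) (y := .b) (z := .b) f).symm
  · exact D.assoc_bbff f g h
  · rfl
  · rfl
  · exact (cmp_zero (x := .b) (y := .f) (z := .f) f).symm
  · rfl
  · exact zero_cmp (x := .b) (y := .b) (z := .b) h
  · exact (zero_cmp (x := .b) (y := .b) (z := .f) h).trans ((cmp_zero (x := .b) (y := .f) (z := .f) f).symm)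
  · rfl
  · rfl
  · exact D.assoc_bfff f g h
  · rfl
  · rfl
  · rfl
  · rfl
  · rfl
  · rfl
  · rfl
  · rfl
  · exact zero_cmp (x := .f) (y := .f) (z := .f) h
  · rfl
  · rfl
  · rfl
  · rfl
  · rfl
  · rfl
  · rfl
  · rfl
  · exact zero_cmp (x := .f) (y := .f) (z := .f) h
  · rfl
  · rfl
  · exact (cmp_zero (x := .f) (y := .f) (z := .f) f).symm
  · rfl
  · rfl
  · exact (cmp_zero (x := .f) (y := .f) (z := .f) f).symm
  · rfl
  · rfl
  · exact (mul_assoc (G := F) h g f).symm

instance : Category (Ob D) where
  Hom x y := Hm D x y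
  id x := one D x
  comp g h := cmp D g h
  id_comp := one_cmp
  comp_id := cmp_one
  assoc := cmp_assoc

instance : Preadditive (Ob D) where
  homGroup x y := inferInstanceAs (AddCommGroup (Hm D x y))
  add_comp _ _ _ := add_cmp
  comp_add _ _ _ := cmp_add

instance : Linear k (Ob D) where
  homModule x y := inferInstanceAs (Module k (Hm D x y))
  smul_comp _ _ _ := smul_cmp
  comp_smul _ _ _ := cmp_smul

end Ob

end Orl.LF
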