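import Mathlib.Algebra.QuadraticAlgebra.Basic
import Mathlib.LinearAlgebra.Basis.Basic
import Mathlib.LinearAlgebra.Dual.Defs
import Mathlib.Tactic

/-!
# The arithmetic data of the algebra `Λ`

`F = k(√a)`, `L = k(θ)` cubic, `K = L(√a)` (represented as `QuadraticAlgebra L a 0`),
`σ`, `τ` the conjugations, `λ : L → k` the coefficient of `θ ^ 2`, `λF : K → F` its `F`-linear
extension, `κ = √a θ - θ ^ 2`, and `s = √a + θ - c₂` with `λF s = 0 = λF (κ s)`.
-/

noncomputable section

namespace Orl.LF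

universe u

open QuadraticAlgebra

/-- The data from which `Λ` is built. -/
structure Dat (k F L : Type u) [Field k] [Field F] [Field L] [Algebra k F] [Algebra k L] where
  a : k
  e : F ≃ₐ[k] QuadraticAlgebra k a 0
  th : L
  b : Module.Basis (Fin 3) k L
  b0 : b 0 = 1
  b1 : b 1 = th
  b2 : b 2 = th ^ 2
  two : (2 : k) ≠ 0
  a0 : a ≠ 0

namespace Dat

variable {k F L : Type u} [Field k] [Field F] [Field L] [Algebra k F] [Algebra k L]
variable (D : Dat k F L)

/-- `K = L(√a)`. -/
abbrev K : Type u := QuadraticAlgebra L (algebraMap k L D.a) 0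

/-- the coefficient of `θ ^ 2` -/
def lam : L →ₗ[k] k := D.b.coord 2

@[simp] lemma lam_one : D.lam 1 = 0 := by
  rw [← D.b0]
  simp [lam]

@[simp] lemma lam_th : D.lam D.th = 0 := by
  rw [← D.b1]
  simp [lam]

@[simp] lemma lam_th_sq : D.lam (D.th ^ 2) = 1 := by
  rw [← D.b2]
  simp [lam]

lemma lam_algebraMap (r : k) : D.lam (algebraMap k L r) = 0 := by
  rw [Algebra.algebraMap_eq_smul_one, map_smul, lam_one, smul_zero]

lemma lam_algebraMap_mul (r : k) (l : L) : D.lam (algebraMap k L r * l) = r * D.lam l := by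
  rw [← Algebra.smul_def, map_smul, smul_eq_mul]

lemma lam_mul_algebraMap (r : k) (l : L) : D.lam (l * algebraMap k L r) = r * D.lam l := by
  rw [mul_comm, lam_algebraMap_mul]

/-- expansion in the basis `1, θ, θ ^ 2` -/
lemma expand (l : L) : l = algebraMap k L (D.b.repr l 0) + algebraMap k L (D.b.repr l 1) * D.th +
    algebraMap k L (D.b.repr l 2) * D.th ^ 2 := by
  conv_lhs => rw [← D.b.sum_repr l]
  rw [Fin.sum_univ_three, D.b0, D.b1, D.b2, Algebra.smul_def, Algebra.smul_def,
    Algebra.smul_def, mul_one]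

lemma ext_repr {l m : L} (h0 : D.b.repr l 0 = D.b.repr m 0) (h1 : D.b.repr l 1 = D.b.repr m 1)
    (h2 : D.b.repr l 2 = D.b.repr m 2) : l = m := by
  rw [D.expand l, D.expand m, h0, h1, h2]

/-- coordinates of explicit elements -/
lemma repr_expand (x y z : k) :
    D.b.repr (algebraMap k L x + algebraMap k L y * D.th + algebraMap k L z * D.th ^ 2) =
      Finsupp.single 0 x + Finsupp.single 1 y + Finsupp.single 2 z := by
  rw [← Algebra.smul_def, ← Algebra.smul_def, Algebra.algebraMap_eq_smul_one, ← D.b0, ← D.b2,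
    ← D.b1]
  simp

/-- `c₂ = λ (θ ^ 3)` -/
def c2 : k := D.lam (D.th ^ 3)

/-- non-degeneracy of the form `λ (l m)`. -/
lemma eq_zero_of_lam (l : L) (h : ∀ m, D.lam (l * m) = 0) : l = 0 := by
  by_contra hl
  have := h (l⁻¹ * D.th ^ 2)
  rw [mul_inv_cancel_left₀ hl] at this
  simp at this

/-- every functional on `L` is `m ↦ λ (l m)`. -/
lemma exists_lam (φ : L →ₗ[k] k) : ∃ l : L, ∀ m, φ m = D.lam (l * m) := by
  have : FiniteDimensional k L := Module.Finite.of_basis D.b
  let g : L →ₗ[k] (L →ₗ[k] k) :=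
    LinearMap.mk₂ k (fun l m => D.lam (l * m))
      (fun x y z => by rw [add_mul, map_add]) (fun c x z => by rw [smul_mul_assoc, map_smul])
      (fun x y z => by rw [mul_add, map_add]) (fun c x z => by rw [mul_smul_comm, map_smul])
  have hinj : Function.Injective g := by
    rw [injective_iff_map_eq_zero]
    intro l hl
    exact D.eq_zero_of_lam l fun m => LinearMap.congr_fun hl m
  have hsurj : Function.Surjective g := by
    rw [← LinearMap.injective_iff_surjective_of_finrank_eq_finrank]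
    · exact hinj
    · exact (Subspace.dual_finrank_eq).symm
  obtain ⟨l, hl⟩ := hsurj φ
  exact ⟨l, fun m => by rw [← hl]; rfl⟩

/-- the embedding `F → K` -/
def iF : F →+* D.K where
  toFun c := ⟨algebraMap k L (D.e c).re, algebraMap k L (D.e c).im⟩
  map_one' := by
    rw [map_one]
    ext <;> simp
  map_mul' x y := by
    rw [map_mul]
    ext <;> simp
  map_zero' := by
    rw [map_zero]
    ext <;> simp
  map_add' x y := by
    rw [map_add]
    ext <;> simp

/-- the embedding `L → K` -/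
abbrev iL : L →+* D.K := algebraMap L D.K

@[simp] lemma iF_re (c : F) : (D.iF c).re = algebraMap k L (D.e c).re := rfl

@[simp] lemma iF_im (c : F) : (D.iF c).im = algebraMap k L (D.e c).im := rfl

@[simp] lemma iL_re (c : L) : (D.iL c).re = c := rfl

@[simp] lemma iL_im (c : L) : (D.iL c).im = 0 := rfl

/-- the element with given coordinates -/
def mkF (x y : k) : F := D.e.symm ⟨x, y⟩

@[simp] lemma e_mkF (x y : k) : D.e (D.mkF x y) = ⟨x, y⟩ := by simp [mkF]

lemma e_ext {x y : F} (h : D.e x = D.e y) : x = y := D.e.injective h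

/-- `F`-linear extension of `λ`. -/
def lamF : D.K →ₗ[k] F where
  toFun z := D.mkF (D.lam z.re) (D.lam z.im)
  map_add' x y := by
    apply D.e_ext
    rw [map_add]
    ext <;> simp
  map_smul' r x := by
    apply D.e_ext
    rw [map_smul]
    ext <;> simp

@[simp] lemma e_lamF (z : D.K) : D.e (D.lamF z) = ⟨D.lam z.re, D.lam z.im⟩ := D.e_mkF _ _

/-- the conjugation of `F` -/
def sF (x : F) : F := D.e.symm (star (D.e x))

@[simp] lemma e_sF (x : F) : D.e (D.sF x) = star (D.e x) := by simp [sF]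

@[simp] lemma sF_mul (x y : F) : D.sF (x * y) = D.sF x * D.sF y := by
  apply D.e_ext
  simp only [e_sF, map_mul]
  ext <;> simp

@[simp] lemma sF_add (x y : F) : D.sF (x + y) = D.sF x + D.sF y := by
  apply D.e_ext
  simp

@[simp] lemma sF_smul (r : k) (x : F) : D.sF (r • x) = r • D.sF x := by
  apply D.e_ext
  rw [e_sF, map_smul, map_smul, e_sF]
  ext <;> simp

@[simp] lemma sF_one : D.sF 1 = 1 := by
  apply D.e_ext
  simp

@[simp] lemma sF_zero : D.sF 0 = 0 := by
  apply D.e_ext
  simp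

@[simp] lemma sF_sF (x : F) : D.sF (D.sF x) = x := by
  apply D.e_ext
  simp

/-- the conjugation of `K` over `L` -/
def tau (z : D.K) : D.K := ⟨z.re, -z.im⟩

@[simp] lemma tau_re (z : D.K) : (D.tau z).re = z.re := rfl

@[simp] lemma tau_im (z : D.K) : (D.tau z).im = -z.im := rfl

@[simp] lemma tau_mul (x y : D.K) : D.tau (x * y) = D.tau x * D.tau y := by
  ext <;> simp <;> ring

@[simp] lemma tau_add (x y : D.K) : D.tau (x + y) = D.tau x + D.tau y := by
  ext <;> simp; ring

@[simp] lemma tau_smul (r : k) (x : D.K) : D.tau (r • x) = r • D.tau x := by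
  ext <;> simp

@[simp] lemma tau_zero : D.tau 0 = 0 := by
  ext <;> simp

@[simp] lemma tau_one : D.tau 1 = 1 := by
  ext <;> simp

@[simp] lemma tau_iL (l : L) : D.tau (D.iL l) = D.iL l := by
  ext <;> simp

@[simp] lemma tau_iF (c : F) : D.tau (D.iF c) = D.iF (D.sF c) := by
  ext <;> simp

/-- the trace of `K` over `L` -/
def trL : D.K →ₗ[k] L where
  toFun z := 2 * z.re
  map_add' x y := by simp [mul_add]
  map_smul' r x := by simp

lemma trL_apply (z : D.K) : D.trL z = 2 * z.re := rfl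

lemma iL_trL (z : D.K) : D.iL (D.trL z) = z + D.tau z := by
  ext
  · simp [trL_apply]; ring
  · simp

@[simp] lemma lamF_iF_mul (c : F) (z : D.K) : D.lamF (D.iF c * z) = c * D.lamF z := by
  apply D.e_ext
  rw [map_mul D.e]
  ext
  · simp only [e_lamF, re_mul, iF_re, iF_im, map_add, zero_mul]
    rw [lam_algebraMap_mul, mul_assoc (algebraMap k L D.a), lam_algebraMap_mul,
      lam_algebraMap_mul, mul_assoc]
  · simp only [e_lamF, im_mul, iF_re, iF_im, map_add, zero_mul, add_zero]
    rw [lam_algebraMap_mul, lam_algebraMap_mul]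

@[simp] lemma lamF_mul_iF (z : D.K) (c : F) : D.lamF (z * D.iF c) = D.lamF z * c := by
  rw [mul_comm, lamF_iF_mul, mul_comm]

/-- `√a` in `K`. -/
def w : D.K := ⟨0, 1⟩

@[simp] lemma w_re : D.w.re = 0 := rfl
@[simp] lemma w_im : D.w.im = 1 := rfl

/-- `√a` in `F`. -/
def wF : F := D.mkF 0 1

@[simp] lemma e_wF : D.e D.wF = ⟨0, 1⟩ := D.e_mkF _ _

@[simp] lemma iF_wF : D.iF D.wF = D.w := by
  ext <;> simp

@[simp] lemma tau_w : D.tau D.w = -D.w := by
  ext <;> simp

/-- `κ = √a θ - θ ^ 2`. -/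
def kap : D.K := ⟨-D.th ^ 2, D.th⟩

@[simp] lemma kap_re : D.kap.re = -D.th ^ 2 := rfl
@[simp] lemma kap_im : D.kap.im = D.th := rfl

/-- `s = √a + θ - c₂`. -/
def s : D.K := ⟨D.th - algebraMap k L D.c2, 1⟩

@[simp] lemma s_re : D.s.re = D.th - algebraMap k L D.c2 := rfl
@[simp] lemma s_im : D.s.im = 1 := rfl

@[simp] lemma lamF_s : D.lamF D.s = 0 := by
  apply D.e_ext
  ext <;> simp [lam_algebraMap]

@[simp] lemma lamF_kap_s : D.lamF (D.kap * D.s) = 0 := by
  apply D.e_ext
  ext
  · have : (D.kap * D.s).re = -D.th ^ 3 + algebraMap k L D.c2 * D.th ^ 2 +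
        algebraMap k L D.a * D.th := by
      simp only [re_mul, kap_re, s_re, kap_im, s_im]
      ring
    simp only [e_lamF, this, map_add, map_neg, lam_algebraMap_mul, lam_th, lam_th_sq, map_zero]
    simp [c2]
  · have : (D.kap * D.s).im = - (algebraMap k L D.c2 * D.th) := by
      simp only [im_mul, kap_re, s_re, kap_im, s_im]
      ring
    simp only [e_lamF, this, map_neg, lam_algebraMap_mul, lam_th, map_zero]
    simp

/-! ### The bilinear operations -/

/-- `Λ(a,a) × Λ(a,f) → Λ(a,f)` -/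
def aaf (g : F) (h : F × F × F) : F × F × F := (h.1 * g, h.2.1 * D.sF g, h.2.2 * g)

/-- `Λ(a,b) × Λ(b,f) → Λ(a,f)` -/
def abf (g h : D.K) : F × F × F :=
  (D.lamF (h * g), D.lamF (h * D.tau g), D.lamF (D.kap * (h * g)))

/-- `Λ(a,f) × Λ(f,f) → Λ(a,f)` -/
def aff (g : F × F × F) (h : F) : F × F × F := (h * g.1, h * g.2.1, h * g.2.2)

/-- `Λ(a,a) × Λ(a,b) → Λ(a,b)` and `Λ(b,f) × Λ(f,f) → Λ(b,f)` -/
def mF (g : F) (h : D.K) : D.K := h * D.iF g

/-- `Λ(a,b) × Λ(b,b) → Λ(a,b)` and `Λ(b,b) × Λ(b,f) → Λ(b,f)` -/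
def mL (g : L) (h : D.K) : D.K := h * D.iL g

lemma aaf_one (h : F × F × F) : D.aaf 1 h = h := by simp [aaf]
lemma aff_one (h : F × F × F) : aff h (1 : F) = h := by simp [aff]
lemma mF_one (h : D.K) : D.mF 1 h = h := by simp [mF]
lemma mL_one (h : D.K) : D.mL 1 h = h := by simp [mL]

lemma aaf_add (g : F) (h h' : F × F × F) : D.aaf g (h + h') = D.aaf g h + D.aaf g h' := by
  simp [aaf, add_mul]
lemma add_aaf (g g' : F) (h : F × F × F) : D.aaf (g + g') h = D.aaf g h + D.aaf g' h := by
  simp [aaf, mul_add]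
lemma aff_add (g : F × F × F) (h h' : F) : aff g (h + h') = aff g h + aff g h' := by
  simp [aff, add_mul]
lemma add_aff (g g' : F × F × F) (h : F) : aff (g + g') h = aff g h + aff g' h := by
  simp [aff, mul_add]
lemma abf_add (g h h' : D.K) : D.abf g (h + h') = D.abf g h + D.abf g h' := by
  simp [abf, add_mul, mul_add]
lemma add_abf (g g' h : D.K) : D.abf (g + g') h = D.abf g h + D.abf g' h := by
  simp [abf, mul_add]
lemma mF_add (g : F) (h h' : D.K) : D.mF g (h + h') = D.mF g h + D.mF g h' := by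
  simp [mF, add_mul]
lemma add_mF (g g' : F) (h : D.K) : D.mF (g + g') h = D.mF g h + D.mF g' h := by
  simp [mF, mul_add]
lemma mL_add (g : L) (h h' : D.K) : D.mL g (h + h') = D.mL g h + D.mL g h' := by
  simp [mL, add_mul]
lemma add_mL (g g' : L) (h : D.K) : D.mL (g + g') h = D.mL g h + D.mL g' h := by
  simp only [mL, map_add, mul_add]

lemma iF_smul (r : k) (c : F) : D.iF (r • c) = r • D.iF c := by
  ext
  · simp only [iF_re, re_smul]
    rw [map_smul, re_smul, smul_eq_mul, map_mul, Algebra.smul_def]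
  · simp only [iF_im, im_smul]
    rw [map_smul, im_smul, smul_eq_mul, map_mul, Algebra.smul_def]

lemma iL_smul (r : k) (c : L) : D.iL (r • c) = r • D.iL c := by
  ext <;> simp

lemma aaf_smul (r : k) (g : F) (h : F × F × F) : D.aaf g (r • h) = r • D.aaf g h := by
  simp [aaf]
lemma smul_aaf (r : k) (g : F) (h : F × F × F) : D.aaf (r • g) h = r • D.aaf g h := by
  simp [aaf]
lemma aff_smul (r : k) (g : F × F × F) (h : F) : aff g (r • h) = r • aff g h := by
  simp [aff]
lemma smul_aff (r : k) (g : F × F × F) (h : F) : aff (r • g) h = r • aff g h := by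
  simp [aff]
lemma abf_smul (r : k) (g h : D.K) : D.abf g (r • h) = r • D.abf g h := by
  simp [abf]
lemma smul_abf (r : k) (g h : D.K) : D.abf (r • g) h = r • D.abf g h := by
  simp [abf]
lemma mF_smul (r : k) (g : F) (h : D.K) : D.mF g (r • h) = r • D.mF g h := by
  simp [mF]
lemma smul_mF (r : k) (g : F) (h : D.K) : D.mF (r • g) h = r • D.mF g h := by
  simp [mF, iF_smul]
lemma mL_smul (r : k) (g : L) (h : D.K) : D.mL g (r • h) = r • D.mL g h := by
  simp only [mL, smul_mul_assoc]
lemma smul_mL (r : k) (g : L) (h : D.K) : D.mL (r • g) h = r • D.mL g h := by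
  simp only [mL, iL_smul, mul_smul_comm]

/-! ### Associativity -/

lemma tri {X : Type*} {a b c a' b' c' : X} (h1 : a = a') (h2 : b = b') (h3 : c = c') :
    (a, b, c) = (a', b', c') := by rw [h1, h2, h3]

lemma assoc_aaaf (g g' : F) (h : F × F × F) : D.aaf (g' * g) h = D.aaf g (D.aaf g' h) := by
  simp [aaf, mul_assoc]
lemma assoc_aaab (g g' : F) (h : D.K) : D.mF (g' * g) h = D.mF g (D.mF g' h) := by
  simp [mF, mul_assoc]
lemma assoc_aabb (g : F) (g' : D.K) (h : L) : D.mL h (D.mF g g') = D.mF g (D.mL h g') := by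
  simp only [mF, mL]; ring
lemma assoc_aabf (g : F) (g' h : D.K) : D.abf (D.mF g g') h = D.aaf g (D.abf g' h) := by
  simp only [abf, mF, aaf, tau_mul, tau_iF]
  refine tri ?_ ?_ ?_
  · rw [← lamF_mul_iF, mul_assoc]
  · rw [← lamF_mul_iF, mul_assoc]
  · rw [← lamF_mul_iF]; congr 1; ring
lemma assoc_aaff (g : F) (g' : F × F × F) (h : F) :
    aff (D.aaf g g') h = D.aaf g (aff g' h) := by
  simp [aff, aaf, mul_assoc]
lemma assoc_abbb (g : D.K) (g' h : L) : D.mL h (D.mL g' g) = D.mL (h * g') g := by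
  simp only [mL, map_mul]; ring
lemma assoc_abbf (g : D.K) (g' : L) (h : D.K) : D.abf (D.mL g' g) h = D.abf g (D.mL g' h) := by
  simp only [abf, mL, tau_mul, tau_iL]
  refine tri ?_ ?_ ?_
  · congr 1; ring
  · congr 1; ring
  · congr 1; ring
lemma assoc_abff (g g' : D.K) (h : F) : aff (D.abf g g') h = D.abf g (D.mF h g') := by
  simp only [abf, mF, aff]
  refine tri ?_ ?_ ?_
  · rw [← lamF_iF_mul]; congr 1; ring
  · rw [← lamF_iF_mul]; congr 1; ring
  · rw [← lamF_iF_mul]; congr 1; ring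
lemma assoc_afff (g : F × F × F) (g' h : F) : aff (aff g g') h = aff g (h * g') := by
  simp [aff, mul_assoc]
lemma assoc_bbbf (g g' : L) (h : D.K) : D.mL (g' * g) h = D.mL g (D.mL g' h) := by
  simp only [mL, map_mul]; ring
lemma assoc_bbff (g : L) (g' : D.K) (h : F) : D.mF h (D.mL g g') = D.mL g (D.mF h g') := by
  simp only [mF, mL]; ring
lemma assoc_bfff (g : D.K) (g' h : F) : D.mF h (D.mF g' g) = D.mF (h * g') g := by
  simp only [mF, map_mul]; ring

end Dat

end Orl.LF
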