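import Pool.Agent.Work.MP_a6e60d_ag.LF.LamDat
import Mathlib.FieldTheory.IntermediateField.Adjoin.Basic
import Mathlib.FieldTheory.Minpoly.Field
import Mathlib.RingTheory.PowerBasis

/-!
# Construction of the arithmetic data from a quadratic and a cubic field extension
-/

noncomputable section

namespace Orl.LF

universe u

open QuadraticAlgebra Polynomial

variable {k F L : Type u} [Field k] [Field F] [Field L] [Algebra k F] [Algebra k L]

namespace Dat

/-- a quadratic extension generated by a square root of `a` is `QuadraticAlgebra k a 0` -/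
def quadEquiv (a : k) (s : F) (hs : s ^ 2 = algebraMap k F a)
    (hns : s ∉ Set.range (algebraMap k F)) (hF : Module.finrank k F = 2) :
    F ≃ₐ[k] QuadraticAlgebra k a 0 :=
  haveI : Module.Finite k F := Module.finite_of_finrank_pos (by rw [hF]; norm_num)
  let φ : QuadraticAlgebra k a 0 →ₐ[k] F := QuadraticAlgebra.lift ⟨s, by
    rw [zero_smul, add_zero, ← pow_two, hs, Algebra.algebraMap_eq_smul_one]⟩
  have hφ : ∀ x, φ x = algebraMap k F x.re + algebraMap k F x.im * s := fun x => by
    change (QuadraticAlgebra.lift _) x = _
    simp [QuadraticAlgebra.lift, Algebra.smul_def]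
  have hinj : Function.Injective φ := by
    rw [injective_iff_map_eq_zero]
    intro x hx
    rw [hφ] at hx
    have him : x.im = 0 := by
      by_contra h
      apply hns
      refine ⟨-(x.re / x.im), ?_⟩
      have h' : algebraMap k F x.im ≠ 0 := by
        rw [Ne, map_eq_zero]; exact h
      rw [map_neg, map_div₀]
      field_simp
      linear_combination -hx
    rw [him, map_zero, zero_mul, add_zero, map_eq_zero] at hx
    ext
    · exact hx
    · exact him
  have hbij : Function.Bijective φ := ⟨hinj, by
    have := (LinearMap.injective_iff_surjective_of_finrank_eq_finrank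
      (f := φ.toLinearMap) (by rw [hF, QuadraticAlgebra.finrank_eq_two])).1 hinj
    exact this⟩
  (AlgEquiv.ofBijective φ hbij).symm

lemma quadEquiv_symm_apply (a : k) (s : F) (hs : s ^ 2 = algebraMap k F a)
    (hns : s ∉ Set.range (algebraMap k F)) (hF : Module.finrank k F = 2)
    (x : QuadraticAlgebra k a 0) :
    (quadEquiv a s hs hns hF).symm x = algebraMap k F x.re + algebraMap k F x.im * s := by
  change (QuadraticAlgebra.lift _) x = _
  simp [QuadraticAlgebra.lift, Algebra.smul_def]

lemma quadEquiv_s (a : k) (s : F) (hs : s ^ 2 = algebraMap k F a)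
    (hns : s ∉ Set.range (algebraMap k F)) (hF : Module.finrank k F = 2) :
    quadEquiv a s hs hns hF s = ⟨0, 1⟩ := by
  rw [← (quadEquiv a s hs hns hF).symm.injective.eq_iff, AlgEquiv.symm_apply_apply,
    quadEquiv_symm_apply]
  simp

open IntermediateField in
lemma adjoin_eq_top_of_cubic (th : L) (hth : th ∉ Set.range (algebraMap k L))
    (hL : Module.finrank k L = 3) : k⟮th⟯ = ⊤ := by
  have : Module.Finite k L := Module.finite_of_finrank_pos (by rw [hL]; norm_num)
  have h := Module.finrank_mul_finrank k k⟮th⟯ L
  rw [hL] at h
  have hdvd : Module.finrank k k⟮th⟯ ∣ 3 := ⟨_, h.symm⟩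
  rcases (Nat.dvd_prime Nat.prime_three).1 hdvd with h1 | h3
  · exfalso
    rw [IntermediateField.finrank_adjoin_simple_eq_one_iff] at h1
    exact hth (IntermediateField.mem_bot.1 h1)
  · rw [h3] at h
    have h2 : Module.finrank k⟮th⟯ L = 1 := by omega
    exact IntermediateField.finrank_eq_one_iff_eq_top.1 h2

open IntermediateField in
/-- the basis `1, θ, θ ^ 2` of a cubic extension -/
lemma exists_basis (th : L) (hth : th ∉ Set.range (algebraMap k L))
    (hL : Module.finrank k L = 3) : ∃ b : Module.Basis (Fin 3) k L, ∀ i, b i = th ^ (i : ℕ) := by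
  have : Module.Finite k L := Module.finite_of_finrank_pos (by rw [hL]; norm_num)
  have hint : IsIntegral k th := Algebra.IsIntegral.isIntegral th
  have htop := adjoin_eq_top_of_cubic th hth hL
  have hdeg : (minpoly k th).natDegree = 3 := by
    rw [← IntermediateField.adjoin.finrank hint, htop, IntermediateField.finrank_top', hL]
  have hli : LinearIndependent k (fun i : Fin 3 => th ^ (i : ℕ)) := by
    have := linearIndependent_pow (K := k) th
    rw [hdeg] at this
    exact this
  refine ⟨basisOfLinearIndependentOfCardEqFinrank hli (by simp [hL]), fun i => ?_⟩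
  simp

/-- The data attached to a quadratic extension `F = k(s)`, `s ^ 2 = a`, and a cubic extension
`L` with an element `θ` outside `k`. -/
def ofFields (a : k) (s : F) (hs : s ^ 2 = algebraMap k F a)
    (hns : s ∉ Set.range (algebraMap k F)) (hF : Module.finrank k F = 2) (h2 : (2 : k) ≠ 0)
    (th : L) (hth : th ∉ Set.range (algebraMap k L)) (hL : Module.finrank k L = 3) :
    Dat k F L where
  a := a
  e := quadEquiv a s hs hns hF
  th := th
  b := (exists_basis th hth hL).choose
  b0 := by rw [(exists_basis th hth hL).choose_spec]; simp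
  b1 := by rw [(exists_basis th hth hL).choose_spec]; simp
  b2 := by rw [(exists_basis th hth hL).choose_spec]; simp
  two := h2
  a0 := by
    rintro rfl
    apply hns
    rw [map_zero] at hs
    exact ⟨0, by rw [map_zero, pow_eq_zero_iff two_ne_zero |>.1 hs]⟩

end Dat

end Orl.LF
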