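import Pool.Agent.Work.MP_a6e60d_ag.LF.LamCat
import Mathlib.Algebra.Exact.Basic

/-!
# The module `V` over `Λ` and the linear algebra of the exact sequences

`V = (F, L, F)`; `0 → P_f → P_b → P_a → V → 0`, `0 → k → V_a → V_b → V_f → 0` and their duals
`0 → P'_a → P'_b → P'_f → V^* → 0`, `0 → V_a → V_b → V_f → k → 0`.
-/

noncomputable section

open CategoryTheory

namespace Orl.LF

universe u

variable {k F L : Type u} [Field k] [Field F] [Field L] [Algebra k F] [Algebra k L]

open QuadraticAlgebra

namespace Dat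

variable (D : Dat k F L)

/-! ### Coordinates -/

lemma lam_eq (l : L) : D.lam l = D.b.repr l 2 := rfl

lemma lam_th_mul (l : L) : D.lam (D.th * l) = D.b.repr l 1 + D.c2 * D.b.repr l 2 := by
  conv_lhs => rw [D.expand l]
  have : D.th * (algebraMap k L (D.b.repr l 0) + algebraMap k L (D.b.repr l 1) * D.th +
      algebraMap k L (D.b.repr l 2) * D.th ^ 2) = algebraMap k L (D.b.repr l 0) * D.th +
      algebraMap k L (D.b.repr l 1) * D.th ^ 2 + algebraMap k L (D.b.repr l 2) * D.th ^ 3 := by
    ring
  rw [this, map_add, map_add, lam_algebraMap_mul, lam_algebraMap_mul, lam_algebraMap_mul,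
    lam_th, lam_th_sq, ← c2]
  ring

lemma lam_th_sq_mul (l : L) : D.lam (D.th ^ 2 * l) =
    D.b.repr l 0 + D.c2 * D.b.repr l 1 + D.lam (D.th ^ 4) * D.b.repr l 2 := by
  conv_lhs => rw [D.expand l]
  have : D.th ^ 2 * (algebraMap k L (D.b.repr l 0) + algebraMap k L (D.b.repr l 1) * D.th +
      algebraMap k L (D.b.repr l 2) * D.th ^ 2) = algebraMap k L (D.b.repr l 0) * D.th ^ 2 +
      algebraMap k L (D.b.repr l 1) * D.th ^ 3 + algebraMap k L (D.b.repr l 2) * D.th ^ 4 := by
    ring
  rw [this, map_add, map_add, lam_algebraMap_mul, lam_algebraMap_mul, lam_algebraMap_mul,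
    lam_th_sq, ← c2]
  ring

/-- the element with given coordinates -/
def mkL (x y z : k) : L := algebraMap k L x + algebraMap k L y * D.th + algebraMap k L z * D.th ^ 2

@[simp] lemma repr_mkL0 (x y z : k) : D.b.repr (D.mkL x y z) 0 = x := by
  rw [mkL, repr_expand]; simp
@[simp] lemma repr_mkL1 (x y z : k) : D.b.repr (D.mkL x y z) 1 = y := by
  rw [mkL, repr_expand]; simp
@[simp] lemma repr_mkL2 (x y z : k) : D.b.repr (D.mkL x y z) 2 = z := by
  rw [mkL, repr_expand]; simp

include D in
lemma twoL : (2 : L) ≠ 0 := by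
  have := D.two
  intro h
  apply this
  have h2 : algebraMap k L 2 = 0 := by rw [map_ofNat]; exact h
  exact (map_eq_zero _).1 h2

lemma aL : (algebraMap k L D.a) ≠ 0 := by
  intro h
  exact D.a0 ((map_eq_zero _).1 h)

lemma lamF_tau (z : D.K) : D.lamF (D.tau z) = D.sF (D.lamF z) := by
  apply D.e_ext
  ext <;> simp

/-- the real part of an element of `F` -/
def mu : F →ₗ[k] k where
  toFun x := (D.e x).re
  map_add' x y := by simp
  map_smul' r x := by rw [map_smul]; simp

/-- the imaginary part of an element of `F` -/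
def imF : F →ₗ[k] k where
  toFun x := (D.e x).im
  map_add' x y := by simp
  map_smul' r x := by rw [map_smul]; simp

lemma mu_apply (x : F) : D.mu x = (D.e x).re := rfl
lemma imF_apply (x : F) : D.imF x = (D.e x).im := rfl

lemma F_ext {x y : F} (h1 : D.mu x = D.mu y) (h2 : D.imF x = D.imF y) : x = y := by
  apply D.e_ext
  ext
  · exact h1
  · exact h2

@[simp] lemma mu_mkF (x y : k) : D.mu (D.mkF x y) = x := by simp [mu_apply]
@[simp] lemma imF_mkF (x y : k) : D.imF (D.mkF x y) = y := by simp [imF_apply]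
lemma mu_sF (x : F) : D.mu (D.sF x) = D.mu x := by simp [mu_apply]
lemma mu_mul (x y : F) : D.mu (x * y) = D.mu x * D.mu y + D.a * (D.imF x * D.imF y) := by
  simp [mu_apply, imF_apply, mul_assoc]
lemma imF_mul (x y : F) : D.imF (x * y) = D.mu x * D.imF y + D.imF x * D.mu y := by
  simp [mu_apply, imF_apply]
@[simp] lemma mu_wF : D.mu D.wF = 0 := by simp [mu_apply]
@[simp] lemma imF_wF : D.imF D.wF = 1 := by simp [imF_apply]
lemma mu_lamF (z : D.K) : D.mu (D.lamF z) = D.lam z.re := by simp [mu_apply]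
lemma imF_lamF (z : D.K) : D.imF (D.lamF z) = D.lam z.im := by simp [imF_apply]

@[simp] lemma mu_algebraMap (r : k) : D.mu (algebraMap k F r) = r := by
  simp [mu_apply]
@[simp] lemma imF_algebraMap (r : k) : D.imF (algebraMap k F r) = 0 := by
  simp [imF_apply]

lemma wF_ne : D.wF ≠ 0 := by
  intro h
  have := D.imF_wF
  rw [h, map_zero] at this
  exact one_ne_zero this.symm

lemma sF_wF : D.sF D.wF = - D.wF := by
  apply D.e_ext
  ext <;> simp

/-- non-degeneracy of the form `μ (x y)`. -/
lemma eq_zero_of_mu (x : F) (h : ∀ y, D.mu (x * y) = 0) : x = 0 := by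
  apply D.F_ext
  · have := h 1
    rw [mul_one] at this
    rw [this, map_zero]
  · have := h D.wF
    rw [mu_mul, mu_wF, imF_wF, mul_zero, zero_add, mul_one] at this
    rw [(mul_eq_zero.1 this).resolve_left D.a0, map_zero]

lemma exists_mu (φ : F →ₗ[k] k) : ∃ x : F, ∀ y, φ y = D.mu (x * y) := by
  refine ⟨D.mkF (φ 1) (φ D.wF / D.a), fun y => ?_⟩
  have hy : y = D.mu y • 1 + D.imF y • D.wF := by
    apply D.F_ext
    · rw [map_add, map_smul, map_smul, mu_wF, smul_zero, add_zero,
        show (1 : F) = algebraMap k F 1 from (map_one _).symm, mu_algebraMap, smul_eq_mul, mul_one]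
    · rw [map_add, map_smul, map_smul, imF_wF,
        show (1 : F) = algebraMap k F 1 from (map_one _).symm, imF_algebraMap, smul_zero,
        zero_add, smul_eq_mul, mul_one]
  conv_lhs => rw [hy]
  rw [map_add, map_smul, map_smul, mu_mul, mu_mkF, imF_mkF, smul_eq_mul, smul_eq_mul]
  field_simp [D.a0]

/-! ### The map `z ↦ (λF z, λF (κ z))` -/

/-- elements killed by `λF` and `λF κ` are `F`-multiples of `s` -/
lemma exists_s (z : D.K) (h1 : D.lamF z = 0) (h2 : D.lamF (D.kap * z) = 0) :
    ∃ c : F, D.mF c D.s = z := by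
  have a1 : D.lam z.re = 0 := by rw [← mu_lamF, h1, map_zero]
  have a2 : D.lam z.im = 0 := by rw [← imF_lamF, h1, map_zero]
  have a3 : D.lam (D.kap * z).re = 0 := by rw [← mu_lamF, h2, map_zero]
  have a4 : D.lam (D.kap * z).im = 0 := by rw [← imF_lamF, h2, map_zero]
  have b3 : (D.kap * z).re = - (D.th ^ 2 * z.re) + algebraMap k L D.a * (D.th * z.im) := by
    simp only [re_mul, kap_re, kap_im]; ring
  have b4 : (D.kap * z).im = - (D.th ^ 2 * z.im) + D.th * z.re := by
    simp only [im_mul, kap_re, kap_im]; ring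
  rw [lam_eq] at a1 a2
  rw [b3, map_add, map_neg, lam_th_sq_mul, lam_algebraMap_mul, lam_th_mul, a1, a2] at a3
  rw [b4, map_add, map_neg, lam_th_sq_mul, lam_th_mul, a1, a2] at a4
  refine ⟨D.mkF (D.b.repr z.re 1) (D.b.repr z.im 1), ?_⟩
  have hr : (D.mF (D.mkF (D.b.repr z.re 1) (D.b.repr z.im 1)) D.s).re =
      D.mkL (D.a * D.b.repr z.im 1 - D.c2 * D.b.repr z.re 1) (D.b.repr z.re 1) 0 := by
    simp only [mF, re_mul, s_re, s_im, iF_re, iF_im, e_mkF, mkL, map_sub, map_mul, map_zero]
    ring
  have hi : (D.mF (D.mkF (D.b.repr z.re 1) (D.b.repr z.im 1)) D.s).im =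
      D.mkL (D.b.repr z.re 1 - D.c2 * D.b.repr z.im 1) (D.b.repr z.im 1) 0 := by
    simp only [mF, im_mul, s_re, s_im, iF_re, iF_im, e_mkF, mkL, map_sub, map_mul, map_zero]
    ring
  ext
  · rw [hr]
    apply D.ext_repr
    · rw [repr_mkL0]; linear_combination a3
    · rw [repr_mkL1]
    · rw [repr_mkL2, a1]
  · rw [hi]
    apply D.ext_repr
    · rw [repr_mkL0]; linear_combination a4
    · rw [repr_mkL1]
    · rw [repr_mkL2, a2]

lemma exists_lamF (u v : F) : ∃ z : D.K, D.lamF z = u ∧ D.lamF (D.kap * z) = v := by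
  have h1 : D.lamF (D.iL (D.th ^ 2)) = 1 := by
    apply D.e_ext
    rw [e_lamF, iL_re, iL_im, lam_th_sq, map_zero, map_one]
    rfl
  have h2 : D.lamF 1 = 0 := by
    apply D.e_ext
    ext <;> simp
  have h3 : D.lamF D.kap = -1 := by
    apply D.e_ext
    ext <;> simp
  refine ⟨D.iF u * D.iL (D.th ^ 2) -
    D.iF (v - u * D.lamF (D.kap * D.iL (D.th ^ 2))) * 1, ?_, ?_⟩
  · rw [map_sub, lamF_iF_mul, lamF_iF_mul, h1, h2]
    ring
  · have : D.kap * (D.iF u * D.iL (D.th ^ 2) -
        D.iF (v - u * D.lamF (D.kap * D.iL (D.th ^ 2))) * 1) =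
        D.iF u * (D.kap * D.iL (D.th ^ 2)) -
          D.iF (v - u * D.lamF (D.kap * D.iL (D.th ^ 2))) * D.kap := by ring
    rw [this, map_sub, lamF_iF_mul, lamF_iF_mul, h3]
    ring

lemma mF_s_injective : Function.Injective (fun c : F => D.mF c D.s) := by
  intro c d h
  have h' : D.mF c D.s = D.mF d D.s := h
  have hre := congrArg QuadraticAlgebra.re h'
  have him := congrArg QuadraticAlgebra.im h'
  have hr : ∀ c : F, (D.mF c D.s).re =
      D.mkL (D.a * D.imF c - D.c2 * D.mu c) (D.mu c) 0 := by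
    intro c
    simp only [mF, re_mul, s_re, s_im, iF_re, iF_im, mkL, map_sub, map_mul, map_zero,
      mu_apply, imF_apply]
    ring
  have hi : ∀ c : F, (D.mF c D.s).im =
      D.mkL (D.mu c - D.c2 * D.imF c) (D.imF c) 0 := by
    intro c
    simp only [mF, im_mul, s_re, s_im, iF_re, iF_im, mkL, map_sub, map_mul, map_zero,
      mu_apply, imF_apply]
    ring
  rw [hr, hr] at hre
  rw [hi, hi] at him
  apply D.F_ext
  · have := congrArg (fun l => D.b.repr l 1) hre
    simpa using this
  · have := congrArg (fun l => D.b.repr l 1) him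
    simpa using this

/-! ### The action on `V` -/

/-- `Λ(a,b) × V_a → V_b` -/
def vab (z : D.K) (x : F) : L := D.trL (z * D.iF x)

/-- `Λ(a,f) × V_a → V_f` -/
def vaf (g : F × F × F) (x : F) : F := g.1 * x + g.2.1 * D.sF x

/-- `Λ(b,f) × V_b → V_f` -/
def vbf (z : D.K) (l : L) : F := D.lamF (z * D.iL l)

lemma vab_add (z : D.K) (x y : F) : D.vab z (x + y) = D.vab z x + D.vab z y := by
  simp only [vab, map_add, mul_add]
lemma add_vab (z z' : D.K) (x : F) : D.vab (z + z') x = D.vab z x + D.vab z' x := by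
  simp only [vab, map_add, add_mul]
lemma vaf_add (g : F × F × F) (x y : F) : D.vaf g (x + y) = D.vaf g x + D.vaf g y := by
  simp only [vaf, sF_add]; ring
lemma add_vaf (g g' : F × F × F) (x : F) : D.vaf (g + g') x = D.vaf g x + D.vaf g' x := by
  simp only [vaf, Prod.fst_add, Prod.snd_add]; ring
lemma vbf_add (z : D.K) (x y : L) : D.vbf z (x + y) = D.vbf z x + D.vbf z y := by
  simp only [vbf, map_add, mul_add]
lemma add_vbf (z z' : D.K) (x : L) : D.vbf (z + z') x = D.vbf z x + D.vbf z' x := by
  simp only [vbf, map_add, add_mul]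
lemma vab_smul (r : k) (z : D.K) (x : F) : D.vab z (r • x) = r • D.vab z x := by
  simp only [vab, iF_smul, mul_smul_comm, map_smul]
lemma smul_vab (r : k) (z : D.K) (x : F) : D.vab (r • z) x = r • D.vab z x := by
  simp only [vab, smul_mul_assoc, map_smul]
lemma vaf_smul (r : k) (g : F × F × F) (x : F) : D.vaf g (r • x) = r • D.vaf g x := by
  simp only [vaf, sF_smul, mul_smul_comm, smul_add]
lemma smul_vaf (r : k) (g : F × F × F) (x : F) : D.vaf (r • g) x = r • D.vaf g x := by
  simp only [vaf, Prod.smul_fst, Prod.smul_snd, smul_mul_assoc, smul_add]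
lemma vbf_smul (r : k) (z : D.K) (x : L) : D.vbf z (r • x) = r • D.vbf z x := by
  simp only [vbf, iL_smul, mul_smul_comm, map_smul]
lemma smul_vbf (r : k) (z : D.K) (x : L) : D.vbf (r • z) x = r • D.vbf z x := by
  simp only [vbf, smul_mul_assoc, map_smul]

lemma v_aab (g : F) (h : D.K) (x : F) : D.vab (D.mF g h) x = D.vab h (g * x) := by
  simp only [vab, mF, map_mul, mul_assoc]
lemma v_aaf (g : F) (h : F × F × F) (x : F) : D.vaf (D.aaf g h) x = D.vaf h (g * x) := by
  simp only [vaf, aaf, sF_mul]; ring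
lemma v_abb (g : D.K) (h : L) (x : F) : D.vab (D.mL h g) x = h * D.vab g x := by
  simp only [vab, mL, trL_apply]
  have : (g * D.iL h * D.iF x).re = h * (g * D.iF x).re := by
    rw [mul_right_comm, mul_comm (g * D.iF x)]
    simp
  rw [this]; ring
lemma v_abf (g h : D.K) (x : F) : D.vaf (D.abf g h) x = D.vbf h (D.vab g x) := by
  simp only [vaf, vab, vbf, abf]
  rw [iL_trL, mul_add, map_add, tau_mul, tau_iF, ← lamF_mul_iF, ← lamF_mul_iF, mul_assoc,
    mul_assoc]
lemma v_aff (g : F × F × F) (h : F) (x : F) : D.vaf (aff g h) x = h * D.vaf g x := by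
  simp only [vaf, aff]; ring
lemma v_bbf (g : L) (h : D.K) (x : L) : D.vbf (D.mL g h) x = D.vbf h (g * x) := by
  simp only [vbf, mL, map_mul, mul_assoc]
lemma v_bff (g : D.K) (h : F) (x : L) : D.vbf (D.mF h g) x = h * D.vbf g x := by
  simp only [vbf, mF]
  rw [← lamF_iF_mul]; congr 1; ring

end Dat

namespace Ob

variable (D : Dat k F L)

/-- the components of `V` -/
def VV : Ob D → Type u
  | .a => F
  | .b => L
  | .f => F

instance : ∀ x : Ob D, AddCommGroup (VV D x)
  | .a => inferInstanceAs (AddCommGroup F)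
  | .b => inferInstanceAs (AddCommGroup L)
  | .f => inferInstanceAs (AddCommGroup F)

instance : ∀ x : Ob D, Module k (VV D x)
  | .a => inferInstanceAs (Module k F)
  | .b => inferInstanceAs (Module k L)
  | .f => inferInstanceAs (Module k F)

/-- the action -/
def act : ∀ {x y : Ob D}, Hm D x y → VV D x → VV D y
  | .a, .a, (g : F), (v : F) => (g * v : F)
  | .a, .b, (g : D.K), (v : F) => D.vab g v
  | .a, .f, (g : F × F × F), (v : F) => D.vaf g v
  | .b, .b, (g : L), (v : L) => (g * v : L)
  | .b, .f, (g : D.K), (v : L) => D.vbf g v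
  | .f, .f, (g : F), (v : F) => (g * v : F)
  | .b, .a, _, _ => 0
  | .f, .a, _, _ => 0
  | .f, .b, _, _ => 0

variable {D}

lemma one_act {x : Ob D} (v : VV D x) : act D (one D x) v = v := by
  cases x
  · exact one_mul (M := F) v
  · exact one_mul (M := L) v
  · exact one_mul (M := F) v

lemma act_add {x y : Ob D} (g : Hm D x y) (v v' : VV D x) :
    act D g (v + v') = act D g v + act D g v' := by
  cases x <;> cases y
  · exact mul_add (R := F) _ _ _
  · exact D.vab_add g v v'
  · exact D.vaf_add g v v'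
  · exact (add_zero _).symm
  · exact mul_add (R := L) _ _ _
  · exact D.vbf_add g v v'
  · exact (add_zero _).symm
  · exact (add_zero _).symm
  · exact mul_add (R := F) _ _ _

lemma add_act {x y : Ob D} (g g' : Hm D x y) (v : VV D x) :
    act D (g + g') v = act D g v + act D g' v := by
  cases x <;> cases y
  · exact add_mul (R := F) _ _ _
  · exact D.add_vab g g' v
  · exact D.add_vaf g g' v
  · exact (add_zero _).symm
  · exact add_mul (R := L) _ _ _
  · exact D.add_vbf g g' v
  · exact (add_zero _).symm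
  · exact (add_zero _).symm
  · exact add_mul (R := F) _ _ _

lemma act_smul {x y : Ob D} (g : Hm D x y) (r : k) (v : VV D x) :
    act D g (r • v) = r • act D g v := by
  cases x <;> cases y
  · exact mul_smul_comm (β := F) r g v
  · exact D.vab_smul r g v
  · exact D.vaf_smul r g v
  · exact (smul_zero r).symm
  · exact mul_smul_comm (β := L) r g v
  · exact D.vbf_smul r g v
  · exact (smul_zero r).symm
  · exact (smul_zero r).symm
  · exact mul_smul_comm (β := F) r g v

lemma smul_act {x y : Ob D} (r : k) (g : Hm D x y) (v : VV D x) :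
    act D (r • g) v = r • act D g v := by
  cases x <;> cases y
  · exact smul_mul_assoc (β := F) r g v
  · exact D.smul_vab r g v
  · exact D.smul_vaf r g v
  · exact (smul_zero r).symm
  · exact smul_mul_assoc (β := L) r g v
  · exact D.smul_vbf r g v
  · exact (smul_zero r).symm
  · exact (smul_zero r).symm
  · exact smul_mul_assoc (β := F) r g v

lemma zero_act {x y : Ob D} (v : VV D x) : act D (0 : Hm D x y) v = 0 := by
  have := smul_act (0 : k) (0 : Hm D x y) v
  rwa [zero_smul, zero_smul] at this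

lemma act_zero {x y : Ob D} (g : Hm D x y) : act D g (0 : VV D x) = 0 := by
  have := act_smul g (0 : k) (0 : VV D x)
  rwa [zero_smul, zero_smul] at this

lemma cmp_act {x y z : Ob D} (g : Hm D x y) (h : Hm D y z) (v : VV D x) :
    act D (cmp D g h) v = act D h (act D g v) := by
  cases x <;> cases y <;> cases z
  · exact mul_assoc (G := F) _ _ _
  · exact D.v_aab g h v
  · exact D.v_aaf g h v
  · exact (zero_act (x := .a) (y := .a) v)
  · exact D.v_abb g h v
  · exact D.v_abf g h v
  · exact (zero_act (x := .a) (y := .a) v)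
  · exact (zero_act (x := .a) (y := .b) v)
  · exact D.v_aff g h v
  · exact (act_zero (x := .a) (y := .a) h).symm
  · exact (zero_act (x := .b) (y := .b) v).trans (act_zero (x := .a) (y := .b) h).symm
  · exact (zero_act (x := .b) (y := .f) v).trans (act_zero (x := .a) (y := .f) h).symm
  · rfl
  · exact mul_assoc (G := L) _ _ _
  · exact D.v_bbf g h v
  · rfl
  · exact (zero_act (x := .b) (y := .b) v)
  · exact D.v_bff g h v
  · exact (act_zero (x := .a) (y := .a) h).symm
  · exact (act_zero (x := .a) (y := .b) h).symm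
  · exact (zero_act (x := .f) (y := .f) v).trans (act_zero (x := .a) (y := .f) h).symm
  · rfl
  · exact (act_zero (x := .b) (y := .b) h).symm
  · exact (zero_act (x := .f) (y := .f) v).trans (act_zero (x := .b) (y := .f) h).symm
  · rfl
  · rfl
  · exact mul_assoc (G := F) _ _ _

/-- precomposition with `g` as a linear map -/
def preL {x y : Ob D} (g : Hm D x y) (z : Ob D) : Hm D y z →ₗ[k] Hm D x z where
  toFun h := cmp D g h
  map_add' := cmp_add g
  map_smul' r h := cmp_smul g r h

/-- postcomposition with `h` as a linear map -/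
def postL {y z : Ob D} (h : Hm D y z) (x : Ob D) : Hm D x y →ₗ[k] Hm D x z where
  toFun g := cmp D g h
  map_add' g g' := add_cmp g g' h
  map_smul' r g := smul_cmp r g h

/-- the action as a linear map -/
def actL {x y : Ob D} : Hm D x y →ₗ[k] VV D x →ₗ[k] VV D y :=
  LinearMap.mk₂ k (act D) add_act smul_act act_add (fun r g v => act_smul g r v)

@[simp] lemma preL_apply {x y : Ob D} (g : Hm D x y) (z : Ob D) (h : Hm D y z) :
    preL g z h = cmp D g h := rfl
@[simp] lemma postL_apply {y z : Ob D} (h : Hm D y z) (x : Ob D) (g : Hm D x y) :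
    postL h x g = cmp D g h := rfl
@[simp] lemma actL_apply {x y : Ob D} (g : Hm D x y) (v : VV D x) : actL g v = act D g v := rfl

end Ob

end Orl.LF
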