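import Pool.Agent.Work.MP_a6e60d_ag.LF.PhiRes
import Pool.Agent.Work.MP_a6e60d_ag.LF.ExtFF

/-!
# `Φ` is bijective on Ext
-/

open CategoryTheory Limits Abelian

attribute [-instance] CategoryTheory.catToReflQuiver

namespace Orl.LF

open Orl.Gal

universe w w₀ w₁ w₂ v u v' u'

attribute [local instance] Abelian.hasFiniteBiproducts

section contr

variable {k : Type*} [Field k] {V₁ V₂ V₃ : Type*} [AddCommGroup V₁] [Module k V₁]
  [AddCommGroup V₂] [Module k V₂] [AddCommGroup V₃] [Module k V₃] [Module.Finite k V₁]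

/-- a contraction of the exact complex `0 → k → V₁ → V₂ → V₃ → 0` -/
lemma exists_contraction (v : V₁) (f : V₁ →ₗ[k] V₂) (g : V₂ →ₗ[k] V₃) (hv : v ≠ 0)
    (hfv : f v = 0) (h1 : ∀ w, f w = 0 → ∃ c : k, w = c • v)
    (hgf : ∀ w, g (f w) = 0) (h2 : ∀ w, g w = 0 → ∃ w', f w' = w)
    (h3 : ∀ w, ∃ w', g w' = w) :
    ∃ (ξ : V₁ →ₗ[k] k) (p : V₂ →ₗ[k] V₁) (q : V₃ →ₗ[k] V₂), ξ v = 1 ∧
      (∀ w, ξ w • v + p (f w) = w) ∧ (∀ w, f (p w) + q (g w) = w) ∧ (∀ w, g (q w) = w) := by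
  obtain ⟨q, hq⟩ := g.exists_rightInverse_of_surjective (LinearMap.range_eq_top.2 h3)
  have hq' : ∀ w, g (q w) = w := fun w => LinearMap.congr_fun hq w
  obtain ⟨p₀, hp₀⟩ := exists_pinv f
  obtain ⟨ξ₀, hξ₀⟩ := Module.Projective.exists_dual_eq_one k hv
  have hp : ∀ w, f (p₀ (w - q (g w))) = w - q (g w) := by
    intro w
    obtain ⟨w', hw'⟩ := h2 (w - q (g w)) (by rw [map_sub, hq', sub_self])
    rw [← hw', hp₀]
  let p : V₂ →ₗ[k] V₁ := p₀.comp (LinearMap.id - q.comp g)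
  have hpw : ∀ w, p w = p₀ (w - q (g w)) := fun w => rfl
  have hpf : ∀ w, f (p (f w)) = f w := by
    intro w
    rw [hpw, hp, hgf, map_zero, sub_zero]
  let ξ : V₁ →ₗ[k] k := ξ₀.comp (LinearMap.id - p.comp f)
  have hξ : ∀ w, ξ w = ξ₀ (w - p (f w)) := fun w => rfl
  refine ⟨ξ, p, q, ?_, fun w => ?_, fun w => ?_, hq'⟩
  · rw [hξ, hfv, map_zero, sub_zero, hξ₀]
  · obtain ⟨c, hc⟩ := h1 (w - p (f w)) (by rw [map_sub, hpf, sub_self])
    rw [hξ, hc, map_smul, hξ₀, smul_eq_mul, mul_one, ← hc, sub_add_cancel]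
  · rw [hpw, hp, sub_add_cancel]

end contr

section

variable {k : Type w₀} [Field k] {Q : Type u} [Category.{v} Q] [Preadditive Q] [Linear k Q]
variable {C : Type u'} [Category.{v'} C] [Abelian C] [Linear k C]
variable (Λ : LamData.{w} k Q)

/-- the map of evaluations given by a morphism of `Q` -/
def evTrans {x y : Q} (q : x ⟶ y) : (ev x : LinFun k Q C ⥤ C) ⟶ ev y where
  app N := N.obj.map q
  naturality _ _ f := (f.hom.naturality q).symm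

/-- the linear map on `c ⊗ V` of a linear map -/
noncomputable def phiLin (c : C) {x y : Q} (g : Λ.V.V x →ₗ[k] Λ.V.V y) :
    ((phi C Λ).obj c).obj.obj x ⟶ ((phi C Λ).obj c).obj.obj y :=
  tmap (trivObj k c) g

@[reassoc]
lemma phiMk_phiLin (c : C) {x y : Q} (g : Λ.V.V x →ₗ[k] Λ.V.V y) (w : Λ.V.V x) :
    phiMk Λ c w ≫ phiLin Λ c g = phiMk Λ c (g w) :=
  tmk_tmap _ _ _

/-- **P1** -/
theorem phi_ext_bijective [HasExt.{w₁} C] [HasExt.{w₂} (LinFun k Q C)] (c c' : C) (n : ℕ) :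
    Function.Bijective (fun x : Ext.{w₁} c c' n =>
      (x.mapExactFunctor (phi C Λ) : Ext.{w₂} _ _ n)) := by
  have hfin : ∀ x y : Q, Module.Finite k (x ⟶ y) := Λ.finHom
  refine extFF (phi C Λ) (ev Λ.a) (ev Λ.b) (ev Λ.f) (lx k C Λ.a) (lx k C Λ.b) (lx k C Λ.f)
    (lxAdj k C Λ.a) (lxAdj k C Λ.b) (lxAdj k C Λ.f) (evTrans Λ.r) (evTrans Λ.s)
    (lxTrans k C Λ.r) (lxTrans k C Λ.s) (phiPi C Λ)
    { app := fun c => phiMk Λ c Λ.v
      naturality := fun c c' f => (phiMk_phi_map Λ f Λ.v).symm } ?_ ?_ ?_ (epi_phiPi Λ)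
    (mono_lxTrans Λ) (lxTrans_phiPi Λ) (lxTrans_lxTrans Λ) (exact_lxTrans_phiPi Λ)
    (exact_lxTrans_lxTrans Λ) ?_ c c' n
  · intro c
    rw [lxAdj_unit, lxAdj_unit]
    refine (lxMk_lxTrans Λ.r c (𝟙 Λ.b)).trans (Eq.trans ?_ (lxMk_map c (𝟙 Λ.a) Λ.r).symm)
    rw [Category.id_comp, Category.comp_id]
  · intro c
    rw [lxAdj_unit, lxAdj_unit]
    refine (lxMk_lxTrans Λ.s c (𝟙 Λ.f)).trans (Eq.trans ?_ (lxMk_map c (𝟙 Λ.b) Λ.s).symm)
    rw [Category.id_comp, Category.comp_id]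
  · intro c
    rw [lxAdj_unit]
    refine (lxMk_phiPi Λ c (𝟙 Λ.a)).trans ?_
    rw [Λ.V.map_id_apply]
  · intro c
    obtain ⟨ξ, p, q, e1, e2, e3, e4⟩ := exists_contraction Λ.v (Λ.V.map Λ.r) (Λ.V.map Λ.s)
      Λ.v_ne Λ.r_v Λ.vA
      (fun w => by
        rw [← Λ.V.map_comp_apply, Λ.r_s]
        have h0 := Λ.V.map_add (0 : Λ.a ⟶ Λ.f) 0
        rw [add_zero, left_eq_add] at h0
        rw [h0, LinearMap.zero_apply]) Λ.vB Λ.vF
    refine ⟨phiEv Λ c ξ, phiLin Λ c p, phiLin Λ c q, ?_, ?_, ?_, ?_⟩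
    · change phiMk Λ c Λ.v ≫ phiEv Λ c ξ = 𝟙 c
      rw [phiMk_phiEv, e1, one_smul]
    · change phiEv Λ c ξ ≫ phiMk Λ c Λ.v + ((phi C Λ).obj c).obj.map Λ.r ≫ phiLin Λ c p = 𝟙 _
      refine phi_ext Λ fun w => ?_
      rw [Preadditive.comp_add, ← Category.assoc, ← Category.assoc, phiMk_phiEv, phiMk_map,
        phiMk_phiLin, Linear.smul_comp, Category.id_comp, ← phiMk_smul, ← phiMk_add, e2]
      exact (Category.comp_id _).symm
    · change phiLin Λ c p ≫ ((phi C Λ).obj c).obj.map Λ.r +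
        ((phi C Λ).obj c).obj.map Λ.s ≫ phiLin Λ c q = 𝟙 _
      refine phi_ext Λ fun w => ?_
      rw [Preadditive.comp_add, ← Category.assoc, ← Category.assoc, phiMk_phiLin, phiMk_map,
        phiMk_map, phiMk_phiLin, ← phiMk_add, e3]
      exact (Category.comp_id _).symm
    · change phiLin Λ c q ≫ ((phi C Λ).obj c).obj.map Λ.s = 𝟙 _
      refine phi_ext Λ fun w => ?_
      rw [← Category.assoc, phiMk_phiLin, phiMk_map, e4]
      exact (Category.comp_id _).symm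

end

end Orl.LF
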