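import Pool.Agent.Work.MP_a6e60d_ag.LF.PhiRes
import Pool.Agent.Work.MP_a6e60d_ag.Q.Thk

/-!
# P5: the object `Φ G` is in the thick closure of the `ind_x (G ⊗ E_x)`
-/

open CategoryTheory Limits

attribute [-instance] CategoryTheory.catToReflQuiver

namespace Orl.LF

open Orl.Gal

universe w w₀ v u v' u'

attribute [local instance] Abelian.hasFiniteBiproducts

/-- The last term of a resolution of length two. -/
theorem _root_.Orl.Q.Thk.res₃ {A : Type u} [Category.{v} A] [Abelian A] {P : ObjectProperty A}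
    (hP : Orl.Q.Thk P) {X Y Z W : A} (σ : X ⟶ Y) (ρ : Y ⟶ Z) (π : Z ⟶ W) (hσ : Mono σ)
    (hπ : Epi π) (w₁ : σ ≫ ρ = 0) (w₂ : ρ ≫ π = 0) (ex₁ : (ShortComplex.mk σ ρ w₁).Exact)
    (ex₂ : (ShortComplex.mk ρ π w₂).Exact) (hX : P X) (hY : P Y) (hZ : P Z) : P W := by
  have hp0 : σ ≫ kernel.lift π ρ w₂ = 0 := by
    rw [← cancel_mono (kernel.ι π), Category.assoc, kernel.lift_ι, w₁, zero_comp]
  have hS2 : (ShortComplex.mk σ (kernel.lift π ρ w₂) hp0).ShortExact := by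
    have h1 : (ShortComplex.mk σ (kernel.lift π ρ w₂) hp0).Exact := by
      let φ : ShortComplex.mk σ (kernel.lift π ρ w₂) hp0 ⟶ ShortComplex.mk σ ρ w₁ :=
        { τ₁ := 𝟙 _
          τ₂ := 𝟙 _
          τ₃ := kernel.ι π
          comm₁₂ := by simp
          comm₂₃ := by simp }
      have i1 : Epi φ.τ₁ := inferInstanceAs (Epi (𝟙 X))
      have i2 : IsIso φ.τ₂ := inferInstanceAs (IsIso (𝟙 Y))
      have i3 : Mono φ.τ₃ := inferInstanceAs (Mono (kernel.ι π))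
      exact (ShortComplex.exact_iff_of_epi_of_isIso_of_mono φ).2 ex₁
    have h2 : Epi (kernel.lift π ρ w₂) :=
      (ShortComplex.exact_iff_epi_kernel_lift _).1 ex₂
    exact { exact := h1, mono_f := hσ, epi_g := h2 }
  have hS1 : (ShortComplex.mk (kernel.ι π) π (kernel.condition π)).ShortExact :=
    { exact := ShortComplex.exact_kernel π }
  exact hP.ses₃ hS1 (hP.ses₃ hS2 hX hY) hZ

section

variable {k : Type w₀} [Field k] {Q : Type u} [Category.{v} Q] [Preadditive Q] [Linear k Q]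
variable {C : Type u'} [Category.{v'} C] [Abelian C] [Linear k C]
variable {E : Type w₀} [Field E] [Algebra k E] [FiniteDimensional k E]

variable (C) in
/-- `c ↦ (y ↦ (E ⊗ c) ⊗_E Q(base i, y))` is left adjoint to the evaluation at the base. -/
noncomputable def indCIndAdj (i : SingleObj E ⥤ Q) [i.Additive] [i.Linear k]
    [∀ y, Module.Finite E (HomL i y)] :
    indC k C E ⋙ ind C i ⊣ ev (k := k) (C := C) (base i) :=
  (indCAdj k C E).comp (indAdj C i)

/-- Objects induced from the base field, up to isomorphism. -/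
theorem indC_ind_iso (i : SingleObj E ⥤ Q) [i.Additive] [i.Linear k]
    [∀ y, Module.Finite E (HomL i y)] {x : Q} (h : base i = x) {L : C ⥤ LinFun k Q C}
    (adj : L ⊣ ev x) (G : C) : Nonempty ((ind C i).obj ((indC k C E).obj G) ≅ L.obj G) := by
  subst h
  exact ⟨((indCIndAdj C i).leftAdjointUniq adj).app G⟩

end

section

variable {k : Type w₀} [Field k] {Q : Type u} [Category.{v} Q] [Preadditive Q] [Linear k Q]
variable {C : Type u'} [Category.{v'} C] [Abelian C] [Linear k C]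
variable (Λ : LamData.{w} k Q)

/-- `Φ G` is in the thick closure of the `G ⊗ P_x`. -/
theorem phi_gen_lx (P : ObjectProperty (LinFun k Q C)) (hP : Orl.Q.Thk P) (G : C)
    (H : ∀ x : Q, P (@Functor.obj _ _ _ _ (@lx k _ Q _ _ _ C _ _ _ x fun y => Λ.finHom x y) G)) :
    P ((phi C Λ).obj G) := by
  have := Λ.finHom
  exact hP.res₃ ((lxTrans k C Λ.s).app G) ((lxTrans k C Λ.r).app G) ((phiPi C Λ).app G)
    (mono_lxTrans Λ G) (epi_phiPi Λ G) (lxTrans_lxTrans Λ G) (lxTrans_phiPi Λ G)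
    (exact_lxTrans_lxTrans Λ G) (exact_lxTrans_phiPi Λ G) (H Λ.f) (H Λ.b) (H Λ.a)

/-- **P5**: `Φ G` is in the thick closure of the `ind_x (G ⊗ E_x)`. -/
theorem phi_gen {E₁ E₂ E₃ : Type w₀} [Field E₁] [Field E₂] [Field E₃] [Algebra k E₁]
    [Algebra k E₂] [Algebra k E₃] [FiniteDimensional k E₁] [FiniteDimensional k E₂]
    [FiniteDimensional k E₃] (i₁ : SingleObj E₁ ⥤ Q) [i₁.Additive] [i₁.Linear k]
    [∀ y, Module.Finite E₁ (HomL i₁ y)]
    (i₂ : SingleObj E₂ ⥤ Q) [i₂.Additive] [i₂.Linear k] [∀ y, Module.Finite E₂ (HomL i₂ y)]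
    (i₃ : SingleObj E₃ ⥤ Q) [i₃.Additive] [i₃.Linear k] [∀ y, Module.Finite E₃ (HomL i₃ y)]
    (h₁ : base i₁ = Λ.a) (h₂ : base i₂ = Λ.b) (h₃ : base i₃ = Λ.f)
    (P : ObjectProperty (LinFun k Q C)) (hP : Orl.Q.Thk P) (G : C)
    (H₁ : P ((ind C i₁).obj ((indC k C E₁).obj G)))
    (H₂ : P ((ind C i₂).obj ((indC k C E₂).obj G)))
    (H₃ : P ((ind C i₃).obj ((indC k C E₃).obj G))) : P ((phi C Λ).obj G) := by
  have := Λ.finHom
  obtain ⟨e₁⟩ := indC_ind_iso i₁ h₁ (lxAdj k C Λ.a) G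
  obtain ⟨e₂⟩ := indC_ind_iso i₂ h₂ (lxAdj k C Λ.b) G
  obtain ⟨e₃⟩ := indC_ind_iso i₃ h₃ (lxAdj k C Λ.f) G
  exact hP.res₃ ((lxTrans k C Λ.s).app G) ((lxTrans k C Λ.r).app G) ((phiPi C Λ).app G)
    (mono_lxTrans Λ G) (epi_phiPi Λ G) (lxTrans_lxTrans Λ G) (lxTrans_phiPi Λ G)
    (exact_lxTrans_lxTrans Λ G) (exact_lxTrans_phiPi Λ G) (hP.iso e₃ H₃) (hP.iso e₂ H₂)
    (hP.iso e₁ H₁)

end

end Orl.LF
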