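import Pool.Agent.Work.MP_a6e60d_ag.LF.Phi

/-!
# The left adjoint `Ψ : LinFun k Q C ⥤ C` of `Φ`, `Ψ N = coker (N_b → N_f)`

* `psi`, `psiPi`, `psiDesc`: the functor, the projection `N_f → Ψ N`, the universal property;
* `phiEv_ext`, `phiLift`: morphisms to `c ⊗ V_x` in terms of the evaluations;
* `psiAdj : psi C Λ ⊣ phi C Λ`;
* `indPsi : ind C i ⋙ psi C Λ ≅ tensL k E C (psiW Λ i)`.
-/

open CategoryTheory Limits

attribute [-instance] CategoryTheory.catToReflQuiver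

namespace Orl.LF

open Orl.Gal

universe w w₀ v u v' u'

attribute [local instance] Abelian.hasFiniteBiproducts

section ev

variable {k : Type w₀} [Field k] {Q : Type u} [Category.{v} Q] [Preadditive Q] [Linear k Q]
variable {C : Type u'} [Category.{v'} C] [Abelian C] [Linear k C]
variable (Λ : LamData.{w} k Q)

@[reassoc]
lemma phi_map_phiEv (c : C) {x y : Q} (q : x ⟶ y) (ξ : Λ.V.V y →ₗ[k] k) :
    ((phi C Λ).obj c).obj.map q ≫ phiEv Λ c ξ = phiEv Λ c (ξ ∘ₗ Λ.V.map q) :=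
  phi_ext Λ fun w => by
    rw [← Category.assoc, phiMk_map, phiMk_phiEv, phiMk_phiEv]
    rfl

@[reassoc]
lemma ev_phi_map_phiEv {c c' : C} (f : c ⟶ c') {x : Q} (ξ : Λ.V.V x →ₗ[k] k) :
    (ev x).map ((phi C Λ).map f) ≫ phiEv Λ c' ξ = phiEv Λ c ξ ≫ f :=
  phi_ext Λ fun w => by
    rw [← Category.assoc, phiMk_phi_map, Category.assoc, phiMk_phiEv, phiMk_phiEv_assoc,
      Linear.comp_smul, Linear.smul_comp, Category.comp_id, Category.id_comp]

lemma sum_phiEv_phiMk (c : C) (x : Q) :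
    ∑ i, phiEv Λ c ((Module.finBasis k (Λ.V.V x)).coord i) ≫
      phiMk Λ c (Module.finBasis k (Λ.V.V x) i) = 𝟙 (((phi C Λ).obj c).obj.obj x) := by
  refine phi_ext Λ fun w => ?_
  have hsum : ∀ (s : Finset (Fin (Module.finrank k (Λ.V.V x)))) (g : Fin (Module.finrank k
      (Λ.V.V x)) → Λ.V.V x), phiMk Λ c (∑ i ∈ s, g i) = ∑ i ∈ s, phiMk Λ c (g i) := by
    classical
    intro s g
    induction s using Finset.induction_on with
    | empty => simp [phiMk_zero]
    | insert a s ha ih => rw [Finset.sum_insert ha, Finset.sum_insert ha, phiMk_add, ih]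
  rw [Preadditive.comp_sum, Category.comp_id]
  conv_rhs => rw [← (Module.finBasis k (Λ.V.V x)).sum_repr w, hsum]
  refine Finset.sum_congr rfl fun i _ => ?_
  rw [phiMk_phiEv_assoc, Linear.smul_comp, Category.id_comp, phiMk_smul,
    Module.Basis.coord_apply]

variable {Λ} in
lemma phiEv_ext {c X : C} {x : Q} {f g : X ⟶ ((phi C Λ).obj c).obj.obj x}
    (h : ∀ ξ : Λ.V.V x →ₗ[k] k, f ≫ phiEv Λ c ξ = g ≫ phiEv Λ c ξ) : f = g := by
  rw [← Category.comp_id f, ← Category.comp_id g, ← sum_phiEv_phiMk, Preadditive.comp_sum,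
    Preadditive.comp_sum]
  refine Finset.sum_congr rfl fun i _ => ?_
  rw [← Category.assoc, h, Category.assoc]

/-- the map `X → c ⊗ V x` given by a linear family of maps on the dual of `V x` -/
noncomputable def phiLift {c X : C} {x : Q} (θ : (Λ.V.V x →ₗ[k] k) →ₗ[k] (X ⟶ c)) :
    X ⟶ ((phi C Λ).obj c).obj.obj x :=
  ∑ i, θ ((Module.finBasis k (Λ.V.V x)).coord i) ≫ phiMk Λ c (Module.finBasis k (Λ.V.V x) i)

@[reassoc]
lemma phiLift_phiEv {c X : C} {x : Q} (θ : (Λ.V.V x →ₗ[k] k) →ₗ[k] (X ⟶ c))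
    (ξ : Λ.V.V x →ₗ[k] k) : phiLift Λ θ ≫ phiEv Λ c ξ = θ ξ := by
  have h : ξ = ∑ i, ξ (Module.finBasis k (Λ.V.V x) i) •
      (Module.finBasis k (Λ.V.V x)).coord i := by
    refine (Module.finBasis k (Λ.V.V x)).ext fun j => ?_
    rw [LinearMap.sum_apply, Finset.sum_eq_single j]
    · simp
    · intro i _ hi
      simp [Finsupp.single_eq_of_ne hi]
    · simp
  conv_rhs => rw [h, map_sum]
  unfold phiLift
  rw [Preadditive.sum_comp]
  refine Finset.sum_congr rfl fun i _ => ?_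
  rw [Category.assoc, phiMk_phiEv, map_smul, Linear.comp_smul, Category.comp_id]

end ev

section psi

variable {k : Type w₀} [Field k] {Q : Type u} [Category.{v} Q] [Preadditive Q] [Linear k Q]
variable {C : Type u'} [Category.{v'} C] [Abelian C] [Linear k C]
variable (Λ : LamData.{w} k Q)

variable (C) in
/-- the functor `Ψ N = coker (N(s') : N_b → N_f)` -/
noncomputable def psi : LinFun k Q C ⥤ C where
  obj N := cokernel (N.obj.map Λ.s')
  map {N N'} f := cokernel.map _ _ ((ev Λ.b).map f) ((ev Λ.f).map f) (f.hom.naturality _)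
  map_id N := by
    rw [← cancel_epi (cokernel.π _)]
    rw [cokernel.π_desc, CategoryTheory.Functor.map_id, Category.comp_id]
    exact Category.id_comp _
  map_comp f g := by
    rw [← cancel_epi (cokernel.π _), cokernel.π_desc, cokernel.π_desc_assoc, Category.assoc,
      cokernel.π_desc, Functor.map_comp, Category.assoc]

/-- the projection `N_f → Ψ N` -/
noncomputable def psiPi (N : LinFun k Q C) : N.obj.obj Λ.f ⟶ (psi C Λ).obj N :=
  cokernel.π (N.obj.map Λ.s')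

instance (N : LinFun k Q C) : Epi (psiPi Λ N) :=
  inferInstanceAs (Epi (cokernel.π (N.obj.map Λ.s')))

@[reassoc (attr := simp)]
lemma map_s'_psiPi (N : LinFun k Q C) : N.obj.map Λ.s' ≫ psiPi Λ N = 0 :=
  cokernel.condition _

@[reassoc (attr := simp)]
lemma psiPi_map {N N' : LinFun k Q C} (f : N ⟶ N') :
    psiPi Λ N ≫ (psi C Λ).map f = (ev Λ.f).map f ≫ psiPi Λ N' :=
  cokernel.π_desc _ _ _

/-- the universal property of `Ψ N` -/
noncomputable def psiDesc {N : LinFun k Q C} {c : C} (g : N.obj.obj Λ.f ⟶ c)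
    (h : N.obj.map Λ.s' ≫ g = 0) : (psi C Λ).obj N ⟶ c := cokernel.desc _ g h

@[reassoc (attr := simp)]
lemma psiPi_psiDesc {N : LinFun k Q C} {c : C} (g : N.obj.obj Λ.f ⟶ c)
    (h : N.obj.map Λ.s' ≫ g = 0) : psiPi Λ N ≫ psiDesc Λ g h = g :=
  cokernel.π_desc _ _ _

variable {Λ} in
lemma psi_ext {N : LinFun k Q C} {c : C} {g g' : (psi C Λ).obj N ⟶ c}
    (h : psiPi Λ N ≫ g = psiPi Λ N ≫ g') : g = g' := (cancel_epi (psiPi Λ N)).1 h

instance : (psi C Λ).Additive where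
  map_add {N N' f g} := psi_ext (by
    rw [psiPi_map, Functor.map_add, Preadditive.add_comp, Preadditive.comp_add, psiPi_map,
      psiPi_map])

instance : (psi C Λ).Linear k where
  map_smul {N N'} f r := psi_ext (by
    rw [psiPi_map, Functor.map_smul, Linear.smul_comp, Linear.comp_smul, psiPi_map])

end psi

section adj

variable {k : Type w₀} [Field k] {Q : Type u} [Category.{v} Q] [Preadditive Q] [Linear k Q]
variable {C : Type u'} [Category.{v'} C] [Abelian C] [Linear k C]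
variable (Λ : LamData.{w} k Q)

/-- `N(q) ≫ g` depends only on the linear form `lam ∘ V(q)` -/
lemma psi_wd {N : LinFun k Q C} {c : C} {g : N.obj.obj Λ.f ⟶ c}
    (h : N.obj.map Λ.s' ≫ g = 0) {y : Q} {q q' : y ⟶ Λ.f}
    (hq : ∀ w : Λ.V.V y, Λ.lam (Λ.V.map q w) = Λ.lam (Λ.V.map q' w)) :
    N.obj.map q ≫ g = N.obj.map q' ≫ g := by
  obtain ⟨p, hp⟩ := Λ.exF' y (q - q') fun w => by
    have h1 : Λ.V.map q = Λ.V.map (q - q') + Λ.V.map q' := by
      rw [← Λ.V.map_add, sub_add_cancel]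
    have h2 := hq w
    rw [h1, LinearMap.add_apply, map_add] at h2
    exact add_eq_right.1 h2
  rw [← sub_eq_zero, ← Preadditive.sub_comp, ← Functor.map_sub, ← hp, Functor.map_comp,
    Category.assoc, h, comp_zero]

/-- the linear form `lam ∘ V(q)` -/
def lamV {y : Q} (q : y ⟶ Λ.f) : Λ.V.V y →ₗ[k] k := Λ.lam ∘ₗ Λ.V.map q

lemma lamV_apply {y : Q} (q : y ⟶ Λ.f) (w : Λ.V.V y) : lamV Λ q w = Λ.lam (Λ.V.map q w) := rfl

lemma exists_lamV {y : Q} (ξ : Λ.V.V y →ₗ[k] k) : ∃ q : y ⟶ Λ.f, lamV Λ q = ξ := by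
  obtain ⟨q, hq⟩ := Λ.exV' y ξ
  exact ⟨q, LinearMap.ext fun w => (hq w).symm⟩

lemma psi_wd' {N : LinFun k Q C} {c : C} {g : N.obj.obj Λ.f ⟶ c}
    (h : N.obj.map Λ.s' ≫ g = 0) {y : Q} {q q' : y ⟶ Λ.f} (hq : lamV Λ q = lamV Λ q') :
    N.obj.map q ≫ g = N.obj.map q' ≫ g :=
  psi_wd Λ h fun w => LinearMap.congr_fun hq w

lemma lamV_add {y : Q} (q q' : y ⟶ Λ.f) : lamV Λ (q + q') = lamV Λ q + lamV Λ q' := by
  ext w
  rw [lamV_apply, Λ.V.map_add, LinearMap.add_apply, map_add]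
  rfl

lemma lamV_smul {y : Q} (r : k) (q : y ⟶ Λ.f) : lamV Λ (r • q) = r • lamV Λ q := by
  ext w
  rw [lamV_apply, Λ.V.map_smul]
  exact map_smul Λ.lam r _

lemma lamV_comp {x y : Q} (p : x ⟶ y) (q : y ⟶ Λ.f) :
    lamV Λ (p ≫ q) = lamV Λ q ∘ₗ Λ.V.map p := by
  ext w
  rw [lamV_apply, Λ.V.map_comp]
  rfl

lemma lamV_id : lamV Λ (𝟙 Λ.f) = Λ.lam := by
  ext w
  rw [lamV_apply, Λ.V.map_id]
  rfl

/-- the map `V_y^* → Hom(N_y, c)` given by `g : N_f → c` -/
noncomputable def psiTheta {N : LinFun k Q C} {c : C} (g : N.obj.obj Λ.f ⟶ c)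
    (h : N.obj.map Λ.s' ≫ g = 0) (y : Q) : (Λ.V.V y →ₗ[k] k) →ₗ[k] (N.obj.obj y ⟶ c) where
  toFun ξ := N.obj.map (exists_lamV Λ ξ).choose ≫ g
  map_add' ξ ξ' := by
    rw [← Preadditive.add_comp, ← Functor.map_add]
    refine psi_wd' Λ h ?_
    rw [lamV_add, (exists_lamV Λ ξ).choose_spec, (exists_lamV Λ ξ').choose_spec,
      (exists_lamV Λ (ξ + ξ')).choose_spec]
  map_smul' r ξ := by
    rw [RingHom.id_apply, ← Linear.smul_comp, ← Functor.map_smul]
    refine psi_wd' Λ h ?_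
    rw [lamV_smul, (exists_lamV Λ ξ).choose_spec, (exists_lamV Λ (r • ξ)).choose_spec]

lemma psiTheta_lamV {N : LinFun k Q C} {c : C} (g : N.obj.obj Λ.f ⟶ c)
    (h : N.obj.map Λ.s' ≫ g = 0) {y : Q} (q : y ⟶ Λ.f) :
    psiTheta Λ g h y (lamV Λ q) = N.obj.map q ≫ g :=
  psi_wd' Λ h (exists_lamV Λ (lamV Λ q)).choose_spec

/-- the morphism `N → Φ c` given by `g : N_f → c` which is zero on the image of `N_b` -/
noncomputable def psiHom {N : LinFun k Q C} {c : C} (g : N.obj.obj Λ.f ⟶ c)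
    (h : N.obj.map Λ.s' ≫ g = 0) : N ⟶ (phi C Λ).obj c :=
  ObjectProperty.homMk
    { app := fun y => phiLift Λ (psiTheta Λ g h y)
      naturality := fun x y p => by
        refine phiEv_ext fun ξ => ?_
        obtain ⟨q, rfl⟩ := exists_lamV Λ ξ
        rw [Category.assoc, Category.assoc, phiLift_phiEv, phi_map_phiEv, phiLift_phiEv,
          psiTheta_lamV, ← lamV_comp, psiTheta_lamV, Functor.map_comp, Category.assoc] }

@[reassoc]
lemma psiHom_phiEv {N : LinFun k Q C} {c : C} (g : N.obj.obj Λ.f ⟶ c)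
    (h : N.obj.map Λ.s' ≫ g = 0) {y : Q} (q : y ⟶ Λ.f) :
    (ev y).map (psiHom Λ g h) ≫ phiEv Λ c (lamV Λ q) = N.obj.map q ≫ g :=
  (phiLift_phiEv Λ _ _).trans (psiTheta_lamV Λ g h q)

lemma psi_hom_ext {N : LinFun k Q C} {c : C} {F G : N ⟶ (phi C Λ).obj c}
    (h : (ev Λ.f).map F ≫ phiEv Λ c Λ.lam = (ev Λ.f).map G ≫ phiEv Λ c Λ.lam) : F = G := by
  refine hom_ext' _ _ fun y => phiEv_ext fun ξ => ?_
  obtain ⟨q, rfl⟩ := exists_lamV Λ ξ
  have key : ∀ F : N ⟶ (phi C Λ).obj c, (ev y).map F ≫ phiEv Λ c (lamV Λ q) =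
      N.obj.map q ≫ (ev Λ.f).map F ≫ phiEv Λ c Λ.lam := by
    intro F
    have h1 : phiEv Λ c (lamV Λ q) = ((phi C Λ).obj c).obj.map q ≫ phiEv Λ c Λ.lam :=
      (phi_map_phiEv Λ c q Λ.lam).symm
    rw [h1, ← Category.assoc, ← map_ev, Category.assoc]
  rw [key, key, h]

lemma psiHom_lam {N : LinFun k Q C} {c : C} (g : N.obj.obj Λ.f ⟶ c)
    (h : N.obj.map Λ.s' ≫ g = 0) : (ev Λ.f).map (psiHom Λ g h) ≫ phiEv Λ c Λ.lam = g := by
  have h1 := psiHom_phiEv Λ g h (𝟙 Λ.f)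
  rw [lamV_id, CategoryTheory.Functor.map_id, Category.id_comp] at h1
  exact h1

lemma map_s'_ev {N : LinFun k Q C} {c : C} (F : N ⟶ (phi C Λ).obj c) :
    N.obj.map Λ.s' ≫ (ev Λ.f).map F ≫ phiEv Λ c Λ.lam = 0 := by
  rw [← Category.assoc, map_ev, Category.assoc, phi_map_phiEv]
  have : Λ.lam ∘ₗ Λ.V.map Λ.s' = 0 := LinearMap.ext fun w => Λ.s'_lam w
  have h0 : phiEv Λ c (x := Λ.b) 0 = 0 := phi_ext Λ fun w => by
    rw [phiMk_phiEv, comp_zero, LinearMap.zero_apply, zero_smul]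
  rw [this, h0, comp_zero]

variable (C) in
/-- **`Ψ` is left adjoint to `Φ`.** -/
noncomputable def psiAdj : psi C Λ ⊣ phi C Λ :=
  Adjunction.mkOfHomEquiv
    { homEquiv := fun N c =>
        { toFun := fun g => psiHom Λ (psiPi Λ N ≫ g) (by rw [map_s'_psiPi_assoc, zero_comp])
          invFun := fun F => psiDesc Λ ((ev Λ.f).map F ≫ phiEv Λ c Λ.lam) (map_s'_ev Λ F)
          left_inv := fun g => psi_ext (by rw [psiPi_psiDesc, psiHom_lam])
          right_inv := fun F => psi_hom_ext Λ (by rw [psiHom_lam, psiPi_psiDesc]) }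
      homEquiv_naturality_left_symm := fun {N N' c} f g => psi_ext (by
        change psiPi Λ N ≫ psiDesc Λ _ _ = psiPi Λ N ≫ (psi C Λ).map f ≫ psiDesc Λ _ _
        rw [psiPi_psiDesc, ← Category.assoc, psiPi_map, Category.assoc, psiPi_psiDesc,
          Functor.map_comp, Category.assoc])
      homEquiv_naturality_right := fun {N c c'} f g => psi_hom_ext Λ (by
        change (ev Λ.f).map (psiHom Λ _ _) ≫ _ =
          (ev Λ.f).map (psiHom Λ _ _ ≫ (phi C Λ).map g) ≫ _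
        rw [psiHom_lam, Functor.map_comp, Category.assoc, ev_phi_map_phiEv, ← Category.assoc,
          ← Category.assoc, psiHom_lam]) }

lemma psiAdj_homEquiv {N : LinFun k Q C} {c : C} (g : (psi C Λ).obj N ⟶ c) :
    (psiAdj C Λ).homEquiv N c g =
      psiHom Λ (psiPi Λ N ≫ g) (by rw [map_s'_psiPi_assoc, zero_comp]) := by
  simp [psiAdj]

lemma psiAdj_homEquiv_symm {N : LinFun k Q C} {c : C} (F : N ⟶ (phi C Λ).obj c) :
    ((psiAdj C Λ).homEquiv N c).symm F =
      psiDesc Λ ((ev Λ.f).map F ≫ phiEv Λ c Λ.lam) (map_s'_ev Λ F) := by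
  simp [psiAdj]

@[reassoc]
lemma psiAdj_unit_phiEv (N : LinFun k Q C) {y : Q} (q : y ⟶ Λ.f) :
    (ev y).map ((psiAdj C Λ).unit.app N) ≫ phiEv Λ ((psi C Λ).obj N) (lamV Λ q) =
      N.obj.map q ≫ psiPi Λ N := by
  have h := psiAdj_homEquiv Λ (𝟙 ((psi C Λ).obj N))
  rw [Adjunction.homEquiv_id] at h
  rw [h, psiHom_phiEv]
  exact congrArg (N.obj.map q ≫ ·) (Category.comp_id (psiPi Λ N))

@[reassoc]
lemma psiPi_counit (c : C) :
    psiPi Λ ((phi C Λ).obj c) ≫ (psiAdj C Λ).counit.app c = phiEv Λ c Λ.lam := by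
  have h := psiAdj_homEquiv_symm Λ (𝟙 ((phi C Λ).obj c))
  rw [Adjunction.homEquiv_counit, CategoryTheory.Functor.map_id] at h
  have h2 : (psiAdj C Λ).counit.app c = psiDesc Λ ((ev Λ.f).map (𝟙 ((phi C Λ).obj c)) ≫
      phiEv Λ c Λ.lam) (map_s'_ev Λ _) := (Category.id_comp _).symm.trans h
  rw [h2, psiPi_psiDesc, CategoryTheory.Functor.map_id]
  exact Category.id_comp _

end adj

section ind

variable {k : Type w₀} [Field k] {Q : Type u} [Category.{v} Q] [Preadditive Q] [Linear k Q]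
variable {C : Type u'} [Category.{v'} C] [Abelian C] [Linear k C]
variable (Λ : LamData.{w} k Q)
variable {E : Type*} [Field E] [Algebra k E]

section tens

variable (M : ModObj k E C) {V V' : Type w} [AddCommGroup V] [Module E V] [Module.Finite E V]
  [AddCommGroup V'] [Module E V'] [Module.Finite E V'] (g : V →ₗ[E] V')

/-- the projection `M ⊗ V' → M ⊗ coker g` -/
noncomputable abbrev tcok : tens M V' ⟶ tens M (V' ⧸ LinearMap.range g) :=
  tmap M (LinearMap.range g).mkQ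

@[reassoc]
lemma tmap_tcok : tmap M g ≫ tcok M g = 0 := by
  rw [← tmap_comp, ← tmap_zero M (V := V) (W := V' ⧸ LinearMap.range g)]
  congr 1
  exact LinearMap.range_mkQ_comp g

omit [Module.Finite E V] in
lemma tcok_ext {Z : C} {a b : tens M (V' ⧸ LinearMap.range g) ⟶ Z}
    (h : tcok M g ≫ a = tcok M g ≫ b) : a = b := by
  refine tens_ext M fun v => ?_
  obtain ⟨v, rfl⟩ := (LinearMap.range g).mkQ_surjective v
  rw [← tmk_tmap, Category.assoc, Category.assoc, h]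

/-- the universal property of `M ⊗ coker g` -/
noncomputable def tcokDesc {Z : C} (h : tens M V' ⟶ Z) : tens M (V' ⧸ LinearMap.range g) ⟶ Z :=
  tmap M (LinearMap.exists_rightInverse_of_surjective (LinearMap.range g).mkQ
    (LinearMap.range g).range_mkQ).choose ≫ h

@[reassoc]
lemma tcok_tcokDesc {Z : C} (h : tens M V' ⟶ Z) (h0 : tmap M g ≫ h = 0) :
    tcok M g ≫ tcokDesc M g h = h := by
  refine tens_ext M fun v => ?_
  unfold tcokDesc
  rw [tmk_tmap_assoc, tmk_tmap_assoc]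
  set σ := (LinearMap.exists_rightInverse_of_surjective (LinearMap.range g).mkQ
    (LinearMap.range g).range_mkQ).choose with hσ
  have h1 : (LinearMap.range g).mkQ ∘ₗ σ = LinearMap.id :=
    (LinearMap.exists_rightInverse_of_surjective (LinearMap.range g).mkQ
      (LinearMap.range g).range_mkQ).choose_spec
  have h2 : (LinearMap.range g).mkQ (σ ((LinearMap.range g).mkQ v) - v) = 0 := by
    rw [map_sub, sub_eq_zero]
    exact LinearMap.congr_fun h1 _
  rw [← LinearMap.mem_ker, Submodule.ker_mkQ] at h2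
  obtain ⟨u, hu⟩ := h2
  have h3 : tmk M (σ ((LinearMap.range g).mkQ v)) = tmk M v + tmk M (g u) := by
    rw [← tmk_add, hu, add_sub_cancel]
  rw [h3, Preadditive.add_comp, ← tmk_tmap, Category.assoc, h0, comp_zero, add_zero]

end tens

variable (i : SingleObj E ⥤ Q) [i.Additive] [i.Linear k] [∀ y, Module.Finite E (HomL i y)]

/-- the cokernel of `Q(x, b) → Q(x, f)`, where `x` is the base object -/
abbrev psiW : Type v := HomL i Λ.f ⧸ LinearMap.range ((repL (k := k) i).map Λ.s')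

/-- the projection `(ind M)_f → M ⊗ W` -/
noncomputable def icok (M : ModObj k E C) :
    ((ind C i).obj M).obj.obj Λ.f ⟶ tens M (psiW Λ i) :=
  tcok M ((repL (k := k) i).map Λ.s')

lemma map_s'_icok (M : ModObj k E C) : ((ind C i).obj M).obj.map Λ.s' ≫ icok Λ i M = 0 :=
  tmap_tcok M ((repL (k := k) i).map Λ.s')

variable {Λ i} in
lemma icok_ext {M : ModObj k E C} {Z : C} {a b : tens M (psiW Λ i) ⟶ Z}
    (h : icok Λ i M ≫ a = icok Λ i M ≫ b) : a = b :=
  tcok_ext M ((repL (k := k) i).map Λ.s') h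

/-- the universal property of `M ⊗ W` -/
noncomputable def icokDesc {M : ModObj k E C} {Z : C}
    (h : ((ind C i).obj M).obj.obj Λ.f ⟶ Z) : tens M (psiW Λ i) ⟶ Z :=
  tcokDesc M ((repL (k := k) i).map Λ.s') h

lemma icok_icokDesc {M : ModObj k E C} {Z : C} (h : ((ind C i).obj M).obj.obj Λ.f ⟶ Z)
    (h0 : ((ind C i).obj M).obj.map Λ.s' ≫ h = 0) : icok Λ i M ≫ icokDesc Λ i h = h :=
  tcok_tcokDesc M ((repL (k := k) i).map Λ.s') h h0

lemma ind_map_icok {M M' : ModObj k E C} (f : M ⟶ M') :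
    (ev Λ.f).map ((ind C i).map f) ≫ icok Λ i M' = icok Λ i M ≫ tmapL (psiW Λ i) f :=
  (tmap_tmapL f (LinearMap.range ((repL (k := k) i).map Λ.s')).mkQ).symm

/-- the isomorphism `Ψ (ind M) = M ⊗ W` -/
noncomputable def indPsiIso (M : ModObj k E C) :
    (psi C Λ).obj ((ind C i).obj M) ≅ tens M (psiW Λ i) where
  hom := psiDesc Λ (icok Λ i M) (map_s'_icok Λ i M)
  inv := icokDesc Λ i (psiPi Λ ((ind C i).obj M))
  hom_inv_id := psi_ext (by
    rw [← Category.assoc, psiPi_psiDesc, icok_icokDesc _ _ _ (map_s'_psiPi _ _),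
      Category.comp_id])
  inv_hom_id := icok_ext (by
    rw [← Category.assoc, icok_icokDesc _ _ _ (map_s'_psiPi _ _), psiPi_psiDesc,
      Category.comp_id])

lemma psiPi_indPsiIso_hom (M : ModObj k E C) :
    psiPi Λ ((ind C i).obj M) ≫ (indPsiIso Λ i M).hom = icok Λ i M :=
  psiPi_psiDesc Λ _ _

variable (C) in
/-- **`Ψ (ind M) = M ⊗ W` naturally in `M`** -/
noncomputable def indPsi : ind C i ⋙ psi C Λ ≅ tensL k E C (psiW Λ i) :=
  NatIso.ofComponents (fun M => indPsiIso Λ i M) (fun {M M'} f => psi_ext (by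
    change psiPi Λ _ ≫ (psi C Λ).map ((ind C i).map f) ≫ (indPsiIso Λ i M').hom =
      psiPi Λ _ ≫ (indPsiIso Λ i M).hom ≫ tmapL (psiW Λ i) f
    rw [← Category.assoc, psiPi_map, Category.assoc, psiPi_indPsiIso_hom, ← Category.assoc,
      psiPi_indPsiIso_hom, ind_map_icok]))

variable (C) in
theorem ind_psi : ∃ (W : Type v) (_ : AddCommGroup W) (_ : Module E W) (_ : Module.Finite E W),
    Nonempty (ind C i ⋙ psi C Λ ≅ tensL k E C W) :=
  ⟨psiW Λ i, inferInstance, inferInstance, inferInstance, ⟨indPsi C Λ i⟩⟩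

instance : PreservesFiniteLimits (ind C i ⋙ psi C Λ) :=
  preservesFiniteLimits_of_natIso (indPsi C Λ i).symm

instance : PreservesFiniteColimits (ind C i ⋙ psi C Λ) :=
  preservesFiniteColimits_of_natIso (indPsi C Λ i).symm

end ind

end Orl.LF
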