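import Pool.Agent.Work.MP_a6e60d_ag.LF.AbsQ
import Pool.Agent.Work.MP_a6e60d_ag.LF.Blk
import Pool.Agent.Work.MP_a6e60d_ag.LF.PhiExt
import Pool.Agent.Work.MP_a6e60d_ag.LF.PhiGen
import Pool.Agent.Work.MP_a6e60d_ag.LF.Psi
import Pool.Agent.Work.MP_a6e60d_ag.LF.ExtComp

/-!
# Theorem A for the data `D : Dat k F L` and the blocks `ta`, `tb`, `tf`
-/

open CategoryTheory CochainComplex.HomComplex Limits Pretriangulated Abelian DerivedCategory

attribute [-instance] CategoryTheory.catToReflQuiver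

namespace Orl.LF

open Orl.Gal

universe t t' w₁ w₂ w₃ w₄ v₁ v₂ u₁ u₂

attribute [local instance] Abelian.hasFiniteBiproducts

section unit

variable {C : Type u₁} [Category.{v₁} C] [Abelian C] {A : Type u₂} [Category.{v₂} A] [Abelian A]
  {Ψ : A ⥤ C} {Φ : C ⥤ A} [Ψ.Additive] [Φ.Additive] (adj : Ψ ⊣ Φ)
  [PreservesFiniteLimits Φ] [PreservesFiniteColimits Φ]
  [HasDerivedCategory.{t} C] [HasDerivedCategory.{t'} A]

lemma isIso_dUnit_shift {P : CochainComplex A ℤ}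
    (h : IsIso ((dUnit adj).app ((HomotopyCategory.quotient A (ComplexShape.up ℤ)).obj P)))
    (n : ℤ) :
    IsIso ((dUnit adj).app ((HomotopyCategory.quotient A (ComplexShape.up ℤ)).obj (P⟦n⟧))) := by
  let P' := (HomotopyCategory.quotient A (ComplexShape.up ℤ)).obj P
  have h1 : IsIso ((dUnit adj).app (P'⟦n⟧)) := by
    rw [NatTrans.app_shift]
    infer_instance
  exact (NatTrans.isIso_app_iff_of_iso (dUnit adj)
    ((HomotopyCategory.quotient A (ComplexShape.up ℤ)).commShiftIso n |>.app P)).2 h1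

end unit

section iso

variable {A : Type u₂} [Category.{v₂} A] [Abelian A] [HasExt.{w₂} A]

lemma ext_precomp_bijective {X Y : A} (e : X ≅ Y) (Z : A) (n : ℕ) :
    Function.Bijective (fun x : Ext.{w₂} Y Z n => (Ext.mk₀ e.hom).comp x (zero_add n)) := by
  refine ⟨fun x y h => ?_, fun y => ⟨(Ext.mk₀ e.inv).comp y (zero_add n), ?_⟩⟩
  · have h1 := congrArg (fun z : Ext.{w₂} X Z n => (Ext.mk₀ e.inv).comp z (zero_add n)) h
    simpa using h1
  · simp

variable {C : Type u₁} [Category.{v₁} C] [Abelian C] [HasExt.{w₁} C]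
  {Ψ : A ⥤ C} {Φ : C ⥤ A} [Ψ.Additive] [Φ.Additive] (adj : Ψ ⊣ Φ)
  [PreservesFiniteLimits Φ] [PreservesFiniteColimits Φ]

omit [Ψ.Additive] in
lemma unit_bijective_of_iso {X Y : A} (e : X ≅ Y) (c : C) (n : ℕ)
    (h : Function.Bijective (fun x : Ext.{w₁} (Ψ.obj Y) c n =>
      ((Ext.mk₀ (adj.unit.app Y)).comp (x.mapExactFunctor Φ : Ext.{w₂} _ _ n) (zero_add n) :
        Ext.{w₂} Y (Φ.obj c) n))) :
    Function.Bijective (fun x : Ext.{w₁} (Ψ.obj X) c n =>
      ((Ext.mk₀ (adj.unit.app X)).comp (x.mapExactFunctor Φ : Ext.{w₂} _ _ n) (zero_add n) :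
        Ext.{w₂} X (Φ.obj c) n)) := by
  rw [← (ext_precomp_bijective (Ψ.mapIso e) c n).of_comp_iff]
  have h1 : ((fun x : Ext.{w₁} (Ψ.obj X) c n =>
      ((Ext.mk₀ (adj.unit.app X)).comp (x.mapExactFunctor Φ : Ext.{w₂} _ _ n) (zero_add n) :
        Ext.{w₂} X (Φ.obj c) n)) ∘ (fun x : Ext.{w₁} (Ψ.obj Y) c n =>
          (Ext.mk₀ (Ψ.mapIso e).hom).comp x (zero_add n))) =
      (fun x : Ext.{w₂} Y (Φ.obj c) n => (Ext.mk₀ e.hom).comp x (zero_add n)) ∘
      (fun x : Ext.{w₁} (Ψ.obj Y) c n =>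
      ((Ext.mk₀ (adj.unit.app Y)).comp (x.mapExactFunctor Φ : Ext.{w₂} _ _ n) (zero_add n) :
        Ext.{w₂} Y (Φ.obj c) n)) := by
    funext x
    change (Ext.mk₀ (adj.unit.app X)).comp
      (((Ext.mk₀ (Ψ.map e.hom)).comp x (zero_add n)).mapExactFunctor Φ) (zero_add n) =
      (Ext.mk₀ e.hom).comp ((Ext.mk₀ (adj.unit.app Y)).comp (x.mapExactFunctor Φ) (zero_add n))
        (zero_add n)
    rw [Ext.mapExactFunctor_comp, Ext.mapExactFunctor_mk₀, Ext.mk₀_comp_mk₀_assoc,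
      Ext.mk₀_comp_mk₀_assoc]
    congr 2
    exact (adj.unit.naturality e.hom).symm
  rw [h1]
  exact (ext_precomp_bijective e _ n).comp h

variable [HasDerivedCategory.{t} C] [HasDerivedCategory.{t'} A] {B : ObjectProperty A}

/-- **The abstract statement**: `Ψ P = G ⊕ G[1]` in the derived category and the unit is an
isomorphism at `P`, if `P = Φ G ⊕ Φ G [1]` in the derived category. -/
theorem abs_iso (hΦ : ∀ (c c' : C) (n : ℕ), Function.Bijective (fun x : Ext.{w₁} c c' n =>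
      (x.mapExactFunctor Φ : Ext.{w₂} _ _ n)))
    (hΨ : ∀ X, B X → ∀ (c : C) (n : ℕ), Function.Bijective
      (fun x : Ext.{w₁} (Ψ.obj X) c n =>
        ((Ext.mk₀ (adj.unit.app X)).comp (x.mapExactFunctor Φ : Ext.{w₂} _ _ n) (zero_add n) :
          Ext.{w₂} X (Φ.obj c) n)))
    {P : CochainComplex A ℤ} (hP : Tw B P) (G : C)
    (φ : Nonempty (Q.obj P ≅ (singleFunctor A 0).obj (Φ.obj G) ⊞
      ((singleFunctor A 0).obj (Φ.obj G))⟦(1 : ℤ)⟧)) :
    Nonempty (Q.obj ((Ψ.mapHomologicalComplex (ComplexShape.up ℤ)).obj P) ≅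
      (singleFunctor C 0).obj G ⊞ ((singleFunctor C 0).obj G)⟦(1 : ℤ)⟧) ∧
    IsIso ((dUnit adj).app ((HomotopyCategory.quotient A (ComplexShape.up ℤ)).obj P)) := by
  obtain ⟨φ⟩ := φ
  let G' := (singleFunctor C 0).obj G ⊞ ((singleFunctor C 0).obj G)⟦(1 : ℤ)⟧
  have hG' : hull.{t} C G' :=
    ObjectProperty.ext_of_isTriangulatedClosed₂ _ _
      (binaryBiproductTriangle_distinguished ((singleFunctor C 0).obj G)
        (((singleFunctor C 0).obj G)⟦(1 : ℤ)⟧)) (hull_single G)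
        ((hull.{t} C).le_shift (1 : ℤ) _ (hull_single G))
  have hb : PreservesBinaryBiproduct ((singleFunctor C 0).obj G)
      (((singleFunctor C 0).obj G)⟦(1 : ℤ)⟧) Φ.mapDerivedCategory :=
    (preservesBinaryBiproducts_of_preservesBiproducts Φ.mapDerivedCategory).preserves
  let e : Φ.mapDerivedCategory.obj G' ≅ (singleFunctor A 0).obj (Φ.obj G) ⊞
      ((singleFunctor A 0).obj (Φ.obj G))⟦(1 : ℤ)⟧ :=
    Φ.mapDerivedCategory.mapBiprod _ _ ≪≫ biprod.mapIso
      ((Φ.mapDerivedCategorySingleFunctor 0).app G) (phiShift Φ G 1)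
  let ψ : Qh.obj ((HomotopyCategory.quotient A (ComplexShape.up ℤ)).obj P) ≅
      Φ.mapDerivedCategory.obj G' := φ ≪≫ e.symm
  obtain ⟨f, hf⟩ := exists_iso_of_tw adj hΦ hΨ hP hG' ψ
  refine ⟨⟨f⟩, ?_⟩
  have h1 : (dUnit adj).app ((HomotopyCategory.quotient A (ComplexShape.up ℤ)).obj P) =
      (ψ ≪≫ (Φ.mapDerivedCategory.mapIso f).symm).hom :=
    (Iso.eq_comp_inv (Φ.mapDerivedCategory.mapIso f)).2 hf
  rw [h1]
  exact Iso.isIso_hom _

end iso

variable {k F L : Type} [Field k] [Field F] [Field L] [Algebra k F] [Algebra k L] (D : Dat k F L)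
  {C : Type 1} [Category.{0} C] [Abelian C] [Linear k C]

/-- The derived comparison for the blocks. -/
theorem blk_unit_bij [HasExt.{w₁} C] [HasExt.{w₂} (LinFun k (Ob D) C)]
    {ιa ιb ιf : Type*} (ta : ιa → ModObj k F C) (tb : ιb → ModObj k L C)
    (tf : ιf → ModObj k F C) (X : LinFun k (Ob D) C) (hX : Blk D ta tb tf X) (c : C) (n : ℕ) :
    Function.Bijective (fun x : Ext.{w₁} ((psi C (Ob.lamData D)).obj X) c n =>
      ((Ext.mk₀ ((psiAdj C (Ob.lamData D)).unit.app X)).comp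
        (x.mapExactFunctor (phi C (Ob.lamData D)) : Ext.{w₂} _ _ n) (zero_add n) :
          Ext.{w₂} X ((phi C (Ob.lamData D)).obj c) n)) := by
  obtain ⟨s, ⟨e⟩⟩ := hX
  refine unit_bijective_of_iso (psiAdj C (Ob.lamData D)) e c n ?_
  rcases s with x | x | x
  · have := HasExt.standard (ModObj k F C)
    exact ext_unit_bijective (ind C (Ob.ia D)) (res C (Ob.ia D)) (indAdj C (Ob.ia D))
      (psi C (Ob.lamData D)) (phi C (Ob.lamData D)) (psiAdj C (Ob.lamData D)) (ta x) c n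
  · have := HasExt.standard (ModObj k L C)
    exact ext_unit_bijective (ind C (Ob.ib D)) (res C (Ob.ib D)) (indAdj C (Ob.ib D))
      (psi C (Ob.lamData D)) (phi C (Ob.lamData D)) (psiAdj C (Ob.lamData D)) (tb x) c n
  · have := HasExt.standard (ModObj k F C)
    exact ext_unit_bijective (ind C (Ob.iff D)) (res C (Ob.iff D)) (indAdj C (Ob.iff D))
      (psi C (Ob.lamData D)) (phi C (Ob.lamData D)) (psiAdj C (Ob.lamData D)) (tf x) c n

section final

variable [HasDerivedCategory.{t'} (LinFun k (Ob D) C)] {ιa ιb ιf : Type*}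
  (ta : ιa → ModObj k F C) (tb : ιb → ModObj k L C) (tf : ιf → ModObj k F C)

omit [HasDerivedCategory.{t'} (LinFun k (Ob D) C)] in
lemma Blk_nonempty (h : Nonempty (ιa ⊕ ιb ⊕ ιf)) : (Blk D ta tb tf).Nonempty := by
  obtain ⟨s⟩ := h
  exact ⟨_, blk_mem D ta tb tf s⟩

/-- `Φ G` is in the thick subcategory generated by the blocks. -/
theorem phi_mem [FiniteDimensional k F] [FiniteDimensional k L]
    (h : Nonempty (ιa ⊕ ιb ⊕ ιf)) (G : C)
    (ga : Orl.Q.InThk ta ((indC k C F).obj G)) (gb : Orl.Q.InThk tb ((indC k C L).obj G))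
    (gf : Orl.Q.InThk tf ((indC k C F).obj G)) :
    (sgl.{t'} (Blk D ta tb tf)).triangEnvelope
      ((singleFunctor (LinFun k (Ob D) C) 0).obj ((phi C (Ob.lamData D)).obj G)) := by
  have := Blk_nonempty D ta tb tf h
  let P := (sgl.{t'} (Blk D ta tb tf)).triangEnvelope.inverseImage
    (singleFunctor (LinFun k (Ob D) C) 0)
  have hP : Orl.Q.Thk P := Orl.Q.Thk.ofDerived _
  have hmem : ∀ s, P (blk D ta tb tf s) := fun s =>
    ObjectProperty.le_triangEnvelope _ _ (sgl_single (blk_mem D ta tb tf s))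
  exact phi_gen (Ob.lamData D) (Ob.ia D) (Ob.ib D) (Ob.iff D) rfl rfl rfl P hP G
    (ga.map (ind C (Ob.ia D)) P hP fun i => hmem (.inl i))
    (gb.map (ind C (Ob.ib D)) P hP fun i => hmem (.inr (.inl i)))
    (gf.map (ind C (Ob.iff D)) P hP fun i => hmem (.inr (.inr i)))

variable [Algebra.IsSeparable k F] [Algebra.IsSeparable k L]
variable [HasExt.{w₁} C] [HasExt.{w₃} (ModObj k F C)] [HasExt.{w₄} (ModObj k L C)]

/-- The hypotheses on the extensions between the modules of the three families. -/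
structure ExtHyp : Prop where
  haa : ∀ x y, ∀ n : ℕ, 0 < n → Subsingleton (Ext.{w₃} (ta x) (ta y) n)
  hbb : ∀ x y, ∀ n : ℕ, 0 < n → Subsingleton (Ext.{w₄} (tb x) (tb y) n)
  hff : ∀ x y, ∀ n : ℕ, 0 < n → Subsingleton (Ext.{w₃} (tf x) (tf y) n)
  hba : ∀ x y, ∀ n : ℕ, 0 < n → Subsingleton (Ext.{w₁} (tb x).pt (ta y).pt n)
  hfa : ∀ x y, ∀ n : ℕ, 0 < n → Subsingleton (Ext.{w₁} (tf x).pt (ta y).pt n)
  hfb : ∀ x y, ∀ n : ℕ, 0 < n → Subsingleton (Ext.{w₁} (tf x).pt (tb y).pt n)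

/-- **Existence of `P`.** -/
theorem exists_P [FiniteDimensional k F] [FiniteDimensional k L]
    (h : Nonempty (ιa ⊕ ιb ⊕ ιf)) (hE : ExtHyp.{w₁, w₃, w₄} ta tb tf) (G : C)
    (ga : Orl.Q.InThk ta ((indC k C F).obj G)) (gb : Orl.Q.InThk tb ((indC k C L).obj G))
    (gf : Orl.Q.InThk tf ((indC k C F).obj G)) :
    ∃ P : CochainComplex (LinFun k (Ob D) C) ℤ, Tw (Blk D ta tb tf) P ∧
      Nonempty (Q.obj P ≅
        (singleFunctor (LinFun k (Ob D) C) 0).obj ((phi C (Ob.lamData D)).obj G) ⊞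
        ((singleFunctor (LinFun k (Ob D) C) 0).obj
          ((phi C (Ob.lamData D)).obj G))⟦(1 : ℤ)⟧) := by
  have := HasExt.standard (LinFun k (Ob D) C)
  exact exists_tw (fun X Y hX hY n hn => Blk_ext D ta tb tf hE.haa hE.hbb hE.hff hE.hba hE.hfa
    hE.hfb X Y hX hY n hn) (Blk_nonempty D ta tb tf h) _ (phi_mem D ta tb tf h G ga gb gf)

variable [HasDerivedCategory.{t} C]

omit [HasExt.{w₃} (ModObj k F C)] [HasExt.{w₄} (ModObj k L C)] [Algebra.IsSeparable k F]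
  [Algebra.IsSeparable k L] in
/-- `Ψ P = G ⊕ G[1]` in the derived category, and the unit is an isomorphism at `P`. -/
theorem psi_iso {P : CochainComplex (LinFun k (Ob D) C) ℤ} (hP : Tw (Blk D ta tb tf) P) (G : C)
    (φ : Nonempty (Q.obj P ≅
        (singleFunctor (LinFun k (Ob D) C) 0).obj ((phi C (Ob.lamData D)).obj G) ⊞
        ((singleFunctor (LinFun k (Ob D) C) 0).obj
          ((phi C (Ob.lamData D)).obj G))⟦(1 : ℤ)⟧)) :
    Nonempty (Q.obj (((psi C (Ob.lamData D)).mapHomologicalComplex (ComplexShape.up ℤ)).obj P) ≅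
      (singleFunctor C 0).obj G ⊞ ((singleFunctor C 0).obj G)⟦(1 : ℤ)⟧) ∧
    IsIso ((dUnit (psiAdj C (Ob.lamData D))).app
      ((HomotopyCategory.quotient (LinFun k (Ob D) C) (ComplexShape.up ℤ)).obj P)) := by
  have := HasExt.standard (LinFun k (Ob D) C)
  exact abs_iso (psiAdj C (Ob.lamData D)) (phi_ext_bijective (Ob.lamData D))
    (blk_unit_bij D ta tb tf) hP G φ

/-- `Hom (P, P) → Hom (Ψ P, J)` is a quasi-isomorphism. -/
theorem psi_qIso (hE : ExtHyp.{w₁, w₃, w₄} ta tb tf)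
    {P : CochainComplex (LinFun k (Ob D) C) ℤ} (hP : Tw (Blk D ta tb tf) P) (G : C)
    (φ : Nonempty (Q.obj P ≅
        (singleFunctor (LinFun k (Ob D) C) 0).obj ((phi C (Ob.lamData D)).obj G) ⊞
        ((singleFunctor (LinFun k (Ob D) C) 0).obj
          ((phi C (Ob.lamData D)).obj G))⟦(1 : ℤ)⟧))
    (J : CochainComplex C ℤ) [J.IsKInjective]
    (q : ((psi C (Ob.lamData D)).mapHomologicalComplex (ComplexShape.up ℤ)).obj P ⟶ J)
    [QuasiIso q] :
    QIso (mixl (mapDG (k := k) (psi C (Ob.lamData D))) (b := J) (Cochain.ofHom q) P) := by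
  have := HasExt.standard (LinFun k (Ob D) C)
  refine qIso_of_lam_bij (psi C (Ob.lamData D)) q fun n => ?_
  exact lam_bij (psiAdj C (Ob.lamData D)) (fun X Y hX hY n hn => Blk_ext D ta tb tf hE.haa hE.hbb
    hE.hff hE.hba hE.hfa hE.hfb X Y hX hY n hn) (blk_unit_bij D ta tb tf) hP (Tw.shift P n hP)
    (isIso_dUnit_shift _ (psi_iso D ta tb tf hP G φ).2 n)

end final

end Orl.LF
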