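import Pool.Agent.Work.MP_a6e60d_ag.LF.LamData
import Pool.Agent.Work.MP_a6e60d_ag.Gal.Base

/-!
# The functor `Φ : C ⥤ LinFun k Q C`, `c ↦ c ⊗ V`
-/

open CategoryTheory Limits

attribute [-instance] CategoryTheory.catToReflQuiver

namespace Orl.LF

open Orl.Gal

universe w w₀ v u v' u'

attribute [local instance] Abelian.hasFiniteBiproducts

section phi

variable {k : Type w₀} [Field k] {Q : Type u} [Category.{v} Q] [Preadditive Q] [Linear k Q]
variable {C : Type u'} [Category.{v'} C] [Abelian C] [Linear k C]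
variable (Λ : LamData.{w} k Q)

variable (C) in
/-- The functor `Φ : c ↦ c ⊗ V`. -/
noncomputable abbrev phi : C ⥤ LinFun k Q C := triv k C ⋙ tensRFun C Λ.V

/-- the map `c → c ⊗ V x` given by an element of `V x` -/
noncomputable def phiMk (c : C) {x : Q} (w : Λ.V.V x) : c ⟶ ((phi C Λ).obj c).obj.obj x :=
  tmk (trivObj k c) w

@[reassoc]
lemma phiMk_map (c : C) {x y : Q} (q : x ⟶ y) (w : Λ.V.V x) :
    phiMk Λ c w ≫ ((phi C Λ).obj c).obj.map q = phiMk Λ c (Λ.V.map q w) :=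
  tmk_tmap _ _ _

lemma phiMk_add (c : C) {x : Q} (w w' : Λ.V.V x) :
    phiMk Λ c (w + w') = phiMk Λ c w + phiMk Λ c w' := tmk_add _ _ _

lemma phiMk_zero (c : C) {x : Q} : phiMk Λ c (0 : Λ.V.V x) = 0 := tmk_zero _

lemma phiMk_smul (c : C) {x : Q} (r : k) (w : Λ.V.V x) :
    phiMk Λ c (r • w) = r • phiMk Λ c w := by
  refine (tmk_smul _ r w).trans ?_
  change (r • 𝟙 c) ≫ phiMk Λ c w = r • phiMk Λ c w
  rw [Linear.smul_comp, Category.id_comp]

@[reassoc]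
lemma phiMk_phi_map {c c' : C} (f : c ⟶ c') {x : Q} (w : Λ.V.V x) :
    phiMk Λ c w ≫ (ev x).map ((phi C Λ).map f) = f ≫ phiMk Λ c' w :=
  tmk_tmapL _ _

lemma phi_ext {c X : C} {x : Q} {f g : ((phi C Λ).obj c).obj.obj x ⟶ X}
    (h : ∀ w : Λ.V.V x, phiMk Λ c w ≫ f = phiMk Λ c w ≫ g) : f = g :=
  tens_ext _ h

/-- the map `c ⊗ V x → X` given by a linear family of maps -/
noncomputable def phiDesc {c X : C} {x : Q} (φ : Λ.V.V x →ₗ[k] (c ⟶ X)) :
    ((phi C Λ).obj c).obj.obj x ⟶ X :=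
  tdesc (trivObj k c) φ.toAddMonoidHom

@[reassoc]
lemma phiMk_phiDesc {c X : C} {x : Q} (φ : Λ.V.V x →ₗ[k] (c ⟶ X)) (w : Λ.V.V x) :
    phiMk Λ c w ≫ phiDesc Λ φ = φ w := by
  refine tmk_tdesc (trivObj k c) φ.toAddMonoidHom (fun e w => ?_) w
  change φ (e • w) = (e • 𝟙 c) ≫ φ w
  rw [map_smul, Linear.smul_comp, Category.id_comp]

/-- the evaluation `c ⊗ V x → c` at a linear form on `V x` -/
noncomputable def phiEv (c : C) {x : Q} (ξ : Λ.V.V x →ₗ[k] k) :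
    ((phi C Λ).obj c).obj.obj x ⟶ c :=
  phiDesc Λ { toFun := fun w => ξ w • 𝟙 c
              map_add' := fun w w' => by rw [map_add, add_smul]
              map_smul' := fun r w => by rw [map_smul, smul_eq_mul, mul_smul, RingHom.id_apply] }

@[reassoc (attr := simp)]
lemma phiMk_phiEv (c : C) {x : Q} (ξ : Λ.V.V x →ₗ[k] k) (w : Λ.V.V x) :
    phiMk Λ c w ≫ phiEv Λ c ξ = ξ w • 𝟙 c := phiMk_phiDesc Λ _ w

end phi

end Orl.LF
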