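import Pool.Agent.Work.MP_a6e60d_ag.LF.Phi

/-!
# The resolution `0 → c ⊗ P_f → c ⊗ P_b → c ⊗ P_a → Φ c → 0`

`lx x : C ⥤ LinFun k Q C`, `c ↦ (y ↦ c ⊗ Q(x, y))` is left adjoint to the evaluation at `x`.
-/

open CategoryTheory Limits

attribute [-instance] CategoryTheory.catToReflQuiver

namespace Orl.LF

open Orl.Gal

universe w w' w'' w₀ v u v' u'

attribute [local instance] Abelian.hasFiniteBiproducts

section tmapU

variable {k : Type*} [Field k] {E : Type*} [Field E] [Algebra k E]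
variable {C : Type u'} [Category.{v'} C] [Abelian C] [Linear k C]
variable (M : ModObj k E C) {V : Type w} [AddCommGroup V] [Module E V] [Module.Finite E V]
  {W : Type w'} [AddCommGroup W] [Module E W] [Module.Finite E W]
  {U : Type w''} [AddCommGroup U] [Module E U] [Module.Finite E U]

/-- functoriality in the vector space (universe polymorphic) -/
noncomputable def tmapU (g : V →ₗ[E] W) : tens M V ⟶ tens M W :=
  tdesc M
    { toFun := fun v => tmk M (g v)
      map_zero' := by rw [map_zero, tmk_zero]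
      map_add' := fun v w => by rw [map_add, tmk_add] }

@[reassoc (attr := simp)]
lemma tmk_tmapU (g : V →ₗ[E] W) (v : V) : tmk M v ≫ tmapU M g = tmk M (g v) :=
  tmk_tdesc M _ (fun e v => by
    change tmk M (g (e • v)) = M.act e ≫ tmk M (g v)
    rw [map_smul, tmk_smul]) v

lemma tmapU_id : tmapU M (LinearMap.id : V →ₗ[E] V) = 𝟙 _ :=
  tens_ext M fun v => by simp

lemma tmapU_comp (g : V →ₗ[E] W) (g' : W →ₗ[E] U) :
    tmapU M (g'.comp g) = tmapU M g ≫ tmapU M g' :=
  tens_ext M fun v => by simp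

lemma tmapU_add (g g' : V →ₗ[E] W) : tmapU M (g + g') = tmapU M g + tmapU M g' :=
  tens_ext M fun v => by
    rw [Preadditive.comp_add, tmk_tmapU, tmk_tmapU, tmk_tmapU, LinearMap.add_apply, tmk_add]

lemma tmapU_zero : tmapU M (0 : V →ₗ[E] W) = 0 :=
  tens_ext M fun v => by
    rw [tmk_tmapU, LinearMap.zero_apply, tmk_zero, comp_zero]

lemma tmapU_mono (g : V →ₗ[E] W) (hg : Function.Injective g) : Mono (tmapU M g) := by
  obtain ⟨r, hr⟩ := g.exists_leftInverse_of_injective (LinearMap.ker_eq_bot.2 hg)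
  have h : tmapU M g ≫ tmapU M r = 𝟙 _ := by rw [← tmapU_comp, hr, tmapU_id]
  exact (SplitMono.mk _ h).mono

lemma tmapU_epi (g : V →ₗ[E] W) (hg : Function.Surjective g) : Epi (tmapU M g) := by
  obtain ⟨s, hs⟩ := g.exists_rightInverse_of_surjective (LinearMap.range_eq_top.2 hg)
  have h : tmapU M s ≫ tmapU M g = 𝟙 _ := by rw [← tmapU_comp, hs, tmapU_id]
  exact (SplitEpi.mk _ h).epi

omit [Module.Finite E W] in
/-- a generalised inverse of a linear map -/
lemma exists_pinv (g : V →ₗ[E] W) : ∃ p : W →ₗ[E] V, ∀ v, g (p (g v)) = g v := by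
  obtain ⟨t, ht⟩ := g.rangeRestrict.exists_rightInverse_of_surjective
    (LinearMap.range_eq_top.2 g.surjective_rangeRestrict)
  obtain ⟨q, hq⟩ := g.range.subtype.exists_leftInverse_of_injective
    (LinearMap.ker_eq_bot.2 g.range.injective_subtype)
  refine ⟨t.comp q, fun v => ?_⟩
  have h1 : q (g v) = g.rangeRestrict v := LinearMap.congr_fun hq (g.rangeRestrict v)
  have h2 := congrArg Subtype.val (LinearMap.congr_fun ht (g.rangeRestrict v))
  rw [LinearMap.comp_apply, h1]
  exact h2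

omit [Module.Finite E U] in
/-- an exact sequence of vector spaces is contractible in the middle -/
lemma exists_contr (f : V →ₗ[E] W) (g : W →ₗ[E] U) (h : Function.Exact f g) :
    ∃ (p : W →ₗ[E] V) (q : U →ₗ[E] W), f.comp p + q.comp g = LinearMap.id := by
  obtain ⟨q, hq⟩ := exists_pinv g
  obtain ⟨p, hp⟩ := exists_pinv f
  refine ⟨p.comp (LinearMap.id - q.comp g), q, LinearMap.ext fun w => ?_⟩
  have h1 : g (w - q (g w)) = 0 := by rw [map_sub, hq, sub_self]
  obtain ⟨v, hv⟩ := (h _).1 h1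
  have h2 : f (p (w - q (g w))) = w - q (g w) := by rw [← hv, hp]
  simp only [LinearMap.add_apply, LinearMap.comp_apply, LinearMap.sub_apply, LinearMap.id_apply]
  rw [h2, sub_add_cancel]

lemma tmapU_comp_zero (f : V →ₗ[E] W) (g : W →ₗ[E] U) (h : ∀ v, g (f v) = 0) :
    tmapU M f ≫ tmapU M g = 0 := by
  rw [← tmapU_comp, show g.comp f = 0 from LinearMap.ext h, tmapU_zero]

lemma tmapU_exact (f : V →ₗ[E] W) (g : W →ₗ[E] U) (h : Function.Exact f g)
    (h0 : tmapU M f ≫ tmapU M g = 0) :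
    (ShortComplex.mk (tmapU M f) (tmapU M g) h0).Exact := by
  obtain ⟨p, q, hpq⟩ := exists_contr f g h
  rw [ShortComplex.exact_iff_exact_up_to_refinements]
  intro A x hx
  have hx' : x ≫ tmapU M g = 0 := hx
  refine ⟨A, 𝟙 A, inferInstance, x ≫ tmapU M p, ?_⟩
  have h1 : x ≫ tmapU M (f.comp p + q.comp g) = x := by
    rw [hpq, tmapU_id]
    exact Category.comp_id x
  rw [tmapU_add, tmapU_comp, tmapU_comp, Preadditive.comp_add, reassoc_of% hx', zero_comp,
    add_zero] at h1
  rw [Category.id_comp, Category.assoc]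
  exact h1.symm

end tmapU

section lx

variable {k : Type w₀} [Field k] {Q : Type u} [Category.{v} Q] [Preadditive Q] [Linear k Q]
variable {C : Type u'} [Category.{v'} C] [Abelian C] [Linear k C]

/-- The representation `y ↦ Q(x, y)` over `k`. -/
def ptRep (x : Q) [∀ y : Q, Module.Finite k (x ⟶ y)] : Repn.{v} k Q k where
  V y := x ⟶ y
  map f :=
    { toFun := fun q => q ≫ f
      map_add' := fun _ _ => Preadditive.add_comp _ _ _ _ _ _
      map_smul' := fun _ _ => Linear.smul_comp _ _ _ _ _ _ }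
  map_id _ := LinearMap.ext fun _ => Category.comp_id _
  map_comp _ _ := LinearMap.ext fun _ => (Category.assoc _ _ _).symm
  map_add _ _ := LinearMap.ext fun _ => Preadditive.comp_add _ _ _ _ _ _
  map_smul _ _ := LinearMap.ext fun _ => Linear.comp_smul _ _ _ _ _ _

variable (k C) in
/-- The functor `c ↦ (y ↦ c ⊗ Q(x, y))`. -/
noncomputable abbrev lx (x : Q) [∀ y : Q, Module.Finite k (x ⟶ y)] : C ⥤ LinFun k Q C :=
  triv k C ⋙ tensRFun C (ptRep x)

variable {x : Q} [∀ y : Q, Module.Finite k (x ⟶ y)]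

/-- the map `c → c ⊗ Q(x, y)` given by a morphism `q` of `Q` -/
noncomputable def lxMk (c : C) {y : Q} (q : x ⟶ y) : c ⟶ ((lx k C x).obj c).obj.obj y :=
  tmk (trivObj k c) (V := x ⟶ y) q

@[reassoc]
lemma lxMk_map (c : C) {y z : Q} (q : x ⟶ y) (f : y ⟶ z) :
    lxMk (k := k) c q ≫ ((lx k C x).obj c).obj.map f = lxMk (k := k) c (q ≫ f) :=
  tmk_tmap (trivObj k c) _ _

lemma lxMk_add (c : C) {y : Q} (q q' : x ⟶ y) :
    lxMk (k := k) c (q + q') = lxMk (k := k) c q + lxMk (k := k) c q' :=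
  tmk_add (trivObj k c) (V := x ⟶ y) _ _

lemma lxMk_smul (c : C) {y : Q} (r : k) (q : x ⟶ y) :
    lxMk (k := k) c (r • q) = r • lxMk (k := k) c q := by
  refine (tmk_smul (trivObj k c) (V := x ⟶ y) r q).trans ?_
  change (r • 𝟙 c) ≫ lxMk (k := k) c q = r • lxMk (k := k) c q
  rw [Linear.smul_comp, Category.id_comp]

@[reassoc]
lemma lxMk_lx_map {c c' : C} (f : c ⟶ c') {y : Q} (q : x ⟶ y) :
    lxMk (k := k) c q ≫ (ev y).map ((lx k C x).map f) = f ≫ lxMk (k := k) c' q :=
  tmk_tmapL _ _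

lemma lx_ext {c X : C} {y : Q} {f g : ((lx k C x).obj c).obj.obj y ⟶ X}
    (h : ∀ q : x ⟶ y, lxMk (k := k) c q ≫ f = lxMk (k := k) c q ≫ g) : f = g :=
  tens_ext (trivObj k c) (V := x ⟶ y) h

lemma lx_hom_ext {c : C} {N : LinFun k Q C} {f g : (lx k C x).obj c ⟶ N}
    (h : ∀ (y : Q) (q : x ⟶ y), lxMk (k := k) c q ≫ (ev y).map f =
      lxMk (k := k) c q ≫ (ev y).map g) : f = g :=
  hom_ext' _ _ fun y => lx_ext fun q => h y q

@[reassoc]
lemma lx_map_ev {M N : LinFun k Q C} (f : M ⟶ N) {y z : Q} (q : y ⟶ z) :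
    M.obj.map q ≫ (ev z).map f = (ev y).map f ≫ N.obj.map q := f.hom.naturality q

/-- the map `c → N x` of a morphism `c ⊗ P_x → N` -/
noncomputable def lxTo {c : C} {N : LinFun k Q C} (f : (lx k C x).obj c ⟶ N) :
    c ⟶ N.obj.obj x :=
  lxMk (k := k) c (𝟙 x) ≫ (ev x).map f

/-- the family of maps which defines `lxOf` -/
def lxPhi {c : C} {N : LinFun k Q C} (g : c ⟶ N.obj.obj x) (y : Q) :
    (ptRep (k := k) x).V y →+ ((trivObj k c).pt ⟶ N.obj.obj y) where
  toFun := fun (q : x ⟶ y) => g ≫ N.obj.map q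
  map_zero' := by
    change g ≫ N.obj.map (0 : x ⟶ y) = 0
    rw [CategoryTheory.Functor.map_zero, comp_zero]
  map_add' := fun (q q' : x ⟶ y) => by
    change g ≫ N.obj.map (q + q') = g ≫ N.obj.map q + g ≫ N.obj.map q'
    rw [Functor.map_add, Preadditive.comp_add]

lemma lxPhi_smul {c : C} {N : LinFun k Q C} (g : c ⟶ N.obj.obj x) (y : Q)
    (e : k) (q : (ptRep (k := k) x).V y) :
    lxPhi g y (e • q) = (trivObj k c).act e ≫ lxPhi g y q := by
  change g ≫ N.obj.map (e • (show x ⟶ y from q)) = (e • 𝟙 c) ≫ g ≫ N.obj.map (show x ⟶ y from q)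
  rw [Functor.map_smul, Linear.comp_smul, Linear.smul_comp, Category.id_comp]

lemma lxPhi_map {c : C} {N : LinFun k Q C} (g : c ⟶ N.obj.obj x) {y z : Q}
    (f : y ⟶ z) (q : (ptRep (k := k) x).V y) :
    lxPhi g z ((ptRep x).map f q) = lxPhi g y q ≫ N.obj.map f := by
  change g ≫ N.obj.map ((show x ⟶ y from q) ≫ f) =
    (g ≫ N.obj.map (show x ⟶ y from q)) ≫ N.obj.map f
  rw [CategoryTheory.Functor.map_comp, Category.assoc]

/-- the morphism `c ⊗ P_x → N` of a map `c → N x` -/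
noncomputable def lxOf {c : C} {N : LinFun k Q C} (g : c ⟶ N.obj.obj x) :
    (lx k C x).obj c ⟶ N :=
  tensRDesc (trivObj k c) (ptRep x) N (lxPhi g) (lxPhi_smul g) (lxPhi_map g)

@[reassoc]
lemma lxMk_lxOf {c : C} {N : LinFun k Q C} (g : c ⟶ N.obj.obj x) {y : Q} (q : x ⟶ y) :
    lxMk (k := k) c q ≫ (ev y).map (lxOf g) = g ≫ N.obj.map q :=
  tmk_tensRDesc (trivObj k c) (ptRep x) N (lxPhi g) (lxPhi_smul g) (lxPhi_map g) y q

lemma lxTo_lxOf {c : C} {N : LinFun k Q C} (g : c ⟶ N.obj.obj x) :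
    lxTo (k := k) (lxOf g) = g := by
  rw [lxTo, lxMk_lxOf, CategoryTheory.Functor.map_id, Category.comp_id]

lemma lxOf_lxTo {c : C} {N : LinFun k Q C} (f : (lx k C x).obj c ⟶ N) :
    lxOf (lxTo f) = f := by
  refine lx_hom_ext fun y q => ?_
  rw [lxMk_lxOf, lxTo, Category.assoc, ← lx_map_ev, ← Category.assoc, lxMk_map,
    Category.id_comp]

variable (k C x) in
/-- `c ↦ c ⊗ P_x` is left adjoint to the evaluation at `x`. -/
noncomputable def lxAdj : lx k C x ⊣ ev x :=
  Adjunction.mkOfHomEquiv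
    { homEquiv := fun c N =>
        { toFun := lxTo
          invFun := lxOf
          left_inv := lxOf_lxTo
          right_inv := lxTo_lxOf }
      homEquiv_naturality_left_symm := fun {c c' N} f g => by
        refine lx_hom_ext fun y q => ?_
        change lxMk (k := k) c q ≫ (ev y).map (lxOf (f ≫ g)) =
          lxMk (k := k) c q ≫ (ev y).map ((lx k C x).map f ≫ lxOf g)
        have h1 := lxMk_lx_map (k := k) f q
        have h2 := lxMk_lxOf (k := k) (N := N) g q
        rw [lxMk_lxOf, Functor.map_comp, ← Category.assoc (lxMk (k := k) c q), h1]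
        exact (Category.assoc f g (N.obj.map q)).trans ((congrArg (f ≫ ·) h2.symm).trans
          (Category.assoc _ _ _).symm)
      homEquiv_naturality_right := fun {c N N'} f g => (Category.assoc _ _ _).symm }

lemma lxAdj_homEquiv {c : C} {N : LinFun k Q C} (f : (lx k C x).obj c ⟶ N) :
    (lxAdj k C x).homEquiv c N f = lxTo f := by
  simp [lxAdj]

lemma lxAdj_unit (c : C) : (lxAdj k C x).unit.app c = lxMk (k := k) c (𝟙 x) := by
  have := lxAdj_homEquiv (𝟙 ((lx k C x).obj c))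
  rw [Adjunction.homEquiv_id] at this
  rw [this, lxTo]
  exact Category.comp_id _

/-- precomposition as a linear map -/
def preL {x x' : Q} (f : x ⟶ x') (y : Q) : (x' ⟶ y) →ₗ[k] (x ⟶ y) where
  toFun q := f ≫ q
  map_add' _ _ := Preadditive.comp_add _ _ _ _ _ _
  map_smul' _ _ := Linear.comp_smul _ _ _ _ _ _

variable {x' : Q} [∀ y : Q, Module.Finite k (x' ⟶ y)]

variable (k) in
/-- precomposition as a morphism of representations -/
def ptRepHom (f : x ⟶ x') : (ptRep (k := k) x').Hom (ptRep x) where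
  app y := preL f y
  naturality _ _ := (Category.assoc _ _ _).symm

variable (k C) in
/-- the natural transformation `c ⊗ P_x' → c ⊗ P_x` -/
noncomputable def lxTrans (f : x ⟶ x') : lx k C x' ⟶ lx k C x :=
  Functor.whiskerLeft (triv k C) (tensRTrans C (ptRepHom k f))

lemma ev_lxTrans (f : x ⟶ x') (c : C) (y : Q) :
    (ev y).map ((lxTrans k C f).app c) = tmapU (trivObj k c) (preL (k := k) f y) := rfl

@[reassoc]
lemma lxMk_lxTrans (f : x ⟶ x') (c : C) {y : Q} (q : x' ⟶ y) :
    lxMk (k := k) c q ≫ (ev y).map ((lxTrans k C f).app c) = lxMk (k := k) c (f ≫ q) :=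
  tmk_tmapU (trivObj k c) (preL (k := k) f y) q

end lx

section res

variable {k : Type w₀} [Field k] {Q : Type u} [Category.{v} Q] [Preadditive Q] [Linear k Q]
variable {C : Type u'} [Category.{v'} C] [Abelian C] [Linear k C]
variable (Λ : LamData.{w} k Q) [∀ x y : Q, Module.Finite k (x ⟶ y)]

omit [∀ x y : Q, Module.Finite k (x ⟶ y)] in
/-- the evaluation at the generator -/
def genL (y : Q) : (Λ.a ⟶ y) →ₗ[k] Λ.V.V y where
  toFun q := Λ.V.map q Λ.v
  map_add' q q' := by rw [Λ.V.map_add, LinearMap.add_apply]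
  map_smul' r q := by rw [Λ.V.map_smul]; rfl

variable (C) in
/-- the projection `c ⊗ P_a → Φ c` -/
noncomputable def phiPi : lx k C Λ.a ⟶ phi C Λ where
  app c := lxOf (phiMk Λ c Λ.v)
  naturality c c' f := by
    refine lx_hom_ext fun y q => ?_
    rw [Functor.map_comp, Functor.map_comp, ← Category.assoc, ← Category.assoc,
      lxMk_lx_map f q, lxMk_lxOf, phiMk_map, phiMk_phi_map]
    refine (Category.assoc _ _ _).trans ?_
    rw [lxMk_lxOf, phiMk_map]

@[reassoc]
lemma lxMk_phiPi (c : C) {y : Q} (q : Λ.a ⟶ y) :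
    lxMk (k := k) c q ≫ (ev y).map ((phiPi C Λ).app c) = phiMk Λ c (Λ.V.map q Λ.v) :=
  (lxMk_lxOf _ q).trans (phiMk_map Λ c q Λ.v)

lemma ev_phiPi (c : C) (y : Q) :
    (ev y).map ((phiPi C Λ).app c) = tmapU (trivObj k c) (genL Λ y) :=
  lx_ext (x := Λ.a) fun q => (lxMk_phiPi Λ c q).trans (tmk_tmapU (trivObj k c) (genL Λ y) q).symm

lemma epi_phiPi (c : C) : Epi ((phiPi C Λ).app c) := by
  rw [epi_iff]
  intro y
  rw [ev_phiPi]
  exact tmapU_epi _ _ fun w => Λ.exV y w

lemma mono_lxTrans (c : C) : Mono ((lxTrans k C Λ.s).app c) := by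
  rw [mono_iff]
  intro y
  rw [ev_lxTrans]
  exact tmapU_mono _ _ ((injective_iff_map_eq_zero _).2 fun q hq => Λ.exF y q hq)

lemma lxTrans_phiPi (c : C) : (lxTrans k C Λ.r).app c ≫ (phiPi C Λ).app c = 0 := by
  refine lx_hom_ext fun y q => ?_
  rw [Functor.map_comp, ← Category.assoc, lxMk_lxTrans, lxMk_phiPi, Λ.V.map_comp_apply, Λ.r_v,
    map_zero, phiMk_zero, Functor.map_zero, comp_zero]

lemma lxTrans_lxTrans (c : C) :
    (lxTrans k C Λ.s).app c ≫ (lxTrans k C Λ.r).app c = 0 := by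
  refine lx_hom_ext fun y q => ?_
  rw [Functor.map_comp, ← Category.assoc, lxMk_lxTrans, lxMk_lxTrans, ← Category.assoc, Λ.r_s,
    zero_comp, Functor.map_zero, comp_zero]
  exact tmk_zero _

lemma exact_lxTrans_phiPi (c : C) :
    (ShortComplex.mk ((lxTrans k C Λ.r).app c) ((phiPi C Λ).app c)
      (lxTrans_phiPi Λ c)).Exact := by
  rw [exact_iff]
  intro y
  have h1 : Function.Exact (preL (k := k) Λ.r y) (genL Λ y) := by
    intro q
    constructor
    · exact fun h => Λ.exA y q h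
    · rintro ⟨q', rfl⟩
      change Λ.V.map (Λ.r ≫ q') Λ.v = 0
      rw [Λ.V.map_comp_apply, Λ.r_v, map_zero]
  have h0 : tmapU (trivObj k c) (preL (k := k) Λ.r y) ≫ tmapU (trivObj k c) (genL Λ y) = 0 :=
    tmapU_comp_zero _ _ _ fun q => h1.apply_apply_eq_zero q
  have h2 := tmapU_exact (trivObj k c) _ _ h1 h0
  have h3 : ShortComplex.mk ((ev y).map ((lxTrans k C Λ.r).app c))
      ((ev y).map ((phiPi C Λ).app c))
      (by rw [← Functor.map_comp, lxTrans_phiPi, Functor.map_zero]) =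
      ShortComplex.mk (tmapU (trivObj k c) (preL (k := k) Λ.r y))
        (tmapU (trivObj k c) (genL Λ y)) h0 := by
    congr 1
    exact ev_phiPi Λ c y
  rw [← h3] at h2
  exact h2

lemma exact_lxTrans_lxTrans (c : C) :
    (ShortComplex.mk ((lxTrans k C Λ.s).app c) ((lxTrans k C Λ.r).app c)
      (lxTrans_lxTrans Λ c)).Exact := by
  rw [exact_iff]
  intro y
  have h1 : Function.Exact (preL (k := k) Λ.s y) (preL (k := k) Λ.r y) := by
    intro q
    constructor
    · exact fun h => Λ.exB y q h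
    · rintro ⟨q', rfl⟩
      change Λ.r ≫ Λ.s ≫ q' = 0
      rw [← Category.assoc, Λ.r_s, zero_comp]
  exact tmapU_exact (trivObj k c) _ _ h1
    (tmapU_comp_zero _ _ _ fun q => h1.apply_apply_eq_zero q)

end res

end Orl.LF
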