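import Pool.Agent.Work.MP_a6e60d_ag.LF.Phi
import Pool.Agent.Work.MP_a6e60d_ag.LF.Coind

/-!
# The right adjoint `Ψ_R N = ker (N(r) : N_a → N_b)` of `Φ`
-/

open CategoryTheory Limits

attribute [-instance] CategoryTheory.catToReflQuiver

namespace Orl.LF

open Orl.Gal

universe w w₀ w₁ v u v' u'

attribute [local instance] Abelian.hasFiniteBiproducts

section psiR

variable {k : Type w₀} [Field k] {Q : Type u} [Category.{v} Q] [Preadditive Q] [Linear k Q]
variable {C : Type u'} [Category.{v'} C] [Abelian C] [Linear k C]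
variable (Λ : LamData.{w} k Q)

variable (C) in
/-- **P3**: `Ψ_R N = ker (N(r) : N_a → N_b)` -/
noncomputable def psiR : LinFun k Q C ⥤ C where
  obj N := kernel (N.obj.map Λ.r)
  map {N N'} f := kernel.map _ _ ((ev Λ.a).map f) ((ev Λ.b).map f) (f.hom.naturality _)
  map_id N := by
    rw [← cancel_mono (kernel.ι _), kernel.lift_ι, CategoryTheory.Functor.map_id]
    exact (Category.comp_id _).trans (Category.id_comp _).symm
  map_comp f g := by
    rw [← cancel_mono (kernel.ι _), kernel.lift_ι, Category.assoc, kernel.lift_ι,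
      kernel.lift_ι_assoc, Functor.map_comp, Category.assoc]

/-- the inclusion `Ψ_R N → N_a` -/
noncomputable def psiRι (N : LinFun k Q C) : (psiR C Λ).obj N ⟶ N.obj.obj Λ.a :=
  kernel.ι (N.obj.map Λ.r)

instance (N : LinFun k Q C) : Mono (psiRι Λ N) :=
  inferInstanceAs (Mono (kernel.ι (N.obj.map Λ.r)))

lemma psiRι_r (N : LinFun k Q C) : psiRι Λ N ≫ N.obj.map Λ.r = 0 := kernel.condition _

/-- lift to `Ψ_R N` -/
noncomputable def psiRLift {N : LinFun k Q C} {c : C} (g : c ⟶ N.obj.obj Λ.a)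
    (hg : g ≫ N.obj.map Λ.r = 0) : c ⟶ (psiR C Λ).obj N := kernel.lift _ g hg

@[reassoc (attr := simp)]
lemma psiRLift_ι {N : LinFun k Q C} {c : C} (g : c ⟶ N.obj.obj Λ.a)
    (hg : g ≫ N.obj.map Λ.r = 0) : psiRLift Λ g hg ≫ psiRι Λ N = g := kernel.lift_ι _ _ _

@[reassoc]
lemma psiR_map_ι {N N' : LinFun k Q C} (f : N ⟶ N') :
    (psiR C Λ).map f ≫ psiRι Λ N' = psiRι Λ N ≫ (ev Λ.a).map f :=
  kernel.lift_ι _ _ _

instance : (psiR C Λ).Additive where
  map_add {N N' f g} := by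
    apply (cancel_mono (psiRι Λ N')).1
    rw [psiR_map_ι, Preadditive.add_comp, psiR_map_ι, psiR_map_ι,
      Functor.map_add, Preadditive.comp_add]

instance : (psiR C Λ).Linear k where
  map_smul {N N'} f r := by
    apply (cancel_mono (psiRι Λ N')).1
    rw [psiR_map_ι, Linear.smul_comp, psiR_map_ι, Functor.map_smul, Linear.comp_smul]

lemma phiMk_map' (c : C) {x y : Q} (q : x ⟶ y) (w : Λ.V.V x) {X : C}
    (h : ((phi C Λ).obj c).obj.obj y ⟶ X) :
    phiMk Λ c w ≫ ((phi C Λ).obj c).obj.map q ≫ h = phiMk Λ c (Λ.V.map q w) ≫ h := by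
  rw [← Category.assoc, phiMk_map]

/-- a preimage of an element of `V` -/
noncomputable def preV {y : Q} (w : Λ.V.V y) : Λ.a ⟶ y := (Λ.exV y w).choose

lemma preV_spec {y : Q} (w : Λ.V.V y) : Λ.V.map (preV Λ w) Λ.v = w := (Λ.exV y w).choose_spec

variable {Λ} in
lemma comp_map_eq {N : LinFun k Q C} {c : C} (g : c ⟶ N.obj.obj Λ.a)
    (hg : g ≫ N.obj.map Λ.r = 0) {y : Q} (q q' : Λ.a ⟶ y)
    (h : Λ.V.map q Λ.v = Λ.V.map q' Λ.v) : g ≫ N.obj.map q = g ≫ N.obj.map q' := by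
  have h1 : Λ.V.map (q - q') Λ.v = 0 := by
    have h2 := Λ.V.map_add (q - q') q'
    rw [sub_add_cancel] at h2
    have h3 := LinearMap.congr_fun h2 Λ.v
    rw [LinearMap.add_apply, h] at h3
    exact right_eq_add.1 h3
  obtain ⟨q'', hq⟩ := Λ.exA y (q - q') h1
  rw [← sub_eq_zero, ← Preadditive.comp_sub, ← Functor.map_sub, ← hq, Functor.map_comp,
    ← Category.assoc, hg, zero_comp]

/-- the linear family defined by `g` -/
noncomputable def psiRLin {N : LinFun k Q C} {c : C} (g : c ⟶ N.obj.obj Λ.a)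
    (hg : g ≫ N.obj.map Λ.r = 0) (y : Q) : Λ.V.V y →ₗ[k] (c ⟶ N.obj.obj y) where
  toFun w := g ≫ N.obj.map (preV Λ w)
  map_add' w w' := by
    rw [← Preadditive.comp_add, ← Functor.map_add]
    apply comp_map_eq g hg
    rw [Λ.V.map_add, LinearMap.add_apply, preV_spec, preV_spec, preV_spec]
  map_smul' r w := by
    rw [RingHom.id_apply, ← Linear.comp_smul, ← Functor.map_smul]
    apply comp_map_eq g hg
    rw [Λ.V.map_smul, LinearMap.smul_apply, preV_spec, preV_spec]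
    rfl

/-- the morphism `Φ c → N` defined by `g` -/
noncomputable def psiRHom {N : LinFun k Q C} {c : C} (g : c ⟶ N.obj.obj Λ.a)
    (hg : g ≫ N.obj.map Λ.r = 0) : (phi C Λ).obj c ⟶ N :=
  ObjectProperty.homMk
    { app := fun y => phiDesc Λ (psiRLin Λ g hg y)
      naturality := fun x y q => by
        refine phi_ext Λ fun w => ?_
        rw [phiMk_map']
        change phiMk Λ c _ ≫ phiDesc Λ (psiRLin Λ g hg y) = _
        rw [phiMk_phiDesc, phiMk_phiDesc_assoc]
        change g ≫ N.obj.map _ = (g ≫ N.obj.map _) ≫ N.obj.map q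
        rw [Category.assoc, ← Functor.map_comp]
        apply comp_map_eq g hg
        rw [preV_spec, Repn.map_comp_apply, preV_spec] }

lemma ev_psiRHom {N : LinFun k Q C} {c : C} (g : c ⟶ N.obj.obj Λ.a)
    (hg : g ≫ N.obj.map Λ.r = 0) (y : Q) :
    (ev y).map (psiRHom Λ g hg) = phiDesc Λ (psiRLin Λ g hg y) := rfl

lemma phiMk_psiRHom {N : LinFun k Q C} {c : C} (g : c ⟶ N.obj.obj Λ.a)
    (hg : g ≫ N.obj.map Λ.r = 0) {y : Q} (q : Λ.a ⟶ y) :
    phiMk Λ c (Λ.V.map q Λ.v) ≫ (ev y).map (psiRHom Λ g hg) = g ≫ N.obj.map q := by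
  rw [ev_psiRHom, phiMk_phiDesc]
  change g ≫ N.obj.map _ = _
  apply comp_map_eq g hg
  rw [preV_spec]

lemma phi_hom_ext {N : LinFun k Q C} {c : C} {φ ψ : (phi C Λ).obj c ⟶ N}
    (h : phiMk Λ c Λ.v ≫ (ev Λ.a).map φ = phiMk Λ c Λ.v ≫ (ev Λ.a).map ψ) : φ = ψ := by
  refine hom_ext' _ _ fun y => phi_ext Λ fun w => ?_
  have key : ∀ φ : (phi C Λ).obj c ⟶ N, phiMk Λ c w ≫ (ev y).map φ =
      (phiMk Λ c Λ.v ≫ (ev Λ.a).map φ) ≫ N.obj.map (preV Λ w) := by
    intro φ
    have h1 : (ev Λ.a).map φ ≫ N.obj.map (preV Λ w) =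
      ((phi C Λ).obj c).obj.map (preV Λ w) ≫ (ev y).map φ := (φ.hom.naturality _).symm
    rw [Category.assoc, h1, phiMk_map', preV_spec]
  rw [key, key, h]

lemma phiMk_v_r {N : LinFun k Q C} {c : C} (φ : (phi C Λ).obj c ⟶ N) :
    (phiMk Λ c Λ.v ≫ (ev Λ.a).map φ) ≫ N.obj.map Λ.r = 0 := by
  have h1 : (ev Λ.a).map φ ≫ N.obj.map Λ.r =
    ((phi C Λ).obj c).obj.map Λ.r ≫ (ev Λ.b).map φ := (φ.hom.naturality _).symm
  rw [Category.assoc, h1, phiMk_map', Λ.r_v, phiMk_zero, zero_comp]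

lemma phiMk_v_psiRHom {N : LinFun k Q C} {c : C} (g : c ⟶ N.obj.obj Λ.a)
    (hg : g ≫ N.obj.map Λ.r = 0) :
    phiMk Λ c Λ.v ≫ (ev Λ.a).map (psiRHom Λ g hg) = g := by
  have h := phiMk_psiRHom Λ g hg (𝟙 Λ.a)
  rwa [Repn.map_id_apply, CategoryTheory.Functor.map_id, Category.comp_id] at h

/-- the bijection of the adjunction -/
noncomputable def psiREquiv (c : C) (N : LinFun k Q C) :
    ((phi C Λ).obj c ⟶ N) ≃ (c ⟶ (psiR C Λ).obj N) where
  toFun φ := psiRLift Λ (phiMk Λ c Λ.v ≫ (ev Λ.a).map φ) (phiMk_v_r Λ φ)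
  invFun g := psiRHom Λ (g ≫ psiRι Λ N) (by rw [Category.assoc, psiRι_r, comp_zero])
  left_inv φ := by
    apply phi_hom_ext
    rw [phiMk_v_psiRHom, psiRLift_ι]
  right_inv g := by
    apply (cancel_mono (psiRι Λ N)).1
    rw [psiRLift_ι, phiMk_v_psiRHom]

lemma psiREquiv_ι {c : C} {N : LinFun k Q C} (φ : (phi C Λ).obj c ⟶ N) :
    psiREquiv Λ c N φ ≫ psiRι Λ N = phiMk Λ c Λ.v ≫ (ev Λ.a).map φ := psiRLift_ι _ _ _

lemma phiMk_psiREquiv_symm {c : C} {N : LinFun k Q C} (g : c ⟶ (psiR C Λ).obj N) :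
    phiMk Λ c Λ.v ≫ (ev Λ.a).map ((psiREquiv Λ c N).symm g) = g ≫ psiRι Λ N :=
  phiMk_v_psiRHom _ _ _

/-- **P3**: the adjunction `Φ ⊣ Ψ_R`. -/
noncomputable def psiRAdjunction : phi C Λ ⊣ psiR C Λ :=
  Adjunction.mkOfHomEquiv
    { homEquiv := psiREquiv Λ
      homEquiv_naturality_left_symm := fun {c c' N} f g => by
        apply phi_hom_ext
        rw [phiMk_psiREquiv_symm, Functor.map_comp, ← Category.assoc, phiMk_phi_map,
          Category.assoc, Category.assoc, phiMk_psiREquiv_symm]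
      homEquiv_naturality_right := fun {c N N'} φ f => by
        apply (cancel_mono (psiRι Λ N')).1
        rw [psiREquiv_ι, Category.assoc, psiR_map_ι, ← Category.assoc, psiREquiv_ι,
          Functor.map_comp, Category.assoc] }

theorem psiRAdj : Nonempty (phi C Λ ⊣ psiR C Λ) := ⟨psiRAdjunction Λ⟩

end psiR

section coind

variable {k : Type w₀} [Field k]

/-- quasi-inverse of a linear map over a field, with its kernel -/
lemma exists_quasi_inverse {E : Type w₁} [Field E] {V V' : Type w} [AddCommGroup V] [Module E V]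
    [Module.Finite E V] [AddCommGroup V'] [Module E V'] (D : V →ₗ[E] V') :
    ∃ (W : Type w) (_ : AddCommGroup W) (_ : Module E W) (_ : Module.Finite E W)
      (κ : W →ₗ[E] V) (ρ : V →ₗ[E] W) (σ : V' →ₗ[E] V), D.comp κ = 0 ∧
        ρ.comp κ = LinearMap.id ∧ κ.comp ρ + σ.comp D = LinearMap.id := by
  obtain ⟨s, hs⟩ := D.rangeRestrict.exists_rightInverse_of_surjective
    (LinearMap.range_rangeRestrict D)
  obtain ⟨p, hp⟩ := (LinearMap.range D).subtype.exists_leftInverse_of_injective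
    (Submodule.ker_subtype _)
  have h1 : D.comp ((s.comp p).comp D) = D := by
    ext x
    have e1 : p (D x) = D.rangeRestrict x := LinearMap.congr_fun hp (D.rangeRestrict x)
    have e2 : D.rangeRestrict (s (D.rangeRestrict x)) = D.rangeRestrict x :=
      LinearMap.congr_fun hs _
    simp only [LinearMap.comp_apply]
    rw [e1]
    exact congrArg Subtype.val e2
  refine ⟨LinearMap.ker D, inferInstance, inferInstance, inferInstance,
    (LinearMap.ker D).subtype,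
    LinearMap.codRestrict _ (LinearMap.id - (s.comp p).comp D) (fun x => ?_), s.comp p,
    ?_, ?_, ?_⟩
  · rw [LinearMap.mem_ker, LinearMap.sub_apply, map_sub, LinearMap.id_apply, sub_eq_zero]
    exact (LinearMap.congr_fun h1 x).symm
  · exact LinearMap.comp_ker_subtype D
  · ext ⟨x, hx⟩
    have hx' : D x = 0 := hx
    simp [hx']
  · ext x
    simp

variable {Q : Type u} [Category.{v} Q] [Preadditive Q] [Linear k Q]
variable {C : Type u'} [Category.{v'} C] [Abelian C] [Linear k C]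
variable (Λ : LamData.{w} k Q)

section

variable {E : Type w₁} [Field E] [Algebra k E] (i : SingleObj E ⥤ Q) [i.Additive]
    [i.Linear k] [∀ y, Module.Finite E (HomR i y)] (M : ModObj k E C)

/-- the dual of the precomposition with `r` -/
abbrev dR : Module.Dual E (HomR i Λ.a) →ₗ[E] Module.Dual E (HomR i Λ.b) :=
  (precompR i Λ.r).dualMap

/-- the inclusion `Ψ_R (coind M) → M ⊗ Q(a, base)^*` -/
noncomputable def coι : (psiR C Λ).obj ((coind C i).obj M) ⟶
    tens M (Module.Dual E (HomR i Λ.a)) :=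
  psiRι Λ ((coind C i).obj M)

instance : Mono (coι Λ i M) := inferInstanceAs (Mono (psiRι Λ ((coind C i).obj M)))

@[reassoc]
lemma coι_r : coι Λ i M ≫ tmap M (dR Λ i) = 0 := psiRι_r Λ ((coind C i).obj M)

/-- lift to `Ψ_R (coind M)` -/
noncomputable def coLift {X : C} (g : X ⟶ tens M (Module.Dual E (HomR i Λ.a)))
    (hg : g ≫ tmap M (dR Λ i) = 0) : X ⟶ (psiR C Λ).obj ((coind C i).obj M) :=
  psiRLift Λ (N := (coind C i).obj M) g hg

@[reassoc (attr := simp)]
lemma coLift_ι {X : C} (g : X ⟶ tens M (Module.Dual E (HomR i Λ.a)))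
    (hg : g ≫ tmap M (dR Λ i) = 0) : coLift Λ i M g hg ≫ coι Λ i M = g :=
  psiRLift_ι Λ (N := (coind C i).obj M) g hg

lemma coι_naturality {M N : ModObj k E C} (f : M ⟶ N) :
    (psiR C Λ).map ((coind C i).map f) ≫ coι Λ i N = coι Λ i M ≫ tmapL _ f :=
  psiR_map_ι Λ ((coind C i).map f)

variable {W : Type (max v w₁)} [AddCommGroup W] [Module E W] [Module.Finite E W]
  {κ : W →ₗ[E] Module.Dual E (HomR i Λ.a)} {ρ : Module.Dual E (HomR i Λ.a) →ₗ[E] W}
  {σ : Module.Dual E (HomR i Λ.b) →ₗ[E] Module.Dual E (HomR i Λ.a)}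

/-- the isomorphism `Ψ_R (coind M) ≅ M ⊗ W` -/
noncomputable def coIso (h0 : (dR Λ i).comp κ = 0) (h1 : ρ.comp κ = LinearMap.id)
    (h2 : κ.comp ρ + σ.comp (dR Λ i) = LinearMap.id) :
    (psiR C Λ).obj ((coind C i).obj M) ≅ tens M W where
  hom := coι Λ i M ≫ tmap M ρ
  inv := coLift Λ i M (tmap M κ) (by rw [← tmap_comp, h0, tmap_zero])
  hom_inv_id := by
    apply (cancel_mono (coι Λ i M)).1
    have h5 : tmap M ρ ≫ tmap M κ = 𝟙 _ - tmap M (dR Λ i) ≫ tmap M σ := by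
      rw [eq_sub_iff_add_eq, ← tmap_comp, ← tmap_comp, ← tmap_add, h2, tmap_id]
    rw [Category.assoc, Category.assoc, coLift_ι, h5, Preadditive.comp_sub, Category.comp_id,
      coι_r_assoc, zero_comp, sub_zero, Category.id_comp]
  inv_hom_id := by
    rw [coLift_ι_assoc, ← tmap_comp, h1, tmap_id]

/-- the isomorphism `coind ⋙ Ψ_R ≅ (- ⊗ W)` -/
noncomputable def coNatIso (h0 : (dR Λ i).comp κ = 0) (h1 : ρ.comp κ = LinearMap.id)
    (h2 : κ.comp ρ + σ.comp (dR Λ i) = LinearMap.id) :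
    coind C i ⋙ psiR C Λ ≅ tensL k E C W :=
  NatIso.ofComponents (fun M => coIso Λ i M h0 h1 h2) fun {M N} f => by
    change (psiR C Λ).map ((coind C i).map f) ≫ coι Λ i N ≫ tmap N ρ =
      (coι Λ i M ≫ tmap M ρ) ≫ tmapL W f
    rw [← Category.assoc, coι_naturality, Category.assoc, Category.assoc, tmap_tmapL]

end

/-- `Ψ_R` is exact on coinduced objects. -/
theorem coind_psiR {E : Type w₁} [Field E] [Algebra k E] (i : SingleObj E ⥤ Q) [i.Additive]
    [i.Linear k] [∀ y, Module.Finite E (HomR i y)] :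
    ∃ (W : Type (max v w₁)) (_ : AddCommGroup W) (_ : Module E W) (_ : Module.Finite E W),
      Nonempty (coind C i ⋙ psiR C Λ ≅ tensL k E C W) := by
  obtain ⟨W, i1, i2, i3, κ, ρ, σ, h0, h1, h2⟩ := exists_quasi_inverse (dR Λ i)
  exact ⟨W, i1, i2, i3, ⟨coNatIso Λ i h0 h1 h2⟩⟩

end coind

end Orl.LF
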