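import Pool.Agent.Work.MP_a6e60d_ag.LF.Tens

/-!
# Representations of `Q` over `E` and the functors `M ↦ M ⊗ W`
-/

open CategoryTheory Limits

attribute [-instance] CategoryTheory.catToReflQuiver

namespace Orl.LF

universe w v u v' u'

attribute [local instance] Abelian.hasFiniteBiproducts

/-- A finite-dimensional representation over the field `E` of the `k`-linear category `Q`. -/
structure Repn (k : Type*) [Field k] (Q : Type u) [Category.{v} Q] [Preadditive Q] [Linear k Q]
    (E : Type*) [Field E] [Algebra k E] where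
  /-- the vector spaces -/
  V : Q → Type w
  [acg : ∀ x, AddCommGroup (V x)]
  [mod : ∀ x, Module E (V x)]
  [fin : ∀ x, Module.Finite E (V x)]
  /-- the action of the morphisms of `Q` -/
  map : ∀ {x y : Q}, (x ⟶ y) → (V x →ₗ[E] V y)
  map_id : ∀ x, map (𝟙 x) = LinearMap.id
  map_comp : ∀ {x y z : Q} (f : x ⟶ y) (g : y ⟶ z), map (f ≫ g) = (map g).comp (map f)
  map_add : ∀ {x y : Q} (f g : x ⟶ y), map (f + g) = map f + map g
  map_smul : ∀ {x y : Q} (r : k) (f : x ⟶ y), map (r • f) = algebraMap k E r • map f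

attribute [instance] Repn.acg Repn.mod Repn.fin

section

variable {k : Type*} [Field k] {Q : Type u} [Category.{v} Q] [Preadditive Q] [Linear k Q]
variable {E : Type*} [Field E] [Algebra k E]
variable {C : Type u'} [Category.{v'} C] [Abelian C] [Linear k C]

namespace Repn

lemma map_id_apply (W : Repn.{w} k Q E) (x : Q) (v : W.V x) : W.map (𝟙 x) v = v := by
  rw [W.map_id, LinearMap.id_apply]

lemma map_comp_apply (W : Repn.{w} k Q E) {x y z : Q} (f : x ⟶ y) (g : y ⟶ z) (v : W.V x) :
    W.map (f ≫ g) v = W.map g (W.map f v) := by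
  rw [W.map_comp, LinearMap.comp_apply]

/-- morphisms of representations -/
@[ext]
structure Hom (W W' : Repn.{w} k Q E) where
  /-- the linear maps -/
  app : ∀ x, W.V x →ₗ[E] W'.V x
  naturality : ∀ {x y : Q} (f : x ⟶ y) (v : W.V x), app y (W.map f v) = W'.map f (app x v)

end Repn

/-- The `k`-linear functor `x ↦ M ⊗ W x`. -/
noncomputable def tensR (M : ModObj k E C) (W : Repn.{w} k Q E) : LinFun k Q C where
  obj :=
    { obj := fun x => tens M (W.V x)
      map := fun f => tmap M (W.map f)
      map_id := fun x => by rw [W.map_id, tmap_id]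
      map_comp := fun f g => by rw [W.map_comp, tmap_comp] }
  property := by
    rw [isLin_iff]
    refine ⟨fun f g => ?_, fun f r => ?_⟩
    · change tmap M (W.map (f + g)) = tmap M (W.map f) + tmap M (W.map g)
      rw [W.map_add, tmap_add]
    · change tmap M (W.map (r • f)) = r • tmap M (W.map f)
      rw [W.map_smul, tmap_algebraMap_smul]

lemma tensR_obj (M : ModObj k E C) (W : Repn.{w} k Q E) (x : Q) :
    (tensR M W).obj.obj x = tens M (W.V x) := rfl

lemma tensR_map (M : ModObj k E C) (W : Repn.{w} k Q E) {x y : Q} (f : x ⟶ y) :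
    (tensR M W).obj.map f = tmap M (W.map f) := rfl

/-- a morphism out of `M ⊗ W`, from a family of maps `W x → Hom(M, N x)` -/
noncomputable def tensRDesc (M : ModObj k E C) (W : Repn.{w} k Q E) (N : LinFun k Q C)
    (φ : ∀ x, W.V x →+ (M.pt ⟶ N.obj.obj x))
    (h : ∀ x (e : E) (v : W.V x), φ x (e • v) = M.act e ≫ φ x v)
    (hn : ∀ {x y : Q} (f : x ⟶ y) (v : W.V x), φ y (W.map f v) = φ x v ≫ N.obj.map f) :
    tensR M W ⟶ N :=
  ObjectProperty.homMk
    { app := fun x => tdesc M (φ x)
      naturality := fun x y f => by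
        refine tens_ext M fun v => ?_
        change tmk M v ≫ tmap M (W.map f) ≫ tdesc M (φ y) = tmk M v ≫ tdesc M (φ x) ≫ N.obj.map f
        rw [tmk_tmap_assoc, tmk_tdesc M _ (h y), tmk_tdesc_assoc M _ (h x), hn] }

lemma tensRDesc_app (M : ModObj k E C) (W : Repn.{w} k Q E) (N : LinFun k Q C)
    (φ : ∀ x, W.V x →+ (M.pt ⟶ N.obj.obj x))
    (h : ∀ x (e : E) (v : W.V x), φ x (e • v) = M.act e ≫ φ x v)
    (hn : ∀ {x y : Q} (f : x ⟶ y) (v : W.V x), φ y (W.map f v) = φ x v ≫ N.obj.map f) (x : Q) :
    (ev x).map (tensRDesc M W N φ h hn) = tdesc M (φ x) := rfl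

lemma tmk_tensRDesc (M : ModObj k E C) (W : Repn.{w} k Q E) (N : LinFun k Q C)
    (φ : ∀ x, W.V x →+ (M.pt ⟶ N.obj.obj x))
    (h : ∀ x (e : E) (v : W.V x), φ x (e • v) = M.act e ≫ φ x v)
    (hn : ∀ {x y : Q} (f : x ⟶ y) (v : W.V x), φ y (W.map f v) = φ x v ≫ N.obj.map f) (x : Q)
    (v : W.V x) : tmk M v ≫ (ev x).map (tensRDesc M W N φ h hn) = φ x v := by
  rw [tensRDesc_app, tmk_tdesc M _ (h x)]

lemma tensR_hom_ext {M : ModObj k E C} {W : Repn.{w} k Q E} {N : LinFun k Q C}
    {f g : tensR M W ⟶ N} (h : ∀ x (v : W.V x), tmk M v ≫ (ev x).map f = tmk M v ≫ (ev x).map g) :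
    f = g :=
  hom_ext' _ _ fun x => tens_ext M fun v => h x v

/-- functoriality in the module object -/
noncomputable def tensRMapL {M N : ModObj k E C} (f : M ⟶ N) (W : Repn.{w} k Q E) :
    tensR M W ⟶ tensR N W :=
  ObjectProperty.homMk
    { app := fun x => tmapL (W.V x) f
      naturality := fun x y g => tmap_tmapL f (W.map g) }

lemma ev_tensRMapL {M N : ModObj k E C} (f : M ⟶ N) (W : Repn.{w} k Q E) (x : Q) :
    (ev x).map (tensRMapL f W) = tmapL (W.V x) f := rfl

/-- functoriality in the representation -/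
noncomputable def tensRMapR (M : ModObj k E C) {W W' : Repn.{w} k Q E} (g : W.Hom W') :
    tensR M W ⟶ tensR M W' :=
  ObjectProperty.homMk
    { app := fun x => tmap M (g.app x)
      naturality := fun x y f => by
        change tmap M (W.map f) ≫ tmap M (g.app y) = tmap M (g.app x) ≫ tmap M (W'.map f)
        rw [← tmap_comp, ← tmap_comp]
        refine congrArg _ (LinearMap.ext fun v => g.naturality f v) }

lemma ev_tensRMapR (M : ModObj k E C) {W W' : Repn.{w} k Q E} (g : W.Hom W') (x : Q) :
    (ev x).map (tensRMapR M g) = tmap M (g.app x) := rfl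

variable (C) in
/-- The functor `M ↦ M ⊗ W`. -/
noncomputable def tensRFun (W : Repn.{w} k Q E) : ModObj k E C ⥤ LinFun k Q C where
  obj M := tensR M W
  map f := tensRMapL f W
  map_id M := hom_ext' _ _ fun x => by
    rw [ev_tensRMapL, tmapL_id]
    rfl
  map_comp f g := hom_ext' _ _ fun x => by
    rw [ev_tensRMapL, tmapL_comp]
    rfl

instance (W : Repn.{w} k Q E) : (tensRFun C W).Additive where
  map_add {_ _ f g} := hom_ext' _ _ fun x => tmapL_add (W.V x) f g

instance (W : Repn.{w} k Q E) : (tensRFun C W).Linear k where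
  map_smul f r := hom_ext' _ _ fun x => tmapL_smul (W.V x) r f

lemma tensRFun_shortExact (W : Repn.{w} k Q E) {S : ShortComplex (ModObj k E C)}
    (hS : S.ShortExact) : (S.map (tensRFun C W)).ShortExact := by
  rw [shortExact_iff]
  intro x
  exact hS.map_of_exact (tensL k E C (W.V x))

lemma tensRFun_exact (W : Repn.{w} k Q E) : PreservesFiniteLimits (tensRFun C W) ∧
    PreservesFiniteColimits (tensRFun C W) :=
  ((tensRFun C W).exact_tfae.out 0 3).1 fun _ hS => tensRFun_shortExact W hS

instance (W : Repn.{w} k Q E) : PreservesFiniteLimits (tensRFun C W) := (tensRFun_exact W).1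

instance (W : Repn.{w} k Q E) : PreservesFiniteColimits (tensRFun C W) := (tensRFun_exact W).2

variable (C) in
/-- a morphism of representations as a natural transformation -/
noncomputable def tensRTrans {W W' : Repn.{w} k Q E} (g : W.Hom W') :
    tensRFun C W ⟶ tensRFun C W' where
  app M := tensRMapR M g
  naturality M N f := hom_ext' _ _ fun x => (tmap_tmapL f (g.app x)).symm

lemma tensRTrans_app {W W' : Repn.{w} k Q E} (g : W.Hom W') (M : ModObj k E C) :
    (tensRTrans C g).app M = tensRMapR M g := rfl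

/-- A short exact sequence of representations gives short exact sequences. -/
lemma tens_shortExact (M : ModObj k E C) {V V' V'' : Type w} [AddCommGroup V] [Module E V]
    [Module.Finite E V] [AddCommGroup V'] [Module E V'] [Module.Finite E V']
    [AddCommGroup V''] [Module E V''] [Module.Finite E V''] (f : V →ₗ[E] V') (g : V' →ₗ[E] V'')
    (hf : Function.Injective f) (hg : Function.Surjective g) (h : Function.Exact f g) :
    (ShortComplex.mk (tmap M f) (tmap M g) (by
      rw [← tmap_comp, h.linearMap_comp_eq_zero, tmap_zero])).ShortExact := by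
  obtain ⟨r, hr⟩ := f.exists_leftInverse_of_injective (LinearMap.ker_eq_bot.2 hf)
  obtain ⟨s, hs⟩ := g.exists_rightInverse_of_surjective (LinearMap.range_eq_top.2 hg)
  let s' : V'' →ₗ[E] V' := s - f.comp (r.comp s)
  have h1 : g.comp s' = LinearMap.id := by
    ext v
    have := LinearMap.congr_fun hs v
    simp only [s', LinearMap.comp_apply, LinearMap.sub_apply, map_sub, LinearMap.id_apply] at this ⊢
    rw [this, h.apply_apply_eq_zero, sub_zero]
  have h2 : r.comp s' = 0 := by
    ext v
    have := LinearMap.congr_fun hr (r (s v))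
    simp only [s', LinearMap.comp_apply, LinearMap.sub_apply, map_sub, LinearMap.id_apply,
      LinearMap.zero_apply] at this ⊢
    rw [this, sub_self]
  have h3 : f.comp r + s'.comp g = LinearMap.id := by
    ext v
    have hk : g (v - s' (g v)) = 0 := by
      rw [map_sub, ← LinearMap.comp_apply g s', h1, LinearMap.id_apply, sub_self]
    obtain ⟨u, hu⟩ := (h _).1 hk
    have h4 : r v = u := by
      have := congrArg r hu
      rw [← LinearMap.comp_apply r f, hr, LinearMap.id_apply, map_sub,
        ← LinearMap.comp_apply r s', h2, LinearMap.zero_apply, sub_zero] at this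
      exact this.symm
    simp only [LinearMap.add_apply, LinearMap.comp_apply, LinearMap.id_apply]
    rw [h4, hu, sub_add_cancel]
  refine ShortComplex.Splitting.shortExact
    { r := tmap M r
      s := tmap M s'
      f_r := ?_
      s_g := ?_
      id := ?_ }
  · change tmap M f ≫ tmap M r = 𝟙 _
    rw [← tmap_comp, hr, tmap_id]
  · change tmap M s' ≫ tmap M g = 𝟙 _
    rw [← tmap_comp, h1, tmap_id]
  · change tmap M r ≫ tmap M f + tmap M g ≫ tmap M s' = 𝟙 _
    rw [← tmap_comp, ← tmap_comp, ← tmap_add, h3, tmap_id]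

end

end Orl.LF
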