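import Pool.Agent.Work.MP_a6e60d_ag.LF.LamData
import Pool.Agent.Work.MP_f714fc_ag.Abs.ExtAdj

/-! Statements of the pieces of LF (each to be proved in its own file; not imported by anything). -/

open CategoryTheory Limits Abelian Pretriangulated

attribute [-instance] CategoryTheory.catToReflQuiver

namespace Orl.LF.Tasks

universe w w' v v' u u'

/-- **X1** (file LF/ExtFF.lean). -/
theorem extFF {C : Type u} [Category.{v} C] [Abelian C] [HasExt.{w} C]
    {A : Type u'} [Category.{v'} A] [Abelian A] [HasExt.{w'} A]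
    (Φ : C ⥤ A) [Φ.Additive] [PreservesFiniteLimits Φ] [PreservesFiniteColimits Φ]
    (ea eb ef : A ⥤ C) [ea.Additive] [PreservesFiniteLimits ea] [PreservesFiniteColimits ea]
    [eb.Additive] [PreservesFiniteLimits eb] [PreservesFiniteColimits eb]
    [ef.Additive] [PreservesFiniteLimits ef] [PreservesFiniteColimits ef]
    (la lb lf : C ⥤ A) [la.Additive] [PreservesFiniteLimits la] [PreservesFiniteColimits la]
    [lb.Additive] [PreservesFiniteLimits lb] [PreservesFiniteColimits lb]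
    [lf.Additive] [PreservesFiniteLimits lf] [PreservesFiniteColimits lf]
    (adja : la ⊣ ea) (adjb : lb ⊣ eb) (adjf : lf ⊣ ef)
    (α : ea ⟶ eb) (β : eb ⟶ ef) (ρ : lb ⟶ la) (σ : lf ⟶ lb) (π : la ⟶ Φ)
    (θ : 𝟭 C ⟶ Φ ⋙ ea)
    (hα : ∀ c, adjb.unit.app c ≫ eb.map (ρ.app c) = adja.unit.app c ≫ α.app (la.obj c))
    (hβ : ∀ c, adjf.unit.app c ≫ ef.map (σ.app c) = adjb.unit.app c ≫ β.app (lb.obj c))
    (hθ : ∀ c, adja.unit.app c ≫ ea.map (π.app c) = θ.app c)
    (hπ : ∀ c, Epi (π.app c)) (hσ : ∀ c, Mono (σ.app c))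
    (hρπ : ∀ c, ρ.app c ≫ π.app c = 0) (hσρ : ∀ c, σ.app c ≫ ρ.app c = 0)
    (exρπ : ∀ c, (ShortComplex.mk (ρ.app c) (π.app c) (hρπ c)).Exact)
    (exσρ : ∀ c, (ShortComplex.mk (σ.app c) (ρ.app c) (hσρ c)).Exact)
    (contr : ∀ c, ∃ (h₀ : ea.obj (Φ.obj c) ⟶ c) (h₁ : eb.obj (Φ.obj c) ⟶ ea.obj (Φ.obj c))
      (h₂ : ef.obj (Φ.obj c) ⟶ eb.obj (Φ.obj c)), θ.app c ≫ h₀ = 𝟙 c ∧
        (h₀ ≫ (show c ⟶ ea.obj (Φ.obj c) from θ.app c)) + α.app (Φ.obj c) ≫ h₁ = 𝟙 _ ∧
        h₁ ≫ α.app (Φ.obj c) + β.app (Φ.obj c) ≫ h₂ = 𝟙 _ ∧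
        h₂ ≫ β.app (Φ.obj c) = 𝟙 _)
    (c c' : C) (n : ℕ) :
    Function.Bijective (fun x : Ext.{w} c c' n => (x.mapExactFunctor Φ : Ext.{w'} _ _ n)) := by
  sorry

/-- **X2** (file LF/Coind.lean): coinduction. -/
theorem coindAdj_exists {k : Type*} [Field k] {Q : Type u} [Category.{v} Q] [Preadditive Q]
    [Linear k Q] {E : Type*} [Field E] [Algebra k E] {C : Type u'} [Category.{v'} C] [Abelian C]
    [Linear k C] (i : SingleObj E ⥤ Q) [i.Additive] [i.Linear k]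
    [∀ y, Module.Finite E (HomR i y)] :
    Nonempty ((res C i : LinFun k Q C ⥤ ModObj k E C) ⊣ tensRFun C (repR i)) := by
  sorry

/-- **X3** (file LF/Sep.lean): for a finite separable extension `E/k` the forgetful functor
`pt : ModObj k E C ⥤ C` is injective on Ext. -/
theorem ext_injective_of_separable {k : Type*} [Field k] {E : Type} [Field E] [Algebra k E]
    [Module.Finite k E] [Algebra.IsSeparable k E]
    {C : Type u'} [Category.{v'} C] [Abelian C] [Linear k C] [HasExt.{w} C]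
    [HasExt.{w'} (ModObj k E C)] (M N : ModObj k E C) (n : ℕ) :
    Function.Injective (fun x : Ext.{w'} M N n =>
      (x.mapExactFunctor (ev (SingleObj.star E)) : Ext.{w} M.pt N.pt n)) := by
  sorry

end Orl.LF.Tasks
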