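import Pool.Agent.Work.MP_a6e60d_ag.LF.TwDef

/-! Statements about `Tw` (file LF/Tw.lean); not imported by anything. -/

open CategoryTheory Limits Abelian Pretriangulated ZeroObject

attribute [-instance] CategoryTheory.catToReflQuiver

namespace Orl.LF.Tasks

universe t w v u

variable {A : Type u} [Category.{v} A] [Abelian A]

/-- induction over `Tw` in the homotopy category -/
theorem tw_induction {B : ObjectProperty A}
    (S : ObjectProperty (HomotopyCategory A (ComplexShape.up ℤ))) [S.IsTriangulated]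
    [S.IsClosedUnderIsomorphisms]
    (h : ∀ (n : ℤ) (X : A), B X → S ((HomotopyCategory.singleFunctor A n).obj X))
    (K : CochainComplex A ℤ) (hK : Tw B K) :
    S ((HomotopyCategory.quotient A (ComplexShape.up ℤ)).obj K) := by
  sorry

/-- **T2** -/
theorem tw_bijective [HasExt.{w} A] [HasDerivedCategory.{t} A] {B : ObjectProperty A}
    (hB : ∀ X Y, B X → B Y → ∀ n : ℕ, 0 < n → Subsingleton (Ext.{w} X Y n))
    (K L : CochainComplex A ℤ) (hK : Tw B K) (hL : Tw B L) :
    Function.Bijective (fun f : (HomotopyCategory.quotient A (ComplexShape.up ℤ)).obj K ⟶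
      (HomotopyCategory.quotient A (ComplexShape.up ℤ)).obj L =>
        (DerivedCategory.Qh (C := A)).map f) := by
  sorry

/-- **T3** -/
theorem exists_tw [HasExt.{w} A] [HasDerivedCategory.{t} A] {B : ObjectProperty A}
    (hB : ∀ X Y, B X → B Y → ∀ n : ℕ, 0 < n → Subsingleton (Ext.{w} X Y n)) (hne : B.Nonempty)
    (N : DerivedCategory A)
    (hN : ObjectProperty.triangEnvelope (fun M : DerivedCategory A =>
      ∃ X, B X ∧ Nonempty (M ≅ (DerivedCategory.singleFunctor A 0).obj X)) N) :
    ∃ P : CochainComplex A ℤ, Tw B P ∧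
      Nonempty (DerivedCategory.Q.obj P ≅ N ⊞ (N⟦(1 : ℤ)⟧)) := by
  sorry

/-- general lemma for T3: a direct summand `N` of an object of a triangulated subcategory `S` has
`N ⊞ N⟦1⟧` in `S` -/
theorem biprod_shift_of_retract {T : Type u} [Category.{v} T] [HasZeroObject T] [Preadditive T]
    [HasShift T ℤ] [∀ n : ℤ, (shiftFunctor T n).Additive] [Pretriangulated T]
    [HasBinaryBiproducts T]
    (S : ObjectProperty T) [S.IsTriangulated] [S.IsClosedUnderIsomorphisms] {N M : T}
    (r : Retract N M) (hM : S M) : S (N ⊞ (N⟦(1 : ℤ)⟧)) := by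
  sorry

/-- **T4** -/
theorem tw_finite {B : ObjectProperty A} (K : CochainComplex A ℤ) (hK : Tw B K) :
    {n | ¬ IsZero (K.X n)}.Finite := by
  sorry

/-- **T5**: the terms are in every property closed under isomorphisms, zero and biproducts -/
theorem tw_terms {B : ObjectProperty A} (R : ObjectProperty A) [R.IsClosedUnderIsomorphisms]
    (h0 : ∀ X, IsZero X → R X) (hB : B ≤ R) (hbi : ∀ X Y, R X → R Y → R (X ⊞ Y))
    (K : CochainComplex A ℤ) (hK : Tw B K) (n : ℤ) : R (K.X n) := by
  sorry

/-- **T6** -/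
theorem tw_hom_finite {k : Type*} [Field k] [Linear k A] {B : ObjectProperty A}
    (hB : ∀ X Y, B X → B Y → Module.Finite k (X ⟶ Y)) (K L : CochainComplex A ℤ) (hK : Tw B K)
    (hL : Tw B L) (p q : ℤ) : Module.Finite k (K.X p ⟶ L.X q) := by
  sorry

end Orl.LF.Tasks
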