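import Pool.Agent.Work.MP_a6e60d_ag.LF.Phi
import Pool.Agent.Work.MP_a6e60d_ag.LF.Coind
import Pool.Agent.Work.MP_a6e60d_ag.LF.Lam
import Pool.Agent.Work.MP_a6e60d_ag.LF.ExtFF
import Pool.Agent.Work.MP_a6e60d_ag.Q.Thk

/-! Statements of the pieces P1 - P7 of LF (each proved in its own file; not imported by
anything). -/

open CategoryTheory Limits Abelian Pretriangulated

attribute [-instance] CategoryTheory.catToReflQuiver

namespace Orl.LF.Tasks

open Orl.Gal

universe t w w₀ w₁ w₂ w₃ w' v v₁ v₂ v' u u₁ u₂ u'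

attribute [local instance] Abelian.hasFiniteBiproducts

section P1

variable {k : Type w₀} [Field k] {Q : Type u} [Category.{v} Q] [Preadditive Q] [Linear k Q]
variable {C : Type u'} [Category.{v'} C] [Abelian C] [Linear k C]
variable (Λ : LamData.{w} k Q)

/-- **P1** (file LF/PhiExt.lean): from `extFF` with `ea = ev a`, `la = triv ⋙ ind (k at a)`, ... -/
theorem phi_ext_bijective [HasExt.{w₁} C] [HasExt.{w₂} (LinFun k Q C)] (c c' : C) (n : ℕ) :
    Function.Bijective (fun x : Ext.{w₁} c c' n =>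
      (x.mapExactFunctor (phi C Λ) : Ext.{w₂} _ _ n)) := by
  sorry

/-- **P5** (file LF/PhiGen.lean): `Φ G` is in the thick closure of the `ind_x (G ⊗ E_x)`. -/
theorem phi_gen {E₁ E₂ E₃ : Type w₀} [Field E₁] [Field E₂] [Field E₃] [Algebra k E₁]
    [Algebra k E₂] [Algebra k E₃] [FiniteDimensional k E₁] [FiniteDimensional k E₂]
    [FiniteDimensional k E₃] (i₁ : SingleObj E₁ ⥤ Q) [i₁.Additive] [i₁.Linear k]
    [∀ y, Module.Finite E₁ (HomL i₁ y)]
    (i₂ : SingleObj E₂ ⥤ Q) [i₂.Additive] [i₂.Linear k] [∀ y, Module.Finite E₂ (HomL i₂ y)]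
    (i₃ : SingleObj E₃ ⥤ Q) [i₃.Additive] [i₃.Linear k] [∀ y, Module.Finite E₃ (HomL i₃ y)]
    (h₁ : base i₁ = Λ.a) (h₂ : base i₂ = Λ.b) (h₃ : base i₃ = Λ.f)
    (P : ObjectProperty (LinFun k Q C)) (hP : Orl.Q.Thk P) (G : C)
    (H₁ : P ((ind C i₁).obj ((indC k C E₁).obj G)))
    (H₂ : P ((ind C i₂).obj ((indC k C E₂).obj G)))
    (H₃ : P ((ind C i₃).obj ((indC k C E₃).obj G))) : P ((phi C Λ).obj G) := by
  sorry

end P1

section P2

variable {k : Type w₀} [Field k] {Q : Type u} [Category.{v} Q] [Preadditive Q] [Linear k Q]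
variable {C : Type u'} [Category.{v'} C] [Abelian C] [Linear k C]
variable (Λ : LamData.{w} k Q)

variable (C) in
/-- **P2** (file LF/Psi.lean): `Ψ N = coker (N(s') : N_b → N_f)` -/
noncomputable def psi : LinFun k Q C ⥤ C where
  obj N := cokernel (N.obj.map Λ.s')
  map {N N'} f := cokernel.map _ _ ((ev Λ.b).map f) ((ev Λ.f).map f) (f.hom.naturality _)
  map_id N := by
    rw [← cancel_epi (cokernel.π _)]
    rw [cokernel.π_desc, CategoryTheory.Functor.map_id, Category.comp_id]
    exact Category.id_comp _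
  map_comp f g := by
    rw [← cancel_epi (cokernel.π _), cokernel.π_desc, cokernel.π_desc_assoc, Category.assoc,
      cokernel.π_desc, Functor.map_comp, Category.assoc]

/-- Also: `psi` is additive and `k`-linear. -/
theorem psiAdj : Nonempty (psi C Λ ⊣ phi C Λ) := by
  sorry

/-- `Ψ` is exact on induced objects: `Ψ (ind M) = M ⊗ W` naturally in `M`, where `W` is the
cokernel of `s' ∘ : Q(x, b) → Q(x, f)`, a finite-dimensional `E`-vector space. -/
theorem ind_psi {E : Type*} [Field E] [Algebra k E] (i : SingleObj E ⥤ Q) [i.Additive]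
    [i.Linear k] [∀ y, Module.Finite E (HomL i y)] :
    ∃ (W : Type v) (_ : AddCommGroup W) (_ : Module E W) (_ : Module.Finite E W),
      Nonempty (ind C i ⋙ psi C Λ ≅ tensL k E C W) := by
  sorry

end P2

section P6

variable {M : Type u₁} [Category.{v₁} M] [Abelian M] [HasExt.{w₁} M]
  {A : Type u₂} [Category.{v₂} A] [Abelian A] [HasExt.{w₂} A]
  {C : Type u'} [Category.{v'} C] [Abelian C] [HasExt.{w₃} C]

/-- **P6** (file LF/ExtComp.lean), abstract. -/
theorem ext_unit_bijective (I : M ⥤ A) (R : A ⥤ M) (adj₁ : I ⊣ R) [I.Additive]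
    [PreservesFiniteLimits I] [PreservesFiniteColimits I] [R.Additive] [PreservesFiniteLimits R]
    [PreservesFiniteColimits R] (Ψ : A ⥤ C) (Φ : C ⥤ A) (adj : Ψ ⊣ Φ) [Φ.Additive]
    [PreservesFiniteLimits Φ] [PreservesFiniteColimits Φ]
    [Ψ.Additive] [PreservesFiniteLimits (I ⋙ Ψ)] [PreservesFiniteColimits (I ⋙ Ψ)] (m : M) (c : C)
    (n : ℕ) :
    Function.Bijective (fun x : Ext.{w₃} (Ψ.obj (I.obj m)) c n =>
      ((Ext.mk₀ (adj.unit.app (I.obj m))).comp
        (x.mapExactFunctor Φ : Ext.{w₂} _ _ n) (zero_add n) : Ext.{w₂} _ _ n)) := by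
  sorry

/-- **P6'**, the dual. -/
theorem ext_counit_bijective (R : A ⥤ M) (J : M ⥤ A) (adj₁ : R ⊣ J) [J.Additive]
    [PreservesFiniteLimits J] [PreservesFiniteColimits J] [R.Additive] [PreservesFiniteLimits R]
    [PreservesFiniteColimits R] (Φ : C ⥤ A) (Ψ : A ⥤ C) (adj : Φ ⊣ Ψ) [Φ.Additive]
    [PreservesFiniteLimits Φ] [PreservesFiniteColimits Φ]
    [Ψ.Additive] [PreservesFiniteLimits (J ⋙ Ψ)] [PreservesFiniteColimits (J ⋙ Ψ)] (m : M) (c : C)
    (n : ℕ) :
    Function.Bijective (fun x : Ext.{w₃} c (Ψ.obj (J.obj m)) n =>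
      ((x.mapExactFunctor Φ : Ext.{w₂} _ _ n).comp
        (Ext.mk₀ (adj.counit.app (J.obj m))) (add_zero n) : Ext.{w₂} _ _ n)) := by
  sorry

end P6

section P3

variable {k : Type w₀} [Field k] {Q : Type u} [Category.{v} Q] [Preadditive Q] [Linear k Q]
variable {C : Type u'} [Category.{v'} C] [Abelian C] [Linear k C]
variable (Λ : LamData.{w} k Q)

variable (C) in
/-- **P3** (file LF/PsiR.lean): `Ψ_R N = ker (N(r) : N_a → N_b)` -/
noncomputable def psiR : LinFun k Q C ⥤ C where
  obj N := kernel (N.obj.map Λ.r)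
  map {N N'} f := kernel.map _ _ ((ev Λ.a).map f) ((ev Λ.b).map f) (f.hom.naturality _)
  map_id N := by
    rw [← cancel_mono (kernel.ι _), kernel.lift_ι, CategoryTheory.Functor.map_id]
    exact (Category.comp_id _).trans (Category.id_comp _).symm
  map_comp f g := by
    rw [← cancel_mono (kernel.ι _), kernel.lift_ι, Category.assoc, kernel.lift_ι,
      kernel.lift_ι_assoc, Functor.map_comp, Category.assoc]

/-- Also: `psiR` is additive and `k`-linear. -/
theorem psiRAdj : Nonempty (phi C Λ ⊣ psiR C Λ) := by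
  sorry

/-- `Ψ_R` is exact on coinduced objects. -/
theorem coind_psiR {E : Type*} [Field E] [Algebra k E] (i : SingleObj E ⥤ Q) [i.Additive]
    [i.Linear k] [∀ y, Module.Finite E (HomR i y)] :
    ∃ (W : Type (max v w₁)) (_ : AddCommGroup W) (_ : Module E W) (_ : Module.Finite E W),
      Nonempty (coind C i ⋙ psiR C Λ ≅ tensL k E C W) := by
  sorry

end P3

section P4

variable {k : Type w₀} [Field k] {Q : Type u} [Category.{v} Q] [Preadditive Q] [Linear k Q]
variable {C : Type u'} [Category.{v'} C] [Abelian C] [Linear k C]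
  [HasExt.{w₁} C] [HasExt.{w₂} (LinFun k Q C)]
variable {E E' : Type w₀} [Field E] [Field E'] [Algebra k E] [Algebra k E']
  [FiniteDimensional k E] [FiniteDimensional k E']
  (i : SingleObj E ⥤ Q) [i.Additive] [i.Linear k] [∀ y, Module.Finite E (HomL i y)]
  (j : SingleObj E' ⥤ Q) [j.Additive] [j.Linear k] [∀ y, Module.Finite E' (HomL j y)]

/-- **P4** (file LF/Blocks.lean) (b) -/
theorem block_ext_of_pt [Algebra.IsSeparable k E] (M : ModObj k E C) (N : ModObj k E' C) (n : ℕ)
    (h : Subsingleton (Ext.{w₁} M.pt N.pt n)) :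
    Subsingleton (Ext.{w₂} ((ind C i).obj M) ((ind C j).obj N) n) := by
  sorry

/-- (c) -/
theorem block_ext_of_zero (hij : ∀ q : base j ⟶ base i, q = 0) (M : ModObj k E C)
    (N : ModObj k E' C) (n : ℕ) :
    Subsingleton (Ext.{w₂} ((ind C i).obj M) ((ind C j).obj N) n) := by
  sorry

/-- (d) -/
theorem block_ext_self [i.Full] [i.Faithful] [HasExt.{w₃} (ModObj k E C)] (M N : ModObj k E C)
    (n : ℕ) (h : Subsingleton (Ext.{w₃} M N n)) :
    Subsingleton (Ext.{w₂} ((ind C i).obj M) ((ind C i).obj N) n) := by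
  sorry

/-- (d') `ind` is fully faithful -/
theorem ind_full [i.Full] [i.Faithful] :
    (ind (k := k) C i).Full ∧ (ind (k := k) C i).Faithful := by
  sorry

/-- (e) -/
theorem block_hom_finite (M : ModObj k E C) (N : ModObj k E' C)
    (h : Module.Finite k (M.pt ⟶ N.pt)) :
    Module.Finite k ((ind C i).obj M ⟶ (ind C j).obj N) := by
  sorry

/-- (f) -/
theorem block_hom_zero (hij : ∀ q : base j ⟶ base i, q = 0) (M : ModObj k E C)
    (N : ModObj k E' C) (f : (ind C i).obj M ⟶ (ind C j).obj N) : f = 0 := by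
  sorry

end P4

section P7

variable {k F L : Type w₀} [Field k] [Field F] [Field L] [Algebra k F] [Algebra k L]
variable {C : Type u'} [Category.{v'} C] [Abelian C] [Linear k C]

/-- **P7** (file LF/CoRes.lean): simple objects and their coresolutions. -/
theorem coind_gen (D : Dat k F L) (S : ObjectProperty C) (hS : Orl.Q.Thk S)
    (P : ObjectProperty (LinFun k (Ob D) C)) (hiso : P.IsClosedUnderIsomorphisms)
    (h1 : ∀ {S : ShortComplex (LinFun k (Ob D) C)}, S.ShortExact → P S.X₂ → P S.X₃ → P S.X₁)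
    (h2 : ∀ {S : ShortComplex (LinFun k (Ob D) C)}, S.ShortExact → P S.X₁ → P S.X₃ → P S.X₂)
    (ha : ∀ M : ModObj k F C, S M.pt → P ((coind C (Ob.ia D)).obj M))
    (hb : ∀ M : ModObj k L C, S M.pt → P ((coind C (Ob.ib D)).obj M))
    (hf : ∀ M : ModObj k F C, S M.pt → P ((coind C (Ob.iff D)).obj M))
    (N : LinFun k (Ob D) C) (hN : ∀ x, S (N.obj.obj x)) : P N := by
  sorry

end P7

end Orl.LF.Tasks
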