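import Pool.Agent.Work.MP_a6e60d_ag.LF.LinFun

/-!
# The tensor product of an `E`-module object with a finite-dimensional `E`-vector space
-/

open CategoryTheory Limits

attribute [-instance] CategoryTheory.catToReflQuiver

namespace Orl.LF

universe w v u v' u'

attribute [local instance] Abelian.hasFiniteBiproducts

section tens

variable {k : Type*} [Field k] {E : Type*} [Field E] [Algebra k E]
variable {C : Type u'} [Category.{v'} C] [Abelian C] [Linear k C]

section obj

variable (M : ModObj k E C) (V : Type w) [AddCommGroup V] [Module E V]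

/-- The object `M ⊗ V` of `C`, for an `E`-module object `M` and a finite-dimensional `E`-vector
space `V`. -/
noncomputable def tens : C := ⨁ fun _ : Fin (Module.finrank E V) => M.pt

/-- the inclusions of the summands -/
noncomputable def tin (i : Fin (Module.finrank E V)) : M.pt ⟶ tens M V :=
  biproduct.ι (fun _ : Fin (Module.finrank E V) => M.pt) i

/-- the projections to the summands -/
noncomputable def tpr (i : Fin (Module.finrank E V)) : tens M V ⟶ M.pt :=
  biproduct.π (fun _ : Fin (Module.finrank E V) => M.pt) i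

@[reassoc]
lemma tin_tpr_self (i : Fin (Module.finrank E V)) : tin M V i ≫ tpr M V i = 𝟙 _ :=
  biproduct.ι_π_self _ i

@[reassoc]
lemma tin_tpr_ne {i j : Fin (Module.finrank E V)} (h : i ≠ j) : tin M V i ≫ tpr M V j = 0 :=
  biproduct.ι_π_ne _ h

lemma tpr_tin_total : ∑ i, tpr M V i ≫ tin M V i = 𝟙 (tens M V) :=
  biproduct.total (f := fun _ : Fin (Module.finrank E V) => M.pt)

lemma tens_ext_tin {N : C} {f g : tens M V ⟶ N} (h : ∀ i, tin M V i ≫ f = tin M V i ≫ g) :
    f = g := by
  rw [← Category.id_comp f, ← Category.id_comp g, ← tpr_tin_total, Preadditive.sum_comp,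
    Preadditive.sum_comp]
  refine Finset.sum_congr rfl fun i _ => ?_
  rw [Category.assoc, Category.assoc, h]

lemma tens_ext_tpr {N : C} {f g : N ⟶ tens M V} (h : ∀ i, f ≫ tpr M V i = g ≫ tpr M V i) :
    f = g := by
  rw [← Category.comp_id f, ← Category.comp_id g, ← tpr_tin_total, Preadditive.comp_sum,
    Preadditive.comp_sum]
  refine Finset.sum_congr rfl fun i _ => ?_
  rw [← Category.assoc, ← Category.assoc, h]

variable {V} [Module.Finite E V]

/-- The morphism `M → M ⊗ V` given by the element `v` of `V`. -/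
noncomputable def tmk (v : V) : M.pt ⟶ tens M V :=
  ∑ i, M.act ((Module.finBasis E V).repr v i) ≫ tin M V i

lemma tmk_add (v w : V) : tmk M (v + w) = tmk M v + tmk M w := by
  unfold tmk
  rw [← Finset.sum_add_distrib]
  refine Finset.sum_congr rfl fun i _ => ?_
  rw [map_add, Finsupp.add_apply, ModObj.act_add, Preadditive.add_comp]

@[reassoc]
lemma tmk_smul (e : E) (v : V) : tmk M (e • v) = M.act e ≫ tmk M v := by
  unfold tmk
  rw [Preadditive.comp_sum]
  refine Finset.sum_congr rfl fun i _ => ?_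
  rw [map_smul, Finsupp.smul_apply, smul_eq_mul, ModObj.act_mul, Category.assoc]

lemma tmk_zero : tmk M (0 : V) = 0 := by
  have := tmk_add M (0 : V) 0
  rw [add_zero] at this
  exact left_eq_add.1 this

lemma tmk_basis (i : Fin (Module.finrank E V)) :
    tmk M (Module.finBasis E V i) = tin M V i := by
  unfold tmk
  rw [Finset.sum_eq_single i]
  · simp
  · intro j _ hj
    rw [Module.Basis.repr_self, Finsupp.single_eq_of_ne hj, ModObj.act_zero, zero_comp]
  · simp

lemma tens_ext {N : C} {f g : tens M V ⟶ N} (h : ∀ v, tmk M v ≫ f = tmk M v ≫ g) : f = g := by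
  refine tens_ext_tin M V fun i => ?_
  rw [← tmk_basis]
  exact h _

/-- The morphism `M ⊗ V → N` given by a map `V → Hom(M, N)`. -/
noncomputable def tdesc {N : C} (φ : V →+ (M.pt ⟶ N)) : tens M V ⟶ N :=
  ∑ i, tpr M V i ≫ φ (Module.finBasis E V i)

@[reassoc]
lemma tin_tdesc {N : C} (φ : V →+ (M.pt ⟶ N)) (i : Fin (Module.finrank E V)) :
    tin M V i ≫ tdesc M φ = φ (Module.finBasis E V i) := by
  unfold tdesc
  rw [Preadditive.comp_sum, Finset.sum_eq_single i]
  · rw [tin_tpr_self_assoc]
  · intro j _ hj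
    rw [tin_tpr_ne_assoc M V hj.symm, zero_comp]
  · simp

@[reassoc]
lemma tmk_tdesc {N : C} (φ : V →+ (M.pt ⟶ N)) (h : ∀ (e : E) (v : V), φ (e • v) = M.act e ≫ φ v)
    (v : V) : tmk M v ≫ tdesc M φ = φ v := by
  conv_rhs => rw [← (Module.finBasis E V).sum_repr v]
  unfold tmk
  rw [Preadditive.sum_comp, map_sum]
  refine Finset.sum_congr rfl fun i _ => ?_
  rw [h, Category.assoc, tin_tdesc]

/-- a `k`-linear map of `tmk` -/
lemma tmk_algebraMap (r : k) (v : V) : tmk M (algebraMap k E r • v) = r • tmk M v := by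
  rw [tmk_smul, ModObj.act_algebraMap, Linear.smul_comp, Category.id_comp]

end obj

section map

variable (M : ModObj k E C) {V : Type w} [AddCommGroup V] [Module E V] [Module.Finite E V]
  {W : Type w} [AddCommGroup W] [Module E W] [Module.Finite E W]
  {U : Type w} [AddCommGroup U] [Module E U] [Module.Finite E U]

/-- functoriality in the vector space -/
noncomputable def tmap (g : V →ₗ[E] W) : tens M V ⟶ tens M W :=
  tdesc M
    { toFun := fun v => tmk M (g v)
      map_zero' := by rw [map_zero, tmk_zero]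
      map_add' := fun v w => by rw [map_add, tmk_add] }

@[reassoc (attr := simp)]
lemma tmk_tmap (g : V →ₗ[E] W) (v : V) : tmk M v ≫ tmap M g = tmk M (g v) :=
  tmk_tdesc M _ (fun e v => by
    change tmk M (g (e • v)) = M.act e ≫ tmk M (g v)
    rw [map_smul, tmk_smul]) v

@[simp]
lemma tmap_id : tmap M (LinearMap.id : V →ₗ[E] V) = 𝟙 _ :=
  tens_ext M fun v => by simp

lemma tmap_comp (g : V →ₗ[E] W) (g' : W →ₗ[E] U) :
    tmap M (g'.comp g) = tmap M g ≫ tmap M g' :=
  tens_ext M fun v => by simp

lemma tmap_add (g g' : V →ₗ[E] W) : tmap M (g + g') = tmap M g + tmap M g' :=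
  tens_ext M fun v => by
    rw [Preadditive.comp_add, tmk_tmap, tmk_tmap, tmk_tmap, LinearMap.add_apply, tmk_add]

lemma tmap_algebraMap_smul (r : k) (g : V →ₗ[E] W) :
    tmap M (algebraMap k E r • g) = r • tmap M g :=
  tens_ext M fun v => by
    rw [Linear.comp_smul, tmk_tmap, tmk_tmap, LinearMap.smul_apply, tmk_algebraMap]

lemma tmap_zero : tmap M (0 : V →ₗ[E] W) = 0 :=
  tens_ext M fun v => by
    rw [tmk_tmap, LinearMap.zero_apply, tmk_zero, comp_zero]

end map

section mapL

variable {M N L : ModObj k E C} (V : Type w) [AddCommGroup V] [Module E V] [Module.Finite E V]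
  {W : Type w} [AddCommGroup W] [Module E W] [Module.Finite E W]

/-- functoriality in the module object -/
noncomputable def tmapL (f : M ⟶ N) : tens M V ⟶ tens N V :=
  tdesc M
    { toFun := fun v => ModObj.homPt f ≫ tmk N v
      map_zero' := by rw [tmk_zero, comp_zero]
      map_add' := fun v w => by rw [tmk_add, Preadditive.comp_add] }

variable {V}

@[reassoc (attr := simp)]
lemma tmk_tmapL (f : M ⟶ N) (v : V) : tmk M v ≫ tmapL V f = ModObj.homPt f ≫ tmk N v :=
  tmk_tdesc M _ (fun e v => by
    change ModObj.homPt f ≫ tmk N (e • v) = M.act e ≫ ModObj.homPt f ≫ tmk N v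
    rw [tmk_smul, ModObj.act_homPt_assoc]) v

variable (V) in
@[simp]
lemma tmapL_id : tmapL V (𝟙 M) = 𝟙 _ :=
  tens_ext M fun v => by
    rw [tmk_tmapL, Category.comp_id]
    exact Category.id_comp _

variable (V) in
lemma tmapL_comp (f : M ⟶ N) (g : N ⟶ L) : tmapL V (f ≫ g) = tmapL V f ≫ tmapL V g :=
  tens_ext M fun v => by
    rw [tmk_tmapL, tmk_tmapL_assoc, tmk_tmapL]
    exact Category.assoc _ _ _

variable (V) in
lemma tmapL_add (f g : M ⟶ N) : tmapL V (f + g) = tmapL V f + tmapL V g :=
  tens_ext M fun v => by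
    rw [Preadditive.comp_add, tmk_tmapL, tmk_tmapL, tmk_tmapL]
    exact Preadditive.add_comp _ _ _ _ _ _

variable (V) in
lemma tmapL_smul (r : k) (f : M ⟶ N) : tmapL V (r • f) = r • tmapL V f :=
  tens_ext M fun v => by
    rw [Linear.comp_smul, tmk_tmapL, tmk_tmapL]
    exact Linear.smul_comp _ _ _ _ _ _

@[reassoc]
lemma tmap_tmapL (f : M ⟶ N) (g : V →ₗ[E] W) :
    tmap M g ≫ tmapL W f = tmapL V f ≫ tmap N g :=
  tens_ext M fun v => by
    rw [tmk_tmap_assoc, tmk_tmapL, tmk_tmapL_assoc, tmk_tmap]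

@[reassoc]
lemma tin_tmapL (f : M ⟶ N) (i : Fin (Module.finrank E V)) :
    tin M V i ≫ tmapL V f = ModObj.homPt f ≫ tin N V i := by
  rw [← tmk_basis, tmk_tmapL, tmk_basis]

@[reassoc]
lemma tmapL_tpr (f : M ⟶ N) (i : Fin (Module.finrank E V)) :
    tmapL V f ≫ tpr N V i = tpr M V i ≫ ModObj.homPt f := by
  refine tens_ext_tin M V fun j => ?_
  rw [tin_tmapL_assoc]
  by_cases h : j = i
  · subst h
    rw [tin_tpr_self, tin_tpr_self_assoc, Category.comp_id]
  · rw [tin_tpr_ne _ _ h, tin_tpr_ne_assoc _ _ h, comp_zero, zero_comp]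

variable (k E C V) in
/-- The functor `M ↦ M ⊗ V`. -/
noncomputable def tensL : ModObj k E C ⥤ C where
  obj M := tens M V
  map f := tmapL V f
  map_id _ := tmapL_id V
  map_comp f g := tmapL_comp V f g

instance : (tensL k E C V).Additive where
  map_add {_ _ f g} := tmapL_add V f g

instance : (tensL k E C V).Linear k where
  map_smul f r := tmapL_smul V r f

lemma tensL_map (f : M ⟶ N) : (tensL k E C V).map f = tmapL V f := rfl

lemma tensL_shortExact {S : ShortComplex (ModObj k E C)} (hS : S.ShortExact) :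
    (S.map (tensL k E C V)).ShortExact := by
  have h := (shortExact_iff S).1 hS (SingleObj.star E)
  have h1 : Mono (ModObj.homPt S.f) := h.mono_f
  have h2 : Epi (ModObj.homPt S.g) := h.epi_g
  have i1 : Mono (tmapL V S.f) := by
    refine ⟨fun {Z} x y hxy => tens_ext_tpr _ _ fun i => ?_⟩
    rw [← cancel_mono (ModObj.homPt S.f), Category.assoc, Category.assoc, ← tmapL_tpr,
      ← Category.assoc, ← Category.assoc, hxy]
  have i2 : Epi (tmapL V S.g) := by
    refine ⟨fun {Z} x y hxy => tens_ext_tin _ _ fun i => ?_⟩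
    rw [← cancel_epi (ModObj.homPt S.g), ← Category.assoc, ← Category.assoc, ← tin_tmapL,
      Category.assoc, Category.assoc, hxy]
  have hm : Mono (S.map (tensL k E C V)).f := i1
  have he : Epi (S.map (tensL k E C V)).g := i2
  refine { exact := ShortComplex.exact_of_f_is_kernel _ ?_ }
  have key : ∀ {Z : C} (x : Z ⟶ tens S.X₂ V) (_ : x ≫ tmapL V S.g = 0),
      ∃ y : Z ⟶ tens S.X₁ V, y ≫ tmapL V S.f = x := by
    intro Z x hx
    have hi : ∀ i, ∃ y : Z ⟶ S.X₁.pt, y ≫ ModObj.homPt S.f = x ≫ tpr _ _ i := by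
      intro i
      have h0 : (x ≫ tpr S.X₂ V i) ≫ ModObj.homPt S.g = 0 := by
        rw [Category.assoc, ← tmapL_tpr, ← Category.assoc, hx, zero_comp]
      exact ⟨h.fIsKernel.lift (KernelFork.ofι (x ≫ tpr S.X₂ V i) h0),
        h.fIsKernel.fac _ WalkingParallelPair.zero⟩
    choose y hy using hi
    refine ⟨∑ i, y i ≫ tin _ _ i, ?_⟩
    refine tens_ext_tpr _ _ fun i => ?_
    rw [Preadditive.sum_comp, Preadditive.sum_comp, Finset.sum_eq_single i]
    · rw [Category.assoc, Category.assoc, tmapL_tpr, tin_tpr_self_assoc, hy]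
    · intro j _ hj
      rw [Category.assoc, Category.assoc, tmapL_tpr, tin_tpr_ne_assoc _ _ hj, zero_comp,
        comp_zero]
    · simp
  exact KernelFork.IsLimit.ofι' _ _ fun {Z} x hx => ⟨(key x hx).choose, (key x hx).choose_spec⟩

lemma tensL_exact : PreservesFiniteLimits (tensL k E C V) ∧
    PreservesFiniteColimits (tensL k E C V) :=
  ((tensL k E C V).exact_tfae.out 0 3).1 fun _ hS => tensL_shortExact hS

instance : PreservesFiniteLimits (tensL k E C V) := tensL_exact.1

instance : PreservesFiniteColimits (tensL k E C V) := tensL_exact.2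

end mapL

end tens

end Orl.LF
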