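import Pool.Agent.Work.MP_a6e60d_ag.LF.Dev

/-!
# Iterated cones of single complexes
-/

open CategoryTheory Limits Pretriangulated

attribute [-instance] CategoryTheory.catToReflQuiver

namespace Orl.LF

universe t w v u

variable {A : Type u} [Category.{v} A] [Abelian A]

/-- The complexes obtained from the complexes with one nonzero term, an object with property `B`,
by shifts and mapping cones. -/
inductive Tw (B : ObjectProperty A) : CochainComplex A ℤ → Prop
  | single (n : ℤ) (X : A) (h : B X) : Tw B ((CochainComplex.singleFunctor A n).obj X)
  | shift (K : CochainComplex A ℤ) (n : ℤ) : Tw B K → Tw B (K⟦n⟧)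
  | cone {K L : CochainComplex A ℤ} (f : K ⟶ L) : Tw B K → Tw B L →
      Tw B (CochainComplex.mappingCone f)

end Orl.LF
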