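import Pool.Agent.Work.MP_a6e60d_ag.LF.Dev

/-!
# The unit of an adjunction on derived categories

`Ψ ⊣ Φ` with `Φ` exact and `Ψ` additive: the transformation `Q K ⟶ Φ (Q (Ψ K))`, compatible with
shifts.
-/

open CategoryTheory Limits Pretriangulated

attribute [-instance] CategoryTheory.catToReflQuiver

namespace Orl.LF

universe t t' v₀ v₁ v₂ u₀ u₁ u₂

section shift

variable {K : Type u₀} [Category.{v₀} K] [HasShift K ℤ]
  {D₁ : Type u₁} [Category.{v₁} D₁] [HasShift D₁ ℤ]
  {D₂ : Type u₂} [Category.{v₂} D₂] [HasShift D₂ ℤ]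

/-- compatibility with shifts can be checked after precomposition with an essentially surjective
functor -/
lemma commShift_of_whiskerLeft (H : K ⥤ D₁) [H.CommShift ℤ] [H.EssSurj] {F G : D₁ ⥤ D₂}
    [F.CommShift ℤ] [G.CommShift ℤ] (τ : F ⟶ G)
    [h : NatTrans.CommShift (Functor.whiskerLeft H τ) ℤ] : NatTrans.CommShift τ ℤ where
  shift_comm a := by
    ext Y
    have key : ∀ X : K, (F.commShiftIso a).hom.app (H.obj X) ≫ (τ.app (H.obj X))⟦a⟧' =
        τ.app ((H.obj X)⟦a⟧) ≫ (G.commShiftIso a).hom.app (H.obj X) := by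
      intro X
      have h1 := NatTrans.shift_app_comm (Functor.whiskerLeft H τ) a X
      rw [Functor.commShiftIso_comp_hom_app, Functor.commShiftIso_comp_hom_app,
        Functor.whiskerLeft_app, Functor.whiskerLeft_app] at h1
      have h2 : τ.app (H.obj (X⟦a⟧)) ≫ G.map ((H.commShiftIso a).hom.app X) =
          F.map ((H.commShiftIso a).hom.app X) ≫ τ.app ((H.obj X)⟦a⟧) :=
        (τ.naturality _).symm
      rw [← Category.assoc (τ.app _), h2, Category.assoc, Category.assoc, cancel_epi] at h1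
      exact h1
    obtain ⟨X, ⟨e⟩⟩ : ∃ X, Nonempty (H.obj X ≅ Y) := ⟨_, ⟨H.objObjPreimageIso Y⟩⟩
    have e1 : Epi ((F.map (e.hom⟦a⟧'))) := inferInstance
    rw [← cancel_epi (F.map (e.hom⟦a⟧'))]
    have n1 : F.map (e.hom⟦a⟧') ≫ (F.commShiftIso a).hom.app Y =
      (F.commShiftIso a).hom.app (H.obj X) ≫ (F.map e.hom)⟦a⟧' :=
        (F.commShiftIso a).hom.naturality e.hom
    have n2 : G.map (e.hom⟦a⟧') ≫ (G.commShiftIso a).hom.app Y =
      (G.commShiftIso a).hom.app (H.obj X) ≫ (G.map e.hom)⟦a⟧' :=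
        (G.commShiftIso a).hom.naturality e.hom
    change F.map (e.hom⟦a⟧') ≫ (F.commShiftIso a).hom.app Y ≫ (τ.app Y)⟦a⟧' =
      F.map (e.hom⟦a⟧') ≫ τ.app (Y⟦a⟧) ≫ (G.commShiftIso a).hom.app Y
    rw [← Category.assoc, n1, Category.assoc, ← Functor.map_comp, τ.naturality, Functor.map_comp,
      ← Category.assoc, key, Category.assoc, ← n2, ← Category.assoc, ← Category.assoc,
      τ.naturality]

variable {A₁ : K ⥤ D₁} [A₁.CommShift ℤ] {A₂ : K ⥤ D₂} [A₂.CommShift ℤ] {Φ : D₁ ⥤ D₂}
  [Φ.CommShift ℤ] (u : A₂ ⟶ A₁ ⋙ Φ) [NatTrans.CommShift u ℤ]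

/-- The comparison maps are compatible with shifts. -/
lemma cmp_shift_bij (X : K) (c : D₁) (n : ℤ) :
    Function.Bijective (cmp A₁ A₂ Φ u (c⟦n⟧) (X⟦n⟧)) ↔
      Function.Bijective (cmp A₁ A₂ Φ u c X) := by
  let p : (A₁.obj X ⟶ c) → (A₁.obj (X⟦n⟧) ⟶ c⟦n⟧) := fun g =>
    (A₁.commShiftIso n).hom.app X ≫ g⟦n⟧'
  let q : (A₂.obj X ⟶ Φ.obj c) → (A₂.obj (X⟦n⟧) ⟶ Φ.obj (c⟦n⟧)) := fun y =>
    (A₂.commShiftIso n).hom.app X ≫ y⟦n⟧' ≫ (Φ.commShiftIso n).inv.app c
  have hp : Function.Bijective p := by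
    constructor
    · intro g g' h
      exact (shiftFunctor D₁ n).map_injective ((cancel_epi ((A₁.commShiftIso n).hom.app X)).1 h)
    · intro y
      obtain ⟨g, hg⟩ := (shiftFunctor D₁ n).map_surjective
        ((A₁.commShiftIso n).inv.app X ≫ y)
      refine ⟨g, ?_⟩
      change (A₁.commShiftIso n).hom.app X ≫ g⟦n⟧' = y
      rw [hg, Iso.hom_inv_id_app_assoc]
  have hq : Function.Bijective q := by
    constructor
    · intro g g' h
      have h1 := (cancel_epi ((A₂.commShiftIso n).hom.app X)).1 h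
      exact (shiftFunctor D₂ n).map_injective ((cancel_mono ((Φ.commShiftIso n).inv.app c)).1 h1)
    · intro y
      obtain ⟨g, hg⟩ := (shiftFunctor D₂ n).map_surjective
        ((A₂.commShiftIso n).inv.app X ≫ y ≫ (Φ.commShiftIso n).hom.app c)
      refine ⟨g, ?_⟩
      change (A₂.commShiftIso n).hom.app X ≫ g⟦n⟧' ≫ (Φ.commShiftIso n).inv.app c = y
      rw [hg, Category.assoc, Category.assoc, Iso.hom_inv_id_app_assoc, Iso.hom_inv_id_app]
      exact Category.comp_id y
  have hpq : cmp A₁ A₂ Φ u (c⟦n⟧) (X⟦n⟧) ∘ p = q ∘ cmp A₁ A₂ Φ u c X := by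
    funext g
    have h1 := NatTrans.shift_app_comm u n X
    rw [Functor.commShiftIso_comp_hom_app] at h1
    have h2 : (Φ.commShiftIso n).hom.app (A₁.obj X) ≫ (Φ.map g)⟦n⟧' =
        Φ.map (g⟦n⟧') ≫ (Φ.commShiftIso n).hom.app c :=
      ((Φ.commShiftIso n).hom.naturality g).symm
    change u.app (X⟦n⟧) ≫ Φ.map ((A₁.commShiftIso n).hom.app X ≫ g⟦n⟧') =
      (A₂.commShiftIso n).hom.app X ≫ (u.app X ≫ Φ.map g)⟦n⟧' ≫ (Φ.commShiftIso n).inv.app c
    rw [← cancel_mono ((Φ.commShiftIso n).hom.app c)]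
    simp only [Category.assoc, Iso.inv_hom_id_app]
    rw [Functor.map_comp, Functor.map_comp, Category.assoc, ← h2]
    have h3 := congrArg (· ≫ (Φ.map g)⟦n⟧') h1
    simp only [Category.assoc] at h3
    rw [← h3]
    congr 1
    exact (Category.comp_id _).symm
  rw [← hp.of_comp_iff (cmp A₁ A₂ Φ u (c⟦n⟧) (X⟦n⟧)), hpq, hq.of_comp_iff']

end shift

section unit

variable {C : Type u₁} [Category.{v₁} C] [Abelian C] {A : Type u₂} [Category.{v₂} A] [Abelian A]
  {Ψ : A ⥤ C} {Φ : C ⥤ A} [Ψ.Additive] [Φ.Additive] (adj : Ψ ⊣ Φ)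

/-- the unit on complexes -/
@[simps]
def cxUnit : 𝟭 (CochainComplex A ℤ) ⟶
    Ψ.mapHomologicalComplex (ComplexShape.up ℤ) ⋙ Φ.mapHomologicalComplex (ComplexShape.up ℤ) where
  app K :=
    { f := fun i => adj.unit.app (K.X i)
      comm' := fun i j _ => (adj.unit.naturality (K.d i j)).symm }
  naturality K L f := by
    ext i
    exact adj.unit.naturality (f.f i)

instance : NatTrans.CommShift (cxUnit adj) ℤ where
  shift_comm a := by
    ext K i
    rw [NatTrans.comp_app, NatTrans.comp_app, Functor.commShiftIso_comp_hom_app]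
    dsimp
    simp only [Functor.commShiftIso_id_hom_app, HomologicalComplex.id_f,
      CochainComplex.shiftFunctor_obj_X', cxUnit_app_f, Functor.mapHomologicalComplex_map_f,
      Functor.mapHomologicalComplex_commShiftIso_hom_app_f, Functor.comp_obj]
    exact (Category.id_comp (adj.unit.app (K.X (i + a)))).trans
      (((congrArg (adj.unit.app (K.X (i + a)) ≫ ·) ((Category.comp_id _).trans (Φ.map_id _))).trans
        (Category.comp_id (adj.unit.app (K.X (i + a))))).symm)

/-- the unit on homotopy categories -/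
def hUnit : 𝟭 (HomotopyCategory A (ComplexShape.up ℤ)) ⟶
    Ψ.mapHomotopyCategory (ComplexShape.up ℤ) ⋙ Φ.mapHomotopyCategory (ComplexShape.up ℤ) :=
  Quotient.natTransLift _ (Functor.whiskerRight (cxUnit adj)
    (HomotopyCategory.quotient A (ComplexShape.up ℤ)))

lemma hUnit_app (K : CochainComplex A ℤ) :
    (hUnit adj).app ((HomotopyCategory.quotient A (ComplexShape.up ℤ)).obj K) =
      (HomotopyCategory.quotient A (ComplexShape.up ℤ)).map ((cxUnit adj).app K) := rfl

instance : NatTrans.CommShift (hUnit adj) ℤ := by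
  have : NatTrans.CommShift (Functor.whiskerLeft (HomotopyCategory.quotient A (ComplexShape.up ℤ))
      (hUnit adj)) ℤ := by
    have h : Functor.whiskerLeft (HomotopyCategory.quotient A (ComplexShape.up ℤ))
      (hUnit adj) = (Functor.rightUnitor _).hom ≫ (Functor.leftUnitor _).inv ≫
        Functor.whiskerRight (cxUnit adj) (HomotopyCategory.quotient A (ComplexShape.up ℤ)) ≫
        (Functor.associator _ _ _).hom ≫ Functor.whiskerLeft _
          (Φ.mapHomotopyCategoryFactors (ComplexShape.up ℤ)).inv ≫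
        (Functor.associator _ _ _).inv ≫ Functor.whiskerRight
          (Ψ.mapHomotopyCategoryFactors (ComplexShape.up ℤ)).inv _ ≫
        (Functor.associator _ _ _).hom := by
      ext K
      simp only [Functor.whiskerLeft_app, NatTrans.comp_app, Functor.rightUnitor_hom_app,
        Functor.leftUnitor_inv_app, Functor.whiskerRight_app, Functor.associator_hom_app,
        Functor.associator_inv_app]
      refine (hUnit_app adj K).trans ?_
      refine Eq.symm ((Category.id_comp _).trans ((Category.id_comp _).trans ?_))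
      refine (congrArg _ ((Category.id_comp _).trans ((Category.id_comp _).trans
        ((Category.id_comp _).trans (Category.comp_id _))))).trans ?_
      refine (congrArg _ (CategoryTheory.Functor.map_id
        (Φ.mapHomotopyCategory (ComplexShape.up ℤ)) _)).trans (Category.comp_id _)
    rw [h]
    infer_instance
  exact commShift_of_whiskerLeft (HomotopyCategory.quotient A (ComplexShape.up ℤ)) (hUnit adj)

variable [HasDerivedCategory.{t} C] [HasDerivedCategory.{t'} A]
  [PreservesFiniteLimits Φ] [PreservesFiniteColimits Φ]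

open DerivedCategory

variable (Ψ) in
/-- `K ↦ Q (Ψ K)` -/
noncomputable abbrev lam₁ : HomotopyCategory A (ComplexShape.up ℤ) ⥤ DerivedCategory C :=
  Ψ.mapHomotopyCategory (ComplexShape.up ℤ) ⋙ Qh

/-- **The derived unit** `Q K ⟶ Φ (Q (Ψ K))` -/
noncomputable def dUnit : (Qh : HomotopyCategory A (ComplexShape.up ℤ) ⥤ DerivedCategory A) ⟶
    lam₁ Ψ ⋙ Φ.mapDerivedCategory :=
  (Functor.leftUnitor _).inv ≫ Functor.whiskerRight (hUnit adj) Qh ≫ (Functor.associator _ _ _).hom ≫
    Functor.whiskerLeft _ Φ.mapDerivedCategoryFactorsh.inv ≫ (Functor.associator _ _ _).inv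

instance : NatTrans.CommShift (dUnit adj) ℤ := by
  unfold dUnit
  infer_instance

omit [HasDerivedCategory.{t} C] in
lemma quotientCompQhIso_hom_app_eq (L : CochainComplex A ℤ) :
    (quotientCompQhIso A).hom.app L = 𝟙 (Q.obj L) := rfl

omit [HasDerivedCategory.{t} C] in
lemma quotientCompQhIso_inv_app_eq (L : CochainComplex A ℤ) :
    (quotientCompQhIso A).inv.app L = 𝟙 (Q.obj L) := rfl

lemma factorsh_hom (L : CochainComplex C ℤ) :
    Φ.mapDerivedCategoryFactorsh.hom.app
      ((HomotopyCategory.quotient C (ComplexShape.up ℤ)).obj L) =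
      Φ.mapDerivedCategoryFactors.hom.app L := by
  refine (Φ.mapDerivedCategoryFactorsh_hom_app L).trans ?_
  have h1 : Φ.mapDerivedCategory.map ((quotientCompQhIso C).hom.app L) = 𝟙 _ :=
    Φ.mapDerivedCategory.map_id _
  have h2 : Qh.map ((Φ.mapHomotopyCategoryFactors (ComplexShape.up ℤ)).inv.app L) = 𝟙 _ :=
    CategoryTheory.Functor.map_id (Qh (C := A)) _
  refine (congrArg (· ≫ _) h1).trans ((Category.id_comp _).trans ?_)
  refine (congrArg (_ ≫ ·) ((Category.id_comp _).trans h2)).trans (Category.comp_id _)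

lemma factorsh_inv (L : CochainComplex C ℤ) :
    Φ.mapDerivedCategoryFactorsh.inv.app
      ((HomotopyCategory.quotient C (ComplexShape.up ℤ)).obj L) =
      Φ.mapDerivedCategoryFactors.inv.app L :=
  congrArg Iso.inv (Iso.ext (α := Φ.mapDerivedCategoryFactorsh.app
      ((HomotopyCategory.quotient C (ComplexShape.up ℤ)).obj L))
      (β := Φ.mapDerivedCategoryFactors.app L) (factorsh_hom L))

/-- the derived unit on a complex, in terms of `Q` -/
lemma dUnit_app (K : CochainComplex A ℤ) :
    (dUnit adj).app ((HomotopyCategory.quotient A (ComplexShape.up ℤ)).obj K) =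
      (Q.map ((cxUnit adj).app K) : Q.obj K ⟶ _) ≫
        Φ.mapDerivedCategoryFactors.inv.app
          ((Ψ.mapHomologicalComplex (ComplexShape.up ℤ)).obj K) := by
  unfold dUnit
  simp only [NatTrans.comp_app, Functor.leftUnitor_inv_app, Functor.whiskerRight_app,
    Functor.associator_hom_app, Functor.whiskerLeft_app, Functor.associator_inv_app]
  refine (Category.id_comp _).trans ?_
  refine (congrArg (_ ≫ ·) ((Category.id_comp _).trans (Category.comp_id _))).trans ?_
  exact congrArg (_ ≫ ·) (factorsh_inv _)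

omit [HasDerivedCategory.{t} C] [HasDerivedCategory.{t'} A] [PreservesFiniteLimits Φ]
  [PreservesFiniteColimits Φ] [Ψ.Additive] [Φ.Additive] in
lemma unit_aux {X' X : A} (σ : X' ⟶ X) {T : C} (τ : T ≅ Ψ.obj X) {R : A}
    (ρ : Φ.obj (Ψ.obj X) ⟶ R) :
    adj.unit.app X' ≫ Φ.map (Ψ.map σ ≫ τ.inv) ≫ Φ.map τ.hom ≫ ρ = σ ≫ adj.unit.app X ≫ ρ := by
  have h : σ ≫ adj.unit.app X = adj.unit.app X' ≫ Φ.map (Ψ.map σ) := adj.unit.naturality σ
  rw [← Functor.map_comp_assoc, Category.assoc, Iso.inv_hom_id, Category.comp_id,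
    ← Category.assoc, ← h, Category.assoc]

omit [HasDerivedCategory.{t} C] [HasDerivedCategory.{t'} A] [PreservesFiniteLimits Φ]
  [PreservesFiniteColimits Φ] in
/-- the complex level statement for complexes with one term -/
lemma cxUnit_single (X : A) :
    (cxUnit adj).app ((HomologicalComplex.single A (ComplexShape.up ℤ) 0).obj X) ≫
      (Φ.mapHomologicalComplex (ComplexShape.up ℤ)).map
        ((HomologicalComplex.singleMapHomologicalComplex Ψ (ComplexShape.up ℤ) 0).hom.app X) ≫
      (HomologicalComplex.singleMapHomologicalComplex Φ (ComplexShape.up ℤ) 0).hom.app (Ψ.obj X) =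
    (HomologicalComplex.single A (ComplexShape.up ℤ) 0).map (adj.unit.app X) := by
  apply HomologicalComplex.to_single_hom_ext
  rw [HomologicalComplex.single_map_f_self]
  simp only [HomologicalComplex.comp_f, cxUnit_app_f, Functor.mapHomologicalComplex_map_f,
    HomologicalComplex.singleMapHomologicalComplex_hom_app_self]
  exact unit_aux adj _ (HomologicalComplex.singleObjXSelf (ComplexShape.up ℤ) 0 (Ψ.obj X)) _

lemma dUnit_single (X : A) :
    (dUnit adj).app ((HomotopyCategory.quotient A (ComplexShape.up ℤ)).obj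
      ((HomologicalComplex.single A (ComplexShape.up ℤ) 0).obj X)) ≫ Φ.mapDerivedCategory.map
        (Q.map ((HomologicalComplex.singleMapHomologicalComplex Ψ
          (ComplexShape.up ℤ) 0).hom.app X)) =
      (singleFunctor A 0).map (adj.unit.app X) ≫
        (Φ.mapDerivedCategorySingleFunctor 0).inv.app (Ψ.obj X) := by
  refine (Iso.eq_comp_inv ((Φ.mapDerivedCategorySingleFunctor 0).app (Ψ.obj X))).2 ?_
  have h1 := Functor.mapDerivedCategoryFactors_inv_app_mapDerivedCategorySingleFunctor_hom_app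
    Φ (Ψ.obj X)
  have h2 := Φ.mapDerivedCategoryFactors.inv.naturality
    ((HomologicalComplex.singleMapHomologicalComplex Ψ (ComplexShape.up ℤ) 0).hom.app X)
  have h3 := congrArg (Q (C := A)).map (cxUnit_single adj X)
  rw [Functor.map_comp, Functor.map_comp] at h3
  refine Eq.trans ?_ h3
  refine (Category.assoc _ _ _).trans ?_
  refine (congrArg (· ≫ _) (dUnit_app adj _)).trans ?_
  refine (Category.assoc _ _ _).trans (congrArg (_ ≫ ·) ?_)
  refine (Category.assoc _ _ _).symm.trans ?_
  refine (congrArg (· ≫ _) h2.symm).trans ?_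
  exact (Category.assoc _ _ _).trans (congrArg (_ ≫ ·) h1)

end unit

end Orl.LF
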